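import Pool.Agent.Lib.MP_dd244f_an.Joint.Stmts
import Pool.Agent.Lib.MP_dd244f_an.L2

/-!
Full operator, joint limit: duality from `q` to `p` (module Dual).
-/

set_option autoImplicit false

namespace Pool.Agent.Lib.MP_dd244f_an.Joint

open MeasureTheory Filter Topology Set FourierTransform SchwartzMap
open scoped SchwartzMap ENNReal ContDiff Convolution

namespace DualAux

/-! ### Symmetry -/

theorem Tn_fun (n : ℕ) (f : 𝓢(ℂ, ℂ)) :
    Tn n f = 𝓕⁻ (fun ξ : ℂ => (starRingEnd ℂ ξ / ξ) ^ n * 𝓕 (f : ℂ → ℂ) ξ) := by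
  ext z
  exact Tn_eq n f z

theorem Tn_continuous (n : ℕ) (f : 𝓢(ℂ, ℂ)) : Continuous (Tn n f) := by
  rw [Tn_fun]
  set g : ℂ → ℂ := fun ξ : ℂ => (starRingEnd ℂ ξ / ξ) ^ n * 𝓕 (f : ℂ → ℂ) ξ with hg
  have : 𝓕⁻ g = fun w => 𝓕 g (-w) := by
    ext w
    rw [Real.fourierInv_eq_fourier_neg]
  rw [this]
  have hc : Continuous (𝓕 g) :=
    VectorFourier.fourierIntegral_continuous Real.continuous_fourierChar
      (by exact continuous_inner) (mult_integrable n f)
  exact hc.comp continuous_neg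

theorem Tn_bounded (n : ℕ) (f : 𝓢(ℂ, ℂ)) : ∃ M : ℝ, 0 ≤ M ∧ ∀ z, ‖Tn n f z‖ ≤ M := by
  refine ⟨∫ ξ : ℂ, ‖(starRingEnd ℂ ξ / ξ) ^ n * 𝓕 (f : ℂ → ℂ) ξ‖,
    integral_nonneg fun _ => norm_nonneg _, fun z => ?_⟩
  rw [Tn_fun, Real.fourierInv_eq]
  refine (norm_integral_le_integral_norm _).trans (le_of_eq ?_)
  refine integral_congr_ae (Eventually.of_forall fun ξ => ?_)
  simp only [Circle.norm_smul]

theorem Tn_symm (n : ℕ) (f g : 𝓢(ℂ, ℂ)) : ∫ z, Tn n f z * g z = ∫ z, f z * Tn n g z := by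
  rw [Tn_fun, Tn_fun, integral_fourierInv_mul (mult_integrable n f) g.integrable]
  have h1 : ∫ z, (f : ℂ → ℂ) z *
      𝓕⁻ (fun ξ : ℂ => (starRingEnd ℂ ξ / ξ) ^ n * 𝓕 (g : ℂ → ℂ) ξ) z =
      ∫ z, 𝓕⁻ (fun ξ : ℂ => (starRingEnd ℂ ξ / ξ) ^ n * 𝓕 (g : ℂ → ℂ) ξ) z * (f : ℂ → ℂ) z :=
    integral_congr_ae (Eventually.of_forall fun z => mul_comm _ _)
  rw [h1, integral_fourierInv_mul (mult_integrable n g) f.integrable, ← integral_neg_eq_self]
  refine integral_congr_ae (Eventually.of_forall fun ξ => ?_)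
  simp only
  rw [Real.fourierInv_eq_fourier_neg, Real.fourierInv_eq_fourier_neg, neg_neg, map_neg,
    neg_div_neg_eq]
  ring

/-! ### The pairing with test functions -/

/-- the `L^r` norm as an integral -/
noncomputable def N (r : ℝ) (h : ℂ → ℂ) : ℝ≥0∞ := (∫⁻ w, ‖h w‖ₑ ^ r) ^ (1 / r)

theorem N_eq {r : ℝ} (hr : 0 < r) (h : ℂ → ℂ) : eLpNorm h (ENNReal.ofReal r) volume = N r h := by
  rw [eLpNorm_eq_lintegral_rpow_enorm_toReal (by simpa using hr) ENNReal.ofReal_ne_top,
    ENNReal.toReal_ofReal hr.le, N]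

theorem N_ne_top {r : ℝ} (hr : 1 ≤ r) (f : 𝓢(ℂ, ℂ)) : N r f ≠ ⊤ := by
  rw [← N_eq (by linarith)]
  have : Fact (1 ≤ ENNReal.ofReal r) := ⟨by
    rw [← ENNReal.ofReal_one]
    exact ENNReal.ofReal_le_ofReal hr⟩
  exact (f.memLp (ENNReal.ofReal r)).eLpNorm_ne_top

/-- the hypothesis -/
def Hyp (n : ℕ) (q C : ℝ) : Prop := ∀ f : 𝓢(ℂ, ℂ), HasCompactSupport f →
    ∫⁻ w, ‖Tn n f w‖ₑ ^ q ≤ ENNReal.ofReal (C ^ q) * ∫⁻ w, ‖f w‖ₑ ^ q

theorem pair_schwartz {n : ℕ} {p q C : ℝ} (hpq : p.HolderConjugate q) (hC : 0 ≤ C)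
    (h : Hyp n q C) (f g : 𝓢(ℂ, ℂ)) (hg : HasCompactSupport g) :
    ‖∫ z, Tn n f z * g z‖ₑ ≤ N p f * (ENNReal.ofReal C * N q g) := by
  have hq : 0 < q := hpq.symm.pos
  rw [Tn_symm]
  refine (enorm_integral_le_lintegral_enorm _).trans ?_
  have h1 : ∫⁻ z, ‖f z * Tn n g z‖ₑ = ∫⁻ z, ((fun z => ‖f z‖ₑ) * fun z => ‖Tn n g z‖ₑ) z := by
    refine lintegral_congr fun z => ?_
    rw [enorm_mul]
    rfl
  rw [h1]
  refine (ENNReal.lintegral_mul_le_Lp_mul_Lq volume hpq
    f.continuous.enorm.aemeasurable (Tn_continuous n g).enorm.aemeasurable).trans ?_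
  refine mul_le_mul_right ?_ _
  have h2 : (∫⁻ z, ‖Tn n g z‖ₑ ^ q) ^ (1 / q) ≤
      (ENNReal.ofReal (C ^ q) * ∫⁻ w, ‖g w‖ₑ ^ q) ^ (1 / q) :=
    ENNReal.rpow_le_rpow (h g hg) (by positivity)
  refine h2.trans (le_of_eq ?_)
  rw [ENNReal.mul_rpow_of_nonneg _ _ (by positivity), N,
    ENNReal.ofReal_rpow_of_nonneg (by positivity) (by positivity), ← Real.rpow_mul hC,
    mul_one_div_cancel hq.ne', Real.rpow_one]

/-- bump functions -/
noncomputable def bmp (k : ℕ) : ContDiffBump (0 : ℂ) where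
  rIn := 1 / (k + 2)
  rOut := 1 / (k + 1)
  rIn_pos := by positivity
  rIn_lt_rOut := one_div_lt_one_div_of_lt (by positivity) (by linarith)

/-- mollification -/
noncomputable def mol (g : ℂ → ℂ) (k : ℕ) : ℂ → ℂ :=
  ((bmp k).normed volume ⋆[ContinuousLinearMap.lsmul ℝ ℝ, volume] g)

theorem mol_smooth {g : ℂ → ℂ} (hg : Continuous g) (k : ℕ) : ContDiff ℝ ∞ (mol g k) :=
  (bmp k).hasCompactSupport_normed.contDiff_convolution_left _ (bmp k).contDiff_normed
    hg.locallyIntegrable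

theorem mol_compact {g : ℂ → ℂ} (hgc : HasCompactSupport g) (k : ℕ) :
    HasCompactSupport (mol g k) :=
  (bmp k).hasCompactSupport_normed.convolution _ hgc

theorem mol_tendsto {g : ℂ → ℂ} (hg : Continuous g) (z : ℂ) :
    Tendsto (fun k => mol g k z) atTop (𝓝 (g z)) := by
  refine ContDiffBump.convolution_tendsto_right_of_continuous ?_ hg z
  exact tendsto_one_div_add_atTop_nhds_zero_nat

theorem mol_bound {g : ℂ → ℂ} (hg : Continuous g) {M : ℝ} (hM : ∀ z, ‖g z‖ ≤ M) (k : ℕ) (z : ℂ) :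
    ‖mol g k z‖ ≤ 3 * M := by
  have h1 : dist (mol g k z) (g z) ≤ 2 * M := by
    refine ContDiffBump.dist_normed_convolution_le hg.aestronglyMeasurable fun x _ => ?_
    rw [dist_eq_norm]
    refine (norm_sub_le _ _).trans ?_
    linarith [hM x, hM z]
  rw [dist_eq_norm] at h1
  have h2 := norm_le_norm_add_norm_sub (g z) (mol g k z)
  rw [norm_sub_rev] at h2
  linarith [hM z]

theorem mol_support {g : ℂ → ℂ} (k : ℕ) {z : ℂ} (hz : z ∉ Metric.cthickening 1 (tsupport g)) :
    mol g k z = 0 := by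
  by_contra h
  have h1 : z ∈ Function.support (mol g k) := h
  have h2 := MeasureTheory.support_convolution_subset_swap _ h1
  obtain ⟨a, ha, b, hb, rfl⟩ := Set.mem_add.1 h2
  apply hz
  refine Metric.mem_cthickening_of_dist_le _ a _ _ (subset_tsupport _ ha) ?_
  rw [dist_eq_norm, add_sub_cancel_left]
  have h3 : b ∈ Metric.ball (0 : ℂ) (bmp k).rOut := by
    rw [← (bmp k).support_normed_eq (μ := volume)]
    exact hb
  rw [mem_ball_zero_iff] at h3
  refine h3.le.trans ?_
  change 1 / ((k : ℝ) + 1) ≤ 1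
  rw [div_le_one (by positivity)]
  linarith [(Nat.cast_nonneg k : (0 : ℝ) ≤ k)]

theorem pair_cont {n : ℕ} {p q C : ℝ} (hpq : p.HolderConjugate q) (hC : 0 ≤ C)
    (h : Hyp n q C) (f : 𝓢(ℂ, ℂ)) {g : ℂ → ℂ} (hg : Continuous g) (hgc : HasCompactSupport g) :
    ‖∫ z, Tn n f z * g z‖ₑ ≤ N p f * (ENNReal.ofReal C * N q g) := by
  have hq : 0 < q := hpq.symm.pos
  obtain ⟨M, hM0, hM⟩ := Tn_bounded n f
  obtain ⟨G, hG⟩ := hg.bounded_above_of_compact_support hgc
  have hG0 : 0 ≤ G := (norm_nonneg _).trans (hG 0)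
  set K : Set ℂ := Metric.cthickening 1 (tsupport g) with hK
  have hKc : IsCompact K := hgc.isCompact.cthickening
  have hKm : MeasurableSet K := hKc.measurableSet
  have hKv : volume K ≠ ⊤ := hKc.measure_lt_top.ne
  have hbd : ∀ k z, ‖mol g k z‖ ≤ K.indicator (fun _ => 3 * G) z := by
    intro k z
    by_cases hz : z ∈ K
    · rw [Set.indicator_of_mem hz]
      exact mol_bound hg hG k z
    · rw [Set.indicator_of_notMem hz, mol_support k hz, norm_zero]
  have hIK : Integrable (K.indicator fun _ => 3 * G) volume :=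
    (integrable_indicator_iff hKm).2 (integrableOn_const hKv)
  -- left-hand side
  have hL : Tendsto (fun k => ‖∫ z, Tn n f z * mol g k z‖ₑ) atTop
      (𝓝 ‖∫ z, Tn n f z * g z‖ₑ) := by
    refine Tendsto.enorm ?_
    refine tendsto_integral_of_dominated_convergence
      (fun z => M * K.indicator (fun _ => 3 * G) z) (fun k => ?_) (hIK.const_mul M) (fun k => ?_) ?_
    · exact ((Tn_continuous n f).mul (mol_smooth hg k).continuous).aestronglyMeasurable
    · refine Eventually.of_forall fun z => ?_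
      rw [norm_mul]
      exact mul_le_mul (hM z) (hbd k z) (norm_nonneg _) hM0
    · exact Eventually.of_forall fun z => (mol_tendsto hg z).const_mul _
  -- right-hand side
  have hR1 : Tendsto (fun k => ∫⁻ z, ‖mol g k z‖ₑ ^ q) atTop (𝓝 (∫⁻ z, ‖g z‖ₑ ^ q)) := by
    refine tendsto_lintegral_of_dominated_convergence
      (fun z => K.indicator (fun _ => ENNReal.ofReal (3 * G) ^ q) z) (fun k => ?_) (fun k => ?_)
      ?_ ?_
    · exact (mol_smooth hg k).continuous.enorm.measurable.pow_const q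
    · refine Eventually.of_forall fun z => ?_
      beta_reduce
      by_cases hz : z ∈ K
      · rw [Set.indicator_of_mem hz]
        refine ENNReal.rpow_le_rpow ?_ hq.le
        rw [← ofReal_norm]
        exact ENNReal.ofReal_le_ofReal (mol_bound hg hG k z)
      · rw [Set.indicator_of_notMem hz, mol_support k hz, enorm_zero, ENNReal.zero_rpow_of_pos hq]
    · rw [lintegral_indicator hKm, setLIntegral_const]
      exact ENNReal.mul_ne_top (ENNReal.rpow_ne_top_of_nonneg hq.le ENNReal.ofReal_ne_top) hKv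
    · refine Eventually.of_forall fun z => ?_
      exact ((ENNReal.continuous_rpow_const (y := q)).tendsto _).comp ((mol_tendsto hg z).enorm)
  have hR : Tendsto (fun k => N p f * (ENNReal.ofReal C * N q (mol g k))) atTop
      (𝓝 (N p f * (ENNReal.ofReal C * N q g))) := by
    refine ENNReal.Tendsto.const_mul (ENNReal.Tendsto.const_mul ?_ (Or.inr ENNReal.ofReal_ne_top))
      (Or.inr (N_ne_top hpq.lt.le f))
    exact ((ENNReal.continuous_rpow_const (y := 1 / q)).tendsto _).comp hR1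
  refine le_of_tendsto_of_tendsto' hL hR fun k => ?_
  exact pair_schwartz hpq hC h f ((mol_compact hgc k).toSchwartzMap (mol_smooth hg k))
    (mol_compact hgc k)

/-! ### Cutoffs -/

/-- continuous cutoffs increasing to one -/
noncomputable def ch (k : ℕ) (z : ℂ) : ℝ := max 0 (min 1 ((k : ℝ) + 1 - ‖z‖))

theorem ch_cont (k : ℕ) : Continuous (ch k) := by unfold ch; fun_prop

theorem ch_nonneg (k : ℕ) (z : ℂ) : 0 ≤ ch k z := le_max_left _ _

theorem ch_le_one (k : ℕ) (z : ℂ) : ch k z ≤ 1 := max_le zero_le_one (min_le_left _ _)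

theorem ch_compact (k : ℕ) : HasCompactSupport (ch k) := by
  refine HasCompactSupport.intro (isCompact_closedBall (0 : ℂ) ((k : ℝ) + 1)) fun z hz => ?_
  rw [mem_closedBall_zero_iff, not_le] at hz
  unfold ch
  rw [max_eq_left]
  exact (min_le_right _ _).trans (by linarith)

theorem ch_mono (z : ℂ) : Monotone fun k => ch k z := by
  intro k l hkl
  refine max_le_max le_rfl (min_le_min le_rfl ?_)
  have : (k : ℝ) ≤ l := by exact_mod_cast hkl
  linarith

theorem ch_tendsto (z : ℂ) : Tendsto (fun k => ch k z) atTop (𝓝 1) := by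
  refine tendsto_const_nhds.congr' ?_
  filter_upwards [eventually_ge_atTop ⌈‖z‖⌉₊] with k hk
  have h1 : ‖z‖ ≤ k := (Nat.le_ceil _).trans (by exact_mod_cast hk)
  unfold ch
  rw [min_eq_left (by linarith), max_eq_right zero_le_one]

end DualAux

open DualAux

theorem dual : StmtDual := by
  intro n p q C hp hpq hC h f
  have hp0 : 0 < p := by linarith
  have hq0 : 0 < q := by
    by_contra hq
    rw [not_lt] at hq
    have h1 : 1 / q ≤ 0 := div_nonpos_of_nonneg_of_nonpos zero_le_one hq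
    have h2 : 1 / p < 1 := by
      rw [div_lt_one hp0]
      linarith
    linarith
  have hpq' : p.HolderConjugate q := by
    rw [Real.holderConjugate_iff]
    refine ⟨by linarith, ?_⟩
    rw [← one_div, ← one_div]
    exact hpq
  have hmul : (p - 1) * q = p := hpq'.sub_one_mul_conj
  have hq1 : 1 ≤ q := hpq'.symm.lt.le
  set F : ℂ → ℂ := Tn n f with hF
  have hFc : Continuous F := Tn_continuous n f
  rw [N_eq hp0, N_eq hp0]
  set B : ℝ≥0∞ := ENNReal.ofReal C * N p f with hB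
  have hfin : N p f ≠ ⊤ := N_ne_top (by linarith) f
  -- the test functions
  set g : ℕ → ℂ → ℂ := fun k z => (ch k z : ℂ) * (((‖F z‖ ^ (p - 2) : ℝ) : ℂ) *
    starRingEnd ℂ (F z)) with hg
  have hgc : ∀ k, Continuous (g k) := by
    intro k
    have h1 : Continuous fun z => ‖F z‖ ^ (p - 2) :=
      hFc.norm.rpow_const fun z => Or.inr (by linarith)
    exact (Complex.continuous_ofReal.comp (ch_cont k)).mul
      ((Complex.continuous_ofReal.comp h1).mul (Complex.continuous_conj.comp hFc))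
  have hgs : ∀ k, HasCompactSupport (g k) := by
    intro k
    have h1 : HasCompactSupport fun z => (ch k z : ℂ) :=
      (ch_compact k).comp_left (g := fun r : ℝ => (r : ℂ)) (by simp)
    exact h1.mul_right
  have hpow : ∀ x : ℝ, 0 ≤ x → x ^ (p - 2) * x * x = x ^ p := by
    intro x hx
    rcases hx.eq_or_lt with rfl | hx
    · rw [mul_zero, Real.zero_rpow hp0.ne']
    · rw [mul_assoc, ← pow_two, ← Real.rpow_natCast, ← Real.rpow_add hx]
      congr 1
      push_cast
      ring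
  have hFg : ∀ k z, F z * g k z = ((ch k z * ‖F z‖ ^ p : ℝ) : ℂ) := by
    intro k z
    have e1 : F z * starRingEnd ℂ (F z) = ((‖F z‖ * ‖F z‖ : ℝ) : ℂ) := by
      rw [Complex.mul_conj, Complex.normSq_eq_norm_sq, pow_two]
    have e2 : F z * g k z = (ch k z : ℂ) * (((‖F z‖ ^ (p - 2) : ℝ) : ℂ) *
        (F z * starRingEnd ℂ (F z))) := by
      rw [hg]
      ring
    rw [e2, e1, ← hpow _ (norm_nonneg (F z))]
    push_cast
    ring
  set A : ℕ → ℝ≥0∞ := fun k => ∫⁻ z, ENNReal.ofReal (ch k z * ‖F z‖ ^ p) with hA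
  have hnn : ∀ k z, 0 ≤ ch k z * ‖F z‖ ^ p := fun k z =>
    mul_nonneg (ch_nonneg k z) (Real.rpow_nonneg (norm_nonneg _) _)
  have hcont : ∀ k, Continuous fun z => ch k z * ‖F z‖ ^ p := fun k =>
    (ch_cont k).mul (hFc.norm.rpow_const fun z => Or.inr hp0.le)
  have hint : ∀ k, Integrable fun z => ch k z * ‖F z‖ ^ p := fun k =>
    (hcont k).integrable_of_hasCompactSupport (ch_compact k).mul_right
  have hAtop : ∀ k, A k ≠ ⊤ := by
    intro k
    have := (hint k).lintegral_lt_top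
    exact this.ne
  have hleft : ∀ k, ‖∫ z, F z * g k z‖ₑ = A k := by
    intro k
    have e1 : ∫ z, F z * g k z = ((∫ z, ch k z * ‖F z‖ ^ p : ℝ) : ℂ) := by
      exact (integral_congr_ae (Eventually.of_forall fun z => hFg k z)).trans integral_ofReal
    rw [e1, ← ofReal_norm, Complex.norm_real,
      Real.norm_of_nonneg (integral_nonneg fun z => hnn k z),
      ofReal_integral_eq_lintegral_ofReal (hint k) (Eventually.of_forall fun z => hnn k z)]
  have hright : ∀ k, N q (g k) ≤ A k ^ (1 / q) := by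
    intro k
    refine ENNReal.rpow_le_rpow (lintegral_mono fun z => ?_) (by positivity)
    have e1 : ‖g k z‖ = ch k z * (‖F z‖ ^ (p - 2) * ‖F z‖) := by
      rw [hg]
      simp only
      rw [norm_mul, norm_mul, Complex.norm_real, Complex.norm_real, RCLike.norm_conj,
        Real.norm_of_nonneg (ch_nonneg k z),
        Real.norm_of_nonneg (Real.rpow_nonneg (norm_nonneg _) _)]
    have e2 : ‖F z‖ ^ (p - 2) * ‖F z‖ = ‖F z‖ ^ (p - 1) := by
      rcases (norm_nonneg (F z)).eq_or_lt with h0 | h0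
      · rw [← h0, mul_zero, Real.zero_rpow (by linarith)]
      · nth_rewrite 2 [← Real.rpow_one ‖F z‖]
        rw [← Real.rpow_add h0]
        congr 1
        ring
    rw [← ofReal_norm, ENNReal.ofReal_rpow_of_nonneg (norm_nonneg _) hq0.le, e1, e2,
      Real.mul_rpow (ch_nonneg k z) (Real.rpow_nonneg (norm_nonneg _) _),
      ← Real.rpow_mul (norm_nonneg _), hmul]
    refine ENNReal.ofReal_le_ofReal (mul_le_mul_of_nonneg_right ?_
      (Real.rpow_nonneg (norm_nonneg _) _))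
    rcases (ch_nonneg k z).eq_or_lt with h0 | h0
    · rw [← h0, Real.zero_rpow hq0.ne']
    · calc ch k z ^ q ≤ ch k z ^ (1 : ℝ) :=
          Real.rpow_le_rpow_of_exponent_ge h0 (ch_le_one k z) hq1
        _ = ch k z := Real.rpow_one _
  have hAB : ∀ k, A k ≤ B ^ p := by
    intro k
    have h1 := pair_cont hpq' hC h f (hgc k) (hgs k)
    rw [← hF, hleft] at h1
    have h2 : A k ≤ B * A k ^ (1 / q) := by
      refine h1.trans (le_trans (mul_le_mul_right (mul_le_mul_right (hright k) _) _) (le_of_eq ?_))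
      rw [hB]
      ring
    rcases eq_or_ne (A k) 0 with h0 | h0
    · rw [h0]
      exact zero_le
    have hs : 1 / q = 1 - 1 / p := by linarith
    have h3 : A k = A k ^ (1 / p) * A k ^ (1 / q) := by
      rw [← ENNReal.rpow_add _ _ h0 (hAtop k), hpq, ENNReal.rpow_one]
    have h4 : A k ^ (1 / p) ≤ B := by
      have h5 : A k ^ (1 / p) * A k ^ (1 / q) ≤ B * A k ^ (1 / q) := h3 ▸ h2
      have h6 : A k ^ (1 / q) ≠ 0 := by
        rw [Ne, ENNReal.rpow_eq_zero_iff]
        push Not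
        exact ⟨fun h' => absurd h' h0, fun h' => absurd h' (hAtop k)⟩
      have h7 : A k ^ (1 / q) ≠ ⊤ := ENNReal.rpow_ne_top_of_nonneg (by positivity) (hAtop k)
      exact (ENNReal.mul_le_mul_iff_left h6 h7).1 h5
    calc A k = (A k ^ (1 / p)) ^ p := by
          rw [← ENNReal.rpow_mul, one_div_mul_cancel hp0.ne', ENNReal.rpow_one]
      _ ≤ B ^ p := ENNReal.rpow_le_rpow h4 hp0.le
  -- the limit
  have hlim : Tendsto A atTop (𝓝 (∫⁻ z, ‖F z‖ₑ ^ p)) := by
    refine lintegral_tendsto_of_tendsto_of_monotone (fun k => (hcont k).measurable.ennreal_ofReal.aemeasurable)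
      (Eventually.of_forall fun z k l hkl => ENNReal.ofReal_le_ofReal
        (mul_le_mul_of_nonneg_right (ch_mono z hkl) (Real.rpow_nonneg (norm_nonneg _) _)))
      (Eventually.of_forall fun z => ?_)
    rw [← ofReal_norm, ENNReal.ofReal_rpow_of_nonneg (norm_nonneg _) hp0.le]
    refine (ENNReal.continuous_ofReal.tendsto _).comp ?_
    simpa using (ch_tendsto z).mul_const (‖F z‖ ^ p)
  have hfinal : ∫⁻ z, ‖F z‖ₑ ^ p ≤ B ^ p := le_of_tendsto' hlim hAB
  calc N p F ≤ (B ^ p) ^ (1 / p) := ENNReal.rpow_le_rpow hfinal (by positivity)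
    _ = B := by rw [← ENNReal.rpow_mul, mul_one_div_cancel hp0.ne', ENNReal.rpow_one]

end Pool.Agent.Lib.MP_dd244f_an.Joint
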