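import Pool.Agent.Lib.MP_dd244f_an.Joint.Defs

/-! Basic facts about clusters. -/

set_option autoImplicit false

namespace Pool.Agent.Lib.MP_dd244f_an.Joint

open MeasureTheory Finset

namespace Clusters

variable {ι : Type} {z : ι → ℂ} {A : ι → ℝ} {κ : ℝ} {m : ℕ} {S : Finset ι}
  (X : Clusters ι z A κ m S)

theorem T_anti {i k : ℕ} (h : i ≤ k) (hk : k ≤ X.N) : X.T k ⊆ X.T i := by
  induction k, h using Nat.le_induction with
  | base => exact subset_rfl
  | succ k h ih =>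
    intro j hj
    exact ih (by omega) ((X.hT k (by omega) j).1 hj).1

theorem C_sub_T {i : ℕ} (hi : i < X.N) : X.C i ⊆ X.T i := fun j hj => ((X.hC i hi j).1 hj).1

theorem norm_le_of_mem_C {i : ℕ} (hi : i < X.N) {j : ι} (hj : j ∈ X.C i) :
    ‖z j - X.c i‖ ≤ 2 * X.R i := ((X.hC i hi j).1 hj).2.trans (X.hs2 i hi)

/-- atoms of later clusters are outside the earlier clusters -/
theorem later {i l : ℕ} (hil : i < l) (hl : l < X.N) {j : ι} (hj : j ∈ X.C l) :
    j ∈ X.T i ∧ X.s i < ‖z j - X.c i‖ := by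
  have h1 : j ∈ X.T (i + 1) := X.T_anti (by omega) (by omega) (X.C_sub_T hl hj)
  exact (X.hT i (by omega) j).1 h1

theorem mem_S {i : ℕ} (hi : i < X.N) {j : ι} (hj : j ∈ X.C i) : j ∈ S := by
  have h := X.T_anti (Nat.zero_le i) hi.le (X.C_sub_T hi hj)
  rwa [X.hT0] at h

theorem disj {i l : ℕ} (hil : i < l) (hl : l < X.N) : Disjoint (X.C i) (X.C l) := by
  rw [Finset.disjoint_left]
  intro j h1 h2
  have h3 := (X.later hil hl h2).2
  have h4 := ((X.hC i (by omega) j).1 h1).2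
  linarith

theorem sum_T {E : Type*} [AddCommMonoid E] (F : ι → E) {k : ℕ} (hk : k ≤ X.N) :
    ∑ i ∈ Finset.range k, ∑ j ∈ X.C i, F j + ∑ j ∈ X.T k, F j = ∑ j ∈ S, F j := by
  classical
  induction k with
  | zero => simp [X.hT0]
  | succ k ih =>
    rw [← ih (by omega), Finset.sum_range_succ, add_assoc]
    congr 1
    have e1 : X.C k = (X.T k).filter (fun j => ‖z j - X.c k‖ ≤ X.s k) := by
      ext j; rw [X.hC k (by omega), Finset.mem_filter]
    have e2 : X.T (k + 1) = (X.T k).filter (fun j => ¬ ‖z j - X.c k‖ ≤ X.s k) := by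
      ext j; rw [X.hT k (by omega), Finset.mem_filter, not_le]
    rw [e1, e2, Finset.sum_filter_add_sum_filter_not]

/-- the clusters partition `S` -/
theorem sum_C {E : Type*} [AddCommMonoid E] (F : ι → E) :
    ∑ i ∈ Finset.range X.N, ∑ j ∈ X.C i, F j = ∑ j ∈ S, F j := by
  have h := X.sum_T F le_rfl
  rwa [X.hTN, Finset.sum_empty, add_zero] at h

end Clusters

namespace Cfg

variable (D : Cfg)

theorem A_nonneg (i : ℕ) : 0 ≤ D.A i := Finset.sum_nonneg fun _ _ => norm_nonneg _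

theorem sum_A : ∑ i ∈ Finset.range D.cl.N, D.A i = ∑ j ∈ D.S, ‖D.a j‖ :=
  D.cl.sum_C (fun j => ‖D.a j‖)

/-- the masses of the atoms lying in the boundary annulus of an earlier cluster:
total over all clusters -/
theorem A1 {i : ℕ} (hi : i < D.cl.N) : D.cl.R i ^ 2 ≤ D.κ ^ 2 * D.A i := D.cl.hA1 i hi

theorem A2 {i : ℕ} (hi : i < D.cl.N) : D.κ ^ 2 * D.A i ≤ 4 * D.cl.R i ^ 2 := D.cl.hA2 i hi

theorem A_pos {i : ℕ} (hi : i < D.cl.N) : 0 < D.A i := by
  have h1 := D.A1 hi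
  have h2 := D.cl.hRpos i hi
  have h3 : 0 < D.κ ^ 2 := by have := D.hκ; positivity
  have h4 : 0 < D.κ ^ 2 * D.A i := lt_of_lt_of_le (by positivity) h1
  exact (mul_pos_iff_of_pos_left h3).1 h4

theorem rho_pos {i : ℕ} (hi : i < D.cl.N) : 0 < D.rho i := by
  have h1 := D.cl.hRpos i hi
  have h2 := D.hκ
  have h3 := D.hL
  unfold rho
  positivity

theorem two_le : 2 ≤ D.L / D.κ := by
  have h1 := D.hκ
  have h2 := D.hκ1
  have h3 := D.hL
  rw [le_div_iff₀ h1]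
  nlinarith

theorem rho_ge {i : ℕ} (hi : i < D.cl.N) : 2 * D.cl.R i ≤ D.rho i := by
  have h1 := D.cl.hRpos i hi
  have h2 := D.two_le
  unfold rho
  nlinarith

theorem b_nonneg (i : ℕ) (w : ℂ) : 0 ≤ D.b i w := by unfold b; positivity

theorem Sw_ge_one (l : ℕ) (w : ℂ) : 1 ≤ D.Sw l w := by
  unfold Sw
  have := Finset.sum_nonneg (s := Finset.range (l + 1)) (f := fun i => D.b i w)
    fun i _ => D.b_nonneg i w
  linarith

theorem Sw_pos (l : ℕ) (w : ℂ) : 0 < D.Sw l w := lt_of_lt_of_le one_pos (D.Sw_ge_one l w)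

end Cfg

theorem norm_kk (n : ℕ) (ζ : ℂ) : ‖kk n ζ‖ = if ζ = 0 then 0 else 1 / ‖ζ‖ ^ 2 := by
  unfold kk
  split_ifs with h
  · subst h; simp
  · rw [norm_div, norm_pow, norm_div, RCLike.norm_conj, div_self (norm_ne_zero_iff.2 h), one_pow,
      Complex.norm_real, Complex.normSq_eq_norm_sq, Real.norm_of_nonneg (by positivity)]

theorem norm_kk_le (n : ℕ) (ζ : ℂ) : ‖kk n ζ‖ ≤ 1 / ‖ζ‖ ^ 2 := by
  rw [norm_kk]
  split_ifs with h
  · positivity
  · exact le_rfl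

theorem norm_kk_eq (n : ℕ) {ζ : ℂ} (h : ζ ≠ 0) : ‖kk n ζ‖ = 1 / ‖ζ‖ ^ 2 := by
  rw [norm_kk, if_neg h]

theorem psi_nonneg {x : ℝ} (h : 0 ≤ x) : 0 ≤ psi x := by unfold psi; positivity

theorem psi_le_one {x : ℝ} (h : 0 ≤ x) : psi x ≤ 1 := by
  unfold psi; rw [div_le_one (by linarith)]; linarith

theorem psi_le_self {x : ℝ} (h : 0 ≤ x) : psi x ≤ x := by
  unfold psi; rw [div_le_iff₀ (by linarith)]; nlinarith

theorem psi_mono {x y : ℝ} (h : 0 ≤ x) (hxy : x ≤ y) : psi x ≤ psi y := by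
  unfold psi; rw [div_le_div_iff₀ (by linarith) (by linarith)]; nlinarith

/-- `psi (x + y) ≤ psi x + y` -/
theorem psi_add_le {x y : ℝ} (hx : 0 ≤ x) (hy : 0 ≤ y) : psi (x + y) ≤ psi x + y := by
  unfold psi
  rw [div_add' _ _ _ (by linarith : (1 + x) ≠ 0), div_le_div_iff₀ (by linarith) (by linarith)]
  nlinarith [mul_nonneg hx hy, mul_nonneg hy hy, mul_nonneg hx hx,
    mul_nonneg (mul_nonneg hx hy) hx, mul_nonneg (mul_nonneg hx hy) hy]

theorem psi_add_le' {x y : ℝ} (hx : 0 ≤ x) (hy : 0 ≤ y) : psi (x + y) ≤ psi x + psi y := by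
  unfold psi
  rw [div_add_div _ _ (by linarith) (by linarith), div_le_div_iff₀ (by linarith) (by positivity)]
  nlinarith [mul_nonneg hx hy, mul_nonneg (mul_nonneg hx hy) hx, mul_nonneg (mul_nonneg hx hy) hy,
    mul_nonneg (mul_nonneg hx hy) (mul_nonneg hx hy)]

end Pool.Agent.Lib.MP_dd244f_an.Joint
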