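import Pool.Agent.Lib.MP_dd244f_an.Joint.Stmts
import Pool.Agent.Lib.MP_dd244f_an.Joint.Basic

/-!
Full operator, joint limit: properties of the radial cutoffs `ct`.
-/

set_option autoImplicit false

namespace Pool.Agent.Lib.MP_dd244f_an.Joint

open MeasureTheory Filter Topology

theorem cut : StmtCut := by
  intro ρ hρ
  have hρ2 : 0 < ρ ^ 2 := by positivity
  have hsq : ∀ ζ : ℂ, Complex.normSq ζ = ‖ζ‖ ^ 2 := fun ζ => Complex.normSq_eq_norm_sq ζ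
  have hct : ct ρ = fun ζ : ℂ => st (‖ζ‖ ^ 2 / ρ ^ 2) := by
    funext ζ
    unfold ct
    rw [hsq]
  have hq : ∀ k : ℕ∞, ContDiff ℝ k (fun ζ : ℂ => ‖ζ‖ ^ 2 / ρ ^ 2) := fun k =>
    (contDiff_norm_sq ℝ).div_const _
  have h0 : ∀ ζ : ℂ, ‖ζ‖ ≤ ρ → ct ρ ζ = 0 := fun ζ h => by
    rw [hct]
    refine st_zero ?_
    rw [div_le_one hρ2]
    gcongr
  have h1 : ∀ ζ : ℂ, 2 * ρ ^ 2 ≤ ‖ζ‖ ^ 2 → ct ρ ζ = 1 := fun ζ h => by
    rw [hct]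
    refine st_one ?_
    rwa [le_div_iff₀ hρ2]
  have hd0 : ∀ ζ : ℂ, ‖ζ‖ < ρ → fderiv ℝ (ct ρ) ζ = 0 := fun ζ h => by
    have : ct ρ =ᶠ[𝓝 ζ] fun _ => 0 := by
      filter_upwards [(isOpen_lt continuous_norm continuous_const).mem_nhds h] with x hx
      exact h0 x (le_of_lt hx)
    rw [this.fderiv_eq]; simp
  have hd1 : ∀ ζ : ℂ, 2 * ρ ^ 2 < ‖ζ‖ ^ 2 → fderiv ℝ (ct ρ) ζ = 0 := fun ζ h => by
    have : ct ρ =ᶠ[𝓝 ζ] fun _ => 1 := by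
      filter_upwards [(isOpen_lt continuous_const (continuous_norm.pow 2)).mem_nhds h] with x hx
      exact h1 x (le_of_lt hx)
    rw [this.fderiv_eq]; simp
  refine ⟨fun k => ?_, fun ζ => st_nonneg _, fun ζ => st_le_one _, h0, h1, fun ζ => ?_, hd0, hd1⟩
  · rw [hct]
    exact st_contDiff.comp (hq k)
  · have hM := one_le_Mst
    rcases lt_or_ge (2 * ρ ^ 2) (‖ζ‖ ^ 2) with h | h
    · rw [hd1 ζ h]; simp; positivity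
    rcases eq_or_ne ζ 0 with hz | hz
    · rw [hd0 ζ (by rw [hz]; simpa using hρ)]; simp; positivity
    have hn : 0 < ‖ζ‖ := norm_pos_iff.2 hz
    have e1 : HasFDerivAt (fun ζ : ℂ => ‖ζ‖ ^ 2) (2 • (innerSL ℝ ζ)) ζ :=
      (hasStrictFDerivAt_norm_sq ζ).hasFDerivAt
    have e2 : HasFDerivAt (fun ζ : ℂ => ‖ζ‖ ^ 2 / ρ ^ 2) ((ρ ^ 2)⁻¹ • (2 • (innerSL ℝ ζ))) ζ := by
      simp only [div_eq_inv_mul]
      exact e1.const_mul _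
    have e3 : HasDerivAt st (deriv st (‖ζ‖ ^ 2 / ρ ^ 2)) (‖ζ‖ ^ 2 / ρ ^ 2) :=
      ((st_contDiff (k := 1)).differentiable one_ne_zero _).hasDerivAt
    have e4 : HasFDerivAt (ct ρ)
        (deriv st (‖ζ‖ ^ 2 / ρ ^ 2) • ((ρ ^ 2)⁻¹ • (2 • (innerSL ℝ ζ)))) ζ := by
      rw [hct]
      exact HasDerivAt.comp_hasFDerivAt (h₂ := st) (f := fun ζ : ℂ => ‖ζ‖ ^ 2 / ρ ^ 2) ζ e3 e2
    rw [e4.fderiv, norm_smul, norm_smul, Real.norm_eq_abs, norm_inv,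
      Real.norm_of_nonneg hρ2.le]
    have e5 : ‖(2 : ℕ) • (innerSL ℝ ζ)‖ ≤ 2 * ‖ζ‖ := by
      refine norm_nsmul_le.trans ?_
      rw [innerSL_apply_norm]
      simp
    calc |deriv st (‖ζ‖ ^ 2 / ρ ^ 2)| * ((ρ ^ 2)⁻¹ * ‖(2 : ℕ) • (innerSL ℝ ζ)‖)
        ≤ Mst * ((ρ ^ 2)⁻¹ * (2 * ‖ζ‖)) := by
          gcongr
          exact deriv_st_le _
      _ = Mst * (2 * ‖ζ‖ ^ 2 / ρ ^ 2) / ‖ζ‖ := by field_simp
      _ ≤ Mst * 4 / ‖ζ‖ := by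
          gcongr
          rw [div_le_iff₀ hρ2]
          linarith
      _ = _ := by ring

end Pool.Agent.Lib.MP_dd244f_an.Joint
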