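import Pool.Agent.Lib.MP_dd244f_an.Joint.Stmts
import Pool.Agent.Lib.MP_dd244f_an.Joint.Basic

/-!
Radial pieces of the primitive integrate to zero (`StmtCircle`).
-/

set_option autoImplicit false

namespace Pool.Agent.Lib.MP_dd244f_an.Joint

open MeasureTheory Filter Topology Set
open scoped Real

namespace Circ

/-- mean value property, as an integral over `(-π, π)` -/
theorem mvp (Φ : ℂ → ℂ) (R ρ : ℝ) (hρ : 0 < ρ) (hR : ρ < R)
    (hΦ : DifferentiableOn ℂ Φ (Metric.ball 0 R)) (h0 : Φ 0 = 0) :
    ∫ θ in Ioo (-π) π, Φ (circleMap 0 ρ θ) = 0 := by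
  have hd : DiffContOnCl ℂ Φ (Metric.ball 0 |ρ|) := by
    rw [abs_of_pos hρ]
    refine ⟨hΦ.mono (Metric.ball_subset_ball hR.le), ?_⟩
    refine hΦ.continuousOn.mono ?_
    refine (Metric.closure_ball_subset_closedBall).trans ?_
    exact Metric.closedBall_subset_ball hR
  have h1 := hd.circleAverage
  rw [h0, Real.circleAverage] at h1
  have h2 : ∫ θ in (0:ℝ)..2 * π, Φ (circleMap 0 ρ θ) = 0 := by
    rcases smul_eq_zero.1 h1 with h | h
    · exact absurd h (by positivity)
    · exact h
  rw [← integral_Ioc_eq_integral_Ioo, ← intervalIntegral.integral_of_le (by linarith [Real.pi_pos])]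
  have hper : Function.Periodic (fun θ => Φ (circleMap 0 ρ θ)) (2 * π) := by
    intro θ
    simp only
    rw [periodic_circleMap]
  have h3 := hper.intervalIntegral_add_eq (-π) 0
  rw [show -π + 2 * π = π by ring, zero_add] at h3
  rw [h3, h2]

/-- a function whose circle integrals vanish has zero integral -/
theorem polar_zero (G : ℂ → ℂ)
    (h : ∀ ρ > 0, ∫ θ in Ioo (-π) π, G (circleMap 0 ρ θ) = 0) : ∫ w, G w = 0 := by
  rw [← Complex.integral_comp_polarCoord_symm]
  by_cases hI : IntegrableOn (fun p : ℝ × ℝ => p.1 • G (Complex.polarCoord.symm p))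
    polarCoord.target
  · rw [polarCoord_target] at hI ⊢
    rw [Measure.volume_eq_prod] at hI ⊢
    rw [setIntegral_prod _ hI]
    apply integral_eq_zero_of_ae
    filter_upwards [ae_restrict_mem measurableSet_Ioi] with ρ hρ
    have e : ∀ θ : ℝ, Complex.polarCoord.symm (ρ, θ) = circleMap 0 ρ θ := by
      intro θ
      rw [Complex.polarCoord_symm_apply, circleMap, zero_add, Complex.exp_mul_I]
      push_cast
      ring
    simp only [e]
    rw [integral_smul, h ρ hρ, smul_zero]
    rfl
  · rw [integral_undef hI]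

theorem dW_radial (U : ℝ → ℝ) (hU : ContDiff ℝ 1 U) (z w : ℂ) :
    dW (fun w => U (Complex.normSq (w - z))) w =
      ((deriv U (Complex.normSq (w - z)) : ℝ) : ℂ) * starRingEnd ℂ (w - z) := by
  have hd : DifferentiableAt ℝ U (Complex.normSq (w - z)) :=
    (hU.differentiable (by norm_num)).differentiableAt
  have hline : ∀ v : ℂ, fderiv ℝ (fun w => U (Complex.normSq (w - z))) w v =
      deriv U (Complex.normSq (w - z)) * (2 * ((w - z).re * v.re + (w - z).im * v.im)) := by
    intro v
    have hns : HasFDerivAt (fun w : ℂ => Complex.normSq (w - z))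
        ((2 * (w - z).re) • Complex.reCLM + (2 * (w - z).im) • Complex.imCLM) w := by
      have h1 : HasFDerivAt (fun w : ℂ => (w - z).re) Complex.reCLM w := by
        have := (Complex.reCLM.hasFDerivAt (x := w - z)).comp w
          ((hasFDerivAt_id (𝕜 := ℝ) w).sub_const z)
        rw [ContinuousLinearMap.comp_id] at this
        exact this
      have h2 : HasFDerivAt (fun w : ℂ => (w - z).im) Complex.imCLM w := by
        have := (Complex.imCLM.hasFDerivAt (x := w - z)).comp w
          ((hasFDerivAt_id (𝕜 := ℝ) w).sub_const z)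
        rw [ContinuousLinearMap.comp_id] at this
        exact this
      have h3 := (h1.mul h1).add (h2.mul h2)
      refine (h3.congr_fderiv ?_).congr_of_eventuallyEq ?_
      · ext v <;> simp <;> ring
      · exact Eventually.of_forall fun x => by simp [Complex.normSq_apply]
    have h4 := hd.hasDerivAt.comp_hasFDerivAt w hns
    have h5 : fderiv ℝ (fun w => U (Complex.normSq (w - z))) w =
        deriv U (Complex.normSq (w - z)) •
          ((2 * (w - z).re) • Complex.reCLM + (2 * (w - z).im) • Complex.imCLM) := h4.fderiv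
    rw [h5]
    simp
    ring
  unfold dW
  rw [hline, hline]
  apply Complex.ext <;> simp <;> ring

theorem deriv_zero_of_large {U : ℝ → ℝ} {r s : ℝ} (h : ∀ s, r ^ 2 ≤ s → U s = 1)
    (hs : r ^ 2 < s) : deriv U s = 0 := by
  have : U =ᶠ[𝓝 s] fun _ => (1 : ℝ) := by
    filter_upwards [Ioi_mem_nhds hs] with t ht
    exact h t (le_of_lt ht)
  rw [this.deriv_eq]; simp

theorem normSq_circleMap (ρ θ : ℝ) : Complex.normSq (circleMap 0 ρ θ) = ρ ^ 2 := by
  rw [Complex.normSq_eq_norm_sq]
  simp

theorem conj_circleMap {ρ : ℝ} (hρ : 0 < ρ) (θ : ℝ) :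
    starRingEnd ℂ (circleMap 0 ρ θ) = (ρ : ℂ) ^ 2 / circleMap 0 ρ θ := by
  have h1 := Complex.mul_conj (circleMap 0 ρ θ)
  rw [normSq_circleMap] at h1
  have h2 : circleMap 0 ρ θ ≠ 0 := circleMap_ne_center hρ.ne'
  rw [eq_div_iff h2, mul_comm, h1]
  push_cast
  ring

end Circ

open Circ in
theorem circle : StmtCircle := by
  intro n z z' r ε U hn hε hr hU hU0 hU1 hr0
  set a : ℂ := z - z' with ha
  have hapos : 0 < ‖a‖ := hr0.trans hr
  have ha0 : a ≠ 0 := norm_pos_iff.1 hapos
  have hn0 : (n : ℂ) ≠ 0 := by exact_mod_cast (by omega : n ≠ 0)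
  constructor
  · rw [← integral_add_right_eq_self _ z]
    apply polar_zero
    intro ρ hρ
    have hζ : ∀ θ, circleMap 0 ρ θ ≠ 0 := fun θ => circleMap_ne_center hρ.ne'
    rcases le_or_gt ‖a‖ ρ with hρa | hρa
    · have : ∀ θ, Vf n z z' (circleMap 0 ρ θ + z) *
          dW (fun w => U (Complex.normSq (w - z))) (circleMap 0 ρ θ + z) = 0 := by
        intro θ
        rw [dW_radial U hU, add_sub_cancel_right, normSq_circleMap,
          deriv_zero_of_large hU1 (by nlinarith)]
        simp
      simp only [this]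
      simp
    · -- conjugate, then the mean value property
      set Φ : ℂ → ℂ := fun u => ((ρ ^ 2 + starRingEnd ℂ a * u) * u / (ρ ^ 2 * (u + a))) ^ n / (u + a)
        with hΦ
      have hne : ∀ u ∈ Metric.ball (0:ℂ) ‖a‖, u + a ≠ 0 := by
        intro u hu h
        rw [mem_ball_zero_iff] at hu
        rw [add_eq_zero_iff_eq_neg.1 h, norm_neg] at hu
        exact lt_irrefl _ hu
      have hρ0 : (ρ : ℂ) ≠ 0 := by exact_mod_cast hρ.ne'
      have hdiff : DifferentiableOn ℂ Φ (Metric.ball 0 ‖a‖) := by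
        intro u hu
        have h1 := hne u hu
        have h2 : (ρ : ℂ) ^ 2 * (u + a) ≠ 0 := mul_ne_zero (pow_ne_zero _ hρ0) h1
        refine DifferentiableAt.differentiableWithinAt ?_
        have h3 : DifferentiableAt ℂ (fun u : ℂ => (ρ ^ 2 + starRingEnd ℂ a * u) * u /
            (ρ ^ 2 * (u + a))) u := DifferentiableAt.div (by fun_prop) (by fun_prop) h2
        exact DifferentiableAt.div (h3.pow n) (by fun_prop) h1
      have hΦ0 : Φ 0 = 0 := by
        simp only [hΦ]
        rw [mul_zero, zero_div, zero_pow (by omega), zero_div]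
      have hm := mvp Φ ‖a‖ ρ hρ hρa hdiff hΦ0
      have key : ∀ θ, Vf n z z' (circleMap 0 ρ θ + z) *
          dW (fun w => U (Complex.normSq (w - z))) (circleMap 0 ρ θ + z) =
          ((deriv U (ρ ^ 2) : ℝ) / (-(n * a)) : ℂ) * starRingEnd ℂ (Φ (circleMap 0 ρ θ)) := by
        intro θ
        rw [dW_radial U hU, add_sub_cancel_right, normSq_circleMap]
        set ζ := circleMap 0 ρ θ with hζdef
        have hζ0 : ζ ≠ 0 := hζ θ
        have hb : ζ ∈ Metric.ball (0:ℂ) ‖a‖ := by
          rw [mem_ball_zero_iff, hζdef]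
          simpa [abs_of_pos hρ] using hρa
        have h1 : ζ + a ≠ 0 := hne ζ hb
        have h1' : starRingEnd ℂ ζ + starRingEnd ℂ a ≠ 0 := by
          rw [← map_add]; exact (map_ne_zero _).2 h1
        have hc : starRingEnd ℂ ζ ≠ 0 := (map_ne_zero _).2 hζ0
        have hmul : ζ * starRingEnd ℂ ζ = (ρ : ℂ) ^ 2 := by
          rw [Complex.mul_conj, hζdef, normSq_circleMap]; push_cast; ring
        simp only [Vf, hΦ]
        rw [show ζ + z - z' = ζ + a by rw [ha]; ring, add_sub_cancel_right,
          show z' - z = -a by rw [ha]; ring]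
        simp only [map_div₀, map_mul, map_add, map_pow, Complex.conj_ofReal, Complex.conj_conj]
        rw [← hmul]
        have e1 : (ζ + a) * starRingEnd ℂ ζ / (ζ * (starRingEnd ℂ ζ + starRingEnd ℂ a)) =
            (ζ * starRingEnd ℂ ζ + a * starRingEnd ℂ ζ) * starRingEnd ℂ ζ /
              (ζ * starRingEnd ℂ ζ * (starRingEnd ℂ ζ + starRingEnd ℂ a)) := by
          field_simp
        rw [e1]
        field_simp
      simp only [key]
      rw [integral_const_mul, integral_conj, hm]
      simp
  · rw [← integral_add_right_eq_self _ z']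
    apply polar_zero
    intro ρ hρ
    have hζ : ∀ θ, circleMap 0 ρ θ ≠ 0 := fun θ => circleMap_ne_center hρ.ne'
    rcases le_or_gt ‖a‖ ρ with hρa | hρa
    · have : ∀ θ, Vf n z z' (circleMap 0 ρ θ + z') *
          dW (fun w => U (Complex.normSq (w - z'))) (circleMap 0 ρ θ + z') = 0 := by
        intro θ
        rw [dW_radial U hU, add_sub_cancel_right, normSq_circleMap,
          deriv_zero_of_large hU1 (by nlinarith)]
        simp
      simp only [this]
      simp
    · obtain ⟨m, rfl⟩ : ∃ m, n = m + 1 := ⟨n - 1, by omega⟩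
      set Φ : ℂ → ℂ := fun u => (ρ ^ 2 - starRingEnd ℂ a * u) ^ m * u ^ (m + 2) /
        (ρ ^ 2 * (u - a)) ^ (m + 1) with hΦ
      have hne : ∀ u ∈ Metric.ball (0:ℂ) ‖a‖, u - a ≠ 0 := by
        intro u hu h
        rw [mem_ball_zero_iff] at hu
        rw [sub_eq_zero.1 h] at hu
        exact lt_irrefl _ hu
      have hρ0 : (ρ : ℂ) ≠ 0 := by exact_mod_cast hρ.ne'
      have hdiff : DifferentiableOn ℂ Φ (Metric.ball 0 ‖a‖) := by
        intro u hu
        have h1 := hne u hu
        have h2 : ((ρ : ℂ) ^ 2 * (u - a)) ^ (m + 1) ≠ 0 :=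
          pow_ne_zero _ (mul_ne_zero (pow_ne_zero _ hρ0) h1)
        refine DifferentiableAt.differentiableWithinAt ?_
        refine DifferentiableAt.div ?_ ?_ h2
        all_goals fun_prop
      have hΦ0 : Φ 0 = 0 := by
        simp only [hΦ]
        rw [zero_pow (by omega : m + 2 ≠ 0), mul_zero, zero_div]
      have hm := mvp Φ ‖a‖ ρ hρ hρa hdiff hΦ0
      have key : ∀ θ, Vf (m + 1) z z' (circleMap 0 ρ θ + z') *
          dW (fun w => U (Complex.normSq (w - z'))) (circleMap 0 ρ θ + z') =
          ((deriv U (ρ ^ 2) : ℝ) / (-((m + 1 : ℕ) * a)) : ℂ) * (Φ (circleMap 0 ρ θ)) := by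
        intro θ
        rw [dW_radial U hU, add_sub_cancel_right, normSq_circleMap]
        set ζ := circleMap 0 ρ θ with hζdef
        have hζ0 : ζ ≠ 0 := hζ θ
        have hnorm : ‖ζ‖ = ρ := by
          rw [hζdef]; simp [abs_of_pos hρ]
        have hb : ζ ∈ Metric.ball (0:ℂ) ‖a‖ := by
          rw [mem_ball_zero_iff, hnorm]; exact hρa
        have h1 : ζ - a ≠ 0 := hne ζ hb
        have h1' : starRingEnd ℂ ζ - starRingEnd ℂ a ≠ 0 := by
          rw [← map_sub]; exact (map_ne_zero _).2 h1
        have hc : starRingEnd ℂ ζ ≠ 0 := (map_ne_zero _).2 hζ0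
        have hmul : ζ * starRingEnd ℂ ζ = (ρ : ℂ) ^ 2 := by
          rw [Complex.mul_conj, hζdef, normSq_circleMap]; push_cast; ring
        simp only [Vf, hΦ]
        rw [show ζ + z' - z = ζ - a by rw [ha]; ring, add_sub_cancel_right,
          show z' - z = -a by rw [ha]; ring]
        simp only [map_sub]
        have e0 : (ρ : ℂ) ^ 2 - starRingEnd ℂ a * ζ = ζ * (starRingEnd ℂ ζ - starRingEnd ℂ a) := by
          rw [← hmul]; ring
        rw [e0, ← hmul, div_pow, mul_pow, mul_pow, mul_pow, mul_pow, mul_pow]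
        field_simp
        ring
      simp only [key]
      rw [integral_const_mul, hm]
      simp

end Pool.Agent.Lib.MP_dd244f_an.Joint
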