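import Pool.Agent.Lib.MP_dd244f_an.Joint.Stmts

/-! Consts2: exact values of two Beta type integrals, by the reflection formula. -/

set_option autoImplicit false

namespace Pool.Agent.Lib.MP_dd244f_an.Joint

open MeasureTheory Filter Topology Set

namespace C2

lemma beta_real {s : ℝ} (h0 : 0 < s) (h1 : s < 1) :
    ∫ x in Ioo (0 : ℝ) 1, x ^ (s - 1) * (1 - x) ^ (-s) = Real.pi / Real.sin (Real.pi * s) := by
  have hb := Complex.Gamma_mul_Gamma_eq_betaIntegral (s := (s : ℂ)) (t := ((1 - s : ℝ) : ℂ))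
    (by simpa using h0) (by simpa using h1)
  have e1 : (s : ℂ) + ((1 - s : ℝ) : ℂ) = 1 := by push_cast; ring
  rw [e1, Complex.Gamma_one, one_mul] at hb
  have e2 : Complex.Gamma (s : ℂ) * Complex.Gamma ((1 - s : ℝ) : ℂ) =
      ((Real.pi / Real.sin (Real.pi * s) : ℝ) : ℂ) := by
    have := Complex.Gamma_mul_Gamma_one_sub (s : ℂ)
    push_cast
    exact this
  rw [e2] at hb
  have e3 : Complex.betaIntegral (s : ℂ) ((1 - s : ℝ) : ℂ) =
      ((∫ x in Ioo (0 : ℝ) 1, x ^ (s - 1) * (1 - x) ^ (-s) : ℝ) : ℂ) := by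
    rw [Complex.betaIntegral, intervalIntegral.integral_of_le zero_le_one,
      integral_Ioc_eq_integral_Ioo, ← integral_complex_ofReal]
    refine setIntegral_congr_fun measurableSet_Ioo fun x hx => ?_
    have hx0 : 0 ≤ x := hx.1.le
    have hx1 : 0 ≤ 1 - x := by linarith [hx.2]
    rw [Complex.ofReal_mul, Complex.ofReal_cpow hx0, Complex.ofReal_cpow hx1]
    congr 2
    · push_cast; rfl
    · push_cast; rfl
    · push_cast; ring
  rw [e3] at hb
  exact_mod_cast hb.symm

lemma image_eq : (fun u : ℝ => u ^ 2 / (1 + u ^ 2)) '' Ioi 0 = Ioo 0 1 := by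
  ext y
  constructor
  · rintro ⟨u, hu, rfl⟩
    have hu0 : 0 < u := hu
    have : 0 < 1 + u ^ 2 := by positivity
    refine ⟨by positivity, ?_⟩
    simp only
    rw [div_lt_one this]
    linarith
  · rintro ⟨h0, h1⟩
    have h2 : 0 < 1 - y := by linarith
    refine ⟨Real.sqrt (y / (1 - y)), Real.sqrt_pos.2 (by positivity), ?_⟩
    simp only
    rw [Real.sq_sqrt (by positivity)]
    field_simp
    ring

lemma injOn : InjOn (fun u : ℝ => u ^ 2 / (1 + u ^ 2)) (Ioi 0) := by
  intro u hu v hv h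
  have hu0 : 0 < u := hu
  have hv0 : 0 < v := hv
  simp only at h
  rw [div_eq_div_iff (by positivity) (by positivity)] at h
  have : u ^ 2 = v ^ 2 := by linarith
  exact (pow_left_inj₀ hu0.le hv0.le two_ne_zero).1 this

lemma main {s : ℝ} (h0 : 0 < s) (h1 : s < 1) :
    ∫ u in Ioi (0 : ℝ), u ^ (2 * s - 1) / (1 + u ^ 2) =
      Real.pi / 2 / Real.sin (Real.pi * s) := by
  have h := integral_image_eq_integral_abs_deriv_smul (s := Ioi (0 : ℝ))
    (f := fun u : ℝ => u ^ 2 / (1 + u ^ 2)) (f' := fun u => 2 * u / (1 + u ^ 2) ^ 2)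
    measurableSet_Ioi (fun u hu => by
      have hA : (1 + u ^ 2) ≠ 0 := by positivity
      have d1 : HasDerivAt (fun u : ℝ => u ^ 2) (2 * u) u := by
        simpa using hasDerivAt_pow 2 u
      have d2 := d1.div (d1.const_add 1) hA
      refine (d2.congr_deriv ?_).hasDerivWithinAt
      field_simp
      ring) injOn (fun x : ℝ => x ^ (s - 1) * (1 - x) ^ (-s))
  rw [image_eq, beta_real h0 h1] at h
  have e : ∫ u in Ioi (0 : ℝ), |2 * u / (1 + u ^ 2) ^ 2| •
      ((u ^ 2 / (1 + u ^ 2)) ^ (s - 1) * (1 - u ^ 2 / (1 + u ^ 2)) ^ (-s)) =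
      ∫ u in Ioi (0 : ℝ), 2 * (u ^ (2 * s - 1) / (1 + u ^ 2)) := by
    refine setIntegral_congr_fun measurableSet_Ioi fun u hu => ?_
    have hu0 : 0 < u := hu
    set A : ℝ := 1 + u ^ 2 with hA
    have hA0 : 0 < A := by positivity
    have e1 : 1 - u ^ 2 / A = A⁻¹ := by
      field_simp
      rw [hA]; ring
    rw [abs_of_nonneg (by positivity), e1, Real.div_rpow (by positivity) hA0.le,
      Real.inv_rpow hA0.le, Real.rpow_neg hA0.le, inv_inv, smul_eq_mul]
    have e2 : A ^ s = A ^ (s - 1) * A := by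
      rw [← Real.rpow_add_one hA0.ne']; ring_nf
    have e3 : (u ^ 2) ^ (s - 1) = u ^ (2 * s - 1) / u := by
      rw [← Real.rpow_natCast, ← Real.rpow_mul hu0.le, ← Real.rpow_sub_one hu0.ne']
      congr 1
      push_cast
      ring
    have hAs : A ^ (s - 1) ≠ 0 := (Real.rpow_pos_of_pos hA0 _).ne'
    rw [e2, e3]
    field_simp
  rw [e, integral_const_mul] at h
  rw [div_right_comm]
  linarith

end C2

/-- (Consts2) -/
theorem consts2 : StmtConsts2 := by
  intro q hq1 hq2
  constructor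
  · have h := C2.main (s := q / 2) (by linarith) (by linarith)
    rw [cq, show q - 1 = 2 * (q / 2) - 1 by ring, h]
    congr 1
    rw [show Real.pi * (q / 2) = Real.pi / 2 * (2 * (q / 2) - 1) + Real.pi / 2 by ring,
      Real.sin_add_pi_div_two]
  · have h := C2.main (s := (q - 1) / 2) (by linarith) (by linarith)
    rw [aq, show q - 2 = 2 * ((q - 1) / 2) - 1 by ring, h]
    congr 2
    ring

end Pool.Agent.Lib.MP_dd244f_an.Joint
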