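import Pool.Agent.Lib.MP_dd244f_an.Joint.Stmts

/-! Consts3: `x cot x ≤ 1 - x ^ 2 / 3`. -/

set_option autoImplicit false

namespace Pool.Agent.Lib.MP_dd244f_an.Joint

open MeasureTheory Filter Topology Set

namespace C3

lemma cot_bound {x : ℝ} (h0 : 0 < x) (h1 : x < Real.pi / 2) :
    x * Real.cos x ≤ (1 - x ^ 2 / 3) * Real.sin x := by
  set g : ℝ → ℝ := fun x => (1 - x ^ 2 / 3) * Real.sin x - x * Real.cos x with hg
  have hd : ∀ t : ℝ, HasDerivAt g (t / 3 * (Real.sin t - t * Real.cos t)) t := by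
    intro t
    have d0 : HasDerivAt (fun t : ℝ => t ^ 2) (2 * t) t := by simpa using hasDerivAt_pow 2 t
    have d1 : HasDerivAt (fun t : ℝ => 1 - t ^ 2 / 3) (-(2 * t / 3)) t := by
      simpa using (d0.div_const 3).const_sub 1
    have d2 := d1.mul (Real.hasDerivAt_sin t)
    have d3 := (hasDerivAt_id t).mul (Real.hasDerivAt_cos t)
    refine (d2.sub d3).congr_deriv ?_
    simp only [id]
    ring
  have hm : MonotoneOn g (Icc 0 (Real.pi / 2)) := by
    apply monotoneOn_of_deriv_nonneg (convex_Icc _ _)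
    · exact fun t _ => (hd t).continuousAt.continuousWithinAt
    · exact fun t _ => (hd t).differentiableAt.differentiableWithinAt
    · intro t ht
      rw [interior_Icc] at ht
      rw [(hd t).deriv]
      have h2 : 0 < Real.cos t := Real.cos_pos_of_mem_Ioo ⟨by linarith [ht.1, Real.pi_pos], ht.2⟩
      have h3 := Real.lt_tan ht.1 ht.2
      rw [Real.tan_eq_sin_div_cos, lt_div_iff₀ h2] at h3
      have h4 : 0 ≤ t := ht.1.le
      have h5 : 0 ≤ Real.sin t - t * Real.cos t := by linarith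
      positivity
  have h2 := hm (left_mem_Icc.2 (by positivity)) ⟨h0.le, h1.le⟩ h0.le
  simp only [hg] at h2
  simp at h2
  linarith

end C3

/-- (Consts3) -/
theorem consts3 (h : StmtConsts2) : StmtConsts3 := by
  intro q hq1 hq2
  obtain ⟨hc, ha⟩ := h q hq1 hq2
  rw [hc, ha]
  set x : ℝ := Real.pi / 2 * (q - 1) with hx
  have hpi := Real.pi_pos
  have h0 : 0 < x := by rw [hx]; exact mul_pos (by positivity) (by linarith)
  have h1 : x < Real.pi / 2 := by
    rw [hx]
    nlinarith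
  have hs : 0 < Real.sin x := Real.sin_pos_of_pos_of_lt_pi h0 (by linarith)
  have hcos : 0 < Real.cos x := Real.cos_pos_of_mem_Ioo ⟨by linarith, h1⟩
  have hb := C3.cot_bound h0 h1
  have h2 : 1 - x ^ 2 / 3 ≤ 1 - 41 / 50 * (q - 1) ^ 2 := by
    have h3 : x ^ 2 / 3 = Real.pi ^ 2 / 12 * (q - 1) ^ 2 := by rw [hx]; ring
    rw [h3]
    have h4 : 41 / 50 ≤ Real.pi ^ 2 / 12 := by
      have := Real.pi_gt_d2
      nlinarith
    have : 41 / 50 * (q - 1) ^ 2 ≤ Real.pi ^ 2 / 12 * (q - 1) ^ 2 := by gcongr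
    linarith
  have h3 : x * Real.cos x ≤ (1 - 41 / 50 * (q - 1) ^ 2) * Real.sin x :=
    hb.trans (by gcongr)
  have e1 : x * (Real.pi / 2 / Real.sin x) =
      Real.pi / 2 * (x * Real.cos x) / (Real.sin x * Real.cos x) := by field_simp
  have e2 : (1 - 41 / 50 * (q - 1) ^ 2) * (Real.pi / 2 / Real.cos x) =
      Real.pi / 2 * ((1 - 41 / 50 * (q - 1) ^ 2) * Real.sin x) / (Real.sin x * Real.cos x) := by
    field_simp
  rw [e1, e2]
  gcongr

end Pool.Agent.Lib.MP_dd244f_an.Joint
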