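import Pool.Agent.Lib.MP_dd244f_an.Joint.Stmts
import Pool.Agent.Lib.MP_dd244f_an.Joint.Basic

/-! From finitely many atoms to continuous densities. -/

set_option autoImplicit false

namespace Pool.Agent.Lib.MP_dd244f_an.Joint

open MeasureTheory Filter Topology Finset Set
open scoped ENNReal

/-- the truncated kernel -/
private noncomputable def tk (n : ℕ) (η : ℝ) (ζ : ℂ) : ℂ := kk n ζ * (ct η ζ : ℂ)

private theorem tk_zero {n : ℕ} {η : ℝ} (hη : 0 < η) {ζ : ℂ} (h : ‖ζ‖ ≤ η) : tk n η ζ = 0 := by
  have h1 : Complex.normSq ζ / η ^ 2 ≤ 1 := by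
    rw [div_le_one (by positivity), Complex.normSq_eq_norm_sq]
    have := norm_nonneg ζ
    nlinarith
  unfold tk ct
  rw [st_zero h1]
  simp

private theorem ct_continuous (η : ℝ) : Continuous (ct η) := by
  unfold ct
  have h : Continuous st := (st_contDiff (k := 1)).continuous
  exact h.comp (Complex.continuous_normSq.div_const _)

private theorem tk_continuous (n : ℕ) {η : ℝ} (hη : 0 < η) : Continuous (tk n η) := by
  rw [continuous_iff_continuousAt]
  intro ζ
  rcases eq_or_ne ζ 0 with rfl | hζ
  · have : tk n η =ᶠ[𝓝 0] fun _ => (0 : ℂ) := by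
      filter_upwards [Metric.ball_mem_nhds (0 : ℂ) hη] with x hx
      have : ‖x‖ < η := by simpa using hx
      exact tk_zero hη this.le
    exact (continuousAt_const.congr this.symm)
  · unfold tk kk
    refine ContinuousAt.mul ?_ ?_
    · refine ContinuousAt.div ?_ ?_ ?_
      · refine ContinuousAt.pow ?_ _
        exact (Complex.continuous_conj.continuousAt).div continuousAt_id hζ
      · exact (Complex.continuous_ofReal.comp Complex.continuous_normSq).continuousAt
      · simpa using hζ
    · exact (Complex.continuous_ofReal.comp (ct_continuous η)).continuousAt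

private theorem ct_nonneg (η : ℝ) (ζ : ℂ) : 0 ≤ ct η ζ := st_nonneg _
private theorem ct_le_one (η : ℝ) (ζ : ℂ) : ct η ζ ≤ 1 := st_le_one _

private theorem tk_bound (n : ℕ) {η : ℝ} (hη : 0 < η) (ζ : ℂ) : ‖tk n η ζ‖ ≤ 1 / η ^ 2 := by
  rcases le_or_gt ‖ζ‖ η with h | h
  · rw [tk_zero hη h]; simp; positivity
  · unfold tk
    rw [norm_mul, Complex.norm_real, Real.norm_of_nonneg (ct_nonneg η ζ)]
    calc ‖kk n ζ‖ * ct η ζ ≤ ‖kk n ζ‖ * 1 := by
          exact mul_le_mul_of_nonneg_left (ct_le_one η ζ) (norm_nonneg _)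
      _ ≤ 1 / ‖ζ‖ ^ 2 := by rw [mul_one]; exact norm_kk_le n ζ
      _ ≤ 1 / η ^ 2 := by
          apply one_div_le_one_div_of_le (by positivity)
          exact pow_le_pow_left₀ hη.le h.le 2

private theorem psi_continuousOn {x : ℝ} (hx : 0 ≤ x) : ContinuousAt psi x := by
  unfold psi
  exact continuousAt_id.div (continuousAt_const.add continuousAt_id) (by simp; linarith)

/-- the discretised field is the field of finitely many atoms -/
private theorem simple_field (n : ℕ) (η : ℝ) (f : ℂ → ℂ) (hf : Integrable f)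
    (s : SimpleFunc ℂ ℂ) (w : ℂ) :
    field n η s.range (fun y => y) (fun y => ∫ z in s ⁻¹' {y}, f z) w =
      ∫ z, f z * tk n η (w - s z) := by
  classical
  have h1 : ∀ z, f z * tk n η (w - s z) =
      ∑ y ∈ s.range, (s ⁻¹' {y}).indicator (fun z => f z * tk n η (w - y)) z := by
    intro z
    rw [Finset.sum_eq_single (s z)]
    · rw [Set.indicator_of_mem]
      simp
    · intro y _ hy
      rw [Set.indicator_of_notMem]
      simpa using hy.symm
    · intro h
      exact absurd (s.mem_range_self z) h
  simp_rw [h1]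
  rw [integral_finsetSum]
  · unfold field
    refine Finset.sum_congr rfl fun y _ => ?_
    rw [integral_indicator (s.measurableSet_preimage _), integral_mul_const]
    rfl
  · intro y _
    exact (hf.mul_const _).indicator (s.measurableSet_preimage _)

private theorem simple_mass (f : ℂ → ℂ) (hf : Integrable f) (s : SimpleFunc ℂ ℂ) :
    ∑ y ∈ s.range, ‖∫ z in s ⁻¹' {y}, f z‖ ≤ ∫ z, ‖f z‖ := by
  classical
  have h1 : ∀ z, ‖f z‖ = ∑ y ∈ s.range, (s ⁻¹' {y}).indicator (fun z => ‖f z‖) z := by
    intro z
    rw [Finset.sum_eq_single (s z)]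
    · rw [Set.indicator_of_mem]
      simp
    · intro y _ hy
      rw [Set.indicator_of_notMem]
      simpa using hy.symm
    · intro h
      exact absurd (s.mem_range_self z) h
  have h2 : ∫ z, ‖f z‖ = ∑ y ∈ s.range, ∫ z in s ⁻¹' {y}, ‖f z‖ := by
    conv_lhs => enter [2, z]; rw [h1 z]
    rw [integral_finsetSum]
    · refine Finset.sum_congr rfl fun y _ => ?_
      rw [integral_indicator (s.measurableSet_preimage _)]
    · intro y _
      exact hf.norm.indicator (s.measurableSet_preimage _)
  rw [h2]
  exact Finset.sum_le_sum fun y _ => norm_integral_le_integral_norm _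

theorem conv (h : StmtKey) : StmtConv := by
  intro ε hε
  obtain ⟨n₀, hn₀, H⟩ := h ε hε
  refine ⟨n₀, hn₀, ?_⟩
  intro n hn η f hη hfc hfs
  have hf : Integrable f := hfc.integrable_of_hasCompactSupport hfs
  obtain ⟨s, hs⟩ : ∃ s : ℕ → SimpleFunc ℂ ℂ, ∀ z, Tendsto (fun N => s N z) atTop (𝓝 z) :=
    ⟨(stronglyMeasurable_id : StronglyMeasurable (id : ℂ → ℂ)).approx,
      fun z => (stronglyMeasurable_id : StronglyMeasurable (id : ℂ → ℂ)).tendsto_approx z⟩
  have hlim : ∀ w, Tendsto (fun N => ∫ z, f z * tk n η (w - s N z)) atTop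
      (𝓝 (∫ z, f z * tk n η (w - z))) := by
    intro w
    refine tendsto_integral_of_dominated_convergence (fun z => ‖f z‖ * (1 / η ^ 2)) ?_ ?_ ?_ ?_
    · intro N
      refine hfc.aestronglyMeasurable.mul ?_
      exact ((tk_continuous n hη).measurable.comp
        (measurable_const.sub (s N).measurable)).aestronglyMeasurable
    · exact hf.norm.mul_const _
    · intro N
      filter_upwards with z
      rw [norm_mul]
      exact mul_le_mul_of_nonneg_left (tk_bound n hη _) (norm_nonneg _)
    · filter_upwards with z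
      refine Tendsto.const_mul _ ?_
      exact ((tk_continuous n hη).tendsto _).comp (tendsto_const_nhds.sub (hs z))
  have hlim2 : ∀ w, Tendsto (fun N => ENNReal.ofReal (psi (‖∫ z, f z * tk n η (w - s N z)‖ ^ 2)))
      atTop (𝓝 (ENNReal.ofReal (psi (‖∫ z, f z * tk n η (w - z)‖ ^ 2)))) := by
    intro w
    refine (ENNReal.continuous_ofReal.tendsto _).comp ?_
    refine (psi_continuousOn (by positivity)).tendsto.comp ?_
    exact ((hlim w).norm).pow 2
  have hb : ∀ N, ∫⁻ w, ENNReal.ofReal (psi (‖∫ z, f z * tk n η (w - s N z)‖ ^ 2)) ≤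
      ENNReal.ofReal ((1 + ε) * (Real.pi ^ 2 / 2) * ∫ z, ‖f z‖) := by
    intro N
    have h1 := H n hn ℂ (s N).range (fun y => y) (fun y => ∫ z in (s N) ⁻¹' {y}, f z) η hη
    simp_rw [simple_field n η f hf (s N)] at h1
    refine h1.trans (ENNReal.ofReal_le_ofReal ?_)
    exact mul_le_mul_of_nonneg_left (simple_mass f hf (s N)) (by positivity)
  have hmeas : ∀ N, Measurable
      (fun w => ENNReal.ofReal (psi (‖∫ z, f z * tk n η (w - s N z)‖ ^ 2))) := by
    intro N
    have h1 : (fun w => ∫ z, f z * tk n η (w - s N z)) = fun w =>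
        field n η (s N).range (fun y => y) (fun y => ∫ z in (s N) ⁻¹' {y}, f z) w := by
      funext w
      rw [simple_field n η f hf (s N) w]
    have h2 : Continuous (fun w => ∫ z, f z * tk n η (w - s N z)) := by
      rw [h1]
      unfold field
      refine continuous_finsetSum _ fun y _ => continuous_const.mul ?_
      exact (tk_continuous n hη).comp (continuous_id.sub continuous_const)
    refine ENNReal.measurable_ofReal.comp ?_
    have h3 : Measurable psi := by
      unfold psi
      exact measurable_id.div (measurable_const.add measurable_id)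
    exact h3.comp (h2.norm.pow 2).measurable
  calc ∫⁻ w, ENNReal.ofReal (psi (‖∫ z, f z * (kk n (w - z) * (ct η (w - z) : ℂ))‖ ^ 2))
      = ∫⁻ w, liminf (fun N => ENNReal.ofReal
          (psi (‖∫ z, f z * tk n η (w - s N z)‖ ^ 2))) atTop := by
        refine lintegral_congr fun w => ?_
        rw [(hlim2 w).liminf_eq]
        rfl
    _ ≤ liminf (fun N => ∫⁻ w, ENNReal.ofReal
          (psi (‖∫ z, f z * tk n η (w - s N z)‖ ^ 2))) atTop :=
        lintegral_liminf_le hmeas
    _ ≤ liminf (fun _ : ℕ => ENNReal.ofReal ((1 + ε) * (Real.pi ^ 2 / 2) * ∫ z, ‖f z‖)) atTop :=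
        liminf_le_liminf (Eventually.of_forall hb)
    _ = _ := by simp

end Pool.Agent.Lib.MP_dd244f_an.Joint
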