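import Pool.Agent.Lib.MP_dd244f_an.Joint.Stmts
import Pool.Agent.Lib.MP_dd244f_an.Joint.Basic

/-! (Cross) the sum of all near cross terms. -/

set_option autoImplicit false

namespace Pool.Agent.Lib.MP_dd244f_an.Joint

open MeasureTheory Filter Topology Finset

namespace Cross

variable (D : Cfg)

/-- the integrand of one pair -/
noncomputable def F (l i : ℕ) (j j' : D.ι) (w : ℂ) : ℂ :=
  kk D.n (w - D.z j) * starRingEnd ℂ (kk D.n (w - D.z j')) * (D.Wt l i j j' w : ℂ)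

theorem prod_eq (l i : ℕ) (w : ℂ) :
    D.f l w * starRingEnd ℂ (D.f i w) / ((D.Sw l w ^ 2 : ℝ) : ℂ) =
      ∑ j ∈ D.cl.C l, ∑ j' ∈ D.cl.C i, D.a j * starRingEnd ℂ (D.a j') * F D l i j j' w := by
  unfold Cfg.f
  rw [map_mul, map_sum, Complex.conj_ofReal]
  have e : ∀ (x y s t q : ℂ), ((x * s) * (y * t) / q) = (s * t) * (x * y / q) := by
    intros; ring
  rw [e, Finset.sum_mul_sum, Finset.sum_mul]
  refine Finset.sum_congr rfl fun j _ => ?_
  rw [Finset.sum_mul]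
  refine Finset.sum_congr rfl fun j' _ => ?_
  unfold F Cfg.Wt
  rw [map_mul, map_mul, Complex.conj_ofReal]
  push_cast
  ring

theorem re_eq (l : ℕ) (w : ℂ) :
    2 * (D.f l w * starRingEnd ℂ (∑ i ∈ Finset.range l, D.f i w)).re / D.Sw l w ^ 2 =
    (∑ i ∈ Finset.range l, ∑ j ∈ D.cl.C l, ∑ j' ∈ D.cl.C i,
      (2 * (D.a j * starRingEnd ℂ (D.a j'))) * F D l i j j' w).re := by
  have h : ∑ i ∈ Finset.range l, ∑ j ∈ D.cl.C l, ∑ j' ∈ D.cl.C i,
      (2 * (D.a j * starRingEnd ℂ (D.a j'))) * F D l i j j' w =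
      ((2 / D.Sw l w ^ 2 : ℝ) : ℂ) * (D.f l w * starRingEnd ℂ (∑ i ∈ Finset.range l, D.f i w)) := by
    rw [map_sum, Finset.mul_sum, Finset.mul_sum]
    refine Finset.sum_congr rfl fun i _ => ?_
    have := prod_eq D l i w
    calc _ = 2 * ∑ j ∈ D.cl.C l, ∑ j' ∈ D.cl.C i,
            D.a j * starRingEnd ℂ (D.a j') * F D l i j j' w := by
          rw [Finset.mul_sum]; refine Finset.sum_congr rfl fun j _ => ?_
          rw [Finset.mul_sum]; refine Finset.sum_congr rfl fun j' _ => ?_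
          ring
      _ = _ := by rw [← this]; push_cast; ring
  rw [h, Complex.re_ofReal_mul]
  ring

/-- the atom `j` lies in the boundary annulus of the cluster `i` -/
def Ann (i : ℕ) (j : D.ι) : Prop :=
  j ∈ D.cl.T i ∧ D.cl.s i < ‖D.z j - D.cl.c i‖ ∧ ‖D.z j - D.cl.c i‖ ≤ D.cl.s i + D.cl.R i / D.m

open Classical in
/-- indicator of the annulus -/
noncomputable def e (i : ℕ) (j : D.ι) : ℝ := if Ann D i j then 1 else 0

theorem e_nonneg (i : ℕ) (j : D.ι) : 0 ≤ e D i j := by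
  unfold e; split_ifs <;> norm_num

theorem CF_nonneg : 0 ≤ D.CF := by
  have h1 := D.hκ
  have h2 : 0 < D.L := by linarith [D.hL]
  have h3 := one_le_Mst
  unfold Cfg.CF
  positivity

theorem CG_nonneg : 0 ≤ D.CG := by
  unfold Cfg.CG
  have := Real.pi_pos
  positivity

theorem pair_le (hP : StmtPair) (hJ : StmtJSum) {l i : ℕ} {j j' : D.ι} (hl : l < D.cl.N)
    (hi : i < l) (hj : j ∈ D.cl.C l) (hj' : j' ∈ D.cl.C i) :
    ‖∫ w, F D l i j j' w‖ ≤ (D.CF / D.n + 16 * e D i j) * D.J l i := by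
  obtain ⟨-, p1, p2⟩ := hP D l i j j' hl hi hj hj'
  have hJ0 : 0 ≤ D.J l i := ((hJ D l hl).1 i hi).2
  have hCF : 0 ≤ D.CF / D.n := div_nonneg (CF_nonneg D) (Nat.cast_nonneg _)
  have he := e_nonneg D i j
  have hiN : i < D.cl.N := by omega
  rcases le_or_gt (D.cl.R i / D.m) ‖D.z j - D.z j'‖ with h | h
  · refine (p2 h).trans ?_
    have : 0 ≤ 16 * e D i j * D.J l i := by positivity
    linarith [add_mul (D.CF / D.n) (16 * e D i j) (D.J l i)]
  · have hA : Ann D i j := by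
      obtain ⟨h1, h2⟩ := D.cl.later hi hl hj
      refine ⟨h1, h2, ?_⟩
      have h3 := ((D.cl.hC i hiN j').1 hj').2
      have h4 : ‖D.z j - D.cl.c i‖ ≤ ‖D.z j - D.z j'‖ + ‖D.z j' - D.cl.c i‖ := by
        have : D.z j - D.cl.c i = (D.z j - D.z j') + (D.z j' - D.cl.c i) := by ring
        rw [this]; exact norm_add_le _ _
      linarith
    have he1 : e D i j = 1 := by unfold e; rw [if_pos hA]
    refine p1.trans ?_
    rw [he1]
    have : 0 ≤ D.CF / D.n * D.J l i := by positivity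
    linarith [add_mul (D.CF / D.n) (16 * 1) (D.J l i)]

theorem F_int (hP : StmtPair) {l i : ℕ} {j j' : D.ι} (hl : l < D.cl.N)
    (hi : i < l) (hj : j ∈ D.cl.C l) (hj' : j' ∈ D.cl.C i) : Integrable (F D l i j j') :=
  (hP D l i j j' hl hi hj hj').1

/-- the complex integrand -/
noncomputable def G (l : ℕ) (w : ℂ) : ℂ :=
  ∑ i ∈ Finset.range l, ∑ j ∈ D.cl.C l, ∑ j' ∈ D.cl.C i,
      (2 * (D.a j * starRingEnd ℂ (D.a j'))) * F D l i j j' w

theorem G_int (hP : StmtPair) {l : ℕ} (hl : l < D.cl.N) : Integrable (G D l) := by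
  unfold G
  refine integrable_finsetSum _ fun i hi => ?_
  refine integrable_finsetSum _ fun j hj => ?_
  refine integrable_finsetSum _ fun j' hj' => ?_
  exact (F_int D hP hl (Finset.mem_range.1 hi) hj hj').const_mul _

theorem G_integral (hP : StmtPair) {l : ℕ} (hl : l < D.cl.N) :
    ∫ w, G D l w = ∑ i ∈ Finset.range l, ∑ j ∈ D.cl.C l, ∑ j' ∈ D.cl.C i,
      (2 * (D.a j * starRingEnd ℂ (D.a j'))) * ∫ w, F D l i j j' w := by
  unfold G
  rw [integral_finsetSum _ fun i hi => integrable_finsetSum _ fun j hj =>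
    integrable_finsetSum _ fun j' hj' =>
      (F_int D hP hl (Finset.mem_range.1 hi) hj hj').const_mul _]
  refine Finset.sum_congr rfl fun i hi => ?_
  rw [integral_finsetSum _ fun j hj =>
    integrable_finsetSum _ fun j' hj' =>
      (F_int D hP hl (Finset.mem_range.1 hi) hj hj').const_mul _]
  refine Finset.sum_congr rfl fun j hj => ?_
  rw [integral_finsetSum _ fun j' hj' =>
      (F_int D hP hl (Finset.mem_range.1 hi) hj hj').const_mul _]
  refine Finset.sum_congr rfl fun j' hj' => ?_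
  rw [integral_const_mul]

theorem norm_G_integral (hP : StmtPair) (hJ : StmtJSum) {l : ℕ} (hl : l < D.cl.N) :
    ‖∫ w, G D l w‖ ≤ ∑ j ∈ D.cl.C l,
      2 * D.CG * (‖D.a j‖ * (D.CF / D.n + 16 * ∑ k ∈ Finset.range D.cl.N, e D k j)) := by
  rw [G_integral D hP hl]
  have h1 : ‖∑ i ∈ Finset.range l, ∑ j ∈ D.cl.C l, ∑ j' ∈ D.cl.C i,
      (2 * (D.a j * starRingEnd ℂ (D.a j'))) * ∫ w, F D l i j j' w‖ ≤
      ∑ i ∈ Finset.range l, ∑ j ∈ D.cl.C l, ∑ j' ∈ D.cl.C i,
        2 * (‖D.a j‖ * ‖D.a j'‖) * ((D.CF / D.n + 16 * e D i j) * D.J l i) := by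
    refine (norm_sum_le _ _).trans (Finset.sum_le_sum fun i hi => ?_)
    refine (norm_sum_le _ _).trans (Finset.sum_le_sum fun j hj => ?_)
    refine (norm_sum_le _ _).trans (Finset.sum_le_sum fun j' hj' => ?_)
    rw [norm_mul, norm_mul, norm_mul, RCLike.norm_conj, RCLike.norm_ofNat]
    exact mul_le_mul_of_nonneg_left (pair_le D hP hJ hl (Finset.mem_range.1 hi) hj hj')
      (by positivity)
  refine h1.trans ?_
  rw [Finset.sum_comm]
  refine Finset.sum_le_sum fun j hj => ?_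
  have h2 : ∀ i ∈ Finset.range l, ∑ j' ∈ D.cl.C i,
      2 * (‖D.a j‖ * ‖D.a j'‖) * ((D.CF / D.n + 16 * e D i j) * D.J l i) ≤
      (2 * ‖D.a j‖ * (D.CF / D.n + 16 * ∑ k ∈ Finset.range D.cl.N, e D k j)) *
        (D.A i * D.J l i) := by
    intro i hi
    have hil := Finset.mem_range.1 hi
    have hJ0 : 0 ≤ D.J l i := ((hJ D l hl).1 i hil).2
    have e1 : ∑ j' ∈ D.cl.C i, 2 * (‖D.a j‖ * ‖D.a j'‖) * ((D.CF / D.n + 16 * e D i j) * D.J l i)
        = (2 * ‖D.a j‖ * (D.CF / D.n + 16 * e D i j)) * (D.A i * D.J l i) := by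
      unfold Cfg.A
      rw [Finset.sum_mul, Finset.mul_sum]
      exact Finset.sum_congr rfl fun j' _ => by ring
    rw [e1]
    have e2 : e D i j ≤ ∑ k ∈ Finset.range D.cl.N, e D k j :=
      Finset.single_le_sum (f := fun k => e D k j) (fun k _ => e_nonneg D k j)
        (Finset.mem_range.2 (by omega))
    have hA := D.A_nonneg i
    refine mul_le_mul_of_nonneg_right ?_ (by positivity)
    refine mul_le_mul_of_nonneg_left ?_ (by positivity)
    linarith
  refine (Finset.sum_le_sum h2).trans ?_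
  rw [← Finset.mul_sum]
  have h3 := (hJ D l hl).2
  have h4 : 0 ≤ ∑ k ∈ Finset.range D.cl.N, e D k j := Finset.sum_nonneg fun k _ => e_nonneg D k j
  have h5 : 0 ≤ D.CF / D.n := div_nonneg (CF_nonneg D) (Nat.cast_nonneg _)
  calc (2 * ‖D.a j‖ * (D.CF / D.n + 16 * ∑ k ∈ Finset.range D.cl.N, e D k j)) *
        ∑ i ∈ Finset.range l, D.A i * D.J l i
      ≤ (2 * ‖D.a j‖ * (D.CF / D.n + 16 * ∑ k ∈ Finset.range D.cl.N, e D k j)) * D.CG :=
        mul_le_mul_of_nonneg_left h3 (by positivity)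
    _ = _ := by ring

theorem ann_le {k : ℕ} (hk : k < D.cl.N) :
    ∑ j ∈ D.S, ‖D.a j‖ * e D k j ≤ 4 / D.m * D.A k := by
  classical
  have h1 : ∑ j ∈ D.S, ‖D.a j‖ * e D k j = ∑ j ∈ D.S.filter (fun j => Ann D k j), ‖D.a j‖ := by
    rw [Finset.sum_filter]
    refine Finset.sum_congr rfl fun j _ => ?_
    unfold e
    split_ifs <;> simp
  have h2 := D.cl.hAnn k hk (D.S.filter (fun j => Ann D k j))
    (fun j hj => (Finset.mem_filter.1 hj).2.1)
    (fun j hj => (Finset.mem_filter.1 hj).2.2)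
  have h3 := D.A1 hk
  have hκ := D.hκ
  have hm : (0 : ℝ) < D.m := by exact_mod_cast D.hm
  rw [h1]
  have h4 : D.κ ^ 2 * ∑ j ∈ D.S.filter (fun j => Ann D k j), ‖D.a j‖ ≤
      D.κ ^ 2 * (4 / D.m * D.A k) := by
    refine h2.trans ?_
    calc 4 / (D.m : ℝ) * D.cl.R k ^ 2 ≤ 4 / (D.m : ℝ) * (D.κ ^ 2 * D.A k) :=
          mul_le_mul_of_nonneg_left h3 (by positivity)
      _ = _ := by ring
  exact le_of_mul_le_mul_left h4 (by positivity)

end Cross

open Cross in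
theorem cross (hP : StmtPair) (hJ : StmtJSum) : StmtCross := by
  intro D
  have e1 : ∀ l, (fun w => 2 * (D.f l w *
      starRingEnd ℂ (∑ i ∈ Finset.range l, D.f i w)).re / D.Sw l w ^ 2) =
      fun w => (G D l w).re := by
    intro l; funext w; exact re_eq D l w
  constructor
  · intro l hl
    rw [e1]
    exact (G_int D hP hl).re
  have h1 : ∀ l ∈ Finset.range D.cl.N, ∫ w, 2 * (D.f l w *
      starRingEnd ℂ (∑ i ∈ Finset.range l, D.f i w)).re / D.Sw l w ^ 2 ≤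
      ∑ j ∈ D.cl.C l,
      2 * D.CG * (‖D.a j‖ * (D.CF / D.n + 16 * ∑ k ∈ Finset.range D.cl.N, e D k j)) := by
    intro l hl
    have hl' := Finset.mem_range.1 hl
    rw [e1]
    have e2 : ∫ w, (G D l w).re = (∫ w, G D l w).re := by
      have := integral_re (G_int D hP hl')
      exact this
    rw [e2]
    exact (Complex.re_le_norm _).trans (norm_G_integral D hP hJ hl')
  refine (Finset.sum_le_sum h1).trans ?_
  rw [D.cl.sum_C (fun j => 2 * D.CG * (‖D.a j‖ * (D.CF / D.n + 16 * ∑ k ∈ Finset.range D.cl.N,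
    e D k j))), ← Finset.mul_sum]
  have h2 : ∑ j ∈ D.S, ‖D.a j‖ * (D.CF / D.n + 16 * ∑ k ∈ Finset.range D.cl.N, e D k j) =
      D.CF / D.n * ∑ j ∈ D.S, ‖D.a j‖ +
        16 * ∑ k ∈ Finset.range D.cl.N, ∑ j ∈ D.S, ‖D.a j‖ * e D k j := by
    rw [Finset.sum_comm, Finset.mul_sum, Finset.mul_sum, ← Finset.sum_add_distrib]
    refine Finset.sum_congr rfl fun j _ => ?_
    rw [← Finset.mul_sum]
    ring
  have h3 : ∑ k ∈ Finset.range D.cl.N, ∑ j ∈ D.S, ‖D.a j‖ * e D k j ≤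
      4 / D.m * ∑ j ∈ D.S, ‖D.a j‖ := by
    rw [← D.sum_A, Finset.mul_sum]
    exact Finset.sum_le_sum fun k hk => ann_le D (Finset.mem_range.1 hk)
  rw [h2]
  have hCG := CG_nonneg D
  calc 2 * D.CG * (D.CF / D.n * ∑ j ∈ D.S, ‖D.a j‖ +
        16 * ∑ k ∈ Finset.range D.cl.N, ∑ j ∈ D.S, ‖D.a j‖ * e D k j)
      ≤ 2 * D.CG * (D.CF / D.n * ∑ j ∈ D.S, ‖D.a j‖ + 16 * (4 / D.m * ∑ j ∈ D.S, ‖D.a j‖)) := by
        gcongr
    _ = _ := by ring

end Pool.Agent.Lib.MP_dd244f_an.Joint
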