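import Pool.Agent.Lib.MP_dd244f_an.Joint.Stmts
import Pool.Agent.Lib.MP_dd244f_an.Joint.Basic

/-! Module Dom: the near field is dominated by its majorant. -/

set_option autoImplicit false

namespace Pool.Agent.Lib.MP_dd244f_an.Joint

open MeasureTheory Finset

theorem domCt_nonneg (ρ : ℝ) (ζ : ℂ) : 0 ≤ ct ρ ζ := st_nonneg _

theorem domCt_le_one (ρ : ℝ) (ζ : ℂ) : ct ρ ζ ≤ 1 := st_le_one _

theorem domCt_zero {ρ : ℝ} (hρ : 0 < ρ) {ζ : ℂ} (h : ‖ζ‖ ≤ ρ) : ct ρ ζ = 0 := by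
  unfold ct
  apply st_zero
  rw [Complex.normSq_eq_norm_sq, div_le_one (by positivity)]
  have := norm_nonneg ζ
  gcongr

theorem dom_num {K R v : ℝ} (hK : 8 ≤ K) (hR : 0 < R) (hv : K * R < v) :
    v ^ 2 + R ^ 2 ≤ (1 + 8 / K) * (v - 2 * R) ^ 2 := by
  obtain ⟨t, ht, rfl⟩ : ∃ t, 0 < t ∧ v = K * R + t := ⟨v - K * R, by linarith, by ring⟩
  have hK0 : 0 < K := by linarith
  have h1 : 0 ≤ 4 * K ^ 2 - 29 * K + 32 := by nlinarith
  have h2 : 0 ≤ 6 * K - 16 := by linarith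
  have h3 : K * ((K * R + t) ^ 2 + R ^ 2) ≤ (K + 8) * (K * R + t - 2 * R) ^ 2 := by
    have e : (K + 8) * (K * R + t - 2 * R) ^ 2 - K * ((K * R + t) ^ 2 + R ^ 2) =
        8 * t ^ 2 + 2 * R * t * (6 * K - 16) + R ^ 2 * (4 * K ^ 2 - 29 * K + 32) := by ring
    have : 0 ≤ 8 * t ^ 2 + 2 * R * t * (6 * K - 16) + R ^ 2 * (4 * K ^ 2 - 29 * K + 32) := by
      positivity
    linarith
  have e2 : (1 + 8 / K) * (K * R + t - 2 * R) ^ 2 =
      ((K + 8) * (K * R + t - 2 * R) ^ 2) / K := by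
    field_simp
  rw [e2, le_div_iff₀ hK0]
  linarith

theorem dom : StmtDom := by
  intro D i hi w
  have hR := D.cl.hRpos i hi
  have hK := D.hK
  have hσ := D.hσ
  by_cases hv : D.v i w ≤ D.K * D.cl.R i
  · have hchi : D.chi i w = 0 := domCt_zero (by positivity) hv
    unfold Cfg.f
    rw [hchi]
    simpa using D.b_nonneg i w
  · rw [not_le] at hv
    have hKR : 8 * D.cl.R i ≤ D.K * D.cl.R i := mul_le_mul_of_nonneg_right hK hR.le
    have hv2 : 0 < D.v i w - 2 * D.cl.R i := by linarith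
    have hterm : ∀ j ∈ D.cl.C i, ‖D.a j * (kk D.n (w - D.z j) * (D.nr i (w - D.z j) : ℂ))‖ ≤
        ‖D.a j‖ * (1 / (D.v i w - 2 * D.cl.R i) ^ 2) := by
      intro j hj
      rw [norm_mul, norm_mul, Complex.norm_real, Real.norm_eq_abs]
      have h1 : |D.nr i (w - D.z j)| ≤ 1 := by
        unfold Cfg.nr
        rw [abs_mul, abs_of_nonneg (domCt_nonneg _ _),
          abs_of_nonneg (by linarith [domCt_le_one (D.rho i) (w - D.z j)])]
        exact mul_le_one₀ (domCt_le_one _ _) (by linarith [domCt_le_one (D.rho i) (w - D.z j)])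
          (by linarith [domCt_nonneg (D.rho i) (w - D.z j)])
      have h2 : D.v i w - 2 * D.cl.R i ≤ ‖w - D.z j‖ := by
        have h3 := D.cl.norm_le_of_mem_C hi hj
        have h4 : ‖w - D.cl.c i‖ ≤ ‖w - D.z j‖ + ‖D.z j - D.cl.c i‖ := norm_sub_le_norm_sub_add_norm_sub _ _ _
        unfold Cfg.v
        linarith
      have h3 : ‖kk D.n (w - D.z j)‖ ≤ 1 / (D.v i w - 2 * D.cl.R i) ^ 2 := by
        refine (norm_kk_le _ _).trans ?_
        gcongr
      calc ‖D.a j‖ * (‖kk D.n (w - D.z j)‖ * |D.nr i (w - D.z j)|)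
          ≤ ‖D.a j‖ * (1 / (D.v i w - 2 * D.cl.R i) ^ 2 * 1) := by gcongr
        _ = _ := by ring
    have hf : ‖D.f i w‖ ≤ D.A i / (D.v i w - 2 * D.cl.R i) ^ 2 := by
      unfold Cfg.f
      rw [norm_mul, Complex.norm_real, Real.norm_eq_abs]
      have h1 : |D.chi i w| ≤ 1 := by
        unfold Cfg.chi
        rw [abs_of_nonneg (domCt_nonneg _ _)]
        exact domCt_le_one _ _
      calc |D.chi i w| * ‖∑ j ∈ D.cl.C i, D.a j * (kk D.n (w - D.z j) * (D.nr i (w - D.z j) : ℂ))‖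
          ≤ 1 * ∑ j ∈ D.cl.C i, ‖D.a j‖ * (1 / (D.v i w - 2 * D.cl.R i) ^ 2) := by
            gcongr
            exact (norm_sum_le _ _).trans (Finset.sum_le_sum hterm)
        _ = _ := by
          rw [← Finset.sum_mul]
          unfold Cfg.A
          ring
    have hnum := dom_num hK hR hv
    have hA := D.A_nonneg i
    have hden : 0 < D.v i w ^ 2 + D.cl.R i ^ 2 := by positivity
    have hfin : ‖(D.σ : ℂ) * D.f i w‖ ≤
        D.σ * (1 + 8 / D.K) * D.A i / (D.v i w ^ 2 + D.cl.R i ^ 2) := by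
      rw [norm_mul, Complex.norm_real, Real.norm_eq_abs, abs_of_nonneg (by linarith)]
      have h1 : D.A i / (D.v i w - 2 * D.cl.R i) ^ 2 ≤
          (1 + 8 / D.K) * D.A i / (D.v i w ^ 2 + D.cl.R i ^ 2) := by
        rw [div_le_div_iff₀ (by positivity) hden]
        calc D.A i * (D.v i w ^ 2 + D.cl.R i ^ 2)
            ≤ D.A i * ((1 + 8 / D.K) * (D.v i w - 2 * D.cl.R i) ^ 2) := by gcongr
          _ = _ := by ring
      calc D.σ * ‖D.f i w‖ ≤ D.σ * ((1 + 8 / D.K) * D.A i / (D.v i w ^ 2 + D.cl.R i ^ 2)) := by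
            gcongr
            exact hf.trans h1
        _ = _ := by ring
    unfold Cfg.b
    rw [← div_pow]
    gcongr

end Pool.Agent.Lib.MP_dd244f_an.Joint
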