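import Pool.Agent.Lib.MP_dd244f_an.Joint.ExplicitGauss

/-!
One-dimensional integrals for the explicit pair.
-/

set_option autoImplicit false

namespace Pool.Agent.Lib.MP_dd244f_an.Joint.ExplicitAux

open MeasureTheory Filter Topology Set

theorem gam_int (m : ℕ) {a : ℝ} (ha : 0 < a) :
    ∫ t in Ioi (0 : ℝ), t ^ m * Real.exp (-(a * t)) = m.factorial / a ^ (m + 1) := by
  have h := Real.integral_rpow_mul_exp_neg_mul_Ioi (a := (m : ℝ) + 1) (r := a) (by positivity) ha
  rw [Real.Gamma_nat_eq_factorial] at h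
  have e : ∀ t : ℝ, t ^ ((m : ℝ) + 1 - 1) = t ^ m := by
    intro t; rw [add_sub_cancel_right, Real.rpow_natCast]
  simp_rw [e] at h
  rw [h]
  have : ((m : ℝ) + 1) = ((m + 1 : ℕ) : ℝ) := by push_cast; ring
  rw [this, Real.rpow_natCast, div_pow, one_pow, one_div_mul_eq_div]

theorem gam_integrable (m : ℕ) {a : ℝ} (ha : 0 < a) :
    IntegrableOn (fun t : ℝ => t ^ m * Real.exp (-(a * t))) (Ioi 0) := by
  by_contra h
  have h1 := gam_int m ha
  rw [integral_undef h] at h1
  have : (0 : ℝ) < m.factorial / a ^ (m + 1) := by positivity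
  linarith

/-- `j k a b t = t ^ k exp (- (a t) - b / t)` -/
noncomputable def jf (k : ℕ) (a b t : ℝ) : ℝ := t ^ k * Real.exp (-(a * t) - b / t)

noncomputable def JJ (k : ℕ) (a b : ℝ) : ℝ := ∫ t in Ioi (0 : ℝ), jf k a b t

theorem jf_nonneg {k : ℕ} {a b t : ℝ} (ht : 0 < t) : 0 ≤ jf k a b t := by
  unfold jf; positivity

theorem jf_le {k : ℕ} {a b t : ℝ} (hb : 0 ≤ b) (ht : 0 < t) :
    jf k a b t ≤ t ^ k * Real.exp (-(a * t)) := by
  unfold jf
  have : 0 ≤ b / t := by positivity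
  gcongr
  linarith

theorem jf_meas (k : ℕ) (a b : ℝ) : Measurable (jf k a b) := by
  unfold jf
  fun_prop

theorem jf_integrable (k : ℕ) {a b : ℝ} (ha : 0 < a) (hb : 0 ≤ b) :
    IntegrableOn (jf k a b) (Ioi 0) := by
  refine Integrable.mono' (gam_integrable k ha) (jf_meas k a b).aestronglyMeasurable ?_
  filter_upwards [ae_restrict_mem measurableSet_Ioi] with t ht
  rw [Real.norm_of_nonneg (jf_nonneg ht)]
  exact jf_le hb ht

theorem JJ_le (k : ℕ) {a b : ℝ} (ha : 0 < a) (hb : 0 ≤ b) :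
    JJ k a b ≤ k.factorial / a ^ (k + 1) := by
  rw [← gam_int k ha]
  unfold JJ
  refine setIntegral_mono_on (jf_integrable k ha hb) (gam_integrable k ha) measurableSet_Ioi ?_
  intro t ht
  exact jf_le hb ht

theorem JJ_nonneg (k : ℕ) (a b : ℝ) : 0 ≤ JJ k a b :=
  setIntegral_nonneg measurableSet_Ioi fun _ ht => jf_nonneg ht

theorem image_div {c : ℝ} (hc : 0 < c) : (fun t : ℝ => c / t) '' Ioi 0 = Ioi 0 := by
  ext x
  constructor
  · rintro ⟨y, hy, rfl⟩
    exact div_pos hc hy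
  · intro hx
    refine ⟨c / x, div_pos hc hx, ?_⟩
    have : x ≠ 0 := ne_of_gt hx
    simp only
    field_simp

theorem inj_div {c : ℝ} (hc : 0 < c) : InjOn (fun t : ℝ => c / t) (Ioi 0) := by
  intro x hx y hy h
  simp only at h
  have hx' : x ≠ 0 := ne_of_gt hx
  have hy' : y ≠ 0 := ne_of_gt hy
  rw [div_eq_div_iff hx' hy'] at h
  exact (mul_left_cancel₀ hc.ne' h).symm

theorem deriv_div {c : ℝ} : ∀ x ∈ Ioi (0 : ℝ),
    HasDerivWithinAt (fun t : ℝ => c / t) (-(c / x ^ 2)) (Ioi 0) x := by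
  intro x hx
  have hx' : x ≠ 0 := ne_of_gt hx
  have h := ((hasDerivAt_inv hx').const_mul c).hasDerivWithinAt (s := Ioi 0)
  simp only [← div_eq_mul_inv] at h
  exact h.congr_deriv (by rw [mul_neg, ← div_eq_mul_inv])

theorem subst_eq (k : ℕ) {a b : ℝ} (ha : 0 < a) (hb : 0 < b) {t : ℝ} (ht : t ∈ Ioi (0:ℝ)) :
    |-(b / a / t ^ 2)| • ((((b / a / t)) ^ (k + 2))⁻¹ * Real.exp (-(a * (b / a / t)) - b / (b / a / t)))
      = (a / b) ^ (k + 1) * jf k a b t := by
  have ht' : (0 : ℝ) < t := ht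
  rw [abs_neg, abs_of_pos (by positivity), smul_eq_mul]
  unfold jf
  have e1 : -(a * (b / a / t)) - b / (b / a / t) = -(a * t) - b / t := by
    field_simp
    ring
  rw [e1, ← mul_assoc, ← mul_assoc]
  congr 1
  have hc : 0 < b / a := by positivity
  rw [div_pow, inv_div, show a / b = (b / a)⁻¹ by rw [inv_div], inv_pow]
  generalize b / a = c at hc
  rw [pow_succ c (k + 1), pow_add t k 2]
  field_simp

theorem inv_integrable (k : ℕ) {a b : ℝ} (ha : 0 < a) (hb : 0 < b) :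
    IntegrableOn (fun t : ℝ => (t ^ (k + 2))⁻¹ * Real.exp (-(a * t) - b / t)) (Ioi 0) := by
  have hc : 0 < b / a := by positivity
  have h := integrableOn_image_iff_integrableOn_abs_deriv_smul measurableSet_Ioi
    (deriv_div (c := b / a)) (inj_div hc)
    (fun t : ℝ => (t ^ (k + 2))⁻¹ * Real.exp (-(a * t) - b / t))
  rw [image_div hc] at h
  rw [h]
  refine IntegrableOn.congr_fun ((jf_integrable k ha hb.le).const_mul ((a / b) ^ (k + 1)))
    (fun t ht => ?_) measurableSet_Ioi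
  exact (subst_eq k ha hb ht).symm

theorem inv_int (k : ℕ) {a b : ℝ} (ha : 0 < a) (hb : 0 < b) :
    ∫ t in Ioi (0 : ℝ), (t ^ (k + 2))⁻¹ * Real.exp (-(a * t) - b / t)
      = (a / b) ^ (k + 1) * JJ k a b := by
  have hc : 0 < b / a := by positivity
  have h := integral_image_eq_integral_abs_deriv_smul measurableSet_Ioi
    (deriv_div (c := b / a)) (inj_div hc)
    (fun t : ℝ => (t ^ (k + 2))⁻¹ * Real.exp (-(a * t) - b / t))
  rw [image_div hc] at h
  rw [h]
  unfold JJ
  rw [← integral_const_mul]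
  exact setIntegral_congr_fun measurableSet_Ioi fun t ht => subst_eq k ha hb ht

theorem pow_mul_exp_le (m : ℕ) {x : ℝ} (hx : 0 ≤ x) : x ^ m * Real.exp (-x) ≤ m.factorial := by
  have h1 := Real.pow_div_factorial_le_exp (x := x) hx m
  rw [Real.exp_neg, ← div_eq_mul_inv, div_le_iff₀ (Real.exp_pos _)]
  rwa [div_le_iff₀ (by positivity), mul_comm] at h1

end Pool.Agent.Lib.MP_dd244f_an.Joint.ExplicitAux
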