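import Pool.Agent.Lib.MP_dd244f_an.Joint.Stmts
import Pool.Agent.Lib.MP_dd244f_an.Joint.Basic
import Pool.Agent.Lib.MP_dd244f_an.Joint.ExplicitInt

/-!
The explicit pair: `σ ^ (2 n) T^n P = (-1) ^ n K` with `P = (σ² + |z|²) ^ (-n-1)` and
`K = conj z ^ (2 n) (σ² + |z|²) ^ (-n-1)`, tested against a Schwartz function.
Both kernels are superpositions of Gaussians.
-/

set_option autoImplicit false

namespace Pool.Agent.Lib.MP_dd244f_an.Joint.ExplicitAux

open MeasureTheory Filter Topology Set SchwartzMap FourierTransform Function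
open scoped SchwartzMap ContDiff

/-- almost every point of the product has a positive second coordinate -/
theorem ae_pos : ∀ᵐ p : ℂ × ℝ ∂((volume : Measure ℂ).prod (volume.restrict (Ioi (0 : ℝ)))),
    0 < p.2 := by
  have h : ∀ᵐ t ∂(volume.restrict (Ioi (0 : ℝ))), 0 < t := ae_restrict_mem measurableSet_Ioi
  exact Measure.quasiMeasurePreserving_snd.ae h

theorem fourier_integrable (f : 𝓢(ℂ, ℂ)) : Integrable (𝓕 (f : ℂ → ℂ)) := by
  rw [← SchwartzMap.fourier_coe]; exact (𝓕 f).integrable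

theorem fourier_continuous (f : 𝓢(ℂ, ℂ)) : Continuous (𝓕 (f : ℂ → ℂ)) := by
  rw [← SchwartzMap.fourier_coe]; exact (𝓕 f).continuous

theorem inversion (f : 𝓢(ℂ, ℂ)) (z : ℂ) : 𝓕⁻ (𝓕 (f : ℂ → ℂ)) z = f z := by
  rw [← SchwartzMap.fourier_coe, ← SchwartzMap.fourierInv_coe]
  simp

/-- frequency parameter -/
noncomputable def bb (ξ : ℂ) : ℝ := Real.pi ^ 2 * Complex.normSq ξ

theorem bb_nonneg (ξ : ℂ) : 0 ≤ bb ξ := by
  have := Complex.normSq_nonneg ξ
  unfold bb; positivity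

theorem bb_pos {ξ : ℂ} (h : ξ ≠ 0) : 0 < bb ξ := by
  have := Complex.normSq_pos.2 h
  unfold bb; positivity

theorem bb_continuous : Continuous bb := by
  unfold bb
  exact continuous_const.mul Complex.continuous_normSq

/-! ### The kernel side -/

noncomputable def FA (k : ℕ) (f : 𝓢(ℂ, ℂ)) (w : ℂ) (a : ℝ) (z : ℂ) (t : ℝ) : ℂ :=
  f z * ((starRingEnd ℂ (w - z)) ^ (2 * (k + 1)) *
    ((t ^ (k + 1) * Real.exp (-((a + Complex.normSq (w - z)) * t)) : ℝ) : ℂ))

theorem FA_integrable (k : ℕ) (f : 𝓢(ℂ, ℂ)) (w : ℂ) {a : ℝ} (ha : 0 < a) :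
    Integrable (uncurry (FA k f w a)) (volume.prod (volume.restrict (Ioi (0 : ℝ)))) := by
  have h0 : IntegrableOn (fun t : ℝ => Real.exp (-(a * t))) (Ioi 0) := by
    simpa using gam_integrable 0 ha
  have h1 := (f.integrable (μ := volume)).norm.mul_prod (ν := volume.restrict (Ioi (0 : ℝ)))
    (h0.const_mul ((k + 1).factorial : ℝ))
  refine h1.mono' ?_ ?_
  · have hc : Continuous (uncurry (FA k f w a)) := by
      unfold FA uncurry
      have h2 : Continuous fun p : ℂ × ℝ => f p.1 := f.continuous.comp continuous_fst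
      have h3 : Continuous fun p : ℂ × ℝ => starRingEnd ℂ (w - p.1) :=
        Complex.continuous_conj.comp (continuous_const.sub continuous_fst)
      have h4 : Continuous fun p : ℂ × ℝ => Complex.normSq (w - p.1) :=
        Complex.continuous_normSq.comp (continuous_const.sub continuous_fst)
      fun_prop
    exact hc.aestronglyMeasurable
  · filter_upwards [ae_pos] with p hp
    obtain ⟨z, t⟩ := p
    simp only at hp
    simp only [uncurry, FA]
    have hs := Complex.normSq_nonneg (w - z)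
    rw [norm_mul, norm_mul, norm_pow, RCLike.norm_conj, Complex.norm_real,
      Real.norm_of_nonneg (by positivity), pow_mul, ← Complex.normSq_eq_norm_sq]
    refine mul_le_mul_of_nonneg_left ?_ (norm_nonneg _)
    have h5 := pow_mul_exp_le (k + 1) (x := Complex.normSq (w - z) * t) (by positivity)
    calc Complex.normSq (w - z) ^ (k + 1) *
          (t ^ (k + 1) * Real.exp (-((a + Complex.normSq (w - z)) * t)))
        = ((Complex.normSq (w - z) * t) ^ (k + 1) * Real.exp (-(Complex.normSq (w - z) * t)))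
            * Real.exp (-(a * t)) := by
          rw [show -((a + Complex.normSq (w - z)) * t) = -(Complex.normSq (w - z) * t) + -(a * t) by
            ring, Real.exp_add, mul_pow]
          ring
      _ ≤ ((k + 1).factorial : ℝ) * Real.exp (-(a * t)) := by gcongr

theorem FA_inner (k : ℕ) (f : 𝓢(ℂ, ℂ)) (w : ℂ) {a : ℝ} (ha : 0 < a) (z : ℂ) :
    ∫ t in Ioi (0 : ℝ), FA k f w a z t = f z * ((starRingEnd ℂ (w - z)) ^ (2 * (k + 1)) *
      (((k + 1).factorial / (a + Complex.normSq (w - z)) ^ (k + 2) : ℝ) : ℂ)) := by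
  unfold FA
  have hs := Complex.normSq_nonneg (w - z)
  rw [integral_const_mul, integral_const_mul, integral_complex_ofReal,
    gam_int (k + 1) (by positivity : 0 < a + Complex.normSq (w - z))]

noncomputable def HA (k : ℕ) (f : 𝓢(ℂ, ℂ)) (w : ℂ) (a : ℝ) (ξ : ℂ) (t : ℝ) : ℂ :=
  𝓕 (f : ℂ → ℂ) ξ * (ch w ξ * ((Real.pi * Complex.I * starRingEnd ℂ ξ) ^ (2 * (k + 1)) *
    ((Real.pi * ((t ^ (k + 2))⁻¹ * Real.exp (-(a * t) - bb ξ / t)) : ℝ) : ℂ)))

theorem FA_outer (k : ℕ) (f : 𝓢(ℂ, ℂ)) (w : ℂ) (a : ℝ) {t : ℝ} (ht : 0 < t) :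
    ∫ z, FA k f w a z t = ∫ ξ, HA k f w a ξ t := by
  have h1 := pairing (fourier_integrable f) (dz^[2 * (k + 1)] (G t ht)) w
  have e1 : ∀ z, FA k f w a z t = ((Real.exp (-(a * t)) / t ^ (k + 1) : ℝ) : ℂ) *
      (𝓕⁻ (𝓕 (f : ℂ → ℂ)) z * (dz^[2 * (k + 1)] (G t ht)) (w - z)) := by
    intro z
    unfold FA
    rw [inversion, dz_G, pow_mul (-(t : ℂ)) 2, neg_sq,
      show -((a + Complex.normSq (w - z)) * t) = -(a * t) + -(t * Complex.normSq (w - z)) by ring,
      Real.exp_add]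
    have ht' : (t : ℂ) ≠ 0 := by exact_mod_cast ht.ne'
    push_cast
    field_simp
    ring
  have e2 : ∀ ξ, HA k f w a ξ t = ((Real.exp (-(a * t)) / t ^ (k + 1) : ℝ) : ℂ) *
      (𝓕 (f : ℂ → ℂ) ξ * (ch w ξ * 𝓕 (dz^[2 * (k + 1)] (G t ht)) ξ)) := by
    intro ξ
    unfold HA
    rw [fourier_dz_G, sub_eq_add_neg, Real.exp_add]
    unfold bb
    have ht' : (t : ℂ) ≠ 0 := by exact_mod_cast ht.ne'
    push_cast
    field_simp
    ring
  simp_rw [e1, e2]
  rw [integral_const_mul, integral_const_mul, h1]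

theorem HA_meas (k : ℕ) (f : 𝓢(ℂ, ℂ)) (w : ℂ) (a : ℝ) : Measurable (uncurry (HA k f w a)) := by
  unfold HA uncurry
  have h1 : Measurable fun p : ℂ × ℝ => 𝓕 (f : ℂ → ℂ) p.1 :=
    (fourier_continuous f).measurable.comp measurable_fst
  have h2 : Measurable fun p : ℂ × ℝ => ch w p.1 := (continuous_ch w).measurable.comp measurable_fst
  have h3 : Measurable fun p : ℂ × ℝ => starRingEnd ℂ p.1 :=
    Complex.continuous_conj.measurable.comp measurable_fst
  have h4 : Measurable fun p : ℂ × ℝ => bb p.1 := bb_continuous.measurable.comp measurable_fst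
  have h5 : Measurable fun p : ℂ × ℝ => Real.pi * ((p.2 ^ (k + 2))⁻¹ * Real.exp (-(a * p.2) - bb p.1 / p.2)) := by
    fun_prop
  exact h1.mul (h2.mul (((h3.const_mul _).pow_const _).mul (Complex.measurable_ofReal.comp h5)))

theorem norm_HA (k : ℕ) (f : 𝓢(ℂ, ℂ)) (w : ℂ) (a : ℝ) (ξ : ℂ) {t : ℝ} (ht : 0 < t) :
    ‖HA k f w a ξ t‖ = ‖𝓕 (f : ℂ → ℂ) ξ‖ * (bb ξ ^ (k + 1) * Real.pi) *
      ((t ^ (k + 2))⁻¹ * Real.exp (-(a * t) - bb ξ / t)) := by
  unfold HA
  rw [norm_mul, norm_mul, norm_mul, norm_ch, one_mul, norm_pow, norm_mul, norm_mul,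
    RCLike.norm_conj, Complex.norm_I, mul_one, Complex.norm_real, Complex.norm_real,
    Real.norm_of_nonneg Real.pi_pos.le, Real.norm_of_nonneg (by positivity), pow_mul, mul_pow,
    ← Complex.normSq_eq_norm_sq]
  unfold bb
  ring

theorem HA_inner_integrable (k : ℕ) (f : 𝓢(ℂ, ℂ)) (w : ℂ) {a : ℝ} (ha : 0 < a) {ξ : ℂ}
    (hξ : ξ ≠ 0) : Integrable (HA k f w a ξ) (volume.restrict (Ioi (0 : ℝ))) := by
  unfold HA
  have h := ((inv_integrable k ha (bb_pos hξ)).const_mul Real.pi).ofReal (𝕜 := ℂ)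
  exact ((h.const_mul _).const_mul _).const_mul _

theorem HA_integrable (k : ℕ) (f : 𝓢(ℂ, ℂ)) (w : ℂ) {a : ℝ} (ha : 0 < a) :
    Integrable (uncurry (HA k f w a)) (volume.prod (volume.restrict (Ioi (0 : ℝ)))) := by
  have hm : AEStronglyMeasurable (uncurry (HA k f w a))
      (volume.prod (volume.restrict (Ioi (0 : ℝ)))) := (HA_meas k f w a).aestronglyMeasurable
  rw [integrable_prod_iff hm]
  have hne : ∀ᵐ ξ : ℂ, ξ ≠ 0 := by
    rw [ae_iff]; simp
  constructor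
  · filter_upwards [hne] with ξ hξ
    exact HA_inner_integrable k f w ha hξ
  · have h1 := (fourier_integrable f).norm.const_mul (a ^ (k + 1) * Real.pi *
      (k.factorial / a ^ (k + 1)))
    refine h1.mono' hm.norm.integral_prod_right' ?_
    filter_upwards [hne] with ξ hξ
    rw [Real.norm_of_nonneg (integral_nonneg fun _ => norm_nonneg _)]
    have e1 : ∫ t in Ioi (0 : ℝ), ‖uncurry (HA k f w a) (ξ, t)‖ =
        ∫ t in Ioi (0 : ℝ), ‖𝓕 (f : ℂ → ℂ) ξ‖ * (bb ξ ^ (k + 1) * Real.pi) *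
      ((t ^ (k + 2))⁻¹ * Real.exp (-(a * t) - bb ξ / t)) :=
      setIntegral_congr_fun measurableSet_Ioi fun t ht => norm_HA k f w a ξ ht
    rw [e1, integral_const_mul, inv_int k ha (bb_pos hξ)]
    have h2 := JJ_le k ha (bb_nonneg ξ)
    have h3 := bb_pos hξ
    calc ‖𝓕 (f : ℂ → ℂ) ξ‖ * (bb ξ ^ (k + 1) * Real.pi) * ((a / bb ξ) ^ (k + 1) * JJ k a (bb ξ))
        = a ^ (k + 1) * Real.pi * JJ k a (bb ξ) * ‖𝓕 (f : ℂ → ℂ) ξ‖ := by
          rw [div_pow]; field_simp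
      _ ≤ _ := by gcongr

/-- the symbol -/
noncomputable def sy (k : ℕ) (ξ : ℂ) : ℂ := (starRingEnd ℂ ξ / ξ) ^ (k + 1)

theorem HA_inner (k : ℕ) (f : 𝓢(ℂ, ℂ)) (w : ℂ) {a : ℝ} (ha : 0 < a) {ξ : ℂ} (hξ : ξ ≠ 0) :
    ∫ t in Ioi (0 : ℝ), HA k f w a ξ t = ((-1) ^ (k + 1) * a ^ (k + 1) : ℂ) *
      (sy k ξ * 𝓕 (f : ℂ → ℂ) ξ * (ch w ξ * ((Real.pi * JJ k a (bb ξ) : ℝ) : ℂ))) := by
  unfold HA
  rw [integral_const_mul, integral_const_mul, integral_const_mul, integral_complex_ofReal,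
    integral_const_mul, inv_int k ha (bb_pos hξ)]
  have key : ((Real.pi * Complex.I * starRingEnd ℂ ξ) ^ (2 * (k + 1)) : ℂ) *
      (((a / bb ξ) ^ (k + 1) : ℝ) : ℂ) = (-1) ^ (k + 1) * a ^ (k + 1) * sy k ξ := by
    unfold sy
    push_cast
    rw [pow_mul, ← mul_pow, ← mul_pow, ← mul_pow]
    congr 1
    unfold bb
    have h2 : ((Complex.normSq ξ : ℝ) : ℂ) = ξ * starRingEnd ℂ ξ := (Complex.mul_conj ξ).symm
    push_cast
    rw [h2]
    have h3 : starRingEnd ℂ ξ ≠ 0 := by simpa using hξ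
    have hp : (Real.pi : ℂ) ≠ 0 := by exact_mod_cast Real.pi_ne_zero
    rw [mul_pow, mul_pow, Complex.I_sq]
    field_simp
  push_cast at key ⊢
  linear_combination (𝓕 (f : ℂ → ℂ) ξ * ch w ξ * Real.pi * JJ k a (bb ξ)) * key

/-! ### The operator side -/

theorem Tn_eq_inv (n : ℕ) (f : 𝓢(ℂ, ℂ)) :
    Tn n f = 𝓕⁻ (fun ξ : ℂ => (starRingEnd ℂ ξ / ξ) ^ n * 𝓕 (f : ℂ → ℂ) ξ) := by
  ext z; exact Tn_eq n f z

theorem Tn_continuous (n : ℕ) (f : 𝓢(ℂ, ℂ)) : Continuous (Tn n f) := by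
  rw [Tn_eq_inv]
  set g := (fun ξ : ℂ => (starRingEnd ℂ ξ / ξ) ^ n * 𝓕 (f : ℂ → ℂ) ξ) with hg
  have : 𝓕⁻ g = fun w => 𝓕 g (-w) := by
    ext w; rw [Real.fourierInv_eq_fourier_neg]
  rw [this]
  have hc : Continuous (𝓕 g) :=
    VectorFourier.fourierIntegral_continuous Real.continuous_fourierChar
      (by exact continuous_inner) (mult_integrable n f)
  exact hc.comp continuous_neg

theorem Tn_bounded (n : ℕ) (f : 𝓢(ℂ, ℂ)) : ∃ M : ℝ, 0 ≤ M ∧ ∀ z, ‖Tn n f z‖ ≤ M := by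
  refine ⟨∫ ξ, ‖(starRingEnd ℂ ξ / ξ) ^ n * 𝓕 (f : ℂ → ℂ) ξ‖, integral_nonneg fun _ => norm_nonneg _,
    fun z => ?_⟩
  rw [Tn_eq, ← fourierInv_eq_int]
  refine (norm_integral_le_integral_norm _).trans (le_of_eq ?_)
  apply integral_congr_ae
  filter_upwards with ξ
  rw [norm_mul, Complex.norm_exp]
  simp

noncomputable def FB (k : ℕ) (f : 𝓢(ℂ, ℂ)) (w : ℂ) (a : ℝ) (z : ℂ) (t : ℝ) : ℂ :=
  Tn (k + 1) f z * ((t ^ (k + 1) * Real.exp (-((a + Complex.normSq (w - z)) * t)) : ℝ) : ℂ)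

theorem gauss_integrable {t : ℝ} (ht : 0 < t) (w : ℂ) :
    Integrable (fun z : ℂ => Real.exp (-(t * Complex.normSq (w - z)))) := by
  have h := ((G t ht).integrable (μ := volume)).norm.comp_sub_left w
  refine h.congr ?_
  filter_upwards with z
  rw [G_apply, Complex.norm_real, Real.norm_of_nonneg (Real.exp_pos _).le]

theorem gauss_int {t : ℝ} (ht : 0 < t) (w : ℂ) :
    ∫ z : ℂ, Real.exp (-(t * Complex.normSq (w - z))) = Real.pi / t := by
  rw [integral_sub_left_eq_self (fun z => Real.exp (-(t * Complex.normSq z))) volume w]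
  have h := GaussianFourier.integral_rexp_neg_mul_sq_norm (V := ℂ) ht
  have h2 : (Module.finrank ℝ ℂ / 2 : ℝ) = 1 := by
    rw [Complex.finrank_real_complex]; norm_num
  rw [h2, Real.rpow_one] at h
  rw [← h]
  congr 1
  ext z
  rw [Complex.normSq_eq_norm_sq]
  congr 1
  ring

theorem FB_continuous (k : ℕ) (f : 𝓢(ℂ, ℂ)) (w : ℂ) (a : ℝ) : Continuous (uncurry (FB k f w a)) := by
  unfold FB uncurry
  have h2 : Continuous fun p : ℂ × ℝ => Tn (k + 1) f p.1 :=
    (Tn_continuous (k + 1) f).comp continuous_fst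
  have h4 : Continuous fun p : ℂ × ℝ => Complex.normSq (w - p.1) :=
    Complex.continuous_normSq.comp (continuous_const.sub continuous_fst)
  fun_prop

theorem norm_FB_le (k : ℕ) (f : 𝓢(ℂ, ℂ)) (w : ℂ) (a : ℝ) {M : ℝ} (hM : ∀ z, ‖Tn (k + 1) f z‖ ≤ M)
    (z : ℂ) {t : ℝ} (ht : 0 < t) :
    ‖FB k f w a z t‖ ≤ M * (t ^ (k + 1) * Real.exp (-(a * t))) *
      Real.exp (-(t * Complex.normSq (w - z))) := by
  unfold FB
  rw [norm_mul, Complex.norm_real, Real.norm_of_nonneg (by positivity), mul_assoc, mul_assoc,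
    ← Real.exp_add, show -((a + Complex.normSq (w - z)) * t) =
      -(a * t) + -(t * Complex.normSq (w - z)) by ring]
  gcongr
  exact hM z

theorem FB_inner_integrable (k : ℕ) (f : 𝓢(ℂ, ℂ)) (w : ℂ) (a : ℝ) {t : ℝ} (ht : 0 < t) :
    Integrable (fun z => FB k f w a z t) := by
  obtain ⟨M, hM0, hM⟩ := Tn_bounded (k + 1) f
  refine ((gauss_integrable ht w).const_mul (M * (t ^ (k + 1) * Real.exp (-(a * t))))).mono' ?_ ?_
  · have h := (FB_continuous k f w a).comp (Continuous.prodMk_left t)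
    exact h.aestronglyMeasurable
  · filter_upwards with z
    exact norm_FB_le k f w a hM z ht

theorem FB_integrable (k : ℕ) (f : 𝓢(ℂ, ℂ)) (w : ℂ) {a : ℝ} (ha : 0 < a) :
    Integrable (uncurry (FB k f w a)) (volume.prod (volume.restrict (Ioi (0 : ℝ)))) := by
  have hm : AEStronglyMeasurable (uncurry (FB k f w a))
      (volume.prod (volume.restrict (Ioi (0 : ℝ)))) := (FB_continuous k f w a).aestronglyMeasurable
  obtain ⟨M, hM0, hM⟩ := Tn_bounded (k + 1) f
  rw [integrable_prod_iff' hm]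
  constructor
  · filter_upwards [ae_restrict_mem measurableSet_Ioi] with t ht
    exact FB_inner_integrable k f w a ht
  · have h1 := (gam_integrable k ha).const_mul (M * Real.pi)
    refine h1.mono' hm.norm.prod_swap.integral_prod_right' ?_
    filter_upwards [ae_restrict_mem measurableSet_Ioi] with t ht
    have ht' : 0 < t := ht
    rw [Real.norm_of_nonneg (integral_nonneg fun _ => norm_nonneg _)]
    calc ∫ z, ‖uncurry (FB k f w a) (z, t)‖
        ≤ ∫ z, M * (t ^ (k + 1) * Real.exp (-(a * t))) *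
            Real.exp (-(t * Complex.normSq (w - z))) := by
          refine integral_mono (FB_inner_integrable k f w a ht').norm
            ((gauss_integrable ht' w).const_mul _) fun z => ?_
          exact norm_FB_le k f w a hM z ht'
      _ = M * Real.pi * (t ^ k * Real.exp (-(a * t))) := by
          rw [integral_const_mul, gauss_int ht']
          field_simp
          ring
      _ ≤ _ := le_rfl

theorem FB_inner (k : ℕ) (f : 𝓢(ℂ, ℂ)) (w : ℂ) {a : ℝ} (ha : 0 < a) (z : ℂ) :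
    ∫ t in Ioi (0 : ℝ), FB k f w a z t = Tn (k + 1) f z *
      (((k + 1).factorial / (a + Complex.normSq (w - z)) ^ (k + 2) : ℝ) : ℂ) := by
  unfold FB
  have hs := Complex.normSq_nonneg (w - z)
  rw [integral_const_mul, integral_complex_ofReal,
    gam_int (k + 1) (by positivity : 0 < a + Complex.normSq (w - z))]

noncomputable def HB (k : ℕ) (f : 𝓢(ℂ, ℂ)) (w : ℂ) (a : ℝ) (ξ : ℂ) (t : ℝ) : ℂ :=
  sy k ξ * 𝓕 (f : ℂ → ℂ) ξ * (ch w ξ * ((Real.pi * jf k a (bb ξ) t : ℝ) : ℂ))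

theorem FB_outer (k : ℕ) (f : 𝓢(ℂ, ℂ)) (w : ℂ) (a : ℝ) {t : ℝ} (ht : 0 < t) :
    ∫ z, FB k f w a z t = ∫ ξ, HB k f w a ξ t := by
  have h1 := pairing (mult_integrable (k + 1) f) (G t ht) w
  have e1 : ∀ z, FB k f w a z t = ((t ^ (k + 1) * Real.exp (-(a * t)) : ℝ) : ℂ) *
      (𝓕⁻ (fun ξ : ℂ => (starRingEnd ℂ ξ / ξ) ^ (k + 1) * 𝓕 (f : ℂ → ℂ) ξ) z * (G t ht) (w - z)) := by
    intro z
    unfold FB
    rw [← Tn_eq_inv, G_apply,
      show -((a + Complex.normSq (w - z)) * t) = -(a * t) + -(t * Complex.normSq (w - z)) by ring,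
      Real.exp_add]
    push_cast
    ring
  have e2 : ∀ ξ, HB k f w a ξ t = ((t ^ (k + 1) * Real.exp (-(a * t)) : ℝ) : ℂ) *
      (((starRingEnd ℂ ξ / ξ) ^ (k + 1) * 𝓕 (f : ℂ → ℂ) ξ) * (ch w ξ * 𝓕 (G t ht) ξ)) := by
    intro ξ
    unfold HB sy jf
    rw [fourier_G, sub_eq_add_neg, Real.exp_add]
    unfold bb
    have ht' : (t : ℂ) ≠ 0 := by exact_mod_cast ht.ne'
    push_cast
    field_simp
    ring
  simp_rw [e1, e2]
  rw [integral_const_mul, integral_const_mul, h1]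

theorem HB_integrable (k : ℕ) (f : 𝓢(ℂ, ℂ)) (w : ℂ) {a : ℝ} (ha : 0 < a) :
    Integrable (uncurry (HB k f w a)) (volume.prod (volume.restrict (Ioi (0 : ℝ)))) := by
  have h1 := (fourier_integrable f).norm.mul_prod (ν := volume.restrict (Ioi (0 : ℝ)))
    ((gam_integrable k ha).const_mul Real.pi)
  refine h1.mono' ?_ ?_
  · unfold HB uncurry
    have h1 : Measurable fun p : ℂ × ℝ => 𝓕 (f : ℂ → ℂ) p.1 :=
      (fourier_continuous f).measurable.comp measurable_fst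
    have h2 : Measurable fun p : ℂ × ℝ => ch w p.1 :=
      (continuous_ch w).measurable.comp measurable_fst
    have h3 : Measurable fun p : ℂ × ℝ => sy k p.1 := (symbol_measurable (k + 1)).comp measurable_fst
    have h4 : Measurable fun p : ℂ × ℝ => bb p.1 := bb_continuous.measurable.comp measurable_fst
    have h5 : Measurable fun p : ℂ × ℝ => Real.pi * jf k a (bb p.1) p.2 := by
      unfold jf
      fun_prop
    exact ((h3.mul h1).mul (h2.mul (Complex.measurable_ofReal.comp h5))).aestronglyMeasurable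
  · filter_upwards [ae_pos] with p hp
    obtain ⟨ξ, t⟩ := p
    simp only at hp
    simp only [uncurry, HB]
    have h5 := jf_le (k := k) (a := a) (bb_nonneg ξ) hp
    have h6 := jf_nonneg (k := k) (a := a) (b := bb ξ) hp
    rw [norm_mul, norm_mul, norm_mul, norm_ch, one_mul, Complex.norm_real,
      Real.norm_of_nonneg (by positivity)]
    have h7 : ‖sy k ξ‖ * ‖𝓕 (f : ℂ → ℂ) ξ‖ ≤ ‖𝓕 (f : ℂ → ℂ) ξ‖ :=
      mul_le_of_le_one_left (norm_nonneg _) (symbol_bound (k + 1) ξ)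
    gcongr

theorem HB_inner (k : ℕ) (f : 𝓢(ℂ, ℂ)) (w : ℂ) (a : ℝ) (ξ : ℂ) :
    ∫ t in Ioi (0 : ℝ), HB k f w a ξ t =
      sy k ξ * 𝓕 (f : ℂ → ℂ) ξ * (ch w ξ * ((Real.pi * JJ k a (bb ξ) : ℝ) : ℂ)) := by
  unfold HB
  rw [integral_const_mul, integral_const_mul, integral_complex_ofReal, integral_const_mul]
  rfl

/-- both sides agree -/
theorem both (k : ℕ) (f : 𝓢(ℂ, ℂ)) (w : ℂ) {a : ℝ} (ha : 0 < a) :
    ∫ z, ∫ t in Ioi (0 : ℝ), FA k f w a z t =
      ((-1) ^ (k + 1) * a ^ (k + 1) : ℂ) * ∫ z, ∫ t in Ioi (0 : ℝ), FB k f w a z t := by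
  rw [integral_integral_swap (FA_integrable k f w ha), integral_integral_swap (FB_integrable k f w ha)]
  have e1 : ∫ t in Ioi (0 : ℝ), ∫ z, FA k f w a z t = ∫ t in Ioi (0 : ℝ), ∫ ξ, HA k f w a ξ t :=
    setIntegral_congr_fun measurableSet_Ioi fun t ht => FA_outer k f w a ht
  have e2 : ∫ t in Ioi (0 : ℝ), ∫ z, FB k f w a z t = ∫ t in Ioi (0 : ℝ), ∫ ξ, HB k f w a ξ t :=
    setIntegral_congr_fun measurableSet_Ioi fun t ht => FB_outer k f w a ht
  rw [e1, e2, ← integral_integral_swap (HA_integrable k f w ha),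
    ← integral_integral_swap (HB_integrable k f w ha), ← integral_const_mul]
  apply integral_congr_ae
  have hne : ∀ᵐ ξ : ℂ, ξ ≠ 0 := by
    rw [ae_iff]; simp
  filter_upwards [hne] with ξ hξ
  rw [HA_inner k f w ha hξ, HB_inner]

end ExplicitAux

open ExplicitAux MeasureTheory Set in
theorem explicit : StmtExplicit := by
  intro n f w σ hn hσ
  obtain ⟨k, rfl⟩ : ∃ k, n = k + 1 := ⟨n - 1, by omega⟩
  have h := both k f w (a := σ ^ 2) (by positivity)
  have eA : ∀ z, f z * (kk (k + 1) (w - z) *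
      ((Complex.normSq (w - z) / (σ ^ 2 + Complex.normSq (w - z)) : ℝ) : ℂ) ^ (k + 1 + 1)) =
      (((k + 1).factorial : ℝ) : ℂ)⁻¹ * ∫ t in Ioi (0 : ℝ), FA k f w (σ ^ 2) z t := by
    intro z
    rw [FA_inner k f w (by positivity) z]
    have hfac : (((k + 1).factorial : ℝ) : ℂ) ≠ 0 := by
      exact_mod_cast (Nat.factorial_pos (k + 1)).ne'
    rcases eq_or_ne (w - z) 0 with h0 | h0
    · rw [h0]
      simp [kk]
    · unfold kk
      have h2 : ((Complex.normSq (w - z) : ℝ) : ℂ) = (w - z) * starRingEnd ℂ (w - z) :=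
        (Complex.mul_conj _).symm
      have h3 : starRingEnd ℂ (w - z) ≠ 0 := (map_ne_zero (starRingEnd ℂ)).2 h0
      have hs := Complex.normSq_nonneg (w - z)
      have h4 : ((σ : ℂ) ^ 2 + (w - z) * starRingEnd ℂ (w - z)) ≠ 0 := by
        rw [← h2]
        exact_mod_cast (by positivity : (0 : ℝ) < σ ^ 2 + Complex.normSq (w - z)).ne'
      push_cast at hfac ⊢
      rw [h2]
      generalize starRingEnd ℂ (w - z) = u at *
      generalize w - z = v at *
      rw [div_pow, div_pow, mul_pow, pow_mul']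
      field_simp
      ring
  have eB : ∀ z, Tn (k + 1) f z * (((σ ^ 2 + Complex.normSq (w - z)) ^ (k + 1 + 1) : ℝ) : ℂ)⁻¹ =
      (((k + 1).factorial : ℝ) : ℂ)⁻¹ * ∫ t in Ioi (0 : ℝ), FB k f w (σ ^ 2) z t := by
    intro z
    rw [FB_inner k f w (by positivity) z]
    have hfac : (((k + 1).factorial : ℝ) : ℂ) ≠ 0 := by
      exact_mod_cast (Nat.factorial_pos (k + 1)).ne'
    push_cast at hfac ⊢
    field_simp
  simp_rw [eA, eB]
  rw [integral_const_mul, integral_const_mul, h]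
  push_cast
  have h1 : ((-1 : ℂ) ^ (k + 1)) * (-1) ^ (k + 1) = 1 := by
    rw [← mul_pow]; simp
  rw [← pow_mul]
  linear_combination ((k + 1 : ℂ) / Real.pi * ((k + 1).factorial : ℂ)⁻¹ * (σ : ℂ) ^ (2 * (k + 1)) *
    ∫ z, ∫ t in Ioi (0 : ℝ), FB k f w (σ ^ 2) z t) * h1

end Pool.Agent.Lib.MP_dd244f_an.Joint
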