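import Pool.Agent.Lib.MP_dd244f_an.Joint.Stmts
import Pool.Agent.Lib.MP_dd244f_an.Joint.Basic

/-! Full operator, joint limit: the far fields (`StmtFar` from `StmtFarPair`). -/

set_option autoImplicit false

namespace Pool.Agent.Lib.MP_dd244f_an.Joint

open MeasureTheory Finset

theorem far_double_sum (H : ℕ → ℕ → ℝ) (N : ℕ) (hs : ∀ l < N, ∀ i < N, H l i = H i l) :
    ∑ l ∈ Finset.range N, ∑ i ∈ Finset.range N, H l i =
      ∑ i ∈ Finset.range N, H i i
        + 2 * ∑ i ∈ Finset.range N, ∑ l ∈ Finset.Ico (i + 1) N, H l i := by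
  induction N with
  | zero => simp
  | succ N ih =>
    have e1 : ∑ l ∈ Finset.range (N + 1), ∑ i ∈ Finset.range (N + 1), H l i =
        ∑ l ∈ Finset.range N, ∑ i ∈ Finset.range N, H l i + ∑ l ∈ Finset.range N, H l N
          + (∑ i ∈ Finset.range N, H N i + H N N) := by
      rw [Finset.sum_range_succ, Finset.sum_range_succ (fun i => H N i)]
      congr 1
      rw [← Finset.sum_add_distrib]
      exact Finset.sum_congr rfl fun l _ => Finset.sum_range_succ _ _
    have e2 : ∑ i ∈ Finset.range (N + 1), ∑ l ∈ Finset.Ico (i + 1) (N + 1), H l i =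
        ∑ i ∈ Finset.range N, ∑ l ∈ Finset.Ico (i + 1) N, H l i
          + ∑ i ∈ Finset.range N, H N i := by
      rw [Finset.sum_range_succ, Finset.Ico_self, Finset.sum_empty, add_zero,
        ← Finset.sum_add_distrib]
      refine Finset.sum_congr rfl fun i hi => ?_
      rw [Finset.sum_Ico_succ_top]
      have := Finset.mem_range.1 hi
      omega
    have e3 : ∑ l ∈ Finset.range N, H l N = ∑ i ∈ Finset.range N, H N i :=
      Finset.sum_congr rfl fun i hi =>
        hs i (by have := Finset.mem_range.1 hi; omega) N (by omega)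
    rw [e1, e2, ih (fun l hl i hi => hs l (by omega) i (by omega)), e3,
      Finset.sum_range_succ (fun i => H i i)]
    ring

/-- the sum over all clusters from `k` on is the sum over the remaining atoms -/
theorem Clusters.sum_Ico {ι : Type} {z : ι → ℂ} {A : ι → ℝ} {κ : ℝ} {m : ℕ} {S : Finset ι}
    (X : Clusters ι z A κ m S) (F : ι → ℝ) {k : ℕ} (hk : k ≤ X.N) :
    ∑ l ∈ Finset.Ico k X.N, ∑ j ∈ X.C l, F j = ∑ j ∈ X.T k, F j := by
  have h1 := X.sum_T F hk
  have h2 := X.sum_C F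
  have h3 := Finset.sum_range_add_sum_Ico (fun l => ∑ j ∈ X.C l, F j) hk
  linarith

theorem far (h : StmtFarPair) : StmtFar := by
  intro D
  classical
  -- kernels
  have hInt : ∀ l i, l < D.cl.N → i < D.cl.N → ∀ z z', Integrable (fun w =>
      fk D.n D.η (D.rho l) (w - z) * starRingEnd ℂ (fk D.n D.η (D.rho i) (w - z'))) := by
    intro l i hl hi z z'
    rcases le_total (D.rho l) (D.rho i) with hle | hle
    · exact (h D.n D.η _ _ z z' D.hn D.hη (D.rho_pos hl) hle).1
    · have h1 := (h D.n D.η _ _ z' z D.hn D.hη (D.rho_pos hi) hle).1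
      have h2 := Complex.conjCLE.toContinuousLinearMap.integrable_comp h1
      refine h2.congr (Filter.Eventually.of_forall fun w => ?_)
      simp [mul_comm]
  set I : ℕ → ℕ → D.ι → D.ι → ℂ := fun l i j j' =>
    ∫ w, fk D.n D.η (D.rho l) (w - D.z j) *
      starRingEnd ℂ (fk D.n D.η (D.rho i) (w - D.z j')) with hI
  have hIsymm : ∀ l i j j', ‖I l i j j'‖ = ‖I i l j' j‖ := by
    intro l i j j'
    have e : I l i j j' = starRingEnd ℂ (I i l j' j) := by
      simp only [hI]
      rw [← integral_conj]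
      refine integral_congr_ae (Filter.Eventually.of_forall fun w => ?_)
      simp [mul_comm]
    rw [e, RCLike.norm_conj]
  -- the square
  have hg : ∀ i w, D.g i w = ∑ j ∈ D.cl.C i, D.a j * fk D.n D.η (D.rho i) (w - D.z j) := by
    intro i w
    unfold Cfg.g fk Cfg.fr
    rfl
  have hsq : ∀ w, ((‖∑ i ∈ Finset.range D.cl.N, D.g i w‖ ^ 2 : ℝ) : ℂ) =
      ∑ l ∈ Finset.range D.cl.N, ∑ i ∈ Finset.range D.cl.N, ∑ j ∈ D.cl.C l, ∑ j' ∈ D.cl.C i,
        (D.a j * starRingEnd ℂ (D.a j')) *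
          (fk D.n D.η (D.rho l) (w - D.z j) *
            starRingEnd ℂ (fk D.n D.η (D.rho i) (w - D.z j'))) := by
    intro w
    have e0 : ∀ x : ℂ, ((‖x‖ ^ 2 : ℝ) : ℂ) = x * starRingEnd ℂ x := by
      intro x
      rw [Complex.mul_conj, Complex.normSq_eq_norm_sq]
    rw [e0, map_sum, Finset.sum_mul_sum]
    refine Finset.sum_congr rfl fun l _ => Finset.sum_congr rfl fun i _ => ?_
    rw [hg, hg, map_sum, Finset.sum_mul_sum]
    refine Finset.sum_congr rfl fun j _ => Finset.sum_congr rfl fun j' _ => ?_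
    rw [map_mul]
    ring
  have hIntC : ∀ l ∈ Finset.range D.cl.N, ∀ i ∈ Finset.range D.cl.N, ∀ j j' : D.ι,
      Integrable (fun w => (D.a j * starRingEnd ℂ (D.a j')) *
          (fk D.n D.η (D.rho l) (w - D.z j) *
            starRingEnd ℂ (fk D.n D.η (D.rho i) (w - D.z j')))) := by
    intro l hl i hi j j'
    exact (hInt l i (Finset.mem_range.1 hl) (Finset.mem_range.1 hi) _ _).const_mul _
  have hIntSq : Integrable (fun w => ((‖∑ i ∈ Finset.range D.cl.N, D.g i w‖ ^ 2 : ℝ) : ℂ)) := by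
    have e : (fun w => ((‖∑ i ∈ Finset.range D.cl.N, D.g i w‖ ^ 2 : ℝ) : ℂ)) = fun w =>
      ∑ l ∈ Finset.range D.cl.N, ∑ i ∈ Finset.range D.cl.N, ∑ j ∈ D.cl.C l, ∑ j' ∈ D.cl.C i,
        (D.a j * starRingEnd ℂ (D.a j')) *
          (fk D.n D.η (D.rho l) (w - D.z j) *
            starRingEnd ℂ (fk D.n D.η (D.rho i) (w - D.z j'))) := funext hsq
    rw [e]
    refine integrable_finsetSum _ fun l hl => integrable_finsetSum _ fun i hi =>
      integrable_finsetSum _ fun j _ => integrable_finsetSum _ fun j' _ => ?_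
    exact hIntC l hl i hi j j'
  have hIntR : Integrable (fun w => ‖∑ i ∈ Finset.range D.cl.N, D.g i w‖ ^ 2) := by
    have h1 := hIntSq.re
    refine h1.congr (Filter.Eventually.of_forall fun w => ?_)
    simp only [RCLike.re_to_complex, Complex.ofReal_re]
  refine ⟨hIntR, ?_⟩
  -- the integral of the square
  set H : ℕ → ℕ → ℝ := fun l i =>
    ∑ j ∈ D.cl.C l, ∑ j' ∈ D.cl.C i, ‖D.a j‖ * ‖D.a j'‖ * ‖I l i j j'‖ with hH
  have hHsymm : ∀ l < D.cl.N, ∀ i < D.cl.N, H l i = H i l := by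
    intro l _ i _
    simp only [hH]
    rw [Finset.sum_comm]
    refine Finset.sum_congr rfl fun j' _ => Finset.sum_congr rfl fun j _ => ?_
    rw [hIsymm l i j j']
    ring
  have hle : ∫ w, ‖∑ i ∈ Finset.range D.cl.N, D.g i w‖ ^ 2 ≤
      ∑ l ∈ Finset.range D.cl.N, ∑ i ∈ Finset.range D.cl.N, H l i := by
    have e1 : ((∫ w, ‖∑ i ∈ Finset.range D.cl.N, D.g i w‖ ^ 2 : ℝ) : ℂ) =
        ∑ l ∈ Finset.range D.cl.N, ∑ i ∈ Finset.range D.cl.N, ∑ j ∈ D.cl.C l,
          ∑ j' ∈ D.cl.C i, (D.a j * starRingEnd ℂ (D.a j')) * I l i j j' := by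
      rw [← integral_complex_ofReal]
      rw [integral_congr_ae (Filter.Eventually.of_forall hsq)]
      rw [integral_finsetSum _ fun l hl => integrable_finsetSum _ fun i hi =>
        integrable_finsetSum _ fun j _ => integrable_finsetSum _ fun j' _ =>
          hIntC l hl i hi j j']
      refine Finset.sum_congr rfl fun l hl => ?_
      rw [integral_finsetSum _ fun i hi =>
        integrable_finsetSum _ fun j _ => integrable_finsetSum _ fun j' _ =>
          hIntC l hl i hi j j']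
      refine Finset.sum_congr rfl fun i hi => ?_
      rw [integral_finsetSum _ fun j _ => integrable_finsetSum _ fun j' _ =>
          hIntC l hl i hi j j']
      refine Finset.sum_congr rfl fun j _ => ?_
      rw [integral_finsetSum _ fun j' _ => hIntC l hl i hi j j']
      refine Finset.sum_congr rfl fun j' _ => ?_
      rw [integral_const_mul]
    have e2 : ∫ w, ‖∑ i ∈ Finset.range D.cl.N, D.g i w‖ ^ 2 ≤
        ‖((∫ w, ‖∑ i ∈ Finset.range D.cl.N, D.g i w‖ ^ 2 : ℝ) : ℂ)‖ := by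
      rw [Complex.norm_real]
      exact Real.le_norm_self _
    refine e2.trans ?_
    rw [e1]
    refine (norm_sum_le _ _).trans (Finset.sum_le_sum fun l _ => ?_)
    refine (norm_sum_le _ _).trans (Finset.sum_le_sum fun i _ => ?_)
    refine (norm_sum_le _ _).trans (Finset.sum_le_sum fun j _ => ?_)
    refine (norm_sum_le _ _).trans (Finset.sum_le_sum fun j' _ => ?_)
    rw [norm_mul, norm_mul, RCLike.norm_conj]
  refine hle.trans ?_
  rw [far_double_sum H D.cl.N hHsymm]
  -- notation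
  have hMst := one_le_Mst
  have hκ := D.hκ
  have hκ1 := D.hκ1
  have hL := D.hL
  have hnpos : (0 : ℝ) < D.n := by exact_mod_cast D.hn
  have hpi := Real.pi_pos
  -- diagonal terms
  have hdiag : ∀ i < D.cl.N, H i i ≤ 4 * Real.pi / D.L ^ 2 * D.A i := by
    intro i hi
    have hr := D.rho_pos hi
    have hA := D.A_nonneg i
    set r := max D.η (D.rho i) with hrdef
    have hr1 : D.rho i ≤ r := le_max_right _ _
    have hrpos : 0 < r := lt_of_lt_of_le hr hr1
    have h1 : H i i ≤ Real.pi / r ^ 2 * (D.A i * D.A i) := by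
      simp only [hH]
      unfold Cfg.A
      rw [Finset.sum_mul_sum, Finset.mul_sum]
      refine Finset.sum_le_sum fun j _ => ?_
      rw [Finset.mul_sum]
      refine Finset.sum_le_sum fun j' _ => ?_
      have h2 := (h D.n D.η (D.rho i) (D.rho i) (D.z j) (D.z j') D.hn D.hη hr le_rfl).2.2.2.2 rfl
      rw [mul_comm (Real.pi / r ^ 2)]
      exact mul_le_mul_of_nonneg_left h2 (by positivity)
    refine h1.trans ?_
    have h3 := D.A2 hi
    have h4 : D.A i * D.L ^ 2 ≤ 4 * r ^ 2 := by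
      have h5 : D.L / D.κ * D.cl.R i ≤ r := hr1
      have hR := D.cl.hRpos i hi
      have h6 : D.L * D.cl.R i ≤ D.κ * r := by
        have := mul_le_mul_of_nonneg_left h5 hκ.le
        calc D.L * D.cl.R i = D.κ * (D.L / D.κ * D.cl.R i) := by field_simp
          _ ≤ _ := this
      have h7 : (D.L * D.cl.R i) ^ 2 ≤ (D.κ * r) ^ 2 :=
        pow_le_pow_left₀ (by positivity) h6 2
      have h8 : D.κ ^ 2 * (D.A i * D.L ^ 2) ≤ D.κ ^ 2 * (4 * r ^ 2) := by
        nlinarith [sq_nonneg D.L]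
      exact le_of_mul_le_mul_left h8 (by positivity)
    rw [div_mul_eq_mul_div, div_mul_eq_mul_div, div_le_div_iff₀ (by positivity) (by positivity)]
    nlinarith [mul_nonneg hpi.le hA]
  -- off diagonal terms
  have hoff : ∀ i < D.cl.N, ∑ l ∈ Finset.Ico (i + 1) D.cl.N, H l i ≤
      (16 * Real.pi / D.L ^ 2 + 900 * Real.pi * Mst * D.L / (D.n * D.κ ^ 3)) * D.A i := by
    intro i hi
    have hr := D.rho_pos hi
    set r := max D.η (D.rho i) with hrdef
    have hr1 : D.rho i ≤ r := le_max_right _ _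
    have hrpos : 0 < r := lt_of_lt_of_le hr hr1
    set Rt := D.κ * r / D.L with hRt
    have hLpos : 0 < D.L := by linarith
    have hRtpos : 0 < Rt := by positivity
    have hR := D.cl.hRpos i hi
    have hRtR : D.cl.R i ≤ Rt := by
      rw [hRt, le_div_iff₀ hLpos]
      have h5 : D.L / D.κ * D.cl.R i ≤ r := hr1
      have := mul_le_mul_of_nonneg_left h5 hκ.le
      calc D.cl.R i * D.L = D.κ * (D.L / D.κ * D.cl.R i) := by field_simp
        _ ≤ _ := this
    have hRthalf : Rt ≤ r / 2 := by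
      rw [hRt, div_le_div_iff₀ hLpos two_pos]
      nlinarith
    have hRr : D.cl.R i ≤ r := hRtR.trans (by linarith)
    -- the bound of one integral
    set B : ℝ → ℝ := fun δ => (if δ ≤ Rt then 4 * Real.pi / r ^ 2 else 0)
      + (if δ ≤ 3 * r then 25 * Real.pi * Mst / (D.n * Rt * r) else 0) with hB
    have hbound : ∀ l, i < l → l < D.cl.N → ∀ j j', ‖I l i j j'‖ ≤ B ‖D.z j - D.z j'‖ := by
      intro l hil hl j j'
      have hRl : D.rho l ≤ D.rho i := by
        unfold Cfg.rho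
        exact mul_le_mul_of_nonneg_left (D.cl.hRanti i l hil.le hl) (by positivity)
      have hp := h D.n D.η (D.rho l) (D.rho i) (D.z j) (D.z j') D.hn D.hη (D.rho_pos hl) hRl
      obtain ⟨-, hp0, hp1, hp2, -⟩ := hp
      have hq1 : (0 : ℝ) ≤ 4 * Real.pi / r ^ 2 := by positivity
      have hq2 : (0 : ℝ) ≤ 25 * Real.pi * Mst / (D.n * Rt * r) := by positivity
      simp only [hB]
      by_cases c1 : ‖D.z j - D.z j'‖ ≤ Rt
      · rw [if_pos c1]
        have := hp2 (c1.trans hRthalf)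
        split_ifs <;> linarith
      · rw [if_neg c1, zero_add]
        push Not at c1
        by_cases c2 : ‖D.z j - D.z j'‖ ≤ 3 * r
        · rw [if_pos c2]
          have hne : D.z j ≠ D.z j' := by
            intro e
            rw [e, sub_self, norm_zero] at c1
            linarith
          refine (hp1 hne).trans ?_
          refine div_le_div_of_nonneg_left (by positivity) (by positivity) ?_
          gcongr
        · rw [if_neg c2]
          push Not at c2
          have := hp0 c2.le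
          simp only [hI]
          rw [this, norm_zero]
    have hmass : ∀ x : ℂ, ∑ j ∈ D.cl.T (i + 1), ‖D.a j‖ * B ‖D.z j - x‖ ≤
        16 * Real.pi / D.L ^ 2 + 900 * Real.pi * Mst * D.L / (D.n * D.κ ^ 3) := by
      intro x
      have hsub : D.cl.T (i + 1) ⊆ D.cl.T i := D.cl.T_anti (by omega) (by omega)
      have e1 : ∑ j ∈ D.cl.T (i + 1), ‖D.a j‖ * B ‖D.z j - x‖ =
          4 * Real.pi / r ^ 2 *
            ∑ j ∈ (D.cl.T (i + 1)).filter (fun j => ‖D.z j - x‖ ≤ Rt), ‖D.a j‖
          + 25 * Real.pi * Mst / (D.n * Rt * r) *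
            ∑ j ∈ (D.cl.T (i + 1)).filter (fun j => ‖D.z j - x‖ ≤ 3 * r), ‖D.a j‖ := by
        rw [Finset.sum_filter, Finset.sum_filter, Finset.mul_sum, Finset.mul_sum,
          ← Finset.sum_add_distrib]
        refine Finset.sum_congr rfl fun j _ => ?_
        simp only [hB]
        split_ifs <;> ring
      rw [e1]
      have m1 := D.cl.hD i hi x Rt hRtR
        ((D.cl.T (i + 1)).filter (fun j => ‖D.z j - x‖ ≤ Rt))
        ((Finset.filter_subset _ _).trans hsub)
        (fun j hj => (Finset.mem_filter.1 hj).2)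
      have m2 := D.cl.hD i hi x (3 * r) (by linarith)
        ((D.cl.T (i + 1)).filter (fun j => ‖D.z j - x‖ ≤ 3 * r))
        ((Finset.filter_subset _ _).trans hsub)
        (fun j hj => (Finset.mem_filter.1 hj).2)
      set M1 := ∑ j ∈ (D.cl.T (i + 1)).filter (fun j => ‖D.z j - x‖ ≤ Rt), ‖D.a j‖
      set M2 := ∑ j ∈ (D.cl.T (i + 1)).filter (fun j => ‖D.z j - x‖ ≤ 3 * r), ‖D.a j‖
      have n1 : M1 ≤ 4 * r ^ 2 / D.L ^ 2 := by
        have e : 4 * Rt ^ 2 = D.κ ^ 2 * (4 * r ^ 2 / D.L ^ 2) := by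
          rw [hRt]; field_simp
        rw [e] at m1
        exact le_of_mul_le_mul_left m1 (by positivity)
      have n2 : M2 ≤ 36 * r ^ 2 / D.κ ^ 2 := by
        rw [le_div_iff₀ (by positivity)]
        nlinarith
      have o1 : 4 * Real.pi / r ^ 2 * M1 ≤ 16 * Real.pi / D.L ^ 2 := by
        calc 4 * Real.pi / r ^ 2 * M1 ≤ 4 * Real.pi / r ^ 2 * (4 * r ^ 2 / D.L ^ 2) :=
              mul_le_mul_of_nonneg_left n1 (by positivity)
          _ = 16 * Real.pi / D.L ^ 2 := by field_simp; ring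
      have o2 : 25 * Real.pi * Mst / (D.n * Rt * r) * M2 ≤
          900 * Real.pi * Mst * D.L / (D.n * D.κ ^ 3) := by
        calc 25 * Real.pi * Mst / (D.n * Rt * r) * M2
            ≤ 25 * Real.pi * Mst / (D.n * Rt * r) * (36 * r ^ 2 / D.κ ^ 2) :=
              mul_le_mul_of_nonneg_left n2 (by positivity)
          _ = 900 * Real.pi * Mst * D.L / (D.n * D.κ ^ 3) := by
              rw [hRt]; field_simp; ring
      linarith
    calc ∑ l ∈ Finset.Ico (i + 1) D.cl.N, H l i
        = ∑ j' ∈ D.cl.C i, ‖D.a j'‖ * ∑ l ∈ Finset.Ico (i + 1) D.cl.N, ∑ j ∈ D.cl.C l,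
            ‖D.a j‖ * ‖I l i j j'‖ := by
          simp only [hH]
          simp_rw [Finset.mul_sum]
          rw [Finset.sum_comm' (s := D.cl.C i) (t := fun _ => Finset.Ico (i + 1) D.cl.N)
            (t' := Finset.Ico (i + 1) D.cl.N) (s' := fun _ => D.cl.C i) (by tauto)]
          refine Finset.sum_congr rfl fun l _ => ?_
          rw [Finset.sum_comm]
          refine Finset.sum_congr rfl fun j' _ => Finset.sum_congr rfl fun j _ => ?_
          ring
      _ ≤ ∑ j' ∈ D.cl.C i, ‖D.a j'‖ * ∑ l ∈ Finset.Ico (i + 1) D.cl.N, ∑ j ∈ D.cl.C l,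
            ‖D.a j‖ * B ‖D.z j - D.z j'‖ := by
          refine Finset.sum_le_sum fun j' _ => mul_le_mul_of_nonneg_left ?_ (norm_nonneg _)
          refine Finset.sum_le_sum fun l hl => Finset.sum_le_sum fun j _ => ?_
          have hl' := Finset.mem_Ico.1 hl
          exact mul_le_mul_of_nonneg_left (hbound l (by omega) hl'.2 j j') (norm_nonneg _)
      _ = ∑ j' ∈ D.cl.C i, ‖D.a j'‖ * ∑ j ∈ D.cl.T (i + 1), ‖D.a j‖ * B ‖D.z j - D.z j'‖ := by
          refine Finset.sum_congr rfl fun j' _ => ?_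
          rw [D.cl.sum_Ico (fun j => ‖D.a j‖ * B ‖D.z j - D.z j'‖) (by omega)]
      _ ≤ ∑ j' ∈ D.cl.C i, ‖D.a j'‖ *
            (16 * Real.pi / D.L ^ 2 + 900 * Real.pi * Mst * D.L / (D.n * D.κ ^ 3)) :=
          Finset.sum_le_sum fun j' _ => mul_le_mul_of_nonneg_left (hmass _) (norm_nonneg _)
      _ = _ := by
          rw [← Finset.sum_mul, mul_comm]
          rfl
  have s1 : ∑ i ∈ Finset.range D.cl.N, H i i ≤ 4 * Real.pi / D.L ^ 2 * ∑ j ∈ D.S, ‖D.a j‖ := by
    rw [← D.sum_A, Finset.mul_sum]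
    exact Finset.sum_le_sum fun i hi => hdiag i (Finset.mem_range.1 hi)
  have s2 : ∑ i ∈ Finset.range D.cl.N, ∑ l ∈ Finset.Ico (i + 1) D.cl.N, H l i ≤
      (16 * Real.pi / D.L ^ 2 + 900 * Real.pi * Mst * D.L / (D.n * D.κ ^ 3)) *
        ∑ j ∈ D.S, ‖D.a j‖ := by
    rw [← D.sum_A, Finset.mul_sum]
    exact Finset.sum_le_sum fun i hi => hoff i (Finset.mem_range.1 hi)
  calc ∑ i ∈ Finset.range D.cl.N, H i i
        + 2 * ∑ i ∈ Finset.range D.cl.N, ∑ l ∈ Finset.Ico (i + 1) D.cl.N, H l i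
      ≤ 4 * Real.pi / D.L ^ 2 * ∑ j ∈ D.S, ‖D.a j‖ + 2 * ((16 * Real.pi / D.L ^ 2
        + 900 * Real.pi * Mst * D.L / (D.n * D.κ ^ 3)) * ∑ j ∈ D.S, ‖D.a j‖) := by linarith
    _ = _ := by ring

end Pool.Agent.Lib.MP_dd244f_an.Joint
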