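import Pool.Agent.Lib.MP_dd244f_an.Joint.Stmts
import Pool.Agent.Lib.MP_dd244f_an.Joint.Basic

/-! (FarPair) the inner products of far kernels. -/

set_option autoImplicit false

namespace Pool.Agent.Lib.MP_dd244f_an.Joint

open MeasureTheory Filter Topology Set

namespace FarPair

/-! ### radial integrals -/

theorem real_ball : (volume : Measure ℂ).real (Metric.ball 0 1) = Real.pi := by
  rw [Measure.real, Complex.volume_ball]
  simp

/-- the function `1/|w|` cut off at `ρ` -/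
noncomputable def q1 (ρ y : ℝ) : ℝ := if y ≤ ρ then 1 / y else 0

/-- the function `1/|w|^4` for `|w| ≥ r` -/
noncomputable def q4 (r y : ℝ) : ℝ := if r ≤ y then 1 / y ^ 4 else 0

theorem q1_nonneg (ρ : ℝ) {y : ℝ} (hy : 0 ≤ y) : 0 ≤ q1 ρ y := by
  unfold q1; split_ifs <;> positivity

theorem q4_nonneg (r : ℝ) (y : ℝ) : 0 ≤ q4 r y := by
  unfold q4; split_ifs <;> positivity

theorem q1_eq {ρ y : ℝ} (hy : 0 < y) :
    y ^ (Module.finrank ℝ ℂ - 1) • q1 ρ y = (Iic ρ).indicator (fun _ => (1 : ℝ)) y := by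
  rw [Complex.finrank_real_complex]
  unfold q1
  by_cases h : y ≤ ρ
  · rw [Set.indicator_of_mem (show y ∈ Iic ρ from h), if_pos h]
    simp only [smul_eq_mul]
    norm_num
    field_simp
  · rw [Set.indicator_of_notMem (show y ∉ Iic ρ from h), if_neg h]
    simp

theorem q4_eq {r y : ℝ} (hy : 0 < y) :
    y ^ (Module.finrank ℝ ℂ - 1) • q4 r y = (Ici r).indicator (fun s => s ^ (-3 : ℝ)) y := by
  rw [Complex.finrank_real_complex]
  unfold q4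
  by_cases h : r ≤ y
  · rw [Set.indicator_of_mem (show y ∈ Ici r from h), if_pos h]
    simp only [smul_eq_mul]
    rw [show (-3 : ℝ) = ((-3 : ℤ) : ℝ) by norm_num, Real.rpow_intCast]
    norm_num
    field_simp
  · rw [Set.indicator_of_notMem (show y ∉ Ici r from h), if_neg h]
    simp

theorem q1_int {ρ : ℝ} (hρ : 0 < ρ) : Integrable (fun w : ℂ => q1 ρ ‖w‖) ∧
    ∫ w : ℂ, q1 ρ ‖w‖ = 2 * Real.pi * ρ := by
  have h1 : EqOn (fun y : ℝ => y ^ (Module.finrank ℝ ℂ - 1) • q1 ρ y)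
      ((Iic ρ).indicator (fun _ => (1 : ℝ))) (Ioi 0) := fun y hy => q1_eq hy
  have h2 : Ioi (0:ℝ) ∩ Iic ρ = Ioc 0 ρ := by ext x; simp
  constructor
  · rw [integrable_fun_norm_addHaar (volume : Measure ℂ) (f := q1 ρ)]
    rw [integrableOn_congr_fun h1 measurableSet_Ioi]
    rw [integrableOn_indicator_iff measurableSet_Iic, inter_comm, h2]
    exact integrableOn_const (by simp)
  · rw [integral_fun_norm_addHaar (volume : Measure ℂ) (q1 ρ), real_ball,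
      setIntegral_congr_fun measurableSet_Ioi h1, setIntegral_indicator measurableSet_Iic, h2]
    simp only [Complex.finrank_real_complex, nsmul_eq_mul, smul_eq_mul, integral_const,
      MeasurableSet.univ, measureReal_restrict_apply, univ_inter, Real.volume_real_Ioc]
    rw [max_eq_left (by linarith)]
    push_cast
    ring

theorem q4_int {r : ℝ} (hr : 0 < r) : Integrable (fun w : ℂ => q4 r ‖w‖) ∧
    ∫ w : ℂ, q4 r ‖w‖ = Real.pi / r ^ 2 := by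
  have h1 : EqOn (fun y : ℝ => y ^ (Module.finrank ℝ ℂ - 1) • q4 r y)
      ((Ici r).indicator (fun s => s ^ (-3 : ℝ))) (Ioi 0) := fun y hy => q4_eq hy
  have h2 : Ioi (0:ℝ) ∩ Ici r = Ici r := by
    ext x; simp only [mem_inter_iff, mem_Ioi, mem_Ici]; constructor
    · exact fun h => h.2
    · exact fun h => ⟨by linarith, h⟩
  constructor
  · rw [integrable_fun_norm_addHaar (volume : Measure ℂ) (f := q4 r)]
    rw [integrableOn_congr_fun h1 measurableSet_Ioi]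
    rw [integrableOn_indicator_iff measurableSet_Ici, inter_comm, h2,
      integrableOn_Ici_iff_integrableOn_Ioi]
    exact integrableOn_Ioi_rpow_of_lt (by norm_num) hr
  · rw [integral_fun_norm_addHaar (volume : Measure ℂ) (q4 r), real_ball,
      setIntegral_congr_fun measurableSet_Ioi h1, setIntegral_indicator measurableSet_Ici, h2,
      integral_Ici_eq_integral_Ioi, integral_Ioi_rpow_of_lt (by norm_num) hr]
    simp only [Complex.finrank_real_complex, nsmul_eq_mul, smul_eq_mul]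
    rw [show (-3 : ℝ) + 1 = ((-2 : ℤ) : ℝ) by norm_num, Real.rpow_intCast]
    push_cast
    rw [zpow_neg]
    field_simp

/-! ### the product of two cutoffs -/

/-- the product of the two cutoffs -/
noncomputable def uu (η ρ : ℝ) (ζ : ℂ) : ℝ := ct η ζ * ct ρ ζ

theorem uu_cd (hCut : StmtCut) {η ρ : ℝ} (hη : 0 < η) (hρ : 0 < ρ) : ContDiff ℝ 1 (uu η ρ) :=
  ((hCut η hη).1 1).mul ((hCut ρ hρ).1 1)

theorem uu_nonneg (hCut : StmtCut) {η ρ : ℝ} (hη : 0 < η) (hρ : 0 < ρ) (ζ : ℂ) : 0 ≤ uu η ρ ζ :=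
  mul_nonneg ((hCut η hη).2.1 ζ) ((hCut ρ hρ).2.1 ζ)

theorem uu_le_one (hCut : StmtCut) {η ρ : ℝ} (hη : 0 < η) (hρ : 0 < ρ) (ζ : ℂ) :
    uu η ρ ζ ≤ 1 :=
  mul_le_one₀ ((hCut η hη).2.2.1 ζ) ((hCut ρ hρ).2.1 ζ) ((hCut ρ hρ).2.2.1 ζ)

theorem uu_zero (hCut : StmtCut) {η ρ : ℝ} (hη : 0 < η) (hρ : 0 < ρ) {ζ : ℂ}
    (h : ‖ζ‖ ≤ max η ρ) : uu η ρ ζ = 0 := by
  unfold uu
  rcases le_max_iff.1 h with h | h
  · rw [(hCut η hη).2.2.2.1 ζ h, zero_mul]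
  · rw [(hCut ρ hρ).2.2.2.1 ζ h, mul_zero]

theorem uu_one (hCut : StmtCut) {η ρ : ℝ} (hη : 0 < η) (hρ : 0 < ρ) {ζ : ℂ}
    (h : 2 * max η ρ ^ 2 ≤ ‖ζ‖ ^ 2) : uu η ρ ζ = 1 := by
  unfold uu
  have h1 : η ^ 2 ≤ max η ρ ^ 2 := pow_le_pow_left₀ hη.le (le_max_left _ _) 2
  have h2 : ρ ^ 2 ≤ max η ρ ^ 2 := pow_le_pow_left₀ hρ.le (le_max_right _ _) 2
  rw [(hCut η hη).2.2.2.2.1 ζ (by linarith), (hCut ρ hρ).2.2.2.2.1 ζ (by linarith), mul_one]

theorem uu_fderiv (hCut : StmtCut) {η ρ : ℝ} (hη : 0 < η) (hρ : 0 < ρ) (ζ : ℂ) :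
    fderiv ℝ (uu η ρ) ζ = ct η ζ • fderiv ℝ (ct ρ) ζ + ct ρ ζ • fderiv ℝ (ct η) ζ := by
  unfold uu
  exact fderiv_fun_mul (((hCut η hη).1 1).differentiable (by simp) ζ)
    (((hCut ρ hρ).1 1).differentiable (by simp) ζ)

theorem uu_fderiv_le (hCut : StmtCut) {η ρ : ℝ} (hη : 0 < η) (hρ : 0 < ρ) (ζ : ℂ) :
    ‖fderiv ℝ (uu η ρ) ζ‖ ≤ 8 * Mst / ‖ζ‖ := by
  rw [uu_fderiv hCut hη hρ]
  obtain ⟨-, a1, a2, -, -, a3, -, -⟩ := hCut η hη
  obtain ⟨-, b1, b2, -, -, b3, -, -⟩ := hCut ρ hρ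
  refine (norm_add_le _ _).trans ?_
  rw [norm_smul, norm_smul, Real.norm_of_nonneg (a1 ζ), Real.norm_of_nonneg (b1 ζ)]
  have h1 : ct η ζ * ‖fderiv ℝ (ct ρ) ζ‖ ≤ 1 * (4 * Mst / ‖ζ‖) :=
    mul_le_mul (a2 ζ) (b3 ζ) (norm_nonneg _) zero_le_one
  have h2 : ct ρ ζ * ‖fderiv ℝ (ct η) ζ‖ ≤ 1 * (4 * Mst / ‖ζ‖) :=
    mul_le_mul (b2 ζ) (a3 ζ) (norm_nonneg _) zero_le_one
  have h3 : 8 * Mst / ‖ζ‖ = 1 * (4 * Mst / ‖ζ‖) + 1 * (4 * Mst / ‖ζ‖) := by ring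
  rw [h3]
  exact add_le_add h1 h2

theorem uu_fderiv_in (hCut : StmtCut) {η ρ : ℝ} (hη : 0 < η) (hρ : 0 < ρ) {ζ : ℂ}
    (h : ‖ζ‖ < max η ρ) : fderiv ℝ (uu η ρ) ζ = 0 := by
  rw [uu_fderiv hCut hη hρ]
  obtain ⟨-, a1, a2, a4, -, a3, a5, -⟩ := hCut η hη
  obtain ⟨-, b1, b2, b4, -, b3, b5, -⟩ := hCut ρ hρ
  rcases lt_max_iff.1 h with h | h
  · rw [a4 ζ h.le, a5 ζ h, zero_smul, smul_zero, add_zero]
  · rw [b4 ζ h.le, b5 ζ h, zero_smul, smul_zero, add_zero]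

theorem uu_fderiv_out (hCut : StmtCut) {η ρ : ℝ} (hη : 0 < η) (hρ : 0 < ρ) {ζ : ℂ}
    (h : 2 * max η ρ ^ 2 < ‖ζ‖ ^ 2) : fderiv ℝ (uu η ρ) ζ = 0 := by
  rw [uu_fderiv hCut hη hρ]
  have h1 : η ^ 2 ≤ max η ρ ^ 2 := pow_le_pow_left₀ hη.le (le_max_left _ _) 2
  have h2 : ρ ^ 2 ≤ max η ρ ^ 2 := pow_le_pow_left₀ hρ.le (le_max_right _ _) 2
  rw [(hCut η hη).2.2.2.2.2.2.2 ζ (by linarith), (hCut ρ hρ).2.2.2.2.2.2.2 ζ (by linarith),
    smul_zero, smul_zero, add_zero]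

theorem fk_eq (n : ℕ) (η ρ : ℝ) (ζ : ℂ) : fk n η ρ ζ = kk n ζ * (uu η ρ ζ : ℂ) := rfl

theorem kk_meas (n : ℕ) : Measurable (kk n) := by
  unfold kk
  have h1 : Measurable (fun ζ : ℂ => starRingEnd ℂ ζ) := Complex.continuous_conj.measurable
  have h2 : Measurable (fun ζ : ℂ => (Complex.normSq ζ : ℂ)) :=
    (Complex.continuous_ofReal.comp Complex.continuous_normSq).measurable
  exact ((h1.div measurable_id).pow_const n).div h2

theorem fk_meas (hCut : StmtCut) (n : ℕ) {η ρ : ℝ} (hη : 0 < η) (hρ : 0 < ρ) :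
    Measurable (fk n η ρ) := by
  have h : Measurable fun ζ : ℂ => kk n ζ * (uu η ρ ζ : ℂ) :=
    (kk_meas n).mul (Complex.measurable_ofReal.comp (uu_cd hCut hη hρ).continuous.measurable)
  exact h

theorem fk_zero (hCut : StmtCut) (n : ℕ) {η ρ : ℝ} (hη : 0 < η) (hρ : 0 < ρ) {ζ : ℂ}
    (h : ‖ζ‖ ≤ max η ρ) : fk n η ρ ζ = 0 := by
  rw [fk_eq, uu_zero hCut hη hρ h]; simp

theorem fk_le (hCut : StmtCut) (n : ℕ) {η ρ : ℝ} (hη : 0 < η) (hρ : 0 < ρ) (ζ : ℂ) :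
    ‖fk n η ρ ζ‖ ≤ 1 / ‖ζ‖ ^ 2 := by
  rw [fk_eq, norm_mul, Complex.norm_real, Real.norm_of_nonneg (uu_nonneg hCut hη hρ ζ)]
  calc ‖kk n ζ‖ * uu η ρ ζ ≤ 1 / ‖ζ‖ ^ 2 * 1 :=
        mul_le_mul (norm_kk_le n ζ) (uu_le_one hCut hη hρ ζ) (uu_nonneg hCut hη hρ ζ)
          (by positivity)
    _ = _ := mul_one _

theorem fk_sq_le (hCut : StmtCut) (n : ℕ) {η ρ : ℝ} (hη : 0 < η) (hρ : 0 < ρ) (ζ : ℂ) :
    ‖fk n η ρ ζ‖ ^ 2 ≤ q4 (max η ρ) ‖ζ‖ := by
  unfold q4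
  split_ifs with h
  · calc ‖fk n η ρ ζ‖ ^ 2 ≤ (1 / ‖ζ‖ ^ 2) ^ 2 :=
          pow_le_pow_left₀ (norm_nonneg _) (fk_le hCut n hη hρ ζ) 2
      _ = 1 / ‖ζ‖ ^ 4 := by rw [div_pow]; ring
  · rw [fk_zero hCut n hη hρ (not_le.1 h).le]; simp

theorem q4_anti {r r' : ℝ} (h : r ≤ r') (y : ℝ) : q4 r' y ≤ q4 r y := by
  unfold q4
  split_ifs with h1 h2 h2
  · exact le_rfl
  · exact absurd (h.trans h1) h2
  · positivity
  · exact le_rfl

/-! ### integrability and the diagonal bound -/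

theorem prod_le (hCut : StmtCut) (n : ℕ) {η ρ₁ ρ₂ : ℝ} (hη : 0 < η) (h1 : 0 < ρ₁) (h2 : 0 < ρ₂)
    (z z' w : ℂ) :
    ‖fk n η ρ₁ (w - z) * starRingEnd ℂ (fk n η ρ₂ (w - z'))‖ ≤
      (q4 (max η ρ₁) ‖w - z‖ + q4 (max η ρ₂) ‖w - z'‖) / 2 := by
  rw [norm_mul, RCLike.norm_conj]
  have a := fk_sq_le hCut n hη h1 (w - z)
  have b := fk_sq_le hCut n hη h2 (w - z')
  nlinarith [sq_nonneg (‖fk n η ρ₁ (w - z)‖ - ‖fk n η ρ₂ (w - z')‖)]

theorem maj_int {r r' : ℝ} (hr : 0 < r) (hr' : 0 < r') (z z' : ℂ) :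
    Integrable (fun w : ℂ => (q4 r ‖w - z‖ + q4 r' ‖w - z'‖) / 2) :=
  (((q4_int hr).1.comp_sub_right z).add ((q4_int hr').1.comp_sub_right z')).div_const 2

theorem prod_meas (hCut : StmtCut) (n : ℕ) {η ρ₁ ρ₂ : ℝ} (hη : 0 < η) (h1 : 0 < ρ₁) (h2 : 0 < ρ₂)
    (z z' : ℂ) :
    Measurable (fun w => fk n η ρ₁ (w - z) * starRingEnd ℂ (fk n η ρ₂ (w - z'))) :=
  ((fk_meas hCut n hη h1).comp (measurable_id.sub_const z)).mul
    (Complex.continuous_conj.measurable.comp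
      ((fk_meas hCut n hη h2).comp (measurable_id.sub_const z')))

theorem prod_int (hCut : StmtCut) (n : ℕ) {η ρ₁ ρ₂ : ℝ} (hη : 0 < η) (h1 : 0 < ρ₁) (h2 : 0 < ρ₂)
    (z z' : ℂ) :
    Integrable (fun w => fk n η ρ₁ (w - z) * starRingEnd ℂ (fk n η ρ₂ (w - z'))) :=
  (maj_int (lt_of_lt_of_le hη (le_max_left η ρ₁)) (lt_of_lt_of_le hη (le_max_left η ρ₂)) z z').mono'
    (prod_meas hCut n hη h1 h2 z z').aestronglyMeasurable
    (Eventually.of_forall fun w => prod_le hCut n hη h1 h2 z z' w)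

theorem diag (hCut : StmtCut) (n : ℕ) {η ρ : ℝ} (hη : 0 < η) (h : 0 < ρ) (z z' : ℂ) :
    ‖∫ w, fk n η ρ (w - z) * starRingEnd ℂ (fk n η ρ (w - z'))‖ ≤ Real.pi / max η ρ ^ 2 := by
  have hr : 0 < max η ρ := lt_of_lt_of_le hη (le_max_left η ρ)
  refine (norm_integral_le_integral_norm _).trans ?_
  refine (integral_mono (prod_int hCut n hη h h z z').norm (maj_int hr hr z z')
    (fun w => prod_le hCut n hη h h z z' w)).trans (le_of_eq ?_)
  rw [integral_div, integral_add ((q4_int hr).1.comp_sub_right z) ((q4_int hr).1.comp_sub_right z'),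
    integral_sub_right_eq_self (fun w : ℂ => q4 (max η ρ) ‖w‖) z,
    integral_sub_right_eq_self (fun w : ℂ => q4 (max η ρ) ‖w‖) z', (q4_int hr).2]
  ring

/-! ### the bound for close centres -/

theorem close_le (hCut : StmtCut) (n : ℕ) {η ρ₁ ρ₂ : ℝ} (hη : 0 < η) (h1 : 0 < ρ₁) (h2 : 0 < ρ₂)
    {z z' : ℂ} (hz : ‖z - z'‖ ≤ max η ρ₂ / 2) (w : ℂ) :
    ‖fk n η ρ₁ (w - z) * starRingEnd ℂ (fk n η ρ₂ (w - z'))‖ ≤ 4 * q4 (max η ρ₂) ‖w - z'‖ := by
  have hr : 0 < max η ρ₂ := lt_of_lt_of_le hη (le_max_left η ρ₂)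
  rw [norm_mul, RCLike.norm_conj]
  rcases lt_or_ge ‖w - z'‖ (max η ρ₂) with h | h
  · rw [fk_zero hCut n hη h2 h.le, norm_zero, mul_zero]
    have := q4_nonneg (max η ρ₂) ‖w - z'‖
    positivity
  · have a : ‖w - z'‖ ≤ ‖w - z‖ + ‖z - z'‖ := by
      have e : w - z' = (w - z) + (z - z') := by ring
      rw [e]; exact norm_add_le _ _
    have b : ‖w - z'‖ / 2 ≤ ‖w - z‖ := by linarith
    have c : 0 < ‖w - z'‖ := lt_of_lt_of_le hr h
    have c' : 0 < ‖w - z‖ := by linarith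
    have d : ‖fk n η ρ₁ (w - z)‖ ≤ 4 / ‖w - z'‖ ^ 2 := by
      refine (fk_le hCut n hη h1 (w - z)).trans ?_
      rw [div_le_div_iff₀ (by positivity) (by positivity)]
      nlinarith
    calc ‖fk n η ρ₁ (w - z)‖ * ‖fk n η ρ₂ (w - z')‖ ≤ (4 / ‖w - z'‖ ^ 2) * (1 / ‖w - z'‖ ^ 2) :=
          mul_le_mul d (fk_le hCut n hη h2 (w - z')) (norm_nonneg _) (by positivity)
      _ = 4 * q4 (max η ρ₂) ‖w - z'‖ := by
          unfold q4; rw [if_pos h]; field_simp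

theorem close (hCut : StmtCut) (n : ℕ) {η ρ₁ ρ₂ : ℝ} (hη : 0 < η) (h1 : 0 < ρ₁) (h2 : 0 < ρ₂)
    {z z' : ℂ} (hz : ‖z - z'‖ ≤ max η ρ₂ / 2) :
    ‖∫ w, fk n η ρ₁ (w - z) * starRingEnd ℂ (fk n η ρ₂ (w - z'))‖ ≤
      4 * Real.pi / max η ρ₂ ^ 2 := by
  have hr : 0 < max η ρ₂ := lt_of_lt_of_le hη (le_max_left η ρ₂)
  refine (norm_integral_le_integral_norm _).trans ?_
  refine (integral_mono (prod_int hCut n hη h1 h2 z z').norm
    (((q4_int hr).1.comp_sub_right z').const_mul 4)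
    (fun w => close_le hCut n hη h1 h2 hz w)).trans (le_of_eq ?_)
  rw [integral_const_mul, integral_sub_right_eq_self (fun w : ℂ => q4 (max η ρ₂) ‖w‖) z',
    (q4_int hr).2]
  ring

/-! ### far centres -/

theorem far (hO : StmtOrth) (n : ℕ) {η ρ₁ ρ₂ : ℝ} (hn : 1 ≤ n) (hη : 0 < η)
    (h1 : 0 < ρ₁) (h12 : ρ₁ ≤ ρ₂) {z z' : ℂ} (hz : 3 * max η ρ₂ ≤ ‖z - z'‖) :
    ∫ w, fk n η ρ₁ (w - z) * starRingEnd ℂ (fk n η ρ₂ (w - z')) = 0 := by
  have h2 : 0 < ρ₂ := lt_of_lt_of_le h1 h12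
  have hr1 : 0 < max η ρ₁ := lt_of_lt_of_le hη (le_max_left η ρ₁)
  have hr2 : 0 < max η ρ₂ := lt_of_lt_of_le hη (le_max_left η ρ₂)
  have hr12 : max η ρ₁ ≤ max η ρ₂ := max_le_max le_rfl h12
  have hs0 : 0 < Real.sqrt 2 := by positivity
  have hs2 : Real.sqrt 2 ^ 2 = 2 := Real.sq_sqrt (by norm_num)
  have hs3 : Real.sqrt 2 ≤ 3 / 2 := by
    rw [Real.sqrt_le_left (by norm_num)]; norm_num
  have hcd : ∀ ρ : ℝ, ContDiff ℝ 1 (fun s : ℝ => st (s / η ^ 2) * st (s / ρ ^ 2)) := by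
    intro ρ
    exact ((st_contDiff (k := 1)).comp (contDiff_id.div_const _)).mul
      ((st_contDiff (k := 1)).comp (contDiff_id.div_const _))
  have hz0 : ∀ ρ : ℝ, ∀ s : ℝ, s ≤ η ^ 2 → st (s / η ^ 2) * st (s / ρ ^ 2) = 0 := by
    intro ρ s hs
    rw [st_zero (by rw [div_le_one (by positivity)]; exact hs), zero_mul]
  have hz1 : ∀ ρ : ℝ, 0 < ρ → ∀ s : ℝ, (Real.sqrt 2 * max η ρ) ^ 2 ≤ s →
      st (s / η ^ 2) * st (s / ρ ^ 2) = 1 := by
    intro ρ hρ s hs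
    rw [mul_pow, hs2] at hs
    have g1 : η ^ 2 ≤ max η ρ ^ 2 := pow_le_pow_left₀ hη.le (le_max_left _ _) 2
    have g2 : ρ ^ 2 ≤ max η ρ ^ 2 := pow_le_pow_left₀ hρ.le (le_max_right _ _) 2
    rw [st_one (by rw [le_div_iff₀ (by positivity)]; linarith),
      st_one (by rw [le_div_iff₀ (by positivity)]; linarith), mul_one]
  have key := hO n z z' (Real.sqrt 2 * max η ρ₁) (Real.sqrt 2 * max η ρ₂) (η ^ 2)
    (fun s => st (s / η ^ 2) * st (s / ρ₁ ^ 2)) (fun s => st (s / η ^ 2) * st (s / ρ₂ ^ 2))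
    hn (by positivity) (by positivity) (by positivity)
    (by nlinarith) (hcd ρ₁) (hcd ρ₂) (hz0 ρ₁) (hz1 ρ₁ h1) (hz0 ρ₂) (hz1 ρ₂ h2)
  rw [← key]
  congr 1
  ext w
  unfold fk ct
  rw [map_mul, Complex.conj_ofReal]
  push_cast
  ring

/-! ### the bound by integration by parts -/

theorem ball_int (z : ℂ) {s : ℝ} (hs : 0 ≤ s) :
    Integrable ((Metric.closedBall z s).indicator (fun _ => (1 : ℝ))) ∧
    ∫ w, (Metric.closedBall z s).indicator (fun _ => (1 : ℝ)) w = Real.pi * s ^ 2 := by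
  have hv : (volume : Measure ℂ).real (Metric.closedBall z s) = Real.pi * s ^ 2 := by
    rw [Measure.real, Complex.volume_closedBall]
    simp [ENNReal.toReal_ofReal hs]
    ring
  constructor
  · refine (integrable_indicator_iff Metric.isClosed_closedBall.measurableSet).2 ?_
    exact integrableOn_const (by
      exact (isCompact_closedBall z s).measure_lt_top.ne)
  · rw [integral_indicator_const _ Metric.isClosed_closedBall.measurableSet, hv]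
    simp

/-- the majorant for the integration by parts -/
noncomputable def maj (r₁ r₂ s₁ s₂ : ℝ) (z z' w : ℂ) : ℝ :=
  8 * Mst / (r₁ ^ 2 * r₂) * (Metric.closedBall z s₁).indicator (fun _ => (1 : ℝ)) w
    + 8 * Mst / r₂ ^ 2 * (q1 s₂ ‖w - z‖ +
        1 / s₂ * (Metric.closedBall z' s₂).indicator (fun _ => (1 : ℝ)) w)

theorem maj_integrable (r₁ r₂ : ℝ) {s₁ s₂ : ℝ} (h1 : 0 < s₁) (h2 : 0 < s₂) (z z' : ℂ) :
    Integrable (maj r₁ r₂ s₁ s₂ z z') := by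
  unfold maj
  exact ((ball_int z h1.le).1.const_mul _).add
    ((((q1_int h2).1.comp_sub_right z).add ((ball_int z' h2.le).1.const_mul _)).const_mul _)

theorem maj_integral (r₁ r₂ : ℝ) {s₁ s₂ : ℝ} (h1 : 0 < s₁) (h2 : 0 < s₂) (z z' : ℂ) :
    ∫ w, maj r₁ r₂ s₁ s₂ z z' w = 8 * Mst / (r₁ ^ 2 * r₂) * (Real.pi * s₁ ^ 2)
      + 8 * Mst / r₂ ^ 2 * (2 * Real.pi * s₂ + 1 / s₂ * (Real.pi * s₂ ^ 2)) := by
  have a1 : Integrable (fun w : ℂ => 8 * Mst / (r₁ ^ 2 * r₂) *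
      (Metric.closedBall z s₁).indicator (fun _ => (1 : ℝ)) w) :=
    (ball_int z h1.le).1.const_mul _
  have a2 : Integrable (fun w : ℂ => q1 s₂ ‖w - z‖) := (q1_int h2).1.comp_sub_right z
  have a3 : Integrable (fun w : ℂ => 1 / s₂ *
      (Metric.closedBall z' s₂).indicator (fun _ => (1 : ℝ)) w) :=
    (ball_int z' h2.le).1.const_mul _
  have a4 : Integrable (fun w : ℂ => 8 * Mst / r₂ ^ 2 * (q1 s₂ ‖w - z‖ +
      1 / s₂ * (Metric.closedBall z' s₂).indicator (fun _ => (1 : ℝ)) w)) :=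
    (a2.add a3).const_mul _
  unfold maj
  rw [integral_add a1 a4, integral_const_mul, integral_const_mul, integral_add a2 a3,
    integral_const_mul, (ball_int z h1.le).2, (ball_int z' h2.le).2,
    integral_sub_right_eq_self (fun w : ℂ => q1 s₂ ‖w‖) z, (q1_int h2).2]

theorem Mst_pos : 0 < Mst := lt_of_lt_of_le one_pos one_le_Mst

/-- the pointwise bound -/
theorem grad_le (hCut : StmtCut) {η ρ₁ ρ₂ : ℝ} (hη : 0 < η) (h1 : 0 < ρ₁) (h2 : 0 < ρ₂)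
    (z z' w : ℂ) :
    ‖fderiv ℝ (fun w => uu η ρ₁ (w - z) * uu η ρ₂ (w - z')) w‖ / (‖w - z‖ * ‖w - z'‖) ≤
      maj (max η ρ₁) (max η ρ₂) (Real.sqrt 2 * max η ρ₁) (Real.sqrt 2 * max η ρ₂) z z' w := by
  have hr1 : 0 < max η ρ₁ := lt_of_lt_of_le hη (le_max_left η ρ₁)
  have hr2 : 0 < max η ρ₂ := lt_of_lt_of_le hη (le_max_left η ρ₂)
  have hs0 : 0 < Real.sqrt 2 := by positivity
  have hs2 : Real.sqrt 2 ^ 2 = 2 := Real.sq_sqrt (by norm_num)
  have hM := Mst_pos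
  set r₁ := max η ρ₁ with hr1d
  set r₂ := max η ρ₂ with hr2d
  have e1 : fderiv ℝ (fun w => uu η ρ₁ (w - z) * uu η ρ₂ (w - z')) w =
      uu η ρ₁ (w - z) • fderiv ℝ (uu η ρ₂) (w - z')
        + uu η ρ₂ (w - z') • fderiv ℝ (uu η ρ₁) (w - z) := by
    rw [fderiv_fun_mul (c := fun w => uu η ρ₁ (w - z)) (d := fun w => uu η ρ₂ (w - z')),
      fderiv_comp_sub, fderiv_comp_sub]
    · exact ((uu_cd hCut hη h1).comp (contDiff_id.sub contDiff_const)).differentiable (by simp) w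
    · exact ((uu_cd hCut hη h2).comp (contDiff_id.sub contDiff_const)).differentiable (by simp) w
  have n1 := uu_nonneg hCut hη h1 (w - z)
  have n2 := uu_nonneg hCut hη h2 (w - z')
  have o1 := uu_le_one hCut hη h1 (w - z)
  have o2 := uu_le_one hCut hη h2 (w - z')
  have g1 := uu_fderiv_le hCut hη h1 (w - z)
  have g2 := uu_fderiv_le hCut hη h2 (w - z')
  have e2 : ‖fderiv ℝ (fun w => uu η ρ₁ (w - z) * uu η ρ₂ (w - z')) w‖ ≤
      uu η ρ₁ (w - z) * ‖fderiv ℝ (uu η ρ₂) (w - z')‖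
        + uu η ρ₂ (w - z') * ‖fderiv ℝ (uu η ρ₁) (w - z)‖ := by
    rw [e1]
    refine (norm_add_le _ _).trans ?_
    rw [norm_smul, norm_smul, Real.norm_of_nonneg n1, Real.norm_of_nonneg n2]
  set x := ‖w - z‖ with hx
  set y := ‖w - z'‖ with hy
  set G1 := ‖fderiv ℝ (uu η ρ₁) (w - z)‖ with hG1
  set G2 := ‖fderiv ℝ (uu η ρ₂) (w - z')‖ with hG2
  have hx0 : 0 ≤ x := norm_nonneg _
  have hy0 : 0 ≤ y := norm_nonneg _
  have hG10 : 0 ≤ G1 := norm_nonneg _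
  have hG20 : 0 ≤ G2 := norm_nonneg _
  -- term A
  have A : uu η ρ₂ (w - z') * G1 / (x * y) ≤
      8 * Mst / (r₁ ^ 2 * r₂) *
        (Metric.closedBall z (Real.sqrt 2 * r₁)).indicator (fun _ => (1 : ℝ)) w := by
    have i0 : 0 ≤ (Metric.closedBall z (Real.sqrt 2 * r₁)).indicator (fun _ => (1 : ℝ)) w :=
      Set.indicator_nonneg (fun _ _ => zero_le_one) w
    rcases lt_or_ge x r₁ with c | c
    · rw [show G1 = 0 by rw [hG1, uu_fderiv_in hCut hη h1 c, norm_zero]]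
      simp only [mul_zero, zero_div]; positivity
    rcases le_or_gt y r₂ with c' | c'
    · rw [uu_zero hCut hη h2 c']
      simp only [zero_mul, zero_div]; positivity
    rcases le_or_gt x (Real.sqrt 2 * r₁) with c'' | c''
    · rw [Set.indicator_of_mem (by rw [mem_closedBall_iff_norm]; exact c''), mul_one]
      have hx1 : 0 < x := lt_of_lt_of_le hr1 c
      have hy1 : 0 < y := lt_trans hr2 c'
      calc uu η ρ₂ (w - z') * G1 / (x * y) ≤ 1 * (8 * Mst / x) / (x * y) := by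
            gcongr
        _ = 8 * Mst / (x ^ 2 * y) := by field_simp
        _ ≤ 8 * Mst / (r₁ ^ 2 * r₂) := by gcongr
    · have : 2 * r₁ ^ 2 < x ^ 2 := by
        have := pow_lt_pow_left₀ c'' (by positivity) (two_ne_zero)
        rwa [mul_pow, hs2] at this
      rw [show G1 = 0 by rw [hG1, uu_fderiv_out hCut hη h1 this, norm_zero]]
      simp only [mul_zero, zero_div]; positivity
  -- term B
  have B : uu η ρ₁ (w - z) * G2 / (x * y) ≤
      8 * Mst / r₂ ^ 2 * (q1 (Real.sqrt 2 * r₂) x +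
        1 / (Real.sqrt 2 * r₂) *
          (Metric.closedBall z' (Real.sqrt 2 * r₂)).indicator (fun _ => (1 : ℝ)) w) := by
    have i0 : 0 ≤ (Metric.closedBall z' (Real.sqrt 2 * r₂)).indicator (fun _ => (1 : ℝ)) w :=
      Set.indicator_nonneg (fun _ _ => zero_le_one) w
    have i1 := q1_nonneg (Real.sqrt 2 * r₂) hx0
    rcases lt_or_ge y r₂ with c | c
    · rw [show G2 = 0 by rw [hG2, uu_fderiv_in hCut hη h2 c, norm_zero]]
      simp only [mul_zero, zero_div]; positivity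
    rcases le_or_gt y (Real.sqrt 2 * r₂) with c'' | c''
    · rw [Set.indicator_of_mem (by rw [mem_closedBall_iff_norm]; exact c''), mul_one]
      have hy1 : 0 < y := lt_of_lt_of_le hr2 c
      have s1 : uu η ρ₁ (w - z) * G2 / (x * y) = (G2 / y) * (uu η ρ₁ (w - z) / x) := by
        rw [mul_comm x y, mul_comm (uu η ρ₁ (w - z)), mul_div_mul_comm]
      have s2 : G2 / y ≤ 8 * Mst / r₂ ^ 2 := by
        calc G2 / y ≤ (8 * Mst / y) / y := by gcongr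
          _ = 8 * Mst / y ^ 2 := by field_simp
          _ ≤ 8 * Mst / r₂ ^ 2 := by gcongr
      have s3 : uu η ρ₁ (w - z) / x ≤ q1 (Real.sqrt 2 * r₂) x + 1 / (Real.sqrt 2 * r₂) := by
        have t1 : uu η ρ₁ (w - z) / x ≤ 1 / x := by gcongr
        have t2 : 1 / x ≤ q1 (Real.sqrt 2 * r₂) x + 1 / (Real.sqrt 2 * r₂) := by
          unfold q1
          split_ifs with d
          · have : 0 ≤ 1 / (Real.sqrt 2 * r₂) := by positivity
            linarith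
          · rw [zero_add]
            exact one_div_le_one_div_of_le (by positivity) (not_le.1 d).le
        exact t1.trans t2
      rw [s1]
      exact mul_le_mul s2 s3 (by positivity) (by positivity)
    · have : 2 * r₂ ^ 2 < y ^ 2 := by
        have := pow_lt_pow_left₀ c'' (by positivity) (two_ne_zero)
        rwa [mul_pow, hs2] at this
      rw [show G2 = 0 by rw [hG2, uu_fderiv_out hCut hη h2 this, norm_zero]]
      simp only [mul_zero, zero_div]; positivity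
  have C : ‖fderiv ℝ (fun w => uu η ρ₁ (w - z) * uu η ρ₂ (w - z')) w‖ / (x * y) ≤
      uu η ρ₁ (w - z) * G2 / (x * y) + uu η ρ₂ (w - z') * G1 / (x * y) := by
    rw [← add_div]
    exact div_le_div_of_nonneg_right e2 (by positivity)
  unfold maj
  linarith

theorem mid (hV : StmtV) (hCut : StmtCut) (n : ℕ) {η ρ₁ ρ₂ : ℝ} (hn : 1 ≤ n) (hη : 0 < η)
    (h1 : 0 < ρ₁) (h2 : 0 < ρ₂) {z z' : ℂ} (hz : z ≠ z') :
    ‖∫ w, fk n η ρ₁ (w - z) * starRingEnd ℂ (fk n η ρ₂ (w - z'))‖ ≤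
    25 * Real.pi * Mst / (n * ‖z - z'‖ * max η ρ₂) := by
  have hr1 : 0 < max η ρ₁ := lt_of_lt_of_le hη (le_max_left η ρ₁)
  have hr2 : 0 < max η ρ₂ := lt_of_lt_of_le hη (le_max_left η ρ₂)
  have hs0 : 0 < Real.sqrt 2 := by positivity
  have hs2 : Real.sqrt 2 ^ 2 = 2 := Real.sq_sqrt (by norm_num)
  have hs3 : Real.sqrt 2 ≤ 17 / 12 := by
    rw [Real.sqrt_le_left (by norm_num)]; norm_num
  have hM := Mst_pos
  have hd : 0 < ‖z - z'‖ := norm_pos_iff.2 (sub_ne_zero.2 hz)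
  have hn' : (0 : ℝ) < n := by exact_mod_cast hn
  have hcd : ContDiff ℝ 1 (fun w => uu η ρ₁ (w - z) * uu η ρ₂ (w - z')) :=
    ((uu_cd hCut hη h1).comp (contDiff_id.sub contDiff_const)).mul
      ((uu_cd hCut hη h2).comp (contDiff_id.sub contDiff_const))
  have hsup : HasCompactSupport (fun w => uu η ρ₁ (w - z) * uu η ρ₂ (w - z') - 1) := by
    apply HasCompactSupport.intro
      (isCompact_closedBall (0 : ℂ) (‖z‖ + ‖z'‖ + 2 * max η ρ₁ + 2 * max η ρ₂))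
    intro w hw
    rw [mem_closedBall_zero_iff, not_le] at hw
    have a1 : ‖w‖ ≤ ‖w - z‖ + ‖z‖ := by
      have e : w = (w - z) + z := by ring
      calc ‖w‖ = ‖(w - z) + z‖ := by rw [← e]
        _ ≤ _ := norm_add_le _ _
    have a2 : ‖w‖ ≤ ‖w - z'‖ + ‖z'‖ := by
      have e : w = (w - z') + z' := by ring
      calc ‖w‖ = ‖(w - z') + z'‖ := by rw [← e]
        _ ≤ _ := norm_add_le _ _
    have b1 : 2 * max η ρ₁ ≤ ‖w - z‖ := by linarith [norm_nonneg z']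
    have b2 : 2 * max η ρ₂ ≤ ‖w - z'‖ := by linarith [norm_nonneg z]
    rw [uu_one hCut hη h1 (by nlinarith), uu_one hCut hη h2 (by nlinarith)]
    norm_num
  have hz1 : ∀ᶠ w in 𝓝 z, uu η ρ₁ (w - z) * uu η ρ₂ (w - z') = 0 := by
    filter_upwards [Metric.ball_mem_nhds z hr1] with w hw
    rw [mem_ball_iff_norm] at hw
    rw [uu_zero hCut hη h1 hw.le, zero_mul]
  have hz2 : ∀ᶠ w in 𝓝 z', uu η ρ₁ (w - z) * uu η ρ₂ (w - z') = 0 := by
    filter_upwards [Metric.ball_mem_nhds z' hr2] with w hw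
    rw [mem_ball_iff_norm] at hw
    rw [uu_zero hCut hη h2 hw.le, mul_zero]
  obtain ⟨k1, k2⟩ := hV n z z' (fun w => uu η ρ₁ (w - z) * uu η ρ₂ (w - z')) 1 hn hz hcd hsup hz1 hz2
  have e : (fun w => fk n η ρ₁ (w - z) * starRingEnd ℂ (fk n η ρ₂ (w - z'))) =
      fun w => kk n (w - z) * starRingEnd ℂ (kk n (w - z')) *
        ((uu η ρ₁ (w - z) * uu η ρ₂ (w - z') : ℝ) : ℂ) := by
    ext w
    rw [fk_eq, fk_eq, map_mul, Complex.conj_ofReal]
    push_cast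
    ring
  rw [e]
  refine k2.trans ?_
  have k3 : ∫ w, ‖fderiv ℝ (fun w => uu η ρ₁ (w - z) * uu η ρ₂ (w - z')) w‖ /
      (‖w - z‖ * ‖w - z'‖) ≤ 50 * Real.pi * Mst / max η ρ₂ := by
    refine (integral_mono k1 (maj_integrable (max η ρ₁) (max η ρ₂) (by positivity)
      (by positivity) z z') (fun w => grad_le hCut hη h1 h2 z z' w)).trans ?_
    rw [maj_integral _ _ (by positivity) (by positivity)]
    have f1 : 8 * Mst / (max η ρ₁ ^ 2 * max η ρ₂) * (Real.pi * (Real.sqrt 2 * max η ρ₁) ^ 2)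
        = 16 * (Real.pi * Mst / max η ρ₂) := by
      rw [mul_pow, hs2]; field_simp; ring
    have f2 : 8 * Mst / max η ρ₂ ^ 2 * (2 * Real.pi * (Real.sqrt 2 * max η ρ₂) +
        1 / (Real.sqrt 2 * max η ρ₂) * (Real.pi * (Real.sqrt 2 * max η ρ₂) ^ 2))
        = 24 * Real.sqrt 2 * (Real.pi * Mst / max η ρ₂) := by
      field_simp; ring
    rw [f1, f2]
    have f3 : 50 * Real.pi * Mst / max η ρ₂ = 50 * (Real.pi * Mst / max η ρ₂) := by ring
    rw [f3]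
    have f4 : 0 < Real.pi * Mst / max η ρ₂ := by have := Real.pi_pos; positivity
    nlinarith
  calc 1 / (2 * n * ‖z - z'‖) * ∫ w, ‖fderiv ℝ (fun w => uu η ρ₁ (w - z) * uu η ρ₂ (w - z')) w‖ /
        (‖w - z‖ * ‖w - z'‖)
      ≤ 1 / (2 * n * ‖z - z'‖) * (50 * Real.pi * Mst / max η ρ₂) := by gcongr
    _ = 25 * Real.pi * Mst / (n * ‖z - z'‖ * max η ρ₂) := by field_simp; ring

end FarPair

theorem farPair (hV : StmtV) (hO : StmtOrth) (hCut : StmtCut) : StmtFarPair := by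
  intro n η ρ₁ ρ₂ z z' hn hη h1 h12
  have h2 : 0 < ρ₂ := lt_of_lt_of_le h1 h12
  refine ⟨FarPair.prod_int hCut n hη h1 h2 z z', fun h => FarPair.far hO n hn hη h1 h12 h,
    fun h => FarPair.mid hV hCut n hn hη h1 h2 h, fun h => FarPair.close hCut n hη h1 h2 h, ?_⟩
  intro h
  subst h
  exact FarPair.diag hCut n hη h1 z z'

end Pool.Agent.Lib.MP_dd244f_an.Joint
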