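import Pool.Agent.Lib.MP_dd244f_an.Joint.Stmts
import Pool.Agent.Lib.MP_dd244f_an.Joint.Basic

set_option autoImplicit false

namespace Pool.Agent.Lib.MP_dd244f_an.Joint

open MeasureTheory Filter Topology Set
open scoped SchwartzMap ENNReal

theorem final1_real (hR : StmtRatio) {n : ℕ} {p d ε : ℝ} (hn : 1 ≤ n) (h0 : 0 < d)
    (hε : 0 < ε) (hp4 : 4 ≤ p) (hp : p = 1 + 1 / d) :
    (n : ℝ) ^ (1 - d) * ((1 + ε) * (1 / d) * (1 - 8 / p)) ≤ ((1 + ε) * ratio n p) ^ (1 + d) ∧
      0 ≤ (1 + ε) * ratio n p := by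
  have hn0 : (0 : ℝ) < n := by exact_mod_cast hn
  have hp1 : p - 1 = 1 / d := by rw [hp]; ring
  have hpp : 1 - 2 / p = (1 - d) / (1 + d) := by
    rw [hp]; field_simp; ring
  have hd3 : 3 ≤ 1 / d := by linarith
  have hd13 : d ≤ 1 / 3 := by
    rw [le_div_iff₀ h0] at hd3; linarith
  have hr := hR n p hn hp4
  rw [hp1, hpp] at hr
  have hpos : 0 < (n : ℝ) ^ ((1 - d) / (1 + d)) * (1 / d) * Real.exp (-(2 / p) - 7 / p ^ 2) := by
    positivity
  have hrpos : 0 < ratio n p := hpos.trans_le hr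
  refine ⟨?_, by positivity⟩
  have hC0 : (1 + ε) * ((n : ℝ) ^ ((1 - d) / (1 + d)) * (1 / d) * Real.exp (-(2 / p) - 7 / p ^ 2))
      ≤ (1 + ε) * ratio n p := mul_le_mul_of_nonneg_left hr (by linarith)
  refine le_trans ?_ (Real.rpow_le_rpow (by positivity) hC0 (by linarith))
  have h1d : 0 < 1 + d := by linarith
  rw [Real.mul_rpow (by linarith) (by positivity), Real.mul_rpow (by positivity) (by positivity),
    Real.mul_rpow (by positivity) (by positivity), ← Real.rpow_mul hn0.le,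
    div_mul_cancel₀ _ h1d.ne', ← Real.exp_mul]
  have e1 : 1 + ε ≤ (1 + ε) ^ (1 + d) := by
    calc 1 + ε = (1 + ε) ^ (1 : ℝ) := (Real.rpow_one _).symm
      _ ≤ _ := Real.rpow_le_rpow_of_exponent_le (by linarith) (by linarith)
  have e2 : 1 / d ≤ (1 / d) ^ (1 + d) := by
    calc 1 / d = (1 / d) ^ (1 : ℝ) := (Real.rpow_one _).symm
      _ ≤ _ := Real.rpow_le_rpow_of_exponent_le (by linarith) (by linarith)
  have e3 : 1 - 8 / p ≤ Real.exp ((-(2 / p) - 7 / p ^ 2) * (1 + d)) := by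
    refine le_trans ?_ (Real.add_one_le_exp _)
    have hp0 : 0 < p := by linarith
    have h7 : 7 / p ^ 2 ≤ (7 / 4) / p := by
      rw [div_le_div_iff₀ (by positivity) hp0]
      nlinarith
    have h2 : (2 / p + 7 / p ^ 2) * (1 + d) ≤ 8 / p := by
      have : 2 / p + 7 / p ^ 2 ≤ 4 / p := by
        have : (2 : ℝ) / p + (7 / 4) / p ≤ 4 / p := by
          rw [← add_div]; gcongr; norm_num
        linarith
      have h4 : 0 ≤ 4 / p := by positivity
      calc (2 / p + 7 / p ^ 2) * (1 + d) ≤ 4 / p * 2 := by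
            apply mul_le_mul this (by linarith) (by linarith) h4
        _ = 8 / p := by ring
    linarith
  have hnp : 0 < (n : ℝ) ^ (1 - d) := by positivity
  have hexp := Real.exp_pos ((-(2 / p) - 7 / p ^ 2) * (1 + d))
  have hd0 : 0 < 1 / d := by positivity
  calc (n : ℝ) ^ (1 - d) * ((1 + ε) * (1 / d) * (1 - 8 / p))
      ≤ (n : ℝ) ^ (1 - d) * ((1 + ε) * (1 / d) * Real.exp ((-(2 / p) - 7 / p ^ 2) * (1 + d))) := by
        gcongr
    _ ≤ (n : ℝ) ^ (1 - d) * ((1 + ε) ^ (1 + d) * (1 / d) ^ (1 + d)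
          * Real.exp ((-(2 / p) - 7 / p ^ 2) * (1 + d))) := by
        gcongr
    _ = _ := by ring

theorem final1 (hK : StmtKeyT) (hM : StmtMarc) (hC : StmtConsts) (hD : StmtDual)
    (hR : StmtRatio) : StmtFinal1 := by
  intro ε hε
  set e : ℝ := min 1 ε / 15 with he
  have hmin : 0 < min 1 ε := lt_min one_pos hε
  have he0 : 0 < e := by positivity
  have he1 : e ≤ 1 / 15 := by
    rw [he]; have := min_le_left 1 ε; linarith
  have heε : 15 * e ≤ ε := by
    rw [he]; have := min_le_right 1 ε; linarith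
  have he4 : (1 + e) ^ 4 ≤ 1 + ε := by nlinarith [pow_pos he0 2, pow_pos he0 3]
  set K : ℝ := (1 + e) ^ 2 / ((1 + e) ^ 2 - 1) with hKdef
  have hden : 0 < (1 + e) ^ 2 - 1 := by nlinarith
  have hK0 : 0 < K := by positivity
  obtain ⟨n₀, hn₀, hkey⟩ := hK e he0
  refine ⟨n₀, 4 + 16 / e + 2 * (4 + K) / e, fun n hn p hp f => ?_⟩
  have hn1 : 1 ≤ n := hn₀.trans hn
  have h16 : 0 < 16 / e := by positivity
  have h2K : 0 < 2 * (4 + K) / e := by positivity
  have hp4 : 4 ≤ p := by linarith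
  have hp0 : 0 < p := by linarith
  have hp16 : 16 / e ≤ p := by linarith
  have hpK : 2 * (4 + K) / e ≤ p := by linarith
  rw [div_le_iff₀ he0] at hp16 hpK
  set d := 1 / (p - 1) with hd
  have hp1 : 1 < p - 1 := by linarith
  have h0 : 0 < d := by positivity
  have h1 : d < 1 := by rw [hd, div_lt_one (by linarith)]; exact hp1
  have hpd : p = 1 + 1 / d := by rw [hd]; simp
  have hdp : d ≤ 2 / p := by
    rw [hd, div_le_div_iff₀ (by linarith) hp0]; linarith
  have hdK : d * (4 + K) ≤ e := by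
    calc d * (4 + K) ≤ 2 / p * (4 + K) := by gcongr
      _ = 2 * (4 + K) / p := by ring
      _ ≤ e := by rw [div_le_iff₀ hp0]; linarith
  obtain ⟨hreal, hCpos⟩ := final1_real hR hn1 h0 hε hp4 hpd
  have hq1 : 1 < 1 + d := by linarith
  have hq2 : 1 + d < 2 := by linarith
  refine hD n p (1 + d) _ (by linarith) ?_ hCpos ?_ f
  · rw [hpd]; field_simp; ring
  intro g hg
  have hm := hM n e hn1 he0.le (hkey n hn) g (1 + d) 1 (1 + e) hg hq1 hq2 one_pos (by linarith)
  obtain ⟨-, -, -, hcq, haq, hbq⟩ := hC (1 + d) hq1 hq2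
  have hcq0 : 0 < cq (1 + d) := lt_of_lt_of_le (by positivity) hcq
  have haq' : aq (1 + d) ≤ 1 / d + 1 := by
    refine haq.trans ?_
    rw [show (1 + d - 1 : ℝ) = d by ring, show (3 - (1 + d) : ℝ) = 2 - d by ring]
    have : 1 / (2 - d) ≤ 1 := by rw [div_le_one (by linarith)]; linarith
    linarith
  have hmain : (n : ℝ) ^ (2 - (1 + d)) * ((1 + e) * (1 + e) * (Real.pi / 2) * 1 ^ (1 - (1 + d))
        * aq (1 + d) + (1 + e) ^ 2 / ((1 + e) ^ 2 - 1) * 1 ^ (2 - (1 + d)) * bq (1 + d))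
      ≤ cq (1 + d) * ((1 + ε) * ratio n p) ^ (1 + d) := by
    rw [Real.one_rpow, Real.one_rpow, show (2 - (1 + d) : ℝ) = 1 - d by ring, hbq, ← hKdef]
    have hs : (1 + e) * (1 + e) * (Real.pi / 2) * 1 * aq (1 + d)
        + K * 1 * ((1 + d) / 2 * cq (1 + d))
        ≤ cq (1 + d) * ((1 + ε) * (1 / d) * (1 - 8 / p)) := by
      have e1 : Real.pi / 2 * aq (1 + d) ≤ cq (1 + d) * (1 / d + 1) := by
        have h3 : Real.pi / 2 * aq (1 + d) ≤ Real.pi / 2 * (1 / d + 1) :=
          mul_le_mul_of_nonneg_left haq' (by positivity)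
        have h4 : Real.pi / 2 * (1 / d + 1) ≤ cq (1 + d) * (1 / d + 1) :=
          mul_le_mul_of_nonneg_right hcq (by positivity)
        linarith
      have e2 : (1 + e) * (1 + e) * (Real.pi / 2) * 1 * aq (1 + d)
          ≤ (1 + e) ^ 2 * (cq (1 + d) * (1 / d + 1)) := by
        have := mul_le_mul_of_nonneg_left e1 (by positivity : 0 ≤ (1 + e) ^ 2)
        linarith
      have e3 : K * 1 * ((1 + d) / 2 * cq (1 + d)) ≤ K * cq (1 + d) := by
        have : (1 + d) / 2 * cq (1 + d) ≤ 1 * cq (1 + d) :=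
          mul_le_mul_of_nonneg_right (by linarith) hcq0.le
        nlinarith
      have e4 : (1 + e) ^ 2 * (1 / d + 1) + K ≤ (1 + e) ^ 3 * (1 / d) := by
        have h5 : (1 + e) ^ 2 + K ≤ (1 + e) ^ 2 * e * (1 / d) := by
          have h6 : (1 + e) ^ 2 + K ≤ 4 + K := by nlinarith
          have h7 : 4 + K ≤ e / d := by rw [le_div_iff₀ h0]; linarith
          have h8 : e / d ≤ (1 + e) ^ 2 * e * (1 / d) := by
            have : e / d * 1 ≤ e / d * (1 + e) ^ 2 := by
              apply mul_le_mul_of_nonneg_left _ (by positivity)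
              nlinarith
            calc e / d = e / d * 1 := by ring
              _ ≤ e / d * (1 + e) ^ 2 := this
              _ = _ := by ring
          linarith
        nlinarith
      have e5 : (1 + e) ^ 3 ≤ (1 + ε) * (1 - 8 / p) := by
        have h8 : 8 / p ≤ e / 2 := by
          rw [div_le_iff₀ hp0]; linarith
        have h9 : 1 - e / 2 ≤ 1 - 8 / p := by linarith
        have h10 : (1 + e) ^ 3 ≤ (1 + e) ^ 4 * (1 - e / 2) := by
          have : 1 ≤ (1 + e) * (1 - e / 2) := by nlinarith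
          have h11 : 0 < (1 + e) ^ 3 := by positivity
          calc (1 + e) ^ 3 = (1 + e) ^ 3 * 1 := by ring
            _ ≤ (1 + e) ^ 3 * ((1 + e) * (1 - e / 2)) := by gcongr
            _ = _ := by ring
        calc (1 + e) ^ 3 ≤ (1 + e) ^ 4 * (1 - e / 2) := h10
          _ ≤ (1 + ε) * (1 - 8 / p) := by
            apply mul_le_mul he4 h9 (by linarith) (by linarith)
      have e6 : (1 + e) ^ 3 * (1 / d) ≤ (1 + ε) * (1 / d) * (1 - 8 / p) := by
        have := mul_le_mul_of_nonneg_right e5 (by positivity : 0 ≤ 1 / d)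
        linarith
      have e7 := mul_le_mul_of_nonneg_left (e4.trans e6) hcq0.le
      linarith
    calc (n : ℝ) ^ (1 - d) * _ ≤ (n : ℝ) ^ (1 - d) * (cq (1 + d) *
            ((1 + ε) * (1 / d) * (1 - 8 / p))) := mul_le_mul_of_nonneg_left hs (by positivity)
      _ = cq (1 + d) * ((n : ℝ) ^ (1 - d) * ((1 + ε) * (1 / d) * (1 - 8 / p))) := by ring
      _ ≤ _ := mul_le_mul_of_nonneg_left hreal hcq0.le
  have hfin : ENNReal.ofReal (cq (1 + d)) * ∫⁻ w, ‖Tn n g w‖ₑ ^ (1 + d)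
      ≤ ENNReal.ofReal (cq (1 + d)) *
        (ENNReal.ofReal (((1 + ε) * ratio n p) ^ (1 + d)) * ∫⁻ w, ‖g w‖ₑ ^ (1 + d)) := by
    refine hm.trans ?_
    rw [← mul_assoc, ← ENNReal.ofReal_mul hcq0.le]
    gcongr
  exact (ENNReal.mul_le_mul_iff_right (by simpa using hcq0) ENNReal.ofReal_ne_top).1 hfin

end Pool.Agent.Lib.MP_dd244f_an.Joint
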