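import Pool.Agent.Lib.MP_dd244f_an.Joint.Stmts
import Pool.Agent.Lib.MP_dd244f_an.Joint.Basic
import Pool.Agent.Lib.MP_dd244f_an.L2

set_option autoImplicit false

namespace Pool.Agent.Lib.MP_dd244f_an.Joint

open MeasureTheory Filter Topology Set
open scoped SchwartzMap ENNReal

/-- the optimal parameters -/
theorem final2_params {d : ℝ} (h0 : 0 < d) (h1 : d < 1) :
    ∃ σ t : ℝ, 1 < σ ∧ 0 < t ∧
      σ * t ^ (-d) * ((1 - 41 / 50 * d ^ 2) / d) + σ ^ 2 / (σ ^ 2 - 1) * t ^ (1 - d) * ((1 + d) / 2)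
      = Real.exp ((1 + 3 * d) / 2 * Real.log (1 + d) - 3 / 2 * (1 - d) * Real.log (1 - d)
        + (1 - d) * Real.log (1 - 41 / 50 * d ^ 2) - (1 + d) * Real.log d - d * Real.log 4) := by
  have hX : 0 < 1 - 41 / 50 * d ^ 2 := by nlinarith
  set X := 1 - 41 / 50 * d ^ 2 with hXdef
  have h1d : 0 < 1 - d := by linarith
  have h2d : 0 < 1 + d := by linarith
  set σ := Real.sqrt ((1 + d) / (1 - d)) with hσ
  have hσ2 : σ ^ 2 = (1 + d) / (1 - d) := Real.sq_sqrt (by positivity)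
  have hσ0 : 0 < σ := Real.sqrt_pos.2 (by positivity)
  have hσ1 : 1 < σ := by
    have : 1 < σ ^ 2 := by
      rw [hσ2, lt_div_iff₀ h1d]; linarith
    nlinarith
  have hq : σ ^ 2 / (σ ^ 2 - 1) = (1 + d) / (2 * d) := by
    rw [hσ2]
    have : (1 + d) / (1 - d) - 1 = 2 * d / (1 - d) := by
      field_simp; ring
    rw [this]
    field_simp
  set A := σ * X / d with hA
  have hApos : 0 < A := by positivity
  set B := (1 + d) ^ 2 / (4 * d) with hB
  have hBpos : 0 < B := by positivity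
  set t := d * A / ((1 - d) * B) with ht
  have htpos : 0 < t := by positivity
  refine ⟨σ, t, hσ1, htpos, ?_⟩
  rw [hq]
  have e1 : σ * t ^ (-d) * (X / d) + (1 + d) / (2 * d) * t ^ (1 - d) * ((1 + d) / 2)
      = t ^ (-d) * A / (1 - d) := by
    have e2 : t ^ (1 - d) = t ^ (-d) * t := by
      rw [show (1 - d) = -d + 1 by ring, Real.rpow_add_one htpos.ne']
    rw [e2]
    have e3 : σ * t ^ (-d) * (X / d) = t ^ (-d) * A := by rw [hA]; ring
    have e4 : (1 + d) / (2 * d) * (t ^ (-d) * t) * ((1 + d) / 2) = t ^ (-d) * (B * t) := by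
      rw [hB]; field_simp; ring
    rw [e3, e4]
    have e5 : B * t = d * A / (1 - d) := by
      rw [ht]; field_simp
    rw [e5]
    field_simp
    ring
  rw [e1]
  have hlσ : Real.log σ = (Real.log (1 + d) - Real.log (1 - d)) / 2 := by
    rw [hσ, Real.log_sqrt (by positivity), Real.log_div h2d.ne' h1d.ne']
  have hlA : Real.log A = (Real.log (1 + d) - Real.log (1 - d)) / 2 + Real.log X - Real.log d := by
    rw [hA, Real.log_div (by positivity) h0.ne', Real.log_mul hσ0.ne' hX.ne', hlσ]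
  have hlB : Real.log B = 2 * Real.log (1 + d) - (Real.log 4 + Real.log d) := by
    rw [hB, Real.log_div (by positivity) (by positivity), Real.log_pow,
      Real.log_mul (by norm_num) h0.ne']
    push_cast; ring
  have hlt : Real.log t = Real.log d + Real.log A - (Real.log (1 - d) + Real.log B) := by
    rw [ht, Real.log_div (by positivity) (by positivity), Real.log_mul h0.ne' hApos.ne',
      Real.log_mul h1d.ne' hBpos.ne']
  have hval : 0 < t ^ (-d) * A / (1 - d) := by positivity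
  rw [← Real.exp_log hval]
  congr 1
  rw [Real.log_div (by positivity) h1d.ne', Real.log_mul (by positivity) hApos.ne',
    Real.log_rpow htpos, hlt, hlB, hlA]
  ring

/-- the real inequality -/
theorem final2_real (hR : StmtRatio2) (hN : StmtNum) {n : ℕ} {p d : ℝ} (hn : 1 ≤ n) (h0 : 0 < d)
    (h1 : d < 1) (hp : p = 1 + 1 / d) :
    ∃ σ t : ℝ, 1 < σ ∧ 0 < t ∧
      (n : ℝ) ^ (1 - d) * ((1 + 1 / 60) * (σ * t ^ (-d) * ((1 - 41 / 50 * d ^ 2) / d)
        + σ ^ 2 / (σ ^ 2 - 1) * t ^ (1 - d) * ((1 + d) / 2))) ≤ (6 / 5 * ratio n p) ^ (1 + d) ∧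
      0 ≤ 6 / 5 * ratio n p := by
  obtain ⟨σ, t, hσ, ht, hval⟩ := final2_params h0 h1
  have hn0 : (0 : ℝ) < n := by exact_mod_cast hn
  have hp2 : 2 ≤ p := by
    rw [hp]
    have : 1 ≤ 1 / d := by rw [le_div_iff₀ h0]; linarith
    linarith
  have hp1 : p - 1 = 1 / d := by rw [hp]; ring
  have hpp : 1 - 2 / p = (1 - d) / (1 + d) := by
    rw [hp]; field_simp; ring
  have hr := hR n p hn hp2
  rw [hp1, hpp] at hr
  have hpos : 0 < Real.exp (-(19 / 500 * ((1 - d) / (1 + d)))) *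
      ((n : ℝ) ^ ((1 - d) / (1 + d)) * (1 / d)) := by positivity
  have hrpos : 0 < ratio n p := hpos.trans_le hr
  refine ⟨σ, t, hσ, ht, ?_, by positivity⟩
  rw [hval]
  have h60 : (1 : ℝ) + 1 / 60 ≤ Real.exp (1 / 50) :=
    le_trans (by norm_num) (Real.add_one_le_exp (1 / 50 : ℝ))
  have hC0 : 6 / 5 * (Real.exp (-(19 / 500 * ((1 - d) / (1 + d)))) *
      ((n : ℝ) ^ ((1 - d) / (1 + d)) * (1 / d))) ≤ 6 / 5 * ratio n p := by linarith
  have hstep : (6 / 5 * (Real.exp (-(19 / 500 * ((1 - d) / (1 + d)))) *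
      ((n : ℝ) ^ ((1 - d) / (1 + d)) * (1 / d)))) ^ (1 + d) ≤ (6 / 5 * ratio n p) ^ (1 + d) :=
    Real.rpow_le_rpow (by positivity) hC0 (by linarith)
  refine le_trans ?_ hstep
  have hexp : (6 / 5 * (Real.exp (-(19 / 500 * ((1 - d) / (1 + d)))) *
      ((n : ℝ) ^ ((1 - d) / (1 + d)) * (1 / d)))) ^ (1 + d)
      = Real.exp ((1 + d) * Real.log (6 / 5) - 19 / 500 * (1 - d) + (1 - d) * Real.log n
        - (1 + d) * Real.log d) := by
    have hb : 0 < 6 / 5 * (Real.exp (-(19 / 500 * ((1 - d) / (1 + d)))) *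
      ((n : ℝ) ^ ((1 - d) / (1 + d)) * (1 / d))) := by positivity
    have h1d : 0 < 1 + d := by linarith
    rw [Real.rpow_def_of_pos hb, Real.log_mul (by norm_num) hpos.ne',
      Real.log_mul (Real.exp_pos _).ne' (by positivity), Real.log_exp,
      Real.log_mul (by positivity) (by positivity), Real.log_rpow hn0, one_div, Real.log_inv]
    congr 1
    field_simp
    ring
  rw [hexp, Real.rpow_def_of_pos hn0]
  have hNum := hN d h0 h1
  calc Real.exp (Real.log n * (1 - d)) * ((1 + 1 / 60) * Real.exp _)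
      ≤ Real.exp (Real.log n * (1 - d)) * (Real.exp (1 / 50) * Real.exp _) := by gcongr
    _ = Real.exp (Real.log n * (1 - d) + (1 / 50 + _)) := by rw [Real.exp_add, Real.exp_add]
    _ ≤ _ := Real.exp_le_exp.2 (by linarith)

theorem ratio_two (n : ℕ) : ratio n 2 = 1 := by
  unfold ratio
  rw [show (1 : ℝ) - 1 / 2 = 1 / 2 by norm_num]
  apply div_self
  exact (ascPochhammer_pos n (1 / 2 : ℝ) (by norm_num)).ne'

theorem final2 (hK : StmtKeyT) (hM : StmtMarc) (hC : StmtConsts) (hC3 : StmtConsts3)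
    (hD : StmtDual) (hR : StmtRatio2) (hN : StmtNum) : StmtFinal2 := by
  obtain ⟨n₀, hn₀, hkey⟩ := hK (1 / 60) (by norm_num)
  refine ⟨n₀, fun n hn p hp f => ?_⟩
  have hn1 : 1 ≤ n := hn₀.trans hn
  rcases eq_or_lt_of_le hp with h2 | h2
  · rw [← h2, ratio_two]
    have e : ENNReal.ofReal (2 : ℝ) = 2 := by norm_num
    rw [e]
    refine (Tn_L2 n f).trans ?_
    have : (1 : ℝ≥0∞) ≤ ENNReal.ofReal (6 / 5 * 1) := by
      rw [← ENNReal.ofReal_one]; exact ENNReal.ofReal_le_ofReal (by norm_num)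
    calc eLpNorm (⇑f) 2 volume = 1 * eLpNorm (⇑f) 2 volume := (one_mul _).symm
      _ ≤ _ := by gcongr
  · set d := 1 / (p - 1) with hd
    have hp1 : 1 < p - 1 := by linarith
    have h0 : 0 < d := by positivity
    have h1 : d < 1 := by rw [hd, div_lt_one (by linarith)]; exact hp1
    have hpd : p = 1 + 1 / d := by rw [hd]; simp
    obtain ⟨σ, t, hσ, ht, hreal, hCpos⟩ := final2_real hR hN hn1 h0 h1 hpd
    have hq1 : 1 < 1 + d := by linarith
    have hq2 : 1 + d < 2 := by linarith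
    refine hD n p (1 + d) _ h2 ?_ hCpos ?_ f
    · rw [hpd]; field_simp; ring
    intro g hg
    have hm := hM n (1 / 60) hn1 (by norm_num) (hkey n hn) g (1 + d) t σ hg hq1 hq2 ht hσ
    obtain ⟨-, -, -, hcq, -, hbq⟩ := hC (1 + d) hq1 hq2
    have hcq0 : 0 < cq (1 + d) := lt_of_lt_of_le (by positivity) hcq
    have h3 := hC3 (1 + d) hq1 hq2
    rw [show (1 + d - 1 : ℝ) = d by ring] at h3
    have haq : Real.pi / 2 * aq (1 + d) ≤ (1 - 41 / 50 * d ^ 2) / d * cq (1 + d) := by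
      have e0 : (1 - 41 / 50 * d ^ 2) / d * cq (1 + d) = (1 - 41 / 50 * d ^ 2) * cq (1 + d) / d := by
        ring
      rw [e0, le_div_iff₀ h0]
      linarith
    have hσ1 : 0 < σ ^ 2 - 1 := by nlinarith
    have htd : 0 < t ^ (-d) := Real.rpow_pos_of_pos ht _
    have htd1 : 0 < t ^ (1 - d) := Real.rpow_pos_of_pos ht _
    have hX : 0 < 1 - 41 / 50 * d ^ 2 := by nlinarith
    have hmain : (n : ℝ) ^ (2 - (1 + d)) * ((1 + 1 / 60) * σ * (Real.pi / 2) * t ^ (1 - (1 + d))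
          * aq (1 + d) + σ ^ 2 / (σ ^ 2 - 1) * t ^ (2 - (1 + d)) * bq (1 + d))
        ≤ cq (1 + d) * (6 / 5 * ratio n p) ^ (1 + d) := by
      rw [show (2 - (1 + d) : ℝ) = 1 - d by ring, show (1 - (1 + d) : ℝ) = -d by ring, hbq]
      have hs : (1 + 1 / 60) * σ * (Real.pi / 2) * t ^ (-d) * aq (1 + d)
          + σ ^ 2 / (σ ^ 2 - 1) * t ^ (1 - d) * ((1 + d) / 2 * cq (1 + d))
          ≤ cq (1 + d) * ((1 + 1 / 60) * (σ * t ^ (-d) * ((1 - 41 / 50 * d ^ 2) / d)
        + σ ^ 2 / (σ ^ 2 - 1) * t ^ (1 - d) * ((1 + d) / 2))) := by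
        have e1 : (1 + 1 / 60) * σ * (Real.pi / 2) * t ^ (-d) * aq (1 + d)
            = ((1 + 1 / 60) * σ * t ^ (-d)) * (Real.pi / 2 * aq (1 + d)) := by ring
        have e2 : ((1 + 1 / 60) * σ * t ^ (-d)) * (Real.pi / 2 * aq (1 + d))
            ≤ ((1 + 1 / 60) * σ * t ^ (-d)) * ((1 - 41 / 50 * d ^ 2) / d * cq (1 + d)) :=
          mul_le_mul_of_nonneg_left haq (by positivity)
        have e3 : 0 ≤ σ ^ 2 / (σ ^ 2 - 1) * t ^ (1 - d) * ((1 + d) / 2 * cq (1 + d)) := by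
          positivity
        rw [e1]
        nlinarith
      calc (n : ℝ) ^ (1 - d) * _ ≤ (n : ℝ) ^ (1 - d) * (cq (1 + d) *
              ((1 + 1 / 60) * (σ * t ^ (-d) * ((1 - 41 / 50 * d ^ 2) / d)
              + σ ^ 2 / (σ ^ 2 - 1) * t ^ (1 - d) * ((1 + d) / 2)))) :=
            mul_le_mul_of_nonneg_left hs (by positivity)
        _ = cq (1 + d) * ((n : ℝ) ^ (1 - d) *
              ((1 + 1 / 60) * (σ * t ^ (-d) * ((1 - 41 / 50 * d ^ 2) / d)
              + σ ^ 2 / (σ ^ 2 - 1) * t ^ (1 - d) * ((1 + d) / 2)))) := by ring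
        _ ≤ _ := mul_le_mul_of_nonneg_left hreal hcq0.le
    have hfin : ENNReal.ofReal (cq (1 + d)) * ∫⁻ w, ‖Tn n g w‖ₑ ^ (1 + d)
        ≤ ENNReal.ofReal (cq (1 + d)) *
          (ENNReal.ofReal ((6 / 5 * ratio n p) ^ (1 + d)) * ∫⁻ w, ‖g w‖ₑ ^ (1 + d)) := by
      refine hm.trans ?_
      rw [← mul_assoc, ← ENNReal.ofReal_mul hcq0.le]
      gcongr
    exact (ENNReal.mul_le_mul_iff_right (by simpa using hcq0) ENNReal.ofReal_ne_top).1 hfin

end Pool.Agent.Lib.MP_dd244f_an.Joint
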