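import Pool.Agent.Lib.MP_dd244f_an.Joint.Stmts
import Pool.Agent.Lib.MP_dd244f_an.Joint.Basic

/-!
The sum of the basic integrals (`StmtJSum`).
-/

set_option autoImplicit false

namespace Pool.Agent.Lib.MP_dd244f_an.Joint

open MeasureTheory Filter Topology Set

namespace JSumAux

variable (D : Cfg)

theorem measurableSet_Reg (i : ℕ) : MeasurableSet (D.Reg i) := by
  have hv : Measurable (fun w => D.v i w) := by
    unfold Cfg.v
    fun_prop
  exact (measurableSet_le measurable_const hv).inter (measurableSet_le hv measurable_const)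

theorem Reg_sub (i : ℕ) : D.Reg i ⊆ Metric.closedBall (D.cl.c i) (4 * D.rho i) := by
  intro w hw
  rw [Metric.mem_closedBall, dist_eq_norm]
  exact hw.2

theorem v_pos {i : ℕ} (hi : i < D.cl.N) {w : ℂ} (hw : w ∈ D.Reg i) : 0 < D.v i w := by
  have h1 := D.cl.hRpos i hi
  have h2 := D.hK
  have h3 := hw.1
  nlinarith

theorem A_div_le {i : ℕ} (hi : i < D.cl.N) {w : ℂ} (hw : w ∈ D.Reg i) :
    D.A i / D.v i w ^ 2 ≤ 64 * D.L ^ 2 * D.b i w := by
  have hR := D.cl.hRpos i hi
  have hK := D.hK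
  have hκ := D.hκ
  have hL := D.hL
  have hσ := D.hσ
  have hv := v_pos D hi hw
  have hA := D.A_pos hi
  have hA1 := D.A1 hi
  have hRv : D.cl.R i ≤ D.v i w := by
    have := hw.1
    nlinarith
  have hv2 : D.v i w ^ 2 ≤ 16 * D.L ^ 2 * D.A i := by
    have h1 : D.v i w ≤ 4 * (D.L / D.κ * D.cl.R i) := hw.2
    have h2 : D.v i w ^ 2 ≤ (4 * (D.L / D.κ * D.cl.R i)) ^ 2 := pow_le_pow_left₀ hv.le h1 2
    have h3 : (4 * (D.L / D.κ * D.cl.R i)) ^ 2 = 16 * D.L ^ 2 / D.κ ^ 2 * D.cl.R i ^ 2 := by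
      field_simp
      ring
    have h4 : 16 * D.L ^ 2 / D.κ ^ 2 * D.cl.R i ^ 2 ≤
        16 * D.L ^ 2 / D.κ ^ 2 * (D.κ ^ 2 * D.A i) :=
      mul_le_mul_of_nonneg_left hA1 (by positivity)
    have h5 : 16 * D.L ^ 2 / D.κ ^ 2 * (D.κ ^ 2 * D.A i) = 16 * D.L ^ 2 * D.A i := by
      field_simp
    linarith
  have hb : D.A i ^ 2 / (2 * D.v i w ^ 2) ^ 2 ≤ D.b i w := by
    unfold Cfg.b
    have h1 : D.A i ≤ D.σ * (1 + 8 / D.K) * D.A i := by
      have h2 : 1 ≤ D.σ * (1 + 8 / D.K) := by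
        have : 0 ≤ 8 / D.K := by positivity
        nlinarith
      nlinarith
    have h2 : D.v i w ^ 2 + D.cl.R i ^ 2 ≤ 2 * D.v i w ^ 2 := by nlinarith
    apply div_le_div₀ (by positivity) (pow_le_pow_left₀ hA.le h1 2) (by positivity)
    exact pow_le_pow_left₀ (by positivity) h2 2
  have h6 : D.A i / D.v i w ^ 2 ≤ 64 * D.L ^ 2 * (D.A i ^ 2 / (2 * D.v i w ^ 2) ^ 2) := by
    rw [div_le_iff₀ (by positivity)]
    have h7 : 64 * D.L ^ 2 * (D.A i ^ 2 / (2 * D.v i w ^ 2) ^ 2) * D.v i w ^ 2 =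
        16 * D.L ^ 2 * D.A i * D.A i / D.v i w ^ 2 := by
      field_simp
      ring
    rw [h7, le_div_iff₀ (by positivity)]
    nlinarith
  have h8 : 64 * D.L ^ 2 * (D.A i ^ 2 / (2 * D.v i w ^ 2) ^ 2) ≤ 64 * D.L ^ 2 * D.b i w :=
    mul_le_mul_of_nonneg_left hb (by positivity)
  linarith

theorem measurable_int (l i : ℕ) :
    Measurable (fun w => 1 / (D.v l w ^ 2 * D.v i w ^ 2 * D.Sw l w ^ 2)) := by
  unfold Cfg.Sw Cfg.b Cfg.v
  fun_prop

end JSumAux

open JSumAux in
theorem jsum : StmtJSum := by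
  classical
  intro D l hl
  have hK := D.hK
  have hL := D.hL
  have hκ := D.hκ
  have hRl := D.cl.hRpos l hl
  have hfin : volume (D.Reg l) < ⊤ :=
    lt_of_le_of_lt (measure_mono (Reg_sub D l)) measure_closedBall_lt_top
  have hInt : ∀ i < l, IntegrableOn (fun w => 1 / (D.v l w ^ 2 * D.v i w ^ 2 * D.Sw l w ^ 2))
      (D.Reg l ∩ D.Reg i) := by
    intro i hi
    have hRi := D.cl.hRpos i (hi.trans hl)
    refine Measure.integrableOn_of_bounded (M := 1 / ((D.K * D.cl.R l) ^ 2 * (D.K * D.cl.R i) ^ 2))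
      ?_ (measurable_int D l i).aestronglyMeasurable ?_
    · exact (lt_of_le_of_lt (measure_mono inter_subset_left) hfin).ne
    · filter_upwards [ae_restrict_mem ((measurableSet_Reg D l).inter (measurableSet_Reg D i))]
        with w hw
      have hS := D.Sw_ge_one l w
      rw [Real.norm_of_nonneg (by positivity)]
      apply one_div_le_one_div_of_le (by positivity)
      have h1 : (D.K * D.cl.R l) ^ 2 ≤ D.v l w ^ 2 := pow_le_pow_left₀ (by positivity) hw.1.1 2
      have h2 : (D.K * D.cl.R i) ^ 2 ≤ D.v i w ^ 2 := pow_le_pow_left₀ (by positivity) hw.2.1 2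
      have h3 : (1:ℝ) ≤ D.Sw l w ^ 2 := by nlinarith
      calc (D.K * D.cl.R l) ^ 2 * (D.K * D.cl.R i) ^ 2
          = (D.K * D.cl.R l) ^ 2 * (D.K * D.cl.R i) ^ 2 * 1 := by ring
        _ ≤ D.v l w ^ 2 * D.v i w ^ 2 * D.Sw l w ^ 2 := by gcongr
  refine ⟨fun i hi => ⟨hInt i hi, ?_⟩, ?_⟩
  · unfold Cfg.J
    apply setIntegral_nonneg ((measurableSet_Reg D l).inter (measurableSet_Reg D i))
    intro w _
    positivity
  · -- the sum
    have h1 : ∀ i ∈ Finset.range l, D.A i * D.J l i =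
        ∫ w in D.Reg l, (D.Reg i).indicator
          (fun w => D.A i * (1 / (D.v l w ^ 2 * D.v i w ^ 2 * D.Sw l w ^ 2))) w := by
      intro i _
      unfold Cfg.J
      rw [setIntegral_indicator (measurableSet_Reg D i), integral_const_mul]
    have h2 : ∀ i ∈ Finset.range l, IntegrableOn ((D.Reg i).indicator
          (fun w => D.A i * (1 / (D.v l w ^ 2 * D.v i w ^ 2 * D.Sw l w ^ 2)))) (D.Reg l) := by
      intro i hi
      rw [integrableOn_indicator_iff (measurableSet_Reg D i), inter_comm]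
      exact (hInt i (Finset.mem_range.1 hi)).const_mul _
    rw [Finset.sum_congr rfl h1, ← integral_finsetSum _ h2]
    have hC : ∀ w ∈ D.Reg l, ‖∑ i ∈ Finset.range l, (D.Reg i).indicator
          (fun w => D.A i * (1 / (D.v l w ^ 2 * D.v i w ^ 2 * D.Sw l w ^ 2))) w‖ ≤
        64 * D.L ^ 2 / (D.K * D.cl.R l) ^ 2 := by
      intro w hw
      have hvl := v_pos D hl hw
      have hS := D.Sw_ge_one l w
      have hSpos := D.Sw_pos l w
      have hnn : ∀ i ∈ Finset.range l, 0 ≤ (D.Reg i).indicator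
          (fun w => D.A i * (1 / (D.v l w ^ 2 * D.v i w ^ 2 * D.Sw l w ^ 2))) w := by
        intro i _
        apply Set.indicator_nonneg
        intro w _
        have := D.A_nonneg i
        positivity
      rw [Real.norm_of_nonneg (Finset.sum_nonneg hnn)]
      have h3 : ∀ i ∈ Finset.range l, (D.Reg i).indicator
          (fun w => D.A i * (1 / (D.v l w ^ 2 * D.v i w ^ 2 * D.Sw l w ^ 2))) w ≤
          1 / (D.v l w ^ 2 * D.Sw l w ^ 2) * (64 * D.L ^ 2 * D.b i w) := by
        intro i hi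
        have hi' := (Finset.mem_range.1 hi).trans hl
        rw [Set.indicator_apply]
        split_ifs with h
        · have h4 := A_div_le D hi' h
          have hvi := v_pos D hi' h
          calc D.A i * (1 / (D.v l w ^ 2 * D.v i w ^ 2 * D.Sw l w ^ 2))
              = 1 / (D.v l w ^ 2 * D.Sw l w ^ 2) * (D.A i / D.v i w ^ 2) := by
                field_simp
            _ ≤ _ := mul_le_mul_of_nonneg_left h4 (by positivity)
        · have := D.b_nonneg i w
          positivity
      refine (Finset.sum_le_sum h3).trans ?_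
      rw [← Finset.mul_sum, ← Finset.mul_sum]
      have h5 : ∑ i ∈ Finset.range l, D.b i w ≤ D.Sw l w := by
        unfold Cfg.Sw
        rw [Finset.sum_range_succ]
        have := D.b_nonneg l w
        linarith
      have h6 : (D.K * D.cl.R l) ^ 2 ≤ D.v l w ^ 2 := pow_le_pow_left₀ (by positivity) hw.1 2
      calc 1 / (D.v l w ^ 2 * D.Sw l w ^ 2) * (64 * D.L ^ 2 * ∑ i ∈ Finset.range l, D.b i w)
          ≤ 1 / (D.v l w ^ 2 * D.Sw l w ^ 2) * (64 * D.L ^ 2 * D.Sw l w) := by gcongr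
        _ = 64 * D.L ^ 2 / (D.v l w ^ 2 * D.Sw l w) := by field_simp
        _ ≤ 64 * D.L ^ 2 / (D.v l w ^ 2 * 1) := by gcongr
        _ = 64 * D.L ^ 2 / D.v l w ^ 2 := by rw [mul_one]
        _ ≤ _ := by gcongr
    have h4 := norm_setIntegral_le_of_norm_le_const hfin hC
    refine (le_abs_self _).trans (h4.trans ?_)
    have hvol : (volume (D.Reg l)).toReal ≤ Real.pi * (4 * D.rho l) ^ 2 := by
      have h5 : volume (D.Reg l) ≤ volume (Metric.closedBall (D.cl.c l) (4 * D.rho l)) :=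
        measure_mono (Reg_sub D l)
      have h6 : (volume (Metric.closedBall (D.cl.c l) (4 * D.rho l))).toReal =
          Real.pi * (4 * D.rho l) ^ 2 := by
        rw [Complex.volume_closedBall]
        have := D.rho_pos hl
        rw [ENNReal.toReal_mul, ENNReal.toReal_pow, ENNReal.toReal_ofReal (by positivity)]
        simp
        ring
      rw [← h6]
      exact ENNReal.toReal_mono measure_closedBall_lt_top.ne h5
    calc 64 * D.L ^ 2 / (D.K * D.cl.R l) ^ 2 * (volume.real (D.Reg l))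
        ≤ 64 * D.L ^ 2 / (D.K * D.cl.R l) ^ 2 * (Real.pi * (4 * D.rho l) ^ 2) :=
          mul_le_mul_of_nonneg_left hvol (by positivity)
      _ = D.CG := by
          unfold Cfg.CG Cfg.rho
          field_simp
          ring

end Pool.Agent.Lib.MP_dd244f_an.Joint
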