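import Pool.Agent.Lib.MP_dd244f_an.Joint.Stmts
import Pool.Agent.Lib.MP_dd244f_an.Joint.Basic

set_option autoImplicit false

namespace Pool.Agent.Lib.MP_dd244f_an.Joint

open MeasureTheory Filter Topology Set
open scoped SchwartzMap ENNReal

theorem field_filter (n : ℕ) (η : ℝ) {ι : Type} [DecidableEq ι] (S : Finset ι) (z a : ι → ℂ)
    (w : ℂ) [DecidablePred fun j => a j ≠ 0] :
    field n η (S.filter fun j => a j ≠ 0) z a w = field n η S z a w := by
  unfold field
  apply Finset.sum_filter_of_ne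
  intro j _ hj h0
  apply hj
  rw [h0, zero_mul]

/-- the core of cluster `i` -/
noncomputable def key_core (D : Cfg) (i : ℕ) : Set ℂ :=
  Metric.ball (D.cl.c i) (Real.sqrt 2 * (D.K * D.cl.R i))

theorem key_core_vol (D : Cfg) {i : ℕ} (hi : i < D.cl.N) :
    volume (key_core D i) ≤ ENNReal.ofReal (2 * Real.pi * D.K ^ 2 * D.κ ^ 2 * D.A i) := by
  have hR := D.cl.hRpos i hi
  have hK := D.hK
  have hA := D.A1 hi
  have hr : 0 ≤ Real.sqrt 2 * (D.K * D.cl.R i) := by positivity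
  unfold key_core
  rw [Complex.volume_ball, ← ENNReal.ofReal_pow hr]
  have e : (NNReal.pi : ℝ≥0∞) = ENNReal.ofReal Real.pi := by
    rw [ENNReal.ofReal, ← NNReal.coe_real_pi, Real.toNNReal_coe]
  rw [e, ← ENNReal.ofReal_mul (by positivity)]
  apply ENNReal.ofReal_le_ofReal
  have h2 : (Real.sqrt 2 * (D.K * D.cl.R i)) ^ 2 = 2 * D.K ^ 2 * D.cl.R i ^ 2 := by
    rw [mul_pow, Real.sq_sqrt (by norm_num)]; ring
  rw [h2]
  have hpi := Real.pi_pos
  have h3 : 2 * D.K ^ 2 * D.cl.R i ^ 2 * Real.pi ≤ 2 * D.K ^ 2 * (D.κ ^ 2 * D.A i) * Real.pi := by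
    gcongr
  linarith

theorem key_split (D : Cfg) {w : ℂ} (hw : ∀ i < D.cl.N, w ∉ key_core D i) :
    field D.n D.η D.S D.z D.a w
      = ∑ i ∈ Finset.range D.cl.N, D.f i w + ∑ i ∈ Finset.range D.cl.N, D.g i w := by
  unfold field
  rw [← D.cl.sum_C, ← Finset.sum_add_distrib]
  apply Finset.sum_congr rfl
  intro i hi
  have hi' := Finset.mem_range.1 hi
  have hR := D.cl.hRpos i hi'
  have hK := D.hK
  have hchi : D.chi i w = 1 := by
    unfold Cfg.chi ct
    apply st_one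
    have h1 := hw i hi'
    unfold key_core at h1
    rw [Metric.mem_ball, not_lt, dist_eq_norm] at h1
    rw [le_div_iff₀ (by positivity), Complex.normSq_eq_norm_sq]
    calc 2 * (D.K * D.cl.R i) ^ 2 = (Real.sqrt 2 * (D.K * D.cl.R i)) ^ 2 := by
          rw [mul_pow (Real.sqrt 2), Real.sq_sqrt (by norm_num)]
      _ ≤ ‖w - D.cl.c i‖ ^ 2 := pow_le_pow_left₀ (by positivity) h1 2
  unfold Cfg.f Cfg.g
  rw [hchi, Complex.ofReal_one, one_mul, ← Finset.sum_add_distrib]
  apply Finset.sum_congr rfl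
  intro j _
  unfold Cfg.nr Cfg.fr
  push_cast
  ring

/-- the constant before the choice of parameters -/
noncomputable def key_const (D : Cfg) (e : ℝ) : ℝ :=
  (Real.pi ^ 2 / 2 * (D.σ * (1 + 8 / D.K)) + 8 * D.CG * (D.CF / D.n + 64 / D.m))
    + (1 + 1 / e) * (36 * Real.pi / D.L ^ 2 + 1800 * Real.pi * Mst * D.L / (D.n * D.κ ^ 3))
    + 2 * Real.pi * D.K ^ 2 * D.κ ^ 2

theorem key_bound (hN : StmtNear) (hF : StmtFar) (D : Cfg) {e : ℝ} (he : 0 < e)
    (hσ : D.σ = 1 + e) :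
    ∫⁻ w, ENNReal.ofReal (psi (‖field D.n D.η D.S D.z D.a w‖ ^ 2)) ≤
      ENNReal.ofReal (key_const D e * ∑ j ∈ D.S, ‖D.a j‖) := by
  obtain ⟨hN1, hN2⟩ := hN D
  obtain ⟨hF1, hF2⟩ := hF D
  set E : Set ℂ := ⋃ i ∈ Finset.range D.cl.N, key_core D i with hE
  have hEmeas : MeasurableSet E := by
    apply Finset.measurableSet_biUnion
    intro i _
    exact measurableSet_ball
  have hS0 : 0 ≤ ∑ j ∈ D.S, ‖D.a j‖ := Finset.sum_nonneg fun _ _ => norm_nonneg _
  have hpt : ∀ w, ENNReal.ofReal (psi (‖field D.n D.η D.S D.z D.a w‖ ^ 2)) ≤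
      ENNReal.ofReal (psi (D.σ ^ 2 * ‖∑ i ∈ Finset.range D.cl.N, D.f i w‖ ^ 2))
      + ENNReal.ofReal ((1 + 1 / e) * ‖∑ i ∈ Finset.range D.cl.N, D.g i w‖ ^ 2)
      + E.indicator (fun _ => (1 : ℝ≥0∞)) w := by
    intro w
    by_cases hw : w ∈ E
    · rw [Set.indicator_of_mem hw]
      calc ENNReal.ofReal (psi (‖field D.n D.η D.S D.z D.a w‖ ^ 2)) ≤ ENNReal.ofReal 1 :=
            ENNReal.ofReal_le_ofReal (psi_le_one (by positivity))
        _ = 1 := ENNReal.ofReal_one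
        _ ≤ _ := le_add_self
    · rw [Set.indicator_of_notMem hw, add_zero, ← ENNReal.ofReal_add
        (psi_nonneg (by positivity)) (by positivity)]
      apply ENNReal.ofReal_le_ofReal
      have hw' : ∀ i < D.cl.N, w ∉ key_core D i := by
        intro i hi hcon
        apply hw
        rw [hE]
        simp only [Set.mem_iUnion]
        exact ⟨i, Finset.mem_range.2 hi, hcon⟩
      rw [key_split D hw']
      set x := ‖∑ i ∈ Finset.range D.cl.N, D.f i w‖ with hx
      set y := ‖∑ i ∈ Finset.range D.cl.N, D.g i w‖ with hy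
      have hx0 : 0 ≤ x := norm_nonneg _
      have hy0 : 0 ≤ y := norm_nonneg _
      have h1 : ‖∑ i ∈ Finset.range D.cl.N, D.f i w + ∑ i ∈ Finset.range D.cl.N, D.g i w‖ ^ 2
          ≤ D.σ ^ 2 * x ^ 2 + (1 + 1 / e) * y ^ 2 := by
        have h2 : ‖∑ i ∈ Finset.range D.cl.N, D.f i w + ∑ i ∈ Finset.range D.cl.N, D.g i w‖
            ≤ x + y := norm_add_le _ _
        have h3 : ‖∑ i ∈ Finset.range D.cl.N, D.f i w + ∑ i ∈ Finset.range D.cl.N, D.g i w‖ ^ 2
            ≤ (x + y) ^ 2 := pow_le_pow_left₀ (norm_nonneg _) h2 2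
        have h4 : (x + y) ^ 2 ≤ (1 + e) * x ^ 2 + (1 + 1 / e) * y ^ 2 := by
          have h5 : (1 + e) * x ^ 2 + (1 + 1 / e) * y ^ 2 - (x + y) ^ 2 = (e * x - y) ^ 2 / e := by
            field_simp
            ring
          have h6 : 0 ≤ (e * x - y) ^ 2 / e := by positivity
          linarith
        have h7 : (1 + e) * x ^ 2 ≤ D.σ ^ 2 * x ^ 2 := by
          rw [hσ]
          apply mul_le_mul_of_nonneg_right _ (by positivity)
          nlinarith
        linarith
      exact (psi_mono (by positivity) h1).trans (psi_add_le (by positivity) (by positivity))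
  have hvol : volume E ≤ ENNReal.ofReal (2 * Real.pi * D.K ^ 2 * D.κ ^ 2 * ∑ j ∈ D.S, ‖D.a j‖) := by
    calc volume E ≤ ∑ i ∈ Finset.range D.cl.N, volume (key_core D i) :=
          measure_biUnion_finset_le _ _
      _ ≤ ∑ i ∈ Finset.range D.cl.N, ENNReal.ofReal (2 * Real.pi * D.K ^ 2 * D.κ ^ 2 * D.A i) :=
          Finset.sum_le_sum fun i hi => key_core_vol D (Finset.mem_range.1 hi)
      _ = ENNReal.ofReal (∑ i ∈ Finset.range D.cl.N, 2 * Real.pi * D.K ^ 2 * D.κ ^ 2 * D.A i) := by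
          rw [ENNReal.ofReal_sum_of_nonneg]
          intro i _
          have := D.A_nonneg i
          positivity
      _ = _ := by rw [← Finset.mul_sum, D.sum_A]
  have hm1 : AEMeasurable (fun w => ENNReal.ofReal
      (psi (D.σ ^ 2 * ‖∑ i ∈ Finset.range D.cl.N, D.f i w‖ ^ 2))) volume :=
    hN1.aestronglyMeasurable.aemeasurable.ennreal_ofReal
  have hm2 : AEMeasurable (fun w => ENNReal.ofReal
      ((1 + 1 / e) * ‖∑ i ∈ Finset.range D.cl.N, D.g i w‖ ^ 2)) volume :=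
    (hF1.const_mul (1 + 1 / e)).aestronglyMeasurable.aemeasurable.ennreal_ofReal
  have hCm : 0 ≤ D.CF := by
    have h1 := one_le_Mst
    have h2 := D.hL
    have h3 := D.hκ
    unfold Cfg.CF
    positivity
  have hCG : 0 ≤ D.CG := by
    have h1 := D.hK
    have h3 := D.hκ
    unfold Cfg.CG
    positivity
  calc ∫⁻ w, ENNReal.ofReal (psi (‖field D.n D.η D.S D.z D.a w‖ ^ 2))
      ≤ ∫⁻ w, (ENNReal.ofReal (psi (D.σ ^ 2 * ‖∑ i ∈ Finset.range D.cl.N, D.f i w‖ ^ 2))
      + ENNReal.ofReal ((1 + 1 / e) * ‖∑ i ∈ Finset.range D.cl.N, D.g i w‖ ^ 2)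
      + E.indicator (fun _ => (1 : ℝ≥0∞)) w) := lintegral_mono hpt
    _ = (∫⁻ w, ENNReal.ofReal (psi (D.σ ^ 2 * ‖∑ i ∈ Finset.range D.cl.N, D.f i w‖ ^ 2)))
      + (∫⁻ w, ENNReal.ofReal ((1 + 1 / e) * ‖∑ i ∈ Finset.range D.cl.N, D.g i w‖ ^ 2))
      + volume E := by
        rw [lintegral_add_right _ (measurable_const.indicator hEmeas), lintegral_add_left' hm1,
          lintegral_indicator_const hEmeas, one_mul]
    _ = ENNReal.ofReal (∫ w, psi (D.σ ^ 2 * ‖∑ i ∈ Finset.range D.cl.N, D.f i w‖ ^ 2))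
      + ENNReal.ofReal (∫ w, (1 + 1 / e) * ‖∑ i ∈ Finset.range D.cl.N, D.g i w‖ ^ 2)
      + volume E := by
        rw [← ofReal_integral_eq_lintegral_ofReal hN1
            (Eventually.of_forall fun w => psi_nonneg (by positivity)),
          ← ofReal_integral_eq_lintegral_ofReal (hF1.const_mul (1 + 1 / e))
            (Eventually.of_forall fun w => by
              show 0 ≤ (1 + 1 / e) * ‖∑ i ∈ Finset.range D.cl.N, D.g i w‖ ^ 2
              positivity)]
    _ ≤ ENNReal.ofReal ((Real.pi ^ 2 / 2 * (D.σ * (1 + 8 / D.K))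
          + 8 * D.CG * (D.CF / D.n + 64 / D.m)) * ∑ j ∈ D.S, ‖D.a j‖)
      + ENNReal.ofReal ((1 + 1 / e) * ((36 * Real.pi / D.L ^ 2
          + 1800 * Real.pi * Mst * D.L / (D.n * D.κ ^ 3)) * ∑ j ∈ D.S, ‖D.a j‖))
      + ENNReal.ofReal (2 * Real.pi * D.K ^ 2 * D.κ ^ 2 * ∑ j ∈ D.S, ‖D.a j‖) := by
        refine add_le_add (add_le_add (ENNReal.ofReal_le_ofReal hN2) ?_) hvol
        apply ENNReal.ofReal_le_ofReal
        rw [integral_const_mul]
        exact mul_le_mul_of_nonneg_left hF2 (by positivity)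
    _ = _ := by
        have h1 := D.hσ
        have h2 := D.hK
        have h3 := D.hκ
        have h4 := D.hL
        have h5 := one_le_Mst
        rw [← ENNReal.ofReal_add (by positivity) (by positivity),
          ← ENNReal.ofReal_add (by positivity) (by positivity)]
        congr 1
        unfold key_const
        ring

theorem key (hS : StmtSel) (hN : StmtNear) (hF : StmtFar) : StmtKey := by
  intro ε hε
  set e : ℝ := min 1 ε / 8 with he
  have hmin : 0 < min 1 ε := lt_min one_pos hε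
  have he0 : 0 < e := by positivity
  have he1 : e ≤ 1 / 8 := by
    rw [he]; have := min_le_left 1 ε; linarith
  have heε : 8 * e ≤ ε := by
    rw [he]; have := min_le_right 1 ε; linarith
  have hpi3 := Real.pi_gt_three
  have hpi := Real.pi_pos
  have hM := one_le_Mst
  set K : ℝ := 8 + 8 / e with hK
  have hK8 : 8 ≤ K := by have : 0 < 8 / e := by positivity
                         linarith
  have hKe : 8 / K ≤ e := by
    rw [div_le_iff₀ (by linarith), hK, mul_add, mul_div_cancel₀ _ he0.ne']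
    linarith
  set κ : ℝ := min 1 (e / (2 * Real.pi * K ^ 2)) with hκ
  have hκ0 : 0 < κ := lt_min one_pos (by positivity)
  have hκ1 : κ ≤ 1 := min_le_left _ _
  have hκ2 : 2 * Real.pi * K ^ 2 * κ ^ 2 ≤ e := by
    have h1 : κ ≤ e / (2 * Real.pi * K ^ 2) := min_le_right _ _
    rw [le_div_iff₀ (by positivity)] at h1
    have h2 : κ ^ 2 ≤ κ := by nlinarith
    calc 2 * Real.pi * K ^ 2 * κ ^ 2 ≤ 2 * Real.pi * K ^ 2 * κ := by gcongr
      _ ≤ e := by linarith
  set X : ℝ := (1 + 1 / e) * (36 * Real.pi) / e with hX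
  have hX0 : 0 < X := by positivity
  set L : ℝ := 2 + X with hL
  have hL2 : 2 ≤ L := by linarith
  have hLX : (1 + 1 / e) * (36 * Real.pi / L ^ 2) ≤ e := by
    have h1 : X ≤ L ^ 2 := by nlinarith
    rw [← mul_div_assoc, div_le_iff₀ (by positivity)]
    calc (1 + 1 / e) * (36 * Real.pi) = e * X := by rw [hX]; field_simp
      _ ≤ e * L ^ 2 := by gcongr
  set G : ℝ := 1024 * Real.pi * L ^ 4 / (κ ^ 2 * K ^ 2) with hG
  have hG0 : 0 < G := by positivity
  obtain ⟨m, hm⟩ := exists_nat_ge (8 * G * 64 / e + 1)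
  have hm1 : (1 : ℝ) ≤ m := by
    have : 0 < 8 * G * 64 / e := by positivity
    linarith
  have hm1' : 1 ≤ m := by exact_mod_cast hm1
  have hmb : 8 * G * (64 / m) ≤ e := by
    have h1 : 8 * G * 64 / e ≤ m := by linarith
    rw [div_le_iff₀ he0] at h1
    rw [← mul_div_assoc, div_le_iff₀ (by linarith)]
    linarith
  set F : ℝ := 8 * (1 + 4 * m + 4 * m * (L / κ)) * (5 * Mst + 4) * (L / κ) with hFdef
  have hF0 : 0 < F := by positivity
  set Y : ℝ := 8 * G * F + (1 + 1 / e) * (1800 * Real.pi * Mst * L / κ ^ 3) with hY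
  have hY0 : 0 < Y := by positivity
  obtain ⟨n₀, hn₀⟩ := exists_nat_ge (Y / e + 1)
  have hn₀1 : (1 : ℝ) ≤ n₀ := by
    have : 0 < Y / e := by positivity
    linarith
  refine ⟨n₀, by exact_mod_cast hn₀1, fun n hn ι S z a η hη => ?_⟩
  have hn1 : (1 : ℝ) ≤ n := hn₀1.trans (by exact_mod_cast hn)
  have hnY : Y / n ≤ e := by
    have h1 : Y / e ≤ n := by
      have : (n₀ : ℝ) ≤ n := by exact_mod_cast hn
      linarith
    rw [div_le_iff₀ he0] at h1
    rw [div_le_iff₀ (by linarith)]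
    linarith
  classical
  set S' := S.filter fun j => a j ≠ 0 with hS'
  obtain ⟨cl⟩ := hS ι z (fun j => ‖a j‖) κ m S' hκ0 hm1'
    (fun j hj => norm_pos_iff.2 (Finset.mem_filter.1 hj).2)
  let D : Cfg :=
    { ι := ι, z := z, a := a, S := S', κ := κ, L := L, K := K, η := η, σ := 1 + e, m := m, n := n,
      hκ := hκ0, hκ1 := hκ1, hL := hL2, hK := hK8, hη := hη, hσ := by linarith,
      hσ2 := by linarith, hm := hm1', hn := by exact_mod_cast hn1, cl := cl }
  have hb := key_bound hN hF D he0 rfl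
  have hsum : ∑ j ∈ D.S, ‖D.a j‖ = ∑ j ∈ S, ‖a j‖ := by
    show ∑ j ∈ S', ‖a j‖ = ∑ j ∈ S, ‖a j‖
    rw [hS']
    apply Finset.sum_filter_of_ne
    intro j _ hj h0
    apply hj
    rw [h0, norm_zero]
  have hfield : ∀ w, field D.n D.η D.S D.z D.a w = field n η S z a w := fun w =>
    field_filter n η S z a w
  simp_rw [hfield, hsum] at hb
  refine hb.trans (ENNReal.ofReal_le_ofReal ?_)
  apply mul_le_mul_of_nonneg_right _ (Finset.sum_nonneg fun _ _ => norm_nonneg _)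
  have hDG : D.CG = G := rfl
  have hDF : D.CF = F := rfl
  unfold key_const
  rw [hDG, hDF]
  show (Real.pi ^ 2 / 2 * ((1 + e) * (1 + 8 / K)) + 8 * G * (F / n + 64 / m))
    + (1 + 1 / e) * (36 * Real.pi / L ^ 2 + 1800 * Real.pi * Mst * L / (n * κ ^ 3))
    + 2 * Real.pi * K ^ 2 * κ ^ 2 ≤ (1 + ε) * (Real.pi ^ 2 / 2)
  have hn0 : (n : ℝ) ≠ 0 := by positivity
  have e1 : 8 * G * (F / n + 64 / m) + (1 + 1 / e) * (36 * Real.pi / L ^ 2
      + 1800 * Real.pi * Mst * L / (n * κ ^ 3))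
      = Y / n + 8 * G * (64 / m) + (1 + 1 / e) * (36 * Real.pi / L ^ 2) := by
    rw [hY]
    have : 1800 * Real.pi * Mst * L / (n * κ ^ 3) = 1800 * Real.pi * Mst * L / κ ^ 3 / n := by
      rw [div_div, mul_comm (κ ^ 3)]
    rw [this]
    ring
  have e2 : (1 + e) * (1 + 8 / K) ≤ 1 + 3 * e := by
    have : (1 + e) * (1 + 8 / K) ≤ (1 + e) * (1 + e) := by gcongr
    nlinarith
  have e3 : Real.pi ^ 2 / 2 * ((1 + e) * (1 + 8 / K)) ≤ Real.pi ^ 2 / 2 * (1 + 3 * e) := by
    gcongr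
  have e4 : 4 * e ≤ Real.pi ^ 2 / 2 * e := by
    apply mul_le_mul_of_nonneg_right _ he0.le
    nlinarith
  have e5 : Real.pi ^ 2 / 2 * (4 * e) ≤ Real.pi ^ 2 / 2 * ε := by
    apply mul_le_mul_of_nonneg_left _ (by positivity)
    linarith
  nlinarith

end Pool.Agent.Lib.MP_dd244f_an.Joint
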