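import Pool.Agent.Lib.MP_dd244f_an.Joint.Stmts
import Pool.Agent.Lib.MP_dd244f_an.Joint.Basic

/-!
The near part (`StmtNear`): integrate the pointwise inequality.
-/

set_option autoImplicit false

namespace Pool.Agent.Lib.MP_dd244f_an.Joint

open MeasureTheory Filter Topology Set

namespace NearAux

theorem measurable_kk (n : ℕ) : Measurable (kk n) := by
  unfold kk
  have h1 : Measurable (fun ζ : ℂ => starRingEnd ℂ ζ) := Complex.continuous_conj.measurable
  have h2 : Measurable (fun ζ : ℂ => Complex.normSq ζ) := Complex.continuous_normSq.measurable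
  fun_prop

theorem continuous_ct (ρ : ℝ) : Continuous (ct ρ) := by
  unfold ct
  exact (st_contDiff (k := 0)).continuous.comp (Complex.continuous_normSq.div_const _)

theorem measurable_f (D : Cfg) (i : ℕ) : Measurable (D.f i) := by
  unfold Cfg.f Cfg.chi Cfg.nr
  have h1 : ∀ ρ, Measurable (ct ρ) := fun ρ => (continuous_ct ρ).measurable
  have h2 := measurable_kk D.n
  refine Measurable.mul ?_ ?_
  · exact Complex.measurable_ofReal.comp ((h1 _).comp (measurable_id.sub_const _))
  · refine Finset.measurable_sum _ fun j _ => ?_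
    refine Measurable.const_mul ?_ _
    refine Measurable.mul (h2.comp (measurable_id.sub_const _)) ?_
    refine Complex.measurable_ofReal.comp ?_
    refine Measurable.mul ((h1 _).comp (measurable_id.sub_const _)) ?_
    exact (((h1 _).comp (measurable_id.sub_const _))).const_sub _

theorem CG_nonneg (D : Cfg) : 0 ≤ D.CG := by
  unfold Cfg.CG
  have := D.hL
  positivity

theorem CF_nonneg (D : Cfg) : 0 ≤ D.CF := by
  unfold Cfg.CF
  have h1 := D.hL
  have h2 := D.hκ
  have h3 := one_le_Mst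
  positivity

end NearAux

open NearAux in
theorem near (hS : StmtStar) (hD : StmtDom) (hB : StmtBInt) (hC : StmtCross) : StmtNear := by
  intro D
  obtain ⟨hCI, hCb⟩ := hC D
  have hσ := D.hσ
  have hσ2 := D.hσ2
  have hK := D.hK
  set N := D.cl.N with hN
  -- the pointwise inequality
  have hpt : ∀ w, psi (D.σ ^ 2 * ‖∑ i ∈ Finset.range N, D.f i w‖ ^ 2) ≤
      ∑ i ∈ Finset.range N, psi (D.b i w) + D.σ ^ 2 * ∑ l ∈ Finset.range N,
        2 * (D.f l w * starRingEnd ℂ (∑ i ∈ Finset.range l, D.f i w)).re / D.Sw l w ^ 2 := by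
    intro w
    have h := hS N (fun i => (D.σ : ℂ) * D.f i w) (fun i => D.b i w)
      (fun i hi => hD D i hi w)
    have e1 : ‖∑ i ∈ Finset.range N, (D.σ : ℂ) * D.f i w‖ ^ 2 =
        D.σ ^ 2 * ‖∑ i ∈ Finset.range N, D.f i w‖ ^ 2 := by
      rw [← Finset.mul_sum, norm_mul, mul_pow, Complex.norm_real, Real.norm_eq_abs, sq_abs]
    rw [e1] at h
    refine h.trans (le_of_eq ?_)
    congr 1
    rw [Finset.mul_sum]
    apply Finset.sum_congr rfl
    intro l _
    have e2 : ((D.σ : ℂ) * D.f l w * starRingEnd ℂ (∑ i ∈ Finset.range l, (D.σ : ℂ) * D.f i w)) =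
        ((D.σ ^ 2 : ℝ) : ℂ) * (D.f l w * starRingEnd ℂ (∑ i ∈ Finset.range l, D.f i w)) := by
      rw [← Finset.mul_sum, map_mul, Complex.conj_ofReal]
      push_cast
      ring
    rw [e2, Complex.re_ofReal_mul]
    unfold Cfg.Sw
    ring
  -- integrability of the right hand side
  have hI1 : Integrable (fun w => ∑ i ∈ Finset.range N, psi (D.b i w)) :=
    integrable_finsetSum _ fun i hi => (hB D i (Finset.mem_range.1 hi)).1
  have hI2 : Integrable (fun w => ∑ l ∈ Finset.range N,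
        2 * (D.f l w * starRingEnd ℂ (∑ i ∈ Finset.range l, D.f i w)).re / D.Sw l w ^ 2) :=
    integrable_finsetSum _ fun l hl => hCI l (Finset.mem_range.1 hl)
  have hI := hI1.add (hI2.const_mul (D.σ ^ 2))
  have hmeas : AEStronglyMeasurable
      (fun w => psi (D.σ ^ 2 * ‖∑ i ∈ Finset.range N, D.f i w‖ ^ 2)) volume := by
    apply Measurable.aestronglyMeasurable
    have h1 : Measurable (fun w => ∑ i ∈ Finset.range N, D.f i w) :=
      Finset.measurable_sum _ fun i _ => measurable_f D i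
    unfold psi
    fun_prop
  have hInt : Integrable (fun w => psi (D.σ ^ 2 * ‖∑ i ∈ Finset.range N, D.f i w‖ ^ 2)) := by
    refine hI.mono hmeas ?_
    filter_upwards with w
    rw [Real.norm_of_nonneg (psi_nonneg (by positivity))]
    exact (hpt w).trans (le_abs_self _)
  refine ⟨hInt, ?_⟩
  have h1 : ∫ w, psi (D.σ ^ 2 * ‖∑ i ∈ Finset.range N, D.f i w‖ ^ 2) ≤
      (∑ i ∈ Finset.range N, ∫ w, psi (D.b i w)) + D.σ ^ 2 * ∑ l ∈ Finset.range N, ∫ w,
        2 * (D.f l w * starRingEnd ℂ (∑ i ∈ Finset.range l, D.f i w)).re / D.Sw l w ^ 2 := by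
    refine (integral_mono hInt hI hpt).trans (le_of_eq ?_)
    simp only [Pi.add_apply]
    rw [integral_add hI1 (hI2.const_mul (D.σ ^ 2)), integral_const_mul,
      integral_finsetSum _ (fun i hi => (hB D i (Finset.mem_range.1 hi)).1),
      integral_finsetSum _ (fun l hl => hCI l (Finset.mem_range.1 hl))]
  have h2 : ∑ i ∈ Finset.range N, ∫ w, psi (D.b i w) ≤
      Real.pi ^ 2 / 2 * (D.σ * (1 + 8 / D.K)) * ∑ j ∈ D.S, ‖D.a j‖ := by
    rw [← D.sum_A, Finset.mul_sum]
    apply Finset.sum_le_sum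
    intro i hi
    refine (hB D i (Finset.mem_range.1 hi)).2.trans (le_of_eq ?_)
    ring
  have hX : 0 ≤ 2 * D.CG * (D.CF / D.n + 64 / D.m) * ∑ j ∈ D.S, ‖D.a j‖ := by
    have a1 := CG_nonneg D
    have a2 := CF_nonneg D
    have a3 : 0 ≤ ∑ j ∈ D.S, ‖D.a j‖ := Finset.sum_nonneg fun _ _ => norm_nonneg _
    positivity
  have h3 : D.σ ^ 2 * ∑ l ∈ Finset.range N, ∫ w,
        2 * (D.f l w * starRingEnd ℂ (∑ i ∈ Finset.range l, D.f i w)).re / D.Sw l w ^ 2 ≤
      4 * (2 * D.CG * (D.CF / D.n + 64 / D.m) * ∑ j ∈ D.S, ‖D.a j‖) := by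
    have h4 : D.σ ^ 2 ≤ 4 := by nlinarith
    calc _ ≤ D.σ ^ 2 * (2 * D.CG * (D.CF / D.n + 64 / D.m) * ∑ j ∈ D.S, ‖D.a j‖) :=
          mul_le_mul_of_nonneg_left hCb (by positivity)
      _ ≤ _ := mul_le_mul_of_nonneg_right h4 hX
  refine h1.trans ((add_le_add h2 h3).trans (le_of_eq ?_))
  ring

end Pool.Agent.Lib.MP_dd244f_an.Joint
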