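import Pool.Agent.Lib.MP_dd244f_an.Joint.Stmts
import Pool.Agent.Lib.MP_dd244f_an.Joint.Basic
import Pool.Agent.Lib.MP_dd244f_an.Joint.Near

/-!
The main inequality for `T ^ n` (`StmtKeyT`), by Fatou's lemma.
-/

set_option autoImplicit false

namespace Pool.Agent.Lib.MP_dd244f_an.Joint

open MeasureTheory Filter Topology Set
open scoped SchwartzMap ENNReal

theorem keyT (hC : StmtConv) (hL : StmtLim) : StmtKeyT := by
  intro ε hε
  obtain ⟨n₀, hn₀, h⟩ := hC ε hε
  refine ⟨n₀, hn₀, fun n hn f lam hf hlam => ?_⟩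
  have hn1 : 1 ≤ n := hn₀.trans hn
  have hn1' : (0:ℝ) < n := by exact_mod_cast hn1
  set c : ℝ := n / (Real.pi * lam) with hc
  have hcpos : 0 < c := by positivity
  set η : ℕ → ℝ := fun k => 1 / ((k : ℝ) + 1) with hη
  have hηpos : ∀ k, 0 < η k := fun k => by simp only [hη]; positivity
  have hηlim : Tendsto η atTop (𝓝[>] 0) := by
    rw [tendsto_nhdsWithin_iff]
    exact ⟨tendsto_one_div_add_atTop_nhds_zero_nat, Eventually.of_forall hηpos⟩
  set F : ℂ → ℂ := fun z => (c : ℂ) * f z with hF
  have hFc : Continuous F := continuous_const.mul f.continuous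
  have hFs : HasCompactSupport F := hf.mul_left
  set G : ℕ → ℂ → ℂ := fun k w => ∫ z, F z * (kk n (w - z) * (ct (η k) (w - z) : ℂ)) with hG
  have hGm : ∀ k, Measurable (G k) := by
    intro k
    have h1 : Measurable (fun p : ℂ × ℂ => F p.2 * (kk n (p.1 - p.2) *
        (ct (η k) (p.1 - p.2) : ℂ))) := by
      have a1 : Measurable (fun p : ℂ × ℂ => p.1 - p.2) := measurable_fst.sub measurable_snd
      refine Measurable.mul (hFc.measurable.comp measurable_snd) ?_
      refine Measurable.mul ((NearAux.measurable_kk n).comp a1) ?_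
      exact Complex.measurable_ofReal.comp ((NearAux.continuous_ct _).measurable.comp a1)
    exact (h1.stronglyMeasurable.integral_prod_right').measurable
  have hGt : ∀ w, Tendsto (fun k => ‖G k w‖ ^ 2) atTop (𝓝 (‖Tn n f w‖ ^ 2 / lam ^ 2)) := by
    intro w
    have h1 := (hL n f w hn1).comp hηlim
    have h2 := ((h1.norm.pow 2).div_const (lam ^ 2))
    refine h2.congr fun k => ?_
    have h3 : G k w = (c : ℂ) * ∫ z, f z * (kk n (w - z) * (ct (η k) (w - z) : ℂ)) := by
      simp only [hG, hF]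
      rw [← integral_const_mul]
      congr 1
      funext z
      ring
    rw [h3]
    simp only [Function.comp]
    rw [norm_mul, norm_mul, Complex.norm_real, norm_div, norm_mul, norm_pow, norm_neg, norm_one,
      one_pow, one_mul, Complex.norm_natCast, Complex.norm_real, Real.norm_of_nonneg hcpos.le,
      Real.norm_of_nonneg Real.pi_pos.le, hc]
    have := Real.pi_pos
    field_simp
  have hψ : ∀ w, Tendsto (fun k => ENNReal.ofReal (psi (‖G k w‖ ^ 2))) atTop
      (𝓝 (ENNReal.ofReal (psi (‖Tn n f w‖ ^ 2 / lam ^ 2)))) := by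
    intro w
    apply ENNReal.tendsto_ofReal
    unfold psi
    exact (hGt w).div ((hGt w).const_add 1) (by positivity)
  have hbound : ∀ k, ∫⁻ w, ENNReal.ofReal (psi (‖G k w‖ ^ 2)) ≤
      ENNReal.ofReal ((1 + ε) * (Real.pi * n / (2 * lam)) * ∫ z, ‖f z‖) := by
    intro k
    refine (h n hn (η k) F (hηpos k) hFc hFs).trans (le_of_eq ?_)
    congr 1
    have h1 : ∫ z, ‖F z‖ = c * ∫ z, ‖f z‖ := by
      simp only [hF, norm_mul, Complex.norm_real, Real.norm_of_nonneg hcpos.le]
      rw [integral_const_mul]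
    rw [h1, hc]
    have := Real.pi_pos
    field_simp
  have hm : ∀ k, Measurable (fun w => ENNReal.ofReal (psi (‖G k w‖ ^ 2))) := by
    intro k
    have := hGm k
    unfold psi
    fun_prop
  calc ∫⁻ w, ENNReal.ofReal (psi (‖Tn n f w‖ ^ 2 / lam ^ 2))
      = ∫⁻ w, liminf (fun k => ENNReal.ofReal (psi (‖G k w‖ ^ 2))) atTop := by
        congr 1
        funext w
        exact (hψ w).liminf_eq.symm
    _ ≤ liminf (fun k => ∫⁻ w, ENNReal.ofReal (psi (‖G k w‖ ^ 2))) atTop := lintegral_liminf_le hm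
    _ ≤ _ := by
        refine (liminf_le_liminf (Eventually.of_forall hbound)).trans ?_
        rw [liminf_const]

end Pool.Agent.Lib.MP_dd244f_an.Joint
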