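import Pool.Agent.Lib.MP_dd244f_an.Joint.Stmts
import Pool.Agent.Lib.MP_dd244f_an.Joint.Basic
import Pool.Agent.Lib.MP_dd244f_an.Polar

/-!
`T^n f` is the limit of the truncated integrals (`StmtLim`).
-/

set_option autoImplicit false

namespace Pool.Agent.Lib.MP_dd244f_an.Joint

open MeasureTheory Filter Topology Set FourierTransform
open scoped SchwartzMap Real

namespace Limm

/-- approximate identity -/
theorem tendsto_approx {φ G : ℂ → ℂ} (hG : Integrable G) (hφ : Continuous φ) {C : ℝ}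
    (hC : ∀ z, ‖φ z‖ ≤ C) (w : ℂ) :
    Tendsto (fun η : ℝ => ∫ y, φ (w - η • y) * G y) (𝓝[>] 0) (𝓝 (φ w * ∫ y, G y)) := by
  rw [← integral_const_mul]
  apply tendsto_integral_filter_of_dominated_convergence (fun y => C * ‖G y‖)
  · filter_upwards with η
    exact (Continuous.aestronglyMeasurable (by fun_prop)).mul hG.aestronglyMeasurable
  · filter_upwards with η
    filter_upwards with y
    rw [norm_mul]
    exact mul_le_mul_of_nonneg_right (hC _) (norm_nonneg _)
  · exact hG.norm.const_mul C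
  · filter_upwards with y
    apply Tendsto.mul_const
    have h0 : Continuous fun η : ℝ => φ (w - η • y) := by fun_prop
    have h1 : Tendsto (fun η : ℝ => φ (w - η • y)) (𝓝 0) (𝓝 (φ (w - (0:ℝ) • y))) := h0.tendsto 0
    rw [zero_smul, sub_zero] at h1
    exact h1.mono_left nhdsWithin_le_nhds

/-- substitution `z = w - η y` -/
theorem subst (φ G : ℂ → ℂ) (w : ℂ) {η : ℝ} (hη : 0 < η) :
    ∫ z, φ z * G (w - z) = ∫ y, φ (w - η • y) * (((η ^ 2 : ℝ) : ℂ) * G (η • y)) := by
  have h1 : ∫ z, φ z * G (w - z) = ∫ u, φ (w - u) * G u := by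
    rw [← integral_sub_left_eq_self (fun u => φ (w - u) * G u) volume w]
    simp
  have h2 := Measure.integral_comp_smul (volume : Measure ℂ) (fun u => φ (w - u) * G u) η
  rw [Complex.finrank_real_complex] at h2
  have h3 : ∫ y, φ (w - η • y) * (((η ^ 2 : ℝ) : ℂ) * G (η • y)) =
      ((η ^ 2 : ℝ) : ℂ) * ∫ y, φ (w - η • y) * G (η • y) := by
    rw [← integral_const_mul]
    congr 1
    ext y
    ring
  rw [h1, h3, h2, abs_of_pos (by positivity), Complex.real_smul, ← mul_assoc, ← Complex.ofReal_mul,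
    mul_inv_cancel₀ (by positivity), Complex.ofReal_one, one_mul]

theorem kk_smul (n : ℕ) {η : ℝ} (hη : 0 < η) (y : ℂ) :
    ((η ^ 2 : ℝ) : ℂ) * kk n (η • y) = kk n y := by
  have hη' : (η : ℂ) ≠ 0 := by exact_mod_cast hη.ne'
  unfold kk
  rw [Complex.real_smul, map_mul, Complex.conj_ofReal, Complex.normSq_mul, Complex.normSq_ofReal,
    mul_div_mul_left _ _ hη']
  push_cast
  field_simp

theorem normSq_smul (η : ℝ) (y : ℂ) : Complex.normSq (η • y) = η ^ 2 * Complex.normSq y := by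
  rw [Complex.real_smul, Complex.normSq_mul, Complex.normSq_ofReal]
  ring

theorem ct_smul {η : ℝ} (hη : 0 < η) (y : ℂ) : ct η (η • y) = ct 1 y := by
  unfold ct
  rw [normSq_smul]
  congr 1
  field_simp

/-- the kernel of the explicit pair at scale `1` -/
noncomputable def q (n : ℕ) (s : ℝ) : ℝ := (s / (1 + s)) ^ (n + 1)

/-- difference of the two truncations at scale `1` -/
noncomputable def Dk (n : ℕ) (y : ℂ) : ℂ :=
  kk n y * ((q n (Complex.normSq y) - ct 1 y : ℝ) : ℂ)

theorem q_smul (n : ℕ) {η : ℝ} (hη : 0 < η) (y : ℂ) :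
    (Complex.normSq (η • y) / (η ^ 2 + Complex.normSq (η • y))) ^ (n + 1) =
      q n (Complex.normSq y) := by
  unfold q
  rw [normSq_smul]
  congr 1
  have h : 0 ≤ Complex.normSq y := Complex.normSq_nonneg y
  have h2 : η ^ 2 + η ^ 2 * Complex.normSq y = η ^ 2 * (1 + Complex.normSq y) := by ring
  rw [h2, mul_div_mul_left _ _ (by positivity)]

theorem q_nonneg (n : ℕ) {s : ℝ} (hs : 0 ≤ s) : 0 ≤ q n s := by
  unfold q; positivity

theorem q_le_one (n : ℕ) {s : ℝ} (hs : 0 ≤ s) : q n s ≤ 1 := by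
  unfold q
  exact pow_le_one₀ (by positivity) ((div_le_one (by linarith)).2 (by linarith))

theorem q_le (n : ℕ) {s : ℝ} (hs : 0 ≤ s) : q n s ≤ s / (1 + s) := by
  unfold q
  exact pow_le_of_le_one (by positivity) ((div_le_one (by linarith)).2 (by linarith)) (by omega)

theorem one_sub_q_le (n : ℕ) {s : ℝ} (hs : 0 ≤ s) : 1 - q n s ≤ (n + 1) / (1 + s) := by
  unfold q
  have h1 : s / (1 + s) = 1 + (-(1 / (1 + s))) := by field_simp; ring
  have h2 : -2 ≤ -(1 / (1 + s)) := by
    have : 1 / (1 + s) ≤ 1 := (div_le_one (by linarith)).2 (by linarith)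
    linarith
  have h3 := one_add_mul_le_pow h2 (n + 1)
  rw [h1]
  push_cast at h3
  have h4 : ((n : ℝ) + 1) / (1 + s) = -((n + 1) * (-(1 / (1 + s)))) := by ring
  rw [h4]
  linarith

theorem meas_kk (n : ℕ) : Measurable (kk n) := by
  unfold kk
  have h1 : Measurable fun ζ : ℂ => starRingEnd ℂ ζ := Complex.continuous_conj.measurable
  have h2 : Measurable fun ζ : ℂ => ((Complex.normSq ζ : ℝ) : ℂ) :=
    (Complex.continuous_ofReal.comp Complex.continuous_normSq).measurable
  exact ((h1.div measurable_id).pow_const n).div h2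

theorem cont_st : Continuous st := (st_contDiff (k := 0)).continuous

theorem cont_ct (η : ℝ) : Continuous (ct η) := by
  unfold ct
  exact cont_st.comp (Complex.continuous_normSq.div_const _)

theorem cont_q {n : ℕ} (η : ℝ) (hη : 0 < η) : Continuous fun y : ℂ =>
    (Complex.normSq y / (η ^ 2 + Complex.normSq y)) ^ (n + 1) := by
  apply Continuous.pow
  apply Complex.continuous_normSq.div (continuous_const.add Complex.continuous_normSq)
  intro x
  have := Complex.normSq_nonneg x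
  exact ne_of_gt (add_pos_of_pos_of_nonneg (by positivity) this)

theorem meas_Dk (n : ℕ) : Measurable (Dk n) := by
  unfold Dk
  apply (meas_kk n).mul
  have h := (cont_q (n := n) 1 one_pos).sub (cont_ct 1)
  simp only [one_pow] at h
  exact (Complex.continuous_ofReal.comp h).measurable

theorem norm_Dk_le (n : ℕ) (y : ℂ) :
    ‖Dk n y‖ ≤ (2 * (n + 1) + 9) * ((1 : ℝ) + ‖y‖ ^ 2) ^ (-(4:ℝ) / 2) := by
  have hs : Complex.normSq y = ‖y‖ ^ 2 := Complex.normSq_eq_norm_sq y
  have hr : ((1 : ℝ) + ‖y‖ ^ 2) ^ (-(4:ℝ) / 2) = 1 / (1 + Complex.normSq y) ^ 2 := by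
    rw [← hs, show (-(4:ℝ) / 2) = -((2 : ℕ) : ℝ) by norm_num, Real.rpow_neg (by
      have := Complex.normSq_nonneg y
      linarith), Real.rpow_natCast, one_div]
  rw [hr]
  have hk : ‖kk n y‖ ≤ 1 / Complex.normSq y := by rw [hs]; exact norm_kk_le n y
  have hs0 : 0 ≤ Complex.normSq y := Complex.normSq_nonneg y
  have hn : (0:ℝ) ≤ n := Nat.cast_nonneg n
  unfold Dk ct
  rw [norm_mul, Complex.norm_real, Real.norm_eq_abs, one_pow, div_one]
  clear hr hs
  generalize Complex.normSq y = s at *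
  have hk0 : 0 ≤ ‖kk n y‖ := norm_nonneg _
  generalize ‖kk n y‖ = k at *
  have hq0 := q_nonneg n hs0
  have hq1 := q_le_one n hs0
  have h1s : 0 < 1 + s := by linarith
  rcases le_or_gt s 1 with h | h
  · rw [st_zero h, sub_zero, abs_of_nonneg hq0]
    have hq2 := q_le n hs0
    have h1 : k * q n s ≤ 1 / (1 + s) := by
      rcases hs0.eq_or_lt with h0 | h0
      · have : q n s ≤ 0 := by rw [← h0] at hq2 ⊢; simpa using hq2
        have h2 : q n s = 0 := le_antisymm this hq0
        rw [h2, mul_zero]; positivity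
      · calc k * q n s ≤ 1 / s * (s / (1 + s)) := mul_le_mul hk hq2 hq0 (by positivity)
          _ = 1 / (1 + s) := by field_simp
    refine h1.trans ?_
    rw [mul_one_div, div_le_div_iff₀ h1s (by positivity)]
    nlinarith
  · rcases le_or_gt s 2 with h2 | h2
    · have hd : |q n s - st s| ≤ 1 := by
        have := st_nonneg s
        have := st_le_one s
        rw [abs_le]; constructor <;> linarith
      have hk1 : k ≤ 1 := hk.trans ((div_le_one (by linarith)).2 h.le)
      calc k * |q n s - st s| ≤ 1 * 1 := mul_le_mul hk1 hd (abs_nonneg _) zero_le_one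
        _ ≤ _ := by
          rw [mul_one_div, one_mul, le_div_iff₀ (by positivity)]
          nlinarith
    · rw [st_one h2.le, abs_sub_comm, abs_of_nonneg (by linarith)]
      have hq2 := one_sub_q_le n hs0
      have hk1 : k ≤ 2 / (1 + s) := hk.trans (by
        rw [div_le_div_iff₀ (by linarith) h1s]; linarith)
      calc k * (1 - q n s) ≤ 2 / (1 + s) * ((n + 1) / (1 + s)) :=
            mul_le_mul hk1 hq2 (by linarith) (by positivity)
        _ = (2 * (n + 1)) * (1 / (1 + s) ^ 2) := by field_simp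
        _ ≤ _ := by
          apply mul_le_mul_of_nonneg_right _ (by positivity)
          linarith

theorem integrable_Dk (n : ℕ) : Integrable (Dk n) := by
  have h := (integrable_rpow_neg_one_add_norm_sq (E := ℂ) (μ := volume) (r := 4) (by
    rw [Complex.finrank_real_complex]; norm_num)).const_mul (2 * ((n:ℝ) + 1) + 9)
  exact h.mono' (meas_Dk n).aestronglyMeasurable (Eventually.of_forall fun y => norm_Dk_le n y)

/-- angular cancellation -/
theorem integral_Dk {n : ℕ} (hn : 1 ≤ n) : ∫ y, Dk n y = 0 := by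
  set a : Circle := Circle.exp (π / (2 * n)) with ha
  have hn0 : (n : ℂ) ≠ 0 := by exact_mod_cast (by omega : n ≠ 0)
  have haC : (a : ℂ) = Complex.exp (π / (2 * n) * Complex.I) := by
    rw [ha, Circle.coe_exp]; push_cast; rfl
  have ha0 : (a : ℂ) ≠ 0 := Circle.coe_ne_zero a
  have hpow : (starRingEnd ℂ (a : ℂ) / (a : ℂ)) ^ n = -1 := by
    rw [haC, ← Complex.exp_conj, ← Complex.exp_sub, ← Complex.exp_nat_mul]
    have e : (n : ℂ) * (starRingEnd ℂ (π / (2 * n) * Complex.I) - π / (2 * n) * Complex.I)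
        = -(π * Complex.I) := by
      simp only [map_mul, map_div₀, Complex.conj_ofReal, map_ofNat, map_natCast, Complex.conj_I]
      field_simp
      ring
    rw [e, Complex.exp_neg, Complex.exp_pi_mul_I]
    norm_num
  have hrot : ∀ y, Dk n (rotation a y) = - Dk n y := by
    intro y
    have h1 : Complex.normSq (rotation a y) = Complex.normSq y := by
      rw [Complex.normSq_eq_norm_sq, Complex.normSq_eq_norm_sq, LinearIsometryEquiv.norm_map]
    unfold Dk ct
    rw [h1]
    have h2 : kk n (rotation a y) = - kk n y := by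
      unfold kk
      rw [h1, rotation_apply, map_mul, mul_div_mul_comm, mul_pow, hpow]
      ring
    rw [h2]
    ring
  have h1 : ∫ y, Dk n (rotation a y) = ∫ y, Dk n y :=
    MeasurePreserving.integral_comp (rotation a).measurePreserving
      (rotation a).toHomeomorph.measurableEmbedding (Dk n)
  simp only [hrot, integral_neg] at h1
  have h2 : (2 : ℂ) * ∫ y, Dk n y = 0 := by linear_combination -h1
  simpa using h2

/-- the approximate identity -/
noncomputable def Pk (n : ℕ) (y : ℂ) : ℝ := n / π * ((1 + Complex.normSq y) ^ (n + 1))⁻¹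

theorem integral_Pk {n : ℕ} (hn : 1 ≤ n) : ∫ y, Pk n y = 1 := by
  unfold Pk
  rw [integral_const_mul, integral_normSq (fun t => ((1 + t) ^ (n + 1))⁻¹)]
  have hn0 : (n : ℝ) ≠ 0 := by exact_mod_cast (by omega : n ≠ 0)
  have h1 : ∫ t in Ioi (0:ℝ), ((1 + t) ^ (n + 1))⁻¹ = 1 / n := by
    have hder : ∀ t ∈ Ici (0:ℝ), HasDerivAt (fun t : ℝ => -(1 / (n:ℝ)) * ((1 + t) ^ n)⁻¹)
        (((1 + t) ^ (n + 1))⁻¹) t := by
      intro t ht
      have ht' : (1 + t) ≠ 0 := by have : (0:ℝ) ≤ t := ht; linarith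
      have h2 : HasDerivAt (fun t : ℝ => 1 + t) 1 t := (hasDerivAt_id t).const_add 1
      have h3 := ((h2.pow n).inv (pow_ne_zero n ht')).const_mul (-(1 / (n:ℝ)))
      refine h3.congr_deriv ?_
      obtain ⟨m, rfl⟩ : ∃ m, n = m + 1 := ⟨n - 1, by omega⟩
      simp only [Nat.add_sub_cancel, Pi.pow_apply]
      field_simp
      ring
    have hlim : Tendsto (fun t : ℝ => -(1 / (n:ℝ)) * ((1 + t) ^ n)⁻¹) atTop (𝓝 0) := by
      rw [show (0:ℝ) = -(1 / (n:ℝ)) * 0 by ring]
      apply Tendsto.const_mul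
      apply Tendsto.inv_tendsto_atTop
      exact (tendsto_pow_atTop (by omega)).comp (tendsto_atTop_add_const_left _ _ tendsto_id)
    have h2 := integral_Ioi_of_hasDerivAt_of_nonneg' hder (fun t ht => by
      have : (0:ℝ) < t := ht
      positivity) hlim
    rw [h2]
    simp
  rw [h1]
  field_simp

theorem integrable_Pk {n : ℕ} (hn : 1 ≤ n) : Integrable (Pk n) := by
  by_contra h
  have := integral_Pk hn
  rw [integral_undef h] at this
  norm_num at this

/-- the symbol times the Fourier transform is integrable -/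
theorem integrable_symbol (n : ℕ) (f : 𝓢(ℂ, ℂ)) :
    Integrable (fun ξ : ℂ => (starRingEnd ℂ ξ / ξ) ^ n * 𝓕 (⇑f) ξ) := by
  have h1 : Integrable (𝓕 (⇑f)) := by
    rw [← SchwartzMap.fourier_coe]
    exact (𝓕 f).integrable
  have hm : Measurable fun ξ : ℂ => (starRingEnd ℂ ξ / ξ) ^ n :=
    (Complex.continuous_conj.measurable.div measurable_id).pow_const n
  refine h1.norm.mono' (hm.aestronglyMeasurable.mul h1.aestronglyMeasurable)
    (Eventually.of_forall fun ξ => ?_)
  rw [norm_mul, norm_pow, norm_div, RCLike.norm_conj]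
  calc (‖ξ‖ / ‖ξ‖) ^ n * ‖𝓕 (⇑f) ξ‖ ≤ 1 * ‖𝓕 (⇑f) ξ‖ := by
        apply mul_le_mul_of_nonneg_right _ (norm_nonneg _)
        exact pow_le_one₀ (by positivity) (div_self_le_one _)
    _ = _ := one_mul _

theorem Tn_continuous (n : ℕ) (f : 𝓢(ℂ, ℂ)) : Continuous (Tn n f) := by
  have e : Tn n f = 𝓕⁻ (fun ξ : ℂ => (starRingEnd ℂ ξ / ξ) ^ n * 𝓕 (⇑f) ξ) :=
    funext fun z => Tn_eq n f z
  have hm : MemLp (fun ξ : ℂ => (starRingEnd ℂ ξ / ξ) ^ n * 𝓕 (⇑f) ξ) 1 :=
    memLp_one_iff_integrable.2 (integrable_symbol n f)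
  rw [e, ← Real.Lp.fourierTransformInv_toLp hm]
  exact (Real.Lp.fourierTransformInv hm.toLp).continuous

theorem Tn_bound (n : ℕ) (f : 𝓢(ℂ, ℂ)) (z : ℂ) :
    ‖Tn n f z‖ ≤ ∫ ξ : ℂ, ‖(starRingEnd ℂ ξ / ξ) ^ n * 𝓕 (⇑f) ξ‖ := by
  rw [Tn_eq, Real.fourierInv_eq]
  refine (norm_integral_le_integral_norm _).trans (le_of_eq ?_)
  simp only [Circle.norm_smul]

/-- the kernel of the explicit pair is bounded -/
theorem norm_G1_le (n : ℕ) {η : ℝ} (hη : 0 < η) (ζ : ℂ) :
    ‖kk n ζ * ((Complex.normSq ζ / (η ^ 2 + Complex.normSq ζ) : ℝ) : ℂ) ^ (n + 1)‖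
      ≤ 1 / η ^ 2 := by
  have hs0 : 0 ≤ Complex.normSq ζ := Complex.normSq_nonneg ζ
  have hη2 : 0 < η ^ 2 := by positivity
  rw [norm_mul, norm_pow, Complex.norm_real, Real.norm_of_nonneg (by positivity)]
  rcases eq_or_ne ζ 0 with rfl | h
  · simp; positivity
  have hs1 : 0 < Complex.normSq ζ := Complex.normSq_pos.2 h
  rw [norm_kk_eq n h, ← Complex.normSq_eq_norm_sq]
  generalize Complex.normSq ζ = s at *
  have h1 : (s / (η ^ 2 + s)) ^ (n + 1) ≤ s / (η ^ 2 + s) :=
    pow_le_of_le_one (by positivity) ((div_le_one (by linarith)).2 (by linarith)) (by omega)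
  calc 1 / s * (s / (η ^ 2 + s)) ^ (n + 1) ≤ 1 / s * (s / (η ^ 2 + s)) :=
        mul_le_mul_of_nonneg_left h1 (by positivity)
    _ = 1 / (η ^ 2 + s) := by field_simp
    _ ≤ 1 / η ^ 2 := one_div_le_one_div_of_le hη2 (by linarith)

/-- the truncated kernel is bounded -/
theorem norm_G2_le (n : ℕ) {η : ℝ} (hη : 0 < η) (ζ : ℂ) :
    ‖kk n ζ * (ct η ζ : ℂ)‖ ≤ 1 / η ^ 2 := by
  have hη2 : 0 < η ^ 2 := by positivity
  rw [norm_mul, Complex.norm_real, Real.norm_of_nonneg (by unfold ct; exact st_nonneg _)]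
  rcases le_or_gt (Complex.normSq ζ / η ^ 2) 1 with h | h
  · unfold ct
    rw [st_zero h, mul_zero]
    positivity
  · have h1 : η ^ 2 < Complex.normSq ζ := by rwa [lt_div_iff₀ hη2, one_mul] at h
    have hk := norm_kk_le n ζ
    rw [← Complex.normSq_eq_norm_sq] at hk
    calc ‖kk n ζ‖ * ct η ζ ≤ ‖kk n ζ‖ * 1 :=
          mul_le_mul_of_nonneg_left (by unfold ct; exact st_le_one _) (norm_nonneg _)
      _ ≤ 1 / Complex.normSq ζ := by rw [mul_one]; exact hk
      _ ≤ 1 / η ^ 2 := one_div_le_one_div_of_le hη2 h1.le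

theorem integrable_mul_bdd (f : 𝓢(ℂ, ℂ)) {G : ℂ → ℂ} (hG : Measurable G) {C : ℝ}
    (hC : ∀ ζ, ‖G ζ‖ ≤ C) (w : ℂ) : Integrable (fun z => f z * G (w - z)) := by
  refine (f.integrable.norm.mul_const C).mono' (f.continuous.aestronglyMeasurable.mul
    (hG.comp (measurable_const.sub measurable_id)).aestronglyMeasurable)
    (Eventually.of_forall fun z => ?_)
  rw [norm_mul]
  exact mul_le_mul_of_nonneg_left (hC _) (norm_nonneg _)

theorem meas_G1 (n : ℕ) {η : ℝ} (hη : 0 < η) : Measurable fun ζ : ℂ =>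
    kk n ζ * ((Complex.normSq ζ / (η ^ 2 + Complex.normSq ζ) : ℝ) : ℂ) ^ (n + 1) := by
  apply (meas_kk n).mul
  have h := Complex.continuous_ofReal.comp (cont_q (n := n) η hη)
  have e : (fun ζ : ℂ => ((Complex.normSq ζ / (η ^ 2 + Complex.normSq ζ) : ℝ) : ℂ) ^ (n + 1)) =
      Complex.ofReal ∘ fun y : ℂ => (Complex.normSq y / (η ^ 2 + Complex.normSq y)) ^ (n + 1) := by
    ext ζ
    simp
  rw [e]
  exact h.measurable

theorem meas_G2 (n : ℕ) (η : ℝ) : Measurable fun ζ : ℂ => kk n ζ * (ct η ζ : ℂ) :=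
  (meas_kk n).mul (Complex.continuous_ofReal.comp (cont_ct η)).measurable

/-- the difference of the two truncated integrals -/
theorem diff_eq (n : ℕ) (f : 𝓢(ℂ, ℂ)) (w : ℂ) {η : ℝ} (hη : 0 < η) :
    (∫ z, f z * (kk n (w - z) * ((Complex.normSq (w - z) / (η ^ 2 + Complex.normSq (w - z)) : ℝ)
      : ℂ) ^ (n + 1))) - ∫ z, f z * (kk n (w - z) * (ct η (w - z) : ℂ)) =
      ∫ y, f (w - η • y) * Dk n y := by
  rw [← integral_sub (integrable_mul_bdd f (meas_G1 n hη) (norm_G1_le n hη) w)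
    (integrable_mul_bdd f (meas_G2 n η) (norm_G2_le n hη) w)]
  have h := subst f (fun ζ => kk n ζ * ((Complex.normSq ζ / (η ^ 2 + Complex.normSq ζ) : ℝ)
      : ℂ) ^ (n + 1) - kk n ζ * (ct η ζ : ℂ)) w hη
  have e1 : ∀ z, f z * (kk n (w - z) * ((Complex.normSq (w - z) /
      (η ^ 2 + Complex.normSq (w - z)) : ℝ) : ℂ) ^ (n + 1))
      - f z * (kk n (w - z) * (ct η (w - z) : ℂ)) =
      f z * (kk n (w - z) * ((Complex.normSq (w - z) /
      (η ^ 2 + Complex.normSq (w - z)) : ℝ) : ℂ) ^ (n + 1)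
      - kk n (w - z) * (ct η (w - z) : ℂ)) := fun z => by ring
  simp only [e1]
  rw [h]
  congr 1
  ext y
  congr 1
  rw [← mul_sub, ← mul_assoc, kk_smul n hη, ← Complex.ofReal_pow, q_smul n hη, ct_smul hη]
  unfold Dk
  push_cast
  rfl

/-- the right-hand side of the explicit pair -/
theorem rhs_eq (n : ℕ) (f : 𝓢(ℂ, ℂ)) (w : ℂ) {η : ℝ} (hη : 0 < η) :
    ((n / π * η ^ (2 * n) : ℝ) : ℂ) *
      ∫ z, Tn n f z * (((η ^ 2 + Complex.normSq (w - z)) ^ (n + 1) : ℝ) : ℂ)⁻¹ =
    ∫ y, Tn n f (w - η • y) * (Pk n y : ℂ) := by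
  have h := subst (Tn n f) (fun ζ => (((η ^ 2 + Complex.normSq ζ) ^ (n + 1) : ℝ) : ℂ)⁻¹) w hη
  rw [h, ← integral_const_mul]
  congr 1
  ext y
  rw [mul_left_comm]
  congr 1
  rw [← Complex.ofReal_inv, ← Complex.ofReal_mul, ← Complex.ofReal_mul]
  congr 1
  unfold Pk
  rw [normSq_smul]
  have h0 := Complex.normSq_nonneg y
  have h1 : η ^ 2 + η ^ 2 * Complex.normSq y = η ^ 2 * (1 + Complex.normSq y) := by ring
  have h2 : (1 + Complex.normSq y) ≠ 0 := by positivity
  rw [h1, mul_pow]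
  field_simp
  ring

end Limm

open Limm in
theorem lim (h : StmtExplicit) : StmtLim := by
  intro n f w hn
  have h1 : Tendsto (fun η : ℝ => ((-1) ^ n * n / π : ℂ) * ∫ z, f z * (kk n (w - z) *
      ((Complex.normSq (w - z) / (η ^ 2 + Complex.normSq (w - z)) : ℝ) : ℂ) ^ (n + 1)))
      (𝓝[>] 0) (𝓝 (Tn n f w)) := by
    have h2 := tendsto_approx (φ := Tn n f) (G := fun y => (Pk n y : ℂ))
      (integrable_Pk hn).ofReal (Tn_continuous n f) (Tn_bound n f) w
    rw [integral_complex_ofReal, integral_Pk hn, Complex.ofReal_one, mul_one] at h2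
    refine h2.congr' ?_
    filter_upwards [self_mem_nhdsWithin] with η hη
    rw [h n f w η hn hη, rhs_eq n f w hη]
  have h3 := tendsto_approx (integrable_Dk n) f.continuous (C := (SchwartzMap.seminorm ℂ 0 0) f)
    (fun z => SchwartzMap.norm_le_seminorm ℂ f z) w
  rw [integral_Dk hn, mul_zero] at h3
  have h4 := h1.sub (h3.const_mul ((-1) ^ n * n / π : ℂ))
  rw [mul_zero, sub_zero] at h4
  refine h4.congr' ?_
  filter_upwards [self_mem_nhdsWithin] with η hη
  rw [← diff_eq n f w hη]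
  ring

end Pool.Agent.Lib.MP_dd244f_an.Joint
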