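import Pool.Agent.Lib.MP_dd244f_an.Joint.Stmts
import Pool.Agent.Lib.MP_dd244f_an.Joint.Basic
import Pool.Agent.Lib.MP_dd244f_an.L2

/-! Full operator, joint limit: integration over `λ` (Marcinkiewicz). -/

set_option autoImplicit false

namespace Pool.Agent.Lib.MP_dd244f_an.Joint

open MeasureTheory Filter Topology Finset Set FourierTransform
open scoped SchwartzMap ENNReal

namespace MarcPf

theorem Tn_cont (n : ℕ) (f : 𝓢(ℂ, ℂ)) : Continuous (Tn n f) := by
  have e : Tn n f = 𝓕⁻ (fun ξ : ℂ => (starRingEnd ℂ ξ / ξ) ^ n * 𝓕 (f : ℂ → ℂ) ξ) := by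
    ext z; exact Tn_eq n f z
  rw [e]
  set g := (fun ξ : ℂ => (starRingEnd ℂ ξ / ξ) ^ n * 𝓕 (f : ℂ → ℂ) ξ)
  have : 𝓕⁻ g = fun w => 𝓕 g (-w) := by
    ext w; rw [Real.fourierInv_eq_fourier_neg]
  rw [this]
  have hc : Continuous (𝓕 g) :=
    VectorFourier.fourierIntegral_continuous Real.continuous_fourierChar
      (by exact continuous_inner) (mult_integrable n f)
  exact hc.comp continuous_neg

/-- scaling of a Lebesgue integral over the half line -/
theorem scale {g h : ℝ → ℝ} {c m : ℝ} (hc : 0 < c) (hm : 0 ≤ m)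
    (hh : IntegrableOn h (Ioi 0)) (hh0 : ∀ u, 0 < u → 0 ≤ h u)
    (hgh : ∀ u, 0 < u → g (c * u) = m * h u) :
    ∫⁻ x in Ioi (0 : ℝ), ENNReal.ofReal (g x) =
      ENNReal.ofReal (c * m * ∫ u in Ioi (0 : ℝ), h u) := by
  have h1 : IntegrableOn (fun u => g (c * u)) (Ioi 0) := by
    have h0 : IntegrableOn (fun u => m * h u) (Ioi 0) := hh.const_mul m
    exact h0.congr_fun (fun u hu => (hgh u hu).symm) measurableSet_Ioi
  have h2 : IntegrableOn g (Ioi 0) := by
    have := (integrableOn_Ioi_comp_mul_left_iff g 0 hc).1 h1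
    simpa using this
  have h3 : 0 ≤ᵐ[volume.restrict (Ioi 0)] g := by
    filter_upwards [ae_restrict_mem measurableSet_Ioi] with x hx
    have hx' : (0 : ℝ) < x := hx
    have h4 := hgh (x / c) (by positivity)
    rw [mul_div_cancel₀ _ hc.ne'] at h4
    rw [h4]
    exact mul_nonneg hm (hh0 _ (by positivity))
  rw [← ofReal_integral_eq_lintegral_ofReal h2 h3]
  congr 1
  have h5 := integral_comp_mul_left_Ioi' g 0 hc
  rw [mul_zero] at h5
  have h6 : ∫ u in Ioi (0 : ℝ), g (c * u) = m * ∫ u in Ioi (0 : ℝ), h u := by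
    rw [← integral_const_mul]
    exact setIntegral_congr_fun measurableSet_Ioi fun u hu => hgh u hu
  rw [← h5, smul_eq_mul, mul_assoc, h6]

variable {q : ℝ}

theorem s1 (hC : StmtConsts) (h1 : 1 < q) (h2 : q < 2) {a : ℝ} (ha : 0 ≤ a) :
    ∫⁻ x in Ioi (0 : ℝ), ENNReal.ofReal (x ^ (q - 1) * psi (a ^ 2 / x ^ 2)) =
      ENNReal.ofReal (cq q) * ENNReal.ofReal a ^ q := by
  obtain ⟨i1, -, -, -, -, -⟩ := hC q h1 h2
  have hcq : 0 ≤ cq q := setIntegral_nonneg measurableSet_Ioi fun u hu => by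
    have hu' : (0 : ℝ) < u := hu
    positivity
  rcases ha.eq_or_lt with h0 | h0
  · subst h0
    rw [ENNReal.ofReal_zero, ENNReal.zero_rpow_of_pos (by linarith), mul_zero]
    simp [psi]
  · rw [scale (g := fun x => x ^ (q - 1) * psi (a ^ 2 / x ^ 2))
      (h := fun u => u ^ (q - 1) / (1 + u ^ 2)) (c := a) (m := a ^ (q - 1)) h0 (by positivity) i1
      (fun u hu => by positivity) ?_]
    · rw [ENNReal.ofReal_rpow_of_pos h0, ← ENNReal.ofReal_mul hcq]
      congr 1
      have h3 : a * a ^ (q - 1) = a ^ q := by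
        rw [← Real.rpow_one_add' h0.le (by linarith)]; congr 1; ring
      rw [h3]
      unfold cq
      ring
    · intro u hu
      have e1 : a ^ 2 / (a * u) ^ 2 = 1 / u ^ 2 := by field_simp
      rw [e1, Real.mul_rpow h0.le hu.le]
      unfold psi
      field_simp
      try ring

theorem s2 (hC : StmtConsts) (h1 : 1 < q) (h2 : q < 2) {b k : ℝ} (hb : 0 ≤ b) (hk : 0 < k) :
    ∫⁻ x in Ioi (0 : ℝ), ENNReal.ofReal (x ^ (q - 2) * (b ^ 3 / (b ^ 2 + (k * x) ^ 2))) =
      ENNReal.ofReal (k ^ (1 - q) * aq q) * ENNReal.ofReal b ^ q := by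
  obtain ⟨-, i2, -, -, -, -⟩ := hC q h1 h2
  have haq : 0 ≤ aq q := setIntegral_nonneg measurableSet_Ioi fun u hu => by
    have hu' : (0 : ℝ) < u := hu
    positivity
  rcases hb.eq_or_lt with h0 | h0
  · subst h0
    rw [ENNReal.ofReal_zero, ENNReal.zero_rpow_of_pos (by linarith), mul_zero]
    simp
  · rw [scale (g := fun x => x ^ (q - 2) * (b ^ 3 / (b ^ 2 + (k * x) ^ 2)))
      (h := fun u => u ^ (q - 2) / (1 + u ^ 2)) (c := b / k) (m := (b / k) ^ (q - 2) * b)
      (by positivity) (by positivity) i2 (fun u hu => by positivity) ?_]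
    · rw [ENNReal.ofReal_rpow_of_pos h0, ← ENNReal.ofReal_mul (by positivity)]
      congr 1
      have h3 : b / k * ((b / k) ^ (q - 2) * b) = k ^ (1 - q) * b ^ q := by
        rw [← mul_assoc, ← Real.rpow_one_add' (by positivity) (by linarith),
          Real.div_rpow h0.le hk.le, show 1 + (q - 2) = q - 1 by ring,
          show (1 - q) = -(q - 1) by ring, Real.rpow_neg hk.le,
          show b ^ q = b ^ (q - 1) * b by
            rw [← Real.rpow_add_one h0.ne']; congr 1; ring]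
        field_simp
      rw [h3]
      unfold aq
      ring
    · intro u hu
      have e1 : k * (b / k * u) = b * u := by field_simp
      rw [e1, Real.mul_rpow (by positivity) hu.le]
      field_simp
      try ring

theorem s3 (hC : StmtConsts) (h1 : 1 < q) (h2 : q < 2) {b k : ℝ} (hb : 0 ≤ b) (hk : 0 < k) :
    ∫⁻ x in Ioi (0 : ℝ), ENNReal.ofReal (x ^ (q - 3) *
        (b ^ 2 * (k * x) ^ 4 / (b ^ 2 + (k * x) ^ 2) ^ 2)) =
      ENNReal.ofReal (k ^ (2 - q) * bq q) * ENNReal.ofReal b ^ q := by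
  obtain ⟨-, -, i3, -, -, -⟩ := hC q h1 h2
  have hbq : 0 ≤ bq q := setIntegral_nonneg measurableSet_Ioi fun u hu => by
    have hu' : (0 : ℝ) < u := hu
    positivity
  rcases hb.eq_or_lt with h0 | h0
  · subst h0
    rw [ENNReal.ofReal_zero, ENNReal.zero_rpow_of_pos (by linarith), mul_zero]
    simp
  · rw [scale (g := fun x => x ^ (q - 3) * (b ^ 2 * (k * x) ^ 4 / (b ^ 2 + (k * x) ^ 2) ^ 2))
      (h := fun u => u ^ (q + 1) / (1 + u ^ 2) ^ 2) (c := b / k) (m := (b / k) ^ (q - 3) * b ^ 2)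
      (by positivity) (by positivity) i3 (fun u hu => by positivity) ?_]
    · rw [ENNReal.ofReal_rpow_of_pos h0, ← ENNReal.ofReal_mul (by positivity)]
      congr 1
      have h3 : b / k * ((b / k) ^ (q - 3) * b ^ 2) = k ^ (2 - q) * b ^ q := by
        rw [← mul_assoc, ← Real.rpow_one_add' (by positivity) (by linarith),
          Real.div_rpow h0.le hk.le, show 1 + (q - 3) = q - 2 by ring,
          show (2 - q) = -(q - 2) by ring, Real.rpow_neg hk.le,
          show b ^ q = b ^ (q - 2) * b ^ 2 by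
            rw [← Real.rpow_natCast, ← Real.rpow_add h0]; congr 1; push_cast; ring]
        field_simp
      rw [h3]
      unfold bq
      ring
    · intro u hu
      have e1 : k * (b / k * u) = b * u := by field_simp
      rw [e1, Real.mul_rpow (by positivity) hu.le]
      have e2 : u ^ (q + 1) = u ^ (q - 3) * u ^ 4 := by
        rw [← Real.rpow_natCast, ← Real.rpow_add hu]; congr 1; push_cast; ring
      rw [e2]
      field_simp
      try ring

/-- a Schwartz function of compact support: real integrals as lower integrals -/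
theorem ofReal_int {g : ℂ → ℝ} (hg : Continuous g) (hs : HasCompactSupport g) (h0 : ∀ z, 0 ≤ g z) :
    ENNReal.ofReal (∫ z, g z) = ∫⁻ z, ENNReal.ofReal (g z) :=
  ofReal_integral_eq_lintegral_ofReal (hg.integrable_of_hasCompactSupport hs)
    (Filter.Eventually.of_forall h0)

theorem cs_comp {f : ℂ → ℂ} (hs : HasCompactSupport f) (G : ℂ → ℝ) (h0 : ∀ z, f z = 0 → G z = 0) :
    HasCompactSupport G := by
  refine hs.mono fun z hz => ?_
  rw [Function.mem_support] at hz ⊢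
  exact fun h => hz (h0 z h)

end MarcPf

open MarcPf in
theorem marc (hS : StmtSplit) (hC : StmtConsts) : StmtMarc := by
  intro n ε hn hε hK f q t σ hf h1 h2 ht hσ
  set F : ℂ → ℂ := Tn n f with hF
  have hFc : Continuous F := Tn_cont n f
  have hfc : Continuous (f : ℂ → ℂ) := f.continuous
  have hn0 : (0 : ℝ) < n := by exact_mod_cast hn
  set k : ℝ := t * n with hk
  have hk0 : 0 < k := by positivity
  have hσ1 : 0 < σ ^ 2 - 1 := by nlinarith
  obtain ⟨-, -, -, -, -, hbe⟩ := hC q h1 h2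
  have hcq : 0 ≤ cq q := setIntegral_nonneg measurableSet_Ioi fun u hu => by
    have hu' : (0 : ℝ) < u := hu
    positivity
  have haq : 0 ≤ aq q := setIntegral_nonneg measurableSet_Ioi fun u hu => by
    have hu' : (0 : ℝ) < u := hu
    positivity
  have hbq : 0 ≤ bq q := setIntegral_nonneg measurableSet_Ioi fun u hu => by
    have hu' : (0 : ℝ) < u := hu
    positivity
  -- constants
  set A : ℝ := (1 + ε) * σ * (Real.pi * n / 2) with hA
  set B : ℝ := σ ^ 2 / (σ ^ 2 - 1) with hB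
  have hA0 : 0 ≤ A := by positivity
  have hB0 : 0 ≤ B := by positivity
  -- pointwise inequality in `lam`
  have hpt : ∀ lam : ℝ, 0 < lam → ∫⁻ w, ENNReal.ofReal (lam ^ (q - 1) * psi (‖F w‖ ^ 2 / lam ^ 2)) ≤
      (∫⁻ z, ENNReal.ofReal A * ENNReal.ofReal (lam ^ (q - 2) * (‖f z‖ ^ 3 / (‖f z‖ ^ 2 + (k * lam) ^ 2))))
      + ∫⁻ z, ENNReal.ofReal B * ENNReal.ofReal (lam ^ (q - 3) *
        (‖f z‖ ^ 2 * (k * lam) ^ 4 / (‖f z‖ ^ 2 + (k * lam) ^ 2) ^ 2)) := by
    intro lam hl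
    have hkl : 0 < k * lam := by positivity
    have h3 := hS n ε hε hK f lam (k * lam) σ hf hl hkl hσ
    have hg1c : Continuous fun z => ‖f z‖ ^ 3 / (‖f z‖ ^ 2 + (k * lam) ^ 2) :=
      Continuous.div (by fun_prop) (by fun_prop) fun z => by positivity
    have hg2c : Continuous fun z => ‖f z‖ ^ 2 * (k * lam) ^ 4 / (‖f z‖ ^ 2 + (k * lam) ^ 2) ^ 2 :=
      Continuous.div (by fun_prop) (by fun_prop) fun z => by positivity
    have hg1s : HasCompactSupport fun z => ‖f z‖ ^ 3 / (‖f z‖ ^ 2 + (k * lam) ^ 2) :=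
      cs_comp hf _ fun z hz => by simp [hz]
    have hg2s : HasCompactSupport fun z => ‖f z‖ ^ 2 * (k * lam) ^ 4 /
        (‖f z‖ ^ 2 + (k * lam) ^ 2) ^ 2 := cs_comp hf _ fun z hz => by simp [hz]
    have e1 := ofReal_int hg1c hg1s fun z => by positivity
    have e2 := ofReal_int hg2c hg2s fun z => by positivity
    have hl1 : 0 ≤ lam ^ (q - 1) := by positivity
    have hlhs : ∫⁻ w, ENNReal.ofReal (lam ^ (q - 1) * psi (‖F w‖ ^ 2 / lam ^ 2)) =
        ENNReal.ofReal (lam ^ (q - 1)) * ∫⁻ w, ENNReal.ofReal (psi (‖F w‖ ^ 2 / lam ^ 2)) := by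
      rw [← lintegral_const_mul' _ _ ENNReal.ofReal_ne_top]
      refine lintegral_congr fun w => ?_
      rw [ENNReal.ofReal_mul hl1]
    have hr1 : ∫⁻ z, ENNReal.ofReal A * ENNReal.ofReal (lam ^ (q - 2) *
        (‖f z‖ ^ 3 / (‖f z‖ ^ 2 + (k * lam) ^ 2))) =
        ENNReal.ofReal (A * lam ^ (q - 2)) *
          ENNReal.ofReal (∫ z, ‖f z‖ ^ 3 / (‖f z‖ ^ 2 + (k * lam) ^ 2)) := by
      rw [e1, ← lintegral_const_mul' _ _ ENNReal.ofReal_ne_top]
      refine lintegral_congr fun w => ?_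
      rw [← ENNReal.ofReal_mul hA0, ← ENNReal.ofReal_mul (by positivity)]
      congr 1; ring
    have hr2 : ∫⁻ z, ENNReal.ofReal B * ENNReal.ofReal (lam ^ (q - 3) *
        (‖f z‖ ^ 2 * (k * lam) ^ 4 / (‖f z‖ ^ 2 + (k * lam) ^ 2) ^ 2)) =
        ENNReal.ofReal (B * lam ^ (q - 3)) *
          ENNReal.ofReal (∫ z, ‖f z‖ ^ 2 * (k * lam) ^ 4 / (‖f z‖ ^ 2 + (k * lam) ^ 2) ^ 2) := by
      rw [e2, ← lintegral_const_mul' _ _ ENNReal.ofReal_ne_top]
      refine lintegral_congr fun w => ?_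
      rw [← ENNReal.ofReal_mul hB0, ← ENNReal.ofReal_mul (by positivity)]
      congr 1; ring
    have i1 : 0 ≤ ∫ z, ‖f z‖ ^ 3 / (‖f z‖ ^ 2 + (k * lam) ^ 2) :=
      integral_nonneg fun z => by positivity
    have i2 : 0 ≤ ∫ z, ‖f z‖ ^ 2 * (k * lam) ^ 4 / (‖f z‖ ^ 2 + (k * lam) ^ 2) ^ 2 :=
      integral_nonneg fun z => by positivity
    rw [hlhs, hr1, hr2, ← ENNReal.ofReal_mul (by positivity), ← ENNReal.ofReal_mul (by positivity),
      ← ENNReal.ofReal_add (by positivity) (by positivity)]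
    refine (mul_le_mul_right h3 _).trans (le_of_eq ?_)
    rw [← ENNReal.ofReal_mul hl1]
    congr 1
    have e3 : lam ^ (q - 2) = lam ^ (q - 1) / lam := by
      rw [← Real.rpow_sub_one hl.ne']; congr 1; ring
    have e4 : lam ^ (q - 3) = lam ^ (q - 1) / lam ^ 2 := by
      rw [← Real.rpow_natCast, ← Real.rpow_sub hl]; congr 1; push_cast; ring
    rw [e3, e4, hA]
    generalize (∫ z, ‖f z‖ ^ 3 / (‖f z‖ ^ 2 + (k * lam) ^ 2)) = I1
    generalize (∫ z, ‖f z‖ ^ 2 * (k * lam) ^ 4 / (‖f z‖ ^ 2 + (k * lam) ^ 2) ^ 2) = I2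
    rw [← hB]
    generalize B = B'
    field_simp
    try ring
  -- integrate over `lam`
  have hint := lintegral_mono_ae (μ := volume.restrict (Ioi (0 : ℝ)))
    ((ae_restrict_mem measurableSet_Ioi).mono fun lam hl => hpt lam hl)
  -- measurability
  have mpsi : Measurable psi := by unfold psi; fun_prop
  have m1 : Measurable (Function.uncurry fun (lam : ℝ) (w : ℂ) =>
      ENNReal.ofReal (lam ^ (q - 1) * psi (‖F w‖ ^ 2 / lam ^ 2))) := by
    have hFm : Measurable F := hFc.measurable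
    unfold Function.uncurry
    refine ENNReal.measurable_ofReal.comp (Measurable.mul (by fun_prop) (mpsi.comp ?_))
    fun_prop
  have m2 : Measurable (Function.uncurry fun (lam : ℝ) (z : ℂ) =>
      ENNReal.ofReal A * ENNReal.ofReal (lam ^ (q - 2) *
        (‖f z‖ ^ 3 / (‖f z‖ ^ 2 + (k * lam) ^ 2)))) := by
    have hfm : Measurable (f : ℂ → ℂ) := hfc.measurable
    unfold Function.uncurry
    fun_prop
  have m3 : Measurable (Function.uncurry fun (lam : ℝ) (z : ℂ) =>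
      ENNReal.ofReal B * ENNReal.ofReal (lam ^ (q - 3) *
        (‖f z‖ ^ 2 * (k * lam) ^ 4 / (‖f z‖ ^ 2 + (k * lam) ^ 2) ^ 2))) := by
    have hfm : Measurable (f : ℂ → ℂ) := hfc.measurable
    unfold Function.uncurry
    fun_prop
  have hL : ∫⁻ lam in Ioi (0 : ℝ), ∫⁻ w, ENNReal.ofReal (lam ^ (q - 1) *
      psi (‖F w‖ ^ 2 / lam ^ 2)) = ENNReal.ofReal (cq q) * ∫⁻ w, ‖F w‖ₑ ^ q := by
    rw [lintegral_lintegral_swap m1.aemeasurable,
      ← lintegral_const_mul' _ _ ENNReal.ofReal_ne_top]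
    refine lintegral_congr fun w => ?_
    rw [s1 hC h1 h2 (norm_nonneg _), ofReal_norm]
  have hR1 : ∫⁻ lam in Ioi (0 : ℝ), ∫⁻ z, ENNReal.ofReal A * ENNReal.ofReal (lam ^ (q - 2) *
      (‖f z‖ ^ 3 / (‖f z‖ ^ 2 + (k * lam) ^ 2))) =
      ENNReal.ofReal (A * (k ^ (1 - q) * aq q)) * ∫⁻ z, ‖f z‖ₑ ^ q := by
    rw [lintegral_lintegral_swap m2.aemeasurable,
      ← lintegral_const_mul' _ _ ENNReal.ofReal_ne_top]
    refine lintegral_congr fun w => ?_
    rw [lintegral_const_mul' _ _ ENNReal.ofReal_ne_top, s2 hC h1 h2 (norm_nonneg _) hk0,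
      ofReal_norm, ← mul_assoc, ← ENNReal.ofReal_mul hA0]
  have hR2 : ∫⁻ lam in Ioi (0 : ℝ), ∫⁻ z, ENNReal.ofReal B * ENNReal.ofReal (lam ^ (q - 3) *
      (‖f z‖ ^ 2 * (k * lam) ^ 4 / (‖f z‖ ^ 2 + (k * lam) ^ 2) ^ 2)) =
      ENNReal.ofReal (B * (k ^ (2 - q) * bq q)) * ∫⁻ z, ‖f z‖ₑ ^ q := by
    rw [lintegral_lintegral_swap m3.aemeasurable,
      ← lintegral_const_mul' _ _ ENNReal.ofReal_ne_top]
    refine lintegral_congr fun w => ?_
    rw [lintegral_const_mul' _ _ ENNReal.ofReal_ne_top, s3 hC h1 h2 (norm_nonneg _) hk0,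
      ofReal_norm, ← mul_assoc, ← ENNReal.ofReal_mul hB0]
  have m2' : Measurable fun lam : ℝ => ∫⁻ z, ENNReal.ofReal A * ENNReal.ofReal (lam ^ (q - 2) *
      (‖f z‖ ^ 3 / (‖f z‖ ^ 2 + (k * lam) ^ 2))) := m2.lintegral_prod_right
  rw [hL, lintegral_add_left m2', hR1, hR2, ← add_mul, ← ENNReal.ofReal_add (by positivity)
    (by positivity)] at hint
  refine hint.trans (le_of_eq ?_)
  congr 2
  have e5 : k ^ (1 - q) = t ^ (1 - q) * (n : ℝ) ^ (1 - q) := Real.mul_rpow ht.le hn0.le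
  have e6 : k ^ (2 - q) = t ^ (2 - q) * (n : ℝ) ^ (2 - q) := Real.mul_rpow ht.le hn0.le
  have e7 : (n : ℝ) ^ (2 - q) = (n : ℝ) ^ (1 - q) * n := by
    rw [← Real.rpow_add_one hn0.ne']; congr 1; ring
  rw [e5, e6, hA, hB]
  rw [e7]
  ring

end Pool.Agent.Lib.MP_dd244f_an.Joint
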