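import Pool.Agent.Lib.MP_dd244f_an.Joint.Stmts

/-! Num: one numerical inequality in one variable. -/

set_option autoImplicit false

namespace Pool.Agent.Lib.MP_dd244f_an.Joint

open Filter Topology Set

namespace NumA

/-- partial sums of the series of `-log (1 - x)` -/
lemma partial_le {x : ℝ} (h0 : 0 ≤ x) (h1 : x < 1) (n : ℕ) :
    ∑ i ∈ Finset.range n, x ^ (i + 1) / ((i : ℝ) + 1) ≤ -Real.log (1 - x) := by
  have h := Real.hasSum_pow_div_log_of_abs_lt_one (x := x) (by rw [abs_of_nonneg h0]; exact h1)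
  exact sum_le_hasSum _ (fun i _ => by positivity) h

lemma log_one_add_le {d : ℝ} (h0 : 0 ≤ d) : Real.log (1 + d) ≤ d * (6 + d) / (6 + 4 * d) := by
  set g : ℝ → ℝ := fun t => t * (6 + t) / (6 + 4 * t) - Real.log (1 + t) with hg
  have hd : ∀ t ∈ Icc (0 : ℝ) d, HasDerivAt g (4 * t ^ 3 / ((6 + 4 * t) ^ 2 * (1 + t))) t := by
    intro t ht
    have ht0 : 0 ≤ t := ht.1
    have h2 : 1 + t ≠ 0 := by positivity
    have h3 : 6 + 4 * t ≠ 0 := by positivity
    have d1 : HasDerivAt (fun t : ℝ => 1 + t) 1 t := (hasDerivAt_id t).const_add 1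
    have d2 : HasDerivAt (fun t : ℝ => t * (6 + t)) (1 * (6 + t) + t * 1) t :=
      (hasDerivAt_id t).mul ((hasDerivAt_id t).const_add 6)
    have d3 : HasDerivAt (fun t : ℝ => 6 + 4 * t) (4 * 1) t :=
      ((hasDerivAt_id t).const_mul 4).const_add 6
    refine ((d2.div d3 h3).sub (d1.log h2)).congr_deriv ?_
    field_simp
    ring
  have hm : MonotoneOn g (Icc 0 d) := by
    apply monotoneOn_of_deriv_nonneg (convex_Icc _ _)
    · exact fun t ht => (hd t ht).continuousAt.continuousWithinAt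
    · exact fun t ht => (hd t (interior_subset ht)).differentiableAt.differentiableWithinAt
    · intro t ht
      have ht' := interior_subset ht
      rw [(hd t ht').deriv]
      have h4 := ht'.1
      positivity
  have h3 := hm (left_mem_Icc.2 h0) (right_mem_Icc.2 h0) h0
  simp only [hg] at h3
  simp at h3
  linarith

lemma mul_log_ge {d : ℝ} (h0 : 0 ≤ d) (h1 : d < 1) :
    -d + d ^ 2 / 2 + d ^ 3 / 6 + d ^ 4 / 12 + d ^ 5 / 20 ≤ (1 - d) * Real.log (1 - d) := by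
  set g : ℝ → ℝ := fun t => (1 - t) * Real.log (1 - t) -
    (-t + t ^ 2 / 2 + t ^ 3 / 6 + t ^ 4 / 12 + t ^ 5 / 20) with hg
  have hd : ∀ t ∈ Icc (0 : ℝ) d, HasDerivAt g
      (-Real.log (1 - t) - (t + t ^ 2 / 2 + t ^ 3 / 3 + t ^ 4 / 4)) t := by
    intro t ht
    have h2 : 1 - t ≠ 0 := by
      have := lt_of_le_of_lt ht.2 h1
      intro h
      linarith
    have d1 : HasDerivAt (fun t : ℝ => 1 - t) (-1) t := (hasDerivAt_id t).const_sub 1
    have p2 : HasDerivAt (fun t : ℝ => t ^ 2 / 2) (2 * t / 2) t := by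
      simpa using (hasDerivAt_pow 2 t).div_const 2
    have p3 : HasDerivAt (fun t : ℝ => t ^ 3 / 6) (3 * t ^ 2 / 6) t := by
      simpa using (hasDerivAt_pow 3 t).div_const 6
    have p4 : HasDerivAt (fun t : ℝ => t ^ 4 / 12) (4 * t ^ 3 / 12) t := by
      simpa using (hasDerivAt_pow 4 t).div_const 12
    have p5 : HasDerivAt (fun t : ℝ => t ^ 5 / 20) (5 * t ^ 4 / 20) t := by
      simpa using (hasDerivAt_pow 5 t).div_const 20
    refine ((d1.mul (d1.log h2)).sub (((((hasDerivAt_id t).neg.add p2).add p3).add p4).add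
      p5)).congr_deriv ?_
    field_simp
    ring
  have hm : MonotoneOn g (Icc 0 d) := by
    apply monotoneOn_of_deriv_nonneg (convex_Icc _ _)
    · exact fun t ht => (hd t ht).continuousAt.continuousWithinAt
    · exact fun t ht => (hd t (interior_subset ht)).differentiableAt.differentiableWithinAt
    · intro t ht
      have ht' := interior_subset ht
      rw [(hd t ht').deriv]
      have h4 := partial_le ht'.1 (lt_of_le_of_lt ht'.2 h1) 4
      norm_num [Finset.sum_range_succ] at h4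
      linarith
  have h3 := hm (left_mem_Icc.2 h0) (right_mem_Icc.2 h0) h0
  simp only [hg] at h3
  simp at h3
  linarith

lemma poly_nonneg {d : ℝ} (h0 : 0 ≤ d) (h1 : d ≤ 1) :
    0 ≤ 1823 / 10000 * (1 + d) * (6 + 4 * d) - ((1 + 3 * d) / 2 * (d * (6 + d)) +
      (-(3 / 2) * (-d + d ^ 2 / 2 + d ^ 3 / 6 + d ^ 4 / 12 + d ^ 5 / 20) +
        (1 - d) * (-(41 / 50 * d ^ 2) - (41 / 50 * d ^ 2) ^ 2 / 2) - 13862 / 10000 * d +
        19 / 500 * (1 - d) + 1 / 50) * (6 + 4 * d)) := by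
  have e : 1823 / 10000 * (1 + d) * (6 + 4 * d) - ((1 + 3 * d) / 2 * (d * (6 + d)) +
      (-(3 / 2) * (-d + d ^ 2 / 2 + d ^ 3 / 6 + d ^ 4 / 12 + d ^ 5 / 20) +
        (1 - d) * (-(41 / 50 * d ^ 2) - (41 / 50 * d ^ 2) ^ 2 / 2) - 13862 / 10000 * d +
        19 / 500 * (1 - d) + 1 / 50) * (6 + 4 * d)) =
      (3729 / 5000) * d ^ 0 * (1 - d) ^ 10 +
      (27971 / 5000) * d ^ 1 * (1 - d) ^ 9 +
      (10708 / 625) * d ^ 2 * (1 - d) ^ 8 +
      (33159 / 1250) * d ^ 3 * (1 - d) ^ 7 +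
      (9877 / 500) * d ^ 4 * (1 - d) ^ 6 +
      (10599 / 2500) * d ^ 5 * (1 - d) ^ 5 +
      (1563 / 1250) * d ^ 6 * (1 - d) ^ 4 +
      (10317 / 1250) * d ^ 7 * (1 - d) ^ 3 +
      (42637 / 5000) * d ^ 8 * (1 - d) ^ 2 +
      (15519 / 5000) * d ^ 9 * (1 - d) ^ 1 +
      (77 / 250) * d ^ 10 * (1 - d) ^ 0 := by ring
  rw [e]
  have h2 : 0 ≤ 1 - d := by linarith
  positivity

end NumA

open NumA in
/-- (Num) -/
theorem num : StmtNum := by
  intro d h0 h1
  have hW : 0 < 6 + 4 * d := by linarith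
  have a1 := log_one_add_le h0.le
  have a2 := mul_log_ge h0.le h1
  have a3 : Real.log (1 - 41 / 50 * d ^ 2) ≤ -(41 / 50 * d ^ 2) - (41 / 50 * d ^ 2) ^ 2 / 2 := by
    have hv : 41 / 50 * d ^ 2 < 1 := by nlinarith
    have := partial_le (x := 41 / 50 * d ^ 2) (by positivity) hv 2
    norm_num [Finset.sum_range_succ] at this
    linarith
  have a4 : 13862 / 10000 ≤ Real.log 4 := by
    have e : Real.log 4 = 2 * Real.log 2 := by
      rw [show (4 : ℝ) = 2 ^ 2 by norm_num, Real.log_pow]; norm_num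
    have := Real.log_two_gt_d9
    rw [e]
    linarith
  have a5 : 1823 / 10000 ≤ Real.log (6 / 5) := by
    have := partial_le (x := 1 / 6) (by norm_num) (by norm_num) 5
    have e : Real.log (6 / 5) = -Real.log (1 - 1 / 6) := by
      rw [← Real.log_inv]; norm_num
    rw [e]
    refine le_trans ?_ this
    norm_num [Finset.sum_range_succ]
  have hp := poly_nonneg h0.le h1.le
  have b1 : (1 + 3 * d) / 2 * Real.log (1 + d) ≤ (1 + 3 * d) / 2 * (d * (6 + d) / (6 + 4 * d)) := by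
    gcongr
  have b3 : (1 - d) * Real.log (1 - 41 / 50 * d ^ 2) ≤
      (1 - d) * (-(41 / 50 * d ^ 2) - (41 / 50 * d ^ 2) ^ 2 / 2) :=
    mul_le_mul_of_nonneg_left a3 (by linarith)
  have b4 : d * (13862 / 10000) ≤ d * Real.log 4 := mul_le_mul_of_nonneg_left a4 h0.le
  have b5 : (1 + d) * (1823 / 10000) ≤ (1 + d) * Real.log (6 / 5) :=
    mul_le_mul_of_nonneg_left a5 (by linarith)
  have hq : (1 + 3 * d) / 2 * (d * (6 + d) / (6 + 4 * d)) +
      (-(3 / 2) * (-d + d ^ 2 / 2 + d ^ 3 / 6 + d ^ 4 / 12 + d ^ 5 / 20) +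
        (1 - d) * (-(41 / 50 * d ^ 2) - (41 / 50 * d ^ 2) ^ 2 / 2) - 13862 / 10000 * d +
        19 / 500 * (1 - d) + 1 / 50) ≤ 1823 / 10000 * (1 + d) := by
    rw [← sub_nonneg]
    have e : 1823 / 10000 * (1 + d) - ((1 + 3 * d) / 2 * (d * (6 + d) / (6 + 4 * d)) +
      (-(3 / 2) * (-d + d ^ 2 / 2 + d ^ 3 / 6 + d ^ 4 / 12 + d ^ 5 / 20) +
        (1 - d) * (-(41 / 50 * d ^ 2) - (41 / 50 * d ^ 2) ^ 2 / 2) - 13862 / 10000 * d +
        19 / 500 * (1 - d) + 1 / 50)) =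
      (1823 / 10000 * (1 + d) * (6 + 4 * d) - ((1 + 3 * d) / 2 * (d * (6 + d)) +
      (-(3 / 2) * (-d + d ^ 2 / 2 + d ^ 3 / 6 + d ^ 4 / 12 + d ^ 5 / 20) +
        (1 - d) * (-(41 / 50 * d ^ 2) - (41 / 50 * d ^ 2) ^ 2 / 2) - 13862 / 10000 * d +
        19 / 500 * (1 - d) + 1 / 50) * (6 + 4 * d))) / (6 + 4 * d) := by
      field_simp
    rw [e]
    exact div_nonneg hp hW.le
  linarith

end Pool.Agent.Lib.MP_dd244f_an.Joint
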