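import Pool.Agent.Lib.MP_dd244f_an.Joint.Stmts
import Pool.Agent.Lib.MP_dd244f_an.Joint.Basic
import Pool.Agent.Lib.MP_dd244f_an.Joint.Circle

/-!
Exact orthogonality of truncated kernels about far apart centres (`StmtOrth`).
-/

set_option autoImplicit false

namespace Pool.Agent.Lib.MP_dd244f_an.Joint

open MeasureTheory Filter Topology Set
open scoped Real

namespace Circ

theorem deriv_zero_of_ge {U : ℝ → ℝ} {r s : ℝ} (hU : ContDiff ℝ 1 U)
    (h : ∀ s, r ^ 2 ≤ s → U s = 1) (hs : r ^ 2 ≤ s) : deriv U s = 0 := by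
  have hc : Continuous (deriv U) := hU.continuous_deriv (by norm_num)
  have hcl : IsClosed {s | deriv U s = 0} := isClosed_eq hc continuous_const
  have hsub : Ioi (r ^ 2) ⊆ {s | deriv U s = 0} := fun s hs => deriv_zero_of_large h hs
  have h1 := hcl.closure_subset_iff.2 hsub
  rw [closure_Ioi] at h1
  exact h1 hs

theorem contDiff_radial {U : ℝ → ℝ} (hU : ContDiff ℝ 1 U) (z : ℂ) :
    ContDiff ℝ 1 (fun w : ℂ => U (Complex.normSq (w - z))) := by
  have h1 : ContDiff ℝ 1 (fun w : ℂ => Complex.normSq (w - z)) := by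
    have e : (fun w : ℂ => Complex.normSq (w - z)) = fun w : ℂ => ‖w - z‖ ^ 2 := by
      ext w; rw [Complex.normSq_eq_norm_sq]
    rw [e]
    exact (contDiff_id.sub contDiff_const).norm_sq ℝ
  exact hU.comp h1

theorem dW_mul {f g : ℂ → ℝ} {w : ℂ} (hf : DifferentiableAt ℝ f w) (hg : DifferentiableAt ℝ g w) :
    dW (fun w => f w * g w) w = (f w : ℂ) * dW g w + (g w : ℂ) * dW f w := by
  unfold dW
  have h : fderiv ℝ (fun w => f w * g w) w = f w • fderiv ℝ g w + g w • fderiv ℝ f w :=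
    fderiv_fun_mul hf hg
  rw [h]
  simp
  ring

end Circ

open Circ in
theorem orth (hVid : StmtVid) (hC : StmtCircle) : StmtOrth := by
  classical
  intro n z z' r₁ r₂ ε U₁ U₂ hn hε hr₁ hr₂ hr hU₁ hU₂ h10 h11 h20 h21
  have hz : z ≠ z' := by
    intro h
    rw [h, sub_self, norm_zero] at hr
    linarith
  have hlt1 : r₁ < ‖z - z'‖ := by linarith
  have hlt2 : r₂ < ‖z - z'‖ := by linarith
  have hc1 := (hC n z z' r₁ ε U₁ hn hε hlt1 hU₁ h10 h11 hr₁).1
  have hc2 := (hC n z z' r₂ ε U₂ hn hε hlt2 hU₂ h20 h21 hr₂).2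
  set u₁ : ℂ → ℝ := fun w => U₁ (Complex.normSq (w - z)) with hu₁
  set u₂ : ℂ → ℝ := fun w => U₂ (Complex.normSq (w - z')) with hu₂
  have hcu₁ : ContDiff ℝ 1 u₁ := contDiff_radial hU₁ z
  have hcu₂ : ContDiff ℝ 1 u₂ := contDiff_radial hU₂ z'
  -- one of the two points is always far
  have hfar : ∀ w : ℂ, ‖w - z‖ ≤ r₁ → r₂ ≤ ‖w - z'‖ := by
    intro w hw
    have h1 : ‖z - z'‖ ≤ ‖w - z‖ + ‖w - z'‖ := by
      calc ‖z - z'‖ = ‖(w - z') - (w - z)‖ := by congr 1; ring
        _ ≤ ‖w - z'‖ + ‖w - z‖ := norm_sub_le _ _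
        _ = _ := add_comm _ _
    linarith
  have hone1 : ∀ w : ℂ, r₁ ≤ ‖w - z‖ → u₁ w = 1 := by
    intro w hw
    simp only [hu₁]
    refine h11 _ ?_
    rw [Complex.normSq_eq_norm_sq]
    exact pow_le_pow_left₀ hr₁.le hw 2
  have hone2 : ∀ w : ℂ, r₂ ≤ ‖w - z'‖ → u₂ w = 1 := by
    intro w hw
    simp only [hu₂]
    refine h21 _ ?_
    rw [Complex.normSq_eq_norm_sq]
    exact pow_le_pow_left₀ hr₂.le hw 2
  have hd1 : ∀ w : ℂ, r₁ ≤ ‖w - z‖ → dW u₁ w = 0 := by
    intro w hw
    simp only [hu₁]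
    rw [dW_radial U₁ hU₁, deriv_zero_of_ge hU₁ h11]
    · simp
    · rw [Complex.normSq_eq_norm_sq]
      exact pow_le_pow_left₀ hr₁.le hw 2
  have hd2 : ∀ w : ℂ, r₂ ≤ ‖w - z'‖ → dW u₂ w = 0 := by
    intro w hw
    simp only [hu₂]
    rw [dW_radial U₂ hU₂, deriv_zero_of_ge hU₂ h21]
    · simp
    · rw [Complex.normSq_eq_norm_sq]
      exact pow_le_pow_left₀ hr₂.le hw 2
  have hcW : ContDiff ℝ 1 (fun w => u₁ w * u₂ w) := hcu₁.mul hcu₂
  have hsupp : HasCompactSupport (fun w => u₁ w * u₂ w - 1) := by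
    refine HasCompactSupport.intro (K := Metric.closedBall z r₁ ∪ Metric.closedBall z' r₂)
      ((isCompact_closedBall _ _).union (isCompact_closedBall _ _)) ?_
    intro w hw
    simp only [Set.mem_union, Metric.mem_closedBall, dist_eq_norm, not_or, not_le] at hw
    rw [hone1 w hw.1.le, hone2 w hw.2.le]
    ring
  have hev : ∀ {U : ℝ → ℝ} (x : ℂ), (∀ s, s ≤ ε → U s = 0) →
      ∀ᶠ w in 𝓝 x, U (Complex.normSq (w - x)) = 0 := by
    intro U x h
    have hcont : Continuous fun w : ℂ => Complex.normSq (w - x) :=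
      Complex.continuous_normSq.comp (continuous_id.sub continuous_const)
    have h1 : ∀ᶠ w in 𝓝 x, Complex.normSq (w - x) < ε := by
      apply hcont.continuousAt.eventually_lt_const
      simpa using hε
    filter_upwards [h1] with w hw
    exact h _ hw.le
  have hev1 : ∀ᶠ w in 𝓝 z, u₁ w * u₂ w = 0 := by
    filter_upwards [hev z h10] with w hw
    simp only [hu₁, hw, zero_mul]
  have hev2 : ∀ᶠ w in 𝓝 z', u₁ w * u₂ w = 0 := by
    filter_upwards [hev z' h20] with w hw
    simp only [hu₂, hw, mul_zero]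
  obtain ⟨-, hI2, hEq⟩ := hVid n z z' (fun w => u₁ w * u₂ w) 1 hn hz hcW hsupp hev1 hev2
  refine hEq.trans ?_
  -- the two pieces
  have hdW : ∀ w, dW (fun w => u₁ w * u₂ w) w = dW u₁ w + dW u₂ w := by
    intro w
    rw [dW_mul (hcu₁.differentiable (by norm_num) w) (hcu₂.differentiable (by norm_num) w)]
    rcases le_or_gt ‖w - z‖ r₁ with h | h
    · rw [hd2 w (hfar w h), hone2 w (hfar w h)]
      push_cast
      ring
    · rw [hd1 w h.le, hone1 w h.le]
      push_cast
      ring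
  have hi1 : (fun w => Vf n z z' w * dW u₁ w) =
      (Metric.closedBall z r₁).indicator (fun w => Vf n z z' w * dW (fun w => u₁ w * u₂ w) w) := by
    funext w
    rw [Set.indicator_apply]
    split_ifs with h
    · rw [Metric.mem_closedBall, dist_eq_norm] at h
      rw [hdW, hd2 w (hfar w h), add_zero]
    · rw [Metric.mem_closedBall, dist_eq_norm, not_le] at h
      rw [hd1 w h.le, mul_zero]
  have hi2 : (fun w => Vf n z z' w * dW u₂ w) =
      (Metric.closedBall z r₁)ᶜ.indicator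
        (fun w => Vf n z z' w * dW (fun w => u₁ w * u₂ w) w) := by
    funext w
    rw [Set.indicator_apply]
    split_ifs with h
    · rw [Set.mem_compl_iff, Metric.mem_closedBall, dist_eq_norm, not_le] at h
      rw [hdW, hd1 w h.le, zero_add]
    · rw [Set.mem_compl_iff, not_not, Metric.mem_closedBall, dist_eq_norm] at h
      rw [hd2 w (hfar w h), mul_zero]
  have hint1 : Integrable (fun w => Vf n z z' w * dW u₁ w) := by
    rw [hi1]; exact hI2.indicator Metric.isClosed_closedBall.measurableSet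
  have hint2 : Integrable (fun w => Vf n z z' w * dW u₂ w) := by
    rw [hi2]; exact hI2.indicator Metric.isClosed_closedBall.measurableSet.compl
  have hsum : ∫ w, Vf n z z' w * dW (fun w => u₁ w * u₂ w) w = 0 := by
    have e : ∀ w, Vf n z z' w * dW (fun w => u₁ w * u₂ w) w =
        Vf n z z' w * dW u₁ w + Vf n z z' w * dW u₂ w := by
      intro w; rw [hdW]; ring
    simp only [e]
    rw [integral_add hint1 hint2, hc1, hc2, add_zero]
  rw [hsum, neg_zero]

end Pool.Agent.Lib.MP_dd244f_an.Joint
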