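import Pool.Agent.Lib.MP_dd244f_an.Joint.Stmts
import Pool.Agent.Lib.MP_dd244f_an.Joint.Basic

set_option autoImplicit false

/-! (Pair) the bounds for one near pair. -/

namespace Pool.Agent.Lib.MP_dd244f_an.Joint

open MeasureTheory Filter Topology Finset Set

namespace PairAux

theorem continuousAt_kk (n : ℕ) {ζ : ℂ} (h : ζ ≠ 0) : ContinuousAt (kk n) ζ := by
  unfold kk
  refine ContinuousAt.div (ContinuousAt.pow (ContinuousAt.div ?_ continuousAt_id h) n) ?_ ?_
  · exact Complex.continuous_conj.continuousAt
  · exact (Complex.continuous_ofReal.comp Complex.continuous_normSq).continuousAt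
  · simpa using h

theorem continuous_prod (n : ℕ) (z z' : ℂ) (W : ℂ → ℝ) (hW : Continuous W)
    (h1 : ∀ᶠ w in 𝓝 z, W w = 0) (h2 : ∀ᶠ w in 𝓝 z', W w = 0) :
    Continuous (fun w => kk n (w - z) * starRingEnd ℂ (kk n (w - z')) * (W w : ℂ)) := by
  rw [continuous_iff_continuousAt]
  intro w
  have key : (∀ᶠ u in 𝓝 w, W u = 0) →
      ContinuousAt (fun w => kk n (w - z) * starRingEnd ℂ (kk n (w - z')) * (W w : ℂ)) w := by
    intro h
    have : (fun w => kk n (w - z) * starRingEnd ℂ (kk n (w - z')) * (W w : ℂ)) =ᶠ[𝓝 w]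
        fun _ => (0 : ℂ) := by
      filter_upwards [h] with u hu
      rw [hu]
      simp
    exact continuousAt_const.congr this.symm
  by_cases hz : w = z
  · exact key (hz ▸ h1)
  by_cases hz' : w = z'
  · exact key (hz' ▸ h2)
  · have a1 : ContinuousAt (fun w => kk n (w - z)) w :=
      ContinuousAt.comp (g := kk n) (f := fun w => w - z) (continuousAt_kk n (sub_ne_zero.2 hz))
        (by fun_prop)
    have a2 : ContinuousAt (fun w => kk n (w - z')) w :=
      ContinuousAt.comp (g := kk n) (f := fun w => w - z') (continuousAt_kk n (sub_ne_zero.2 hz'))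
        (by fun_prop)
    exact (a1.mul (Complex.continuous_conj.continuousAt.comp a2)).mul
      (Complex.continuous_ofReal.comp hW).continuousAt

variable (D : Cfg)

theorem continuous_v (i : ℕ) : Continuous (D.v i) := by
  unfold Cfg.v
  fun_prop

theorem isCompact_Reg (i : ℕ) : IsCompact (D.Reg i) := by
  refine Metric.isCompact_of_isClosed_isBounded ?_ ?_
  · exact (isClosed_le continuous_const (continuous_v D i)).inter
      (isClosed_le (continuous_v D i) continuous_const)
  · refine (Metric.isBounded_closedBall (x := D.cl.c i) (r := 4 * D.rho i)).subset fun w hw => ?_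
    rw [Metric.mem_closedBall, dist_eq_norm]
    exact hw.2

theorem continuous_Sw {l : ℕ} (hl : l < D.cl.N) : Continuous (D.Sw l) := by
  unfold Cfg.Sw
  refine continuous_const.add (continuous_finsetSum _ fun i hi => ?_)
  have hi' : i < D.cl.N := by have := Finset.mem_range.1 hi; omega
  have hR := D.cl.hRpos i hi'
  unfold Cfg.b
  refine continuous_const.div ((((continuous_v D i).pow 2).add continuous_const).pow 2) ?_
  intro w
  have : 0 < D.v i w ^ 2 + D.cl.R i ^ 2 := by positivity
  positivity

theorem v_pos {i : ℕ} (hi : i < D.cl.N) {w : ℂ} (hw : w ∈ D.Reg i) :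
    8 * D.cl.R i ≤ D.v i w ∧ 0 < D.v i w := by
  have h1 := D.cl.hRpos i hi
  have h2 := D.hK
  have h3 : D.K * D.cl.R i ≤ D.v i w := hw.1
  constructor
  · nlinarith
  · nlinarith

theorem dist_ge {i : ℕ} (hi : i < D.cl.N) {j : D.ι} (hj : j ∈ D.cl.C i) {w : ℂ}
    (hw : w ∈ D.Reg i) : D.v i w / 2 ≤ ‖w - D.z j‖ := by
  have h1 := v_pos D hi hw
  have h2 := D.cl.norm_le_of_mem_C hi hj
  have h3 : D.v i w ≤ ‖w - D.z j‖ + ‖D.z j - D.cl.c i‖ := by
    unfold Cfg.v
    have : w - D.cl.c i = (w - D.z j) + (D.z j - D.cl.c i) := by ring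
    rw [this]
    exact norm_add_le _ _
  linarith

theorem integrableOn_J {l i : ℕ} (hl : l < D.cl.N) (hi : i < D.cl.N) :
    IntegrableOn (fun w => 1 / (D.v l w ^ 2 * D.v i w ^ 2 * D.Sw l w ^ 2))
      (D.Reg l ∩ D.Reg i) := by
  refine ContinuousOn.integrableOn_compact
    ((isCompact_Reg D l).inter_right (isCompact_Reg D i).isClosed) ?_
  refine ContinuousOn.div continuousOn_const ?_ ?_
  · exact ((((continuous_v D l).pow 2).mul ((continuous_v D i).pow 2)).mul
      ((continuous_Sw D hl).pow 2)).continuousOn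
  · intro w hw
    have h1 := (v_pos D hl hw.1).2
    have h2 := (v_pos D hi hw.2).2
    have h3 := D.Sw_pos l w
    positivity

end PairAux

open PairAux in
theorem pair (hV : StmtV) (hWt : StmtWt) : StmtPair := by
  intro D l i j j' hl hil hj hj'
  have hi : i < D.cl.N := by omega
  obtain ⟨hC1, hcs, hn1, hn2, h0, hout, hin⟩ := hWt D l i j j' hl hil hj hj'
  set W := D.Wt l i j j' with hWdef
  set Rg := D.Reg l ∩ D.Reg i with hRg
  have hRgc : IsCompact Rg := (isCompact_Reg D l).inter_right (isCompact_Reg D i).isClosed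
  have hRgm : MeasurableSet Rg := hRgc.measurableSet
  have hRl := D.cl.hRpos l hl
  have hRi := D.cl.hRpos i hi
  have hRli : D.cl.R l ≤ D.cl.R i := D.cl.hRanti i l hil.le hl
  have hJint := integrableOn_J D hl hi
  have hcont := continuous_prod D.n (D.z j) (D.z j') W hC1.continuous hn1 hn2
  have hint : Integrable (fun w => kk D.n (w - D.z j) * starRingEnd ℂ (kk D.n (w - D.z j')) *
      (W w : ℂ)) := by
    refine hcont.integrable_of_hasCompactSupport ?_
    refine HasCompactSupport.intro hRgc fun w hw => ?_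
    rw [(hout w hw).1]
    simp
  have hinv : ∀ w ∈ Rg, 1 / ‖w - D.z j‖ ≤ 2 / D.v l w ∧ 1 / ‖w - D.z j'‖ ≤ 2 / D.v i w := by
    intro w hw
    have a1 := dist_ge D hl hj hw.1
    have a2 := dist_ge D hi hj' hw.2
    have a3 := (v_pos D hl hw.1).2
    have a4 := (v_pos D hi hw.2).2
    constructor
    · rw [div_le_div_iff₀ (by linarith) a3]
      linarith
    · rw [div_le_div_iff₀ (by linarith) a4]
      linarith
  refine ⟨hint, ?_, ?_⟩
  · have e1 : ∫ w, kk D.n (w - D.z j) * starRingEnd ℂ (kk D.n (w - D.z j')) * (W w : ℂ) =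
        ∫ w in Rg, kk D.n (w - D.z j) * starRingEnd ℂ (kk D.n (w - D.z j')) * (W w : ℂ) := by
      rw [setIntegral_eq_integral_of_forall_compl_eq_zero]
      intro w hw
      rw [(hout w hw).1]
      simp
    rw [e1]
    calc ‖∫ w in Rg, kk D.n (w - D.z j) * starRingEnd ℂ (kk D.n (w - D.z j')) * (W w : ℂ)‖
        ≤ ∫ w in Rg, ‖kk D.n (w - D.z j) * starRingEnd ℂ (kk D.n (w - D.z j')) * (W w : ℂ)‖ :=
          norm_integral_le_integral_norm _
      _ ≤ ∫ w in Rg, 16 * (1 / (D.v l w ^ 2 * D.v i w ^ 2 * D.Sw l w ^ 2)) := by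
          refine setIntegral_mono_on hint.norm.integrableOn (hJint.const_mul 16) hRgm
            fun w hw => ?_
          have b1 := hinv w hw
          have b2 := (hin w hw).1
          have b3 := (v_pos D hl hw.1).2
          have b4 := (v_pos D hi hw.2).2
          have b5 := D.Sw_pos l w
          have b6 := norm_kk_le D.n (w - D.z j)
          have b7 := norm_kk_le D.n (w - D.z j')
          have c1 : ‖kk D.n (w - D.z j)‖ ≤ (2 / D.v l w) ^ 2 := by
            refine b6.trans ?_
            rw [← one_div_pow]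
            exact pow_le_pow_left₀ (by positivity) b1.1 2
          have c2 : ‖kk D.n (w - D.z j')‖ ≤ (2 / D.v i w) ^ 2 := by
            refine b7.trans ?_
            rw [← one_div_pow]
            exact pow_le_pow_left₀ (by positivity) b1.2 2
          rw [norm_mul, norm_mul, RCLike.norm_conj, Complex.norm_real,
            Real.norm_of_nonneg (h0 w)]
          calc ‖kk D.n (w - D.z j)‖ * ‖kk D.n (w - D.z j')‖ * W w
              ≤ (2 / D.v l w) ^ 2 * (2 / D.v i w) ^ 2 * (1 / D.Sw l w ^ 2) := by
                gcongr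
                exact h0 w
            _ = 16 * (1 / (D.v l w ^ 2 * D.v i w ^ 2 * D.Sw l w ^ 2)) := by
                field_simp
                norm_num
      _ = 16 * D.J l i := by
          rw [integral_const_mul]
          rfl
  · intro hsep
    set δ := ‖D.z j - D.z j'‖ with hδ
    have hm : (1 : ℝ) ≤ D.m := by exact_mod_cast D.hm
    have hn : (1 : ℝ) ≤ D.n := by exact_mod_cast D.hn
    have hRm : D.cl.R i ≤ D.m * δ := by
      rw [div_le_iff₀ (by linarith)] at hsep
      linarith
    have hδ0 : 0 < δ := lt_of_lt_of_le (by positivity) hsep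
    have hne : D.z j ≠ D.z j' := by
      intro h
      rw [hδ, h, sub_self, norm_zero] at hδ0
      exact lt_irrefl _ hδ0
    have hL2 := D.two_le
    set C1 : ℝ := 1 + 4 * D.m + 4 * D.m * (D.L / D.κ) with hC1def
    have hM := one_le_Mst
    have hM0 : 0 < Mst := by linarith
    have hrho := D.rho_pos hl
    obtain ⟨hVi, hVb⟩ := hV D.n (D.z j) (D.z j') W 0 D.hn hne hC1 (by simpa using hcs) hn1 hn2
    refine hVb.trans ?_
    set c : ℝ := δ * (16 * C1 * D.rho l * ((5 * Mst + 4) / D.cl.R l)) with hc
    have e1 : ∫ w, ‖fderiv ℝ W w‖ / (‖w - D.z j‖ * ‖w - D.z j'‖) =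
        ∫ w in Rg, ‖fderiv ℝ W w‖ / (‖w - D.z j‖ * ‖w - D.z j'‖) := by
      rw [setIntegral_eq_integral_of_forall_compl_eq_zero]
      intro w hw
      rw [(hout w hw).2]
      simp
    have e2 : ∫ w in Rg, ‖fderiv ℝ W w‖ / (‖w - D.z j‖ * ‖w - D.z j'‖) ≤ c * D.J l i := by
      calc ∫ w in Rg, ‖fderiv ℝ W w‖ / (‖w - D.z j‖ * ‖w - D.z j'‖)
          ≤ ∫ w in Rg, c * (1 / (D.v l w ^ 2 * D.v i w ^ 2 * D.Sw l w ^ 2)) := by
            refine setIntegral_mono_on hVi.integrableOn (hJint.const_mul c) hRgm
              fun w hw => ?_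
            have b1 := hinv w hw
            have b2 := (hin w hw).2
            have b3 := (v_pos D hl hw.1).2
            have b4 := (v_pos D hi hw.2).2
            have b5 := D.Sw_pos l w
            have b8 : D.v l w ≤ 4 * D.rho l := hw.1.2
            have b9 : D.v i w ≤ C1 * δ := by
              have d1 : D.v i w ≤ D.v l w + ‖D.z j - D.cl.c l‖ + δ + ‖D.z j' - D.cl.c i‖ := by
                unfold Cfg.v
                have : w - D.cl.c i = (w - D.cl.c l) - (D.z j - D.cl.c l) +
                    (D.z j - D.z j') + (D.z j' - D.cl.c i) := by ring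
                rw [this]
                refine (norm_add_le _ _).trans ?_
                gcongr
                refine (norm_add_le _ _).trans ?_
                gcongr
                exact norm_sub_le _ _
              have d2 := D.cl.norm_le_of_mem_C hl hj
              have d3 := D.cl.norm_le_of_mem_C hi hj'
              have d4 : D.rho l ≤ (D.L / D.κ) * (D.m * δ) := by
                unfold Cfg.rho
                exact mul_le_mul_of_nonneg_left (hRli.trans hRm) (by linarith)
              rw [hC1def]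
              nlinarith
            have c3 : ‖fderiv ℝ W w‖ / (‖w - D.z j‖ * ‖w - D.z j'‖) =
                ‖fderiv ℝ W w‖ * (1 / ‖w - D.z j‖) * (1 / ‖w - D.z j'‖) := by
              rw [div_eq_mul_inv, mul_inv, one_div, one_div]
              ring
            rw [c3]
            calc ‖fderiv ℝ W w‖ * (1 / ‖w - D.z j‖) * (1 / ‖w - D.z j'‖)
                ≤ ((5 * Mst + 4) / D.cl.R l / D.Sw l w ^ 2) * (2 / D.v l w) * (2 / D.v i w) :=
                  mul_le_mul (mul_le_mul b2 b1.1 (by positivity) (by positivity)) b1.2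
                    (by positivity) (by positivity)
              _ = 4 * (D.v l w * D.v i w) * ((5 * Mst + 4) / D.cl.R l) *
                  (1 / (D.v l w ^ 2 * D.v i w ^ 2 * D.Sw l w ^ 2)) := by
                  field_simp
                  ring
              _ ≤ 4 * ((4 * D.rho l) * (C1 * δ)) * ((5 * Mst + 4) / D.cl.R l) *
                  (1 / (D.v l w ^ 2 * D.v i w ^ 2 * D.Sw l w ^ 2)) := by
                  gcongr
              _ = c * (1 / (D.v l w ^ 2 * D.v i w ^ 2 * D.Sw l w ^ 2)) := by
                  rw [hc]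
                  ring
        _ = c * D.J l i := by
            rw [integral_const_mul]
            rfl
    rw [e1]
    calc 1 / (2 * D.n * δ) * ∫ w in Rg, ‖fderiv ℝ W w‖ / (‖w - D.z j‖ * ‖w - D.z j'‖)
        ≤ 1 / (2 * D.n * δ) * (c * D.J l i) := by
          gcongr
      _ = D.CF / D.n * D.J l i := by
          rw [hc]
          unfold Cfg.CF Cfg.rho
          rw [← hC1def]
          field_simp
          ring

end Pool.Agent.Lib.MP_dd244f_an.Joint
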