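import Pool.Agent.Lib.MP_dd244f_an.Joint.Stmts
import Pool.Agent.Lib.MP_dd244f_an.Joint.Basic
import Pool.Agent.Lib.MP_dd244f_an.Polar

/-!
One integral in polar coordinates (`StmtPsiInt`).
-/

set_option autoImplicit false

namespace Pool.Agent.Lib.MP_dd244f_an.Joint

open MeasureTheory Filter Topology Set

theorem psiInt : StmtPsiInt := by
  intro B hB
  have hI : ∫ w : ℂ, psi (B ^ 2 / (‖w‖ ^ 2) ^ 2) = Real.pi ^ 2 / 2 * B := by
    have h1 : ∫ w : ℂ, psi (B ^ 2 / (‖w‖ ^ 2) ^ 2) =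
        ∫ w : ℂ, (fun t : ℝ => psi (B ^ 2 / t ^ 2)) (Complex.normSq w) := by
      congr 1
      funext w
      simp only [Complex.normSq_eq_norm_sq]
    rw [h1, integral_normSq (fun t : ℝ => psi (B ^ 2 / t ^ 2))]
    have h2 : ∫ t in Ioi (0:ℝ), psi (B ^ 2 / t ^ 2) =
        ∫ t in Ioi (0:ℝ), (fun x : ℝ => (1 + x ^ 2)⁻¹) (B⁻¹ * t) := by
      apply setIntegral_congr_fun measurableSet_Ioi
      intro t ht
      rw [mem_Ioi] at ht
      simp only [psi]
      have : t ≠ 0 := ht.ne'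
      have hB' : B ≠ 0 := hB.ne'
      have h3 : t ^ 2 + B ^ 2 ≠ 0 := by positivity
      rw [div_div, mul_add, mul_one, mul_div_cancel₀ _ (pow_ne_zero 2 this), mul_pow, inv_pow]
      rw [← div_eq_one_iff_eq (by positivity)]
      field_simp
      ring
    rw [h2, integral_comp_mul_left_Ioi (fun x : ℝ => (1 + x ^ 2)⁻¹) _ (inv_pos.2 hB), mul_zero,
      integral_Ioi_inv_one_add_sq,
      Real.arctan_zero, inv_inv, smul_eq_mul]
    ring
  refine ⟨?_, hI⟩
  by_contra h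
  rw [integral_undef h] at hI
  have : 0 < Real.pi ^ 2 / 2 * B := by positivity
  exact this.ne hI

end Pool.Agent.Lib.MP_dd244f_an.Joint
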