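import Pool.Agent.Lib.MP_dd244f_an.Joint.Stmts

/-! Ratio: lower bound of a quotient of Pochhammer symbols. -/

set_option autoImplicit false

namespace Pool.Agent.Lib.MP_dd244f_an.Joint

open Filter Topology Set

namespace Rat1

lemma exp_le_one_sub {v : ℝ} (h0 : 0 ≤ v) (h1 : v ≤ 1 / 2) : Real.exp (-v - v ^ 2) ≤ 1 - v := by
  have h2 : 0 < 1 - v := by linarith
  rw [← Real.le_log_iff_exp_le h2]
  set g : ℝ → ℝ := fun t => Real.log (1 - t) + t + t ^ 2 with hg
  have hd : ∀ t ∈ Icc (0 : ℝ) (1 / 2), HasDerivAt g (t * (1 - 2 * t) / (1 - t)) t := by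
    intro t ht
    have h3 : 1 - t ≠ 0 := by
      have := ht.2
      intro h
      linarith
    have d0 : HasDerivAt (fun t : ℝ => t ^ 2) (2 * t) t := by simpa using hasDerivAt_pow 2 t
    have d1 : HasDerivAt (fun t : ℝ => 1 - t) (-1) t := (hasDerivAt_id t).const_sub 1
    have d2 := ((d1.log h3).add (hasDerivAt_id t)).add d0
    refine d2.congr_deriv ?_
    field_simp
    ring
  have hm : MonotoneOn g (Icc 0 (1 / 2)) := by
    apply monotoneOn_of_deriv_nonneg (convex_Icc _ _)
    · exact fun t ht => (hd t ht).continuousAt.continuousWithinAt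
    · exact fun t ht => (hd t (interior_subset ht)).differentiableAt.differentiableWithinAt
    · intro t ht
      have ht' := interior_subset ht
      rw [(hd t ht').deriv]
      have h4 := ht'.1
      have h5 : 0 ≤ 1 - 2 * t := by linarith [ht'.2]
      have h6 : 0 ≤ 1 - t := by linarith [ht'.2]
      positivity
  have h3 := hm (left_mem_Icc.2 (by norm_num)) ⟨h0, h1⟩ h0
  simp only [hg] at h3
  simp at h3
  linarith

/-- the recursion of the quotient -/
lemma ratio_succ {x : ℝ} (n : ℕ) :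
    (ascPochhammer ℝ (n + 1)).eval (1 - x) / (ascPochhammer ℝ (n + 1)).eval x =
      (ascPochhammer ℝ n).eval (1 - x) / (ascPochhammer ℝ n).eval x * ((1 - x + n) / (x + n)) := by
  rw [ascPochhammer_succ_eval, ascPochhammer_succ_eval, mul_div_mul_comm]

lemma lower {x : ℝ} (hx : 0 < x) (hx4 : x ≤ 1 / 4) (n : ℕ) :
    (n + 1 - x) / x * Real.exp (-(2 * x * ∑ j ∈ Finset.range n, 1 / ((j : ℝ) + 1)) -
      4 * x ^ 2 * ∑ j ∈ Finset.range n, 1 / ((j : ℝ) + 1) ^ 2) ≤
    (ascPochhammer ℝ (n + 1)).eval (1 - x) / (ascPochhammer ℝ (n + 1)).eval x := by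
  induction n with
  | zero => simp [ascPochhammer_one]
  | succ n ih =>
    rw [ratio_succ (n + 1), Finset.sum_range_succ, Finset.sum_range_succ]
    set H := ∑ j ∈ Finset.range n, 1 / ((j : ℝ) + 1)
    set S := ∑ j ∈ Finset.range n, 1 / ((j : ℝ) + 1) ^ 2
    have hn : (0 : ℝ) ≤ n := by positivity
    set m : ℝ := (n : ℝ) + 1 with hm
    have hm1 : 1 ≤ m := by linarith
    have hm0 : 0 < m := by linarith
    -- the new factor
    have key : Real.exp (-(2 * x / m) - 4 * x ^ 2 / m ^ 2) ≤ (m - x) / (m + x) := by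
      set v : ℝ := 2 * x / (m + x) with hv
      have hv0 : 0 ≤ v := by positivity
      have hv1 : v ≤ 2 * x / m := by
        rw [hv]; gcongr; linarith
      have hv2 : v ≤ 1 / 2 := by
        rw [hv, div_le_iff₀ (by positivity)]
        linarith
      have e : (m - x) / (m + x) = 1 - v := by
        rw [hv]; field_simp; ring
      rw [e]
      refine le_trans (Real.exp_le_exp.2 ?_) (exp_le_one_sub hv0 hv2)
      have h3 : v ^ 2 ≤ (2 * x / m) ^ 2 := by gcongr
      have h4 : (2 * x / m) ^ 2 = 4 * x ^ 2 / m ^ 2 := by rw [div_pow]; ring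
      linarith
    have hpos : 0 < m - x := by linarith
    push_cast
    have e1 : Real.exp (-(2 * x * (H + 1 / m)) - 4 * x ^ 2 * (S + 1 / m ^ 2)) =
        Real.exp (-(2 * x * H) - 4 * x ^ 2 * S) * Real.exp (-(2 * x / m) - 4 * x ^ 2 / m ^ 2) := by
      rw [← Real.exp_add]; congr 1; ring
    rw [e1]
    have hmx : 0 < m + x := by linarith
    calc (m + 1 - x) / x * (Real.exp (-(2 * x * H) - 4 * x ^ 2 * S) *
          Real.exp (-(2 * x / m) - 4 * x ^ 2 / m ^ 2))
        ≤ (m + 1 - x) / x * (Real.exp (-(2 * x * H) - 4 * x ^ 2 * S) * ((m - x) / (m + x))) := by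
          have : 0 ≤ (m + 1 - x) / x := div_nonneg (by linarith) hx.le
          gcongr
      _ = ((m - x) / x * Real.exp (-(2 * x * H) - 4 * x ^ 2 * S)) * ((1 - x + m) / (x + m)) := by
          rw [add_comm x m]; field_simp; ring
      _ ≤ _ := by
          have : 0 ≤ (1 - x + m) / (x + m) := div_nonneg (by linarith) (by linarith)
          gcongr

lemma sum_sq_le (n : ℕ) : ∑ j ∈ Finset.range n, 1 / ((j : ℝ) + 1) ^ 2 ≤ 7 / 4 := by
  have h : ∀ n : ℕ, ∑ j ∈ Finset.range (n + 2), 1 / ((j : ℝ) + 1) ^ 2 ≤ 7 / 4 - 1 / ((n : ℝ) + 2) := by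
    intro n
    induction n with
    | zero => norm_num [Finset.sum_range_succ]
    | succ n ih =>
      rw [Finset.sum_range_succ]
      have hn : (0 : ℝ) ≤ n := by positivity
      push_cast
      have h1 : 1 / ((n : ℝ) + 2 + 1) ^ 2 ≤ 1 / ((n : ℝ) + 2) - 1 / ((n : ℝ) + 1 + 2) := by
        rw [div_sub_div _ _ (by positivity) (by positivity), div_le_div_iff₀ (by positivity)
          (by positivity)]
        nlinarith
      linarith
  match n with
  | 0 => norm_num
  | 1 => norm_num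
  | n + 2 =>
    refine (h n).trans ?_
    have : (0 : ℝ) ≤ 1 / ((n : ℝ) + 2) := by positivity
    linarith

lemma sum_le (n : ℕ) : ∑ j ∈ Finset.range n, 1 / ((j : ℝ) + 1) ≤ 1 + Real.log (n + 1) := by
  have h1 := harmonic_le_one_add_log n
  have h2 : ((harmonic n : ℚ) : ℝ) = ∑ j ∈ Finset.range n, 1 / ((j : ℝ) + 1) := by
    simp [harmonic]
  rw [h2] at h1
  refine h1.trans ?_
  rcases Nat.eq_zero_or_pos n with h | h
  · simp [h]
  · have : Real.log n ≤ Real.log (n + 1) :=
      Real.log_le_log (by exact_mod_cast h) (by linarith)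
    linarith

end Rat1

open Rat1 in
/-- (Ratio) lower bound for the conjectured constant -/
theorem ratio_lower : StmtRatio := by
  intro n p hn hp
  obtain ⟨n, rfl⟩ : ∃ m, n = m + 1 := ⟨n - 1, by omega⟩
  have hp0 : 0 < p := by linarith
  set x : ℝ := 1 / p with hx
  have hx0 : 0 < x := by positivity
  have hx4 : x ≤ 1 / 4 := one_div_le_one_div_of_le (by norm_num) hp
  have h := lower hx0 hx4 n
  have h1 := sum_sq_le n
  have h2 := sum_le n
  have hn0 : (0 : ℝ) < n + 1 := by positivity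
  unfold ratio
  refine le_trans ?_ h
  have e1 : ((n + 1 : ℕ) : ℝ) ^ (1 - 2 / p) = (n + 1) * Real.exp (-(2 * x * Real.log (n + 1))) := by
    push_cast
    rw [show (1 - 2 / p : ℝ) = 1 + -(2 * x) by rw [hx]; ring, Real.rpow_add hn0, Real.rpow_one,
      Real.rpow_def_of_pos hn0]
    congr 2
    ring
  have e2 : p - 1 = (1 - x) / x := by
    rw [hx]; field_simp
  have e3 : -(2 / p) - 7 / p ^ 2 = -(2 * x) - 7 * x ^ 2 := by
    rw [hx]; field_simp
  rw [e1, e2, e3]
  have h3 : (n + 1) * (1 - x) ≤ n + 1 - x := by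
    have : (0 : ℝ) ≤ n := by positivity
    nlinarith
  calc (n + 1) * Real.exp (-(2 * x * Real.log (n + 1))) * ((1 - x) / x) *
        Real.exp (-(2 * x) - 7 * x ^ 2)
      = ((n + 1) * (1 - x)) / x * Real.exp (-(2 * x * (1 + Real.log (n + 1))) -
        4 * x ^ 2 * (7 / 4)) := by
        rw [show -(2 * x * (1 + Real.log (n + 1))) - 4 * x ^ 2 * (7 / 4) =
          -(2 * x * Real.log (n + 1)) + (-(2 * x) - 7 * x ^ 2) by ring, Real.exp_add]
        ring
    _ ≤ (n + 1 - x) / x * Real.exp (-(2 * x * ∑ j ∈ Finset.range n, 1 / ((j : ℝ) + 1)) -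
      4 * x ^ 2 * ∑ j ∈ Finset.range n, 1 / ((j : ℝ) + 1) ^ 2) := by
        have h4 : 2 * x * ∑ j ∈ Finset.range n, 1 / ((j : ℝ) + 1) ≤
            2 * x * (1 + Real.log (n + 1)) := by gcongr
        have h5 : 4 * x ^ 2 * ∑ j ∈ Finset.range n, 1 / ((j : ℝ) + 1) ^ 2 ≤
            4 * x ^ 2 * (7 / 4) := by gcongr
        have h6 : 0 ≤ (n + 1 - x) / x := div_nonneg (by linarith) hx0.le
        exact mul_le_mul (by gcongr) (Real.exp_le_exp.2 (by linarith)) (Real.exp_pos _).le h6

end Pool.Agent.Lib.MP_dd244f_an.Joint
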