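import Pool.Agent.Lib.MP_dd244f_an.Joint.Stmts

/-! Ratio2: lower bound of a quotient of Pochhammer symbols, all `p ≥ 2`. -/

set_option autoImplicit false

namespace Pool.Agent.Lib.MP_dd244f_an.Joint

open Filter Topology Set

namespace Rat2

lemma hasDeriv_log {t : ℝ} (h0 : 0 ≤ t) (h1 : t < 1) :
    HasDerivAt (fun t : ℝ => Real.log (1 + t) - Real.log (1 - t)) (2 / (1 - t ^ 2)) t := by
  have h2 : 1 + t ≠ 0 := by linarith
  have h3 : 1 - t ≠ 0 := by intro h; linarith
  have h4 : 1 - t ^ 2 ≠ 0 := by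
    intro h
    have : (1 - t) * (1 + t) = 0 := by linarith
    rcases mul_eq_zero.1 this with h | h
    · exact h3 h
    · exact h2 h
  have d1 : HasDerivAt (fun t : ℝ => 1 + t) 1 t := (hasDerivAt_id t).const_add 1
  have d2 : HasDerivAt (fun t : ℝ => 1 - t) (-1) t := (hasDerivAt_id t).const_sub 1
  refine ((d1.log h2).sub (d2.log h3)).congr_deriv ?_
  rw [show (1 - t ^ 2) = (1 + t) * (1 - t) by ring]
  field_simp
  ring

/-- `exp (2 w) ≤ (1 + w) / (1 - w)` -/
lemma exp_le {w : ℝ} (h0 : 0 ≤ w) (h1 : w < 1) : Real.exp (2 * w) ≤ (1 + w) / (1 - w) := by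
  have h2 : 0 < 1 - w := by linarith
  rw [← Real.le_log_iff_exp_le (by positivity), Real.log_div (by linarith) h2.ne']
  set g : ℝ → ℝ := fun t => Real.log (1 + t) - Real.log (1 - t) - 2 * t with hg
  have hd : ∀ t ∈ Icc (0 : ℝ) w, HasDerivAt g (2 / (1 - t ^ 2) - 2) t := by
    intro t ht
    have := (hasDeriv_log ht.1 (lt_of_le_of_lt ht.2 h1)).sub ((hasDerivAt_id t).const_mul 2)
    exact this.congr_deriv (by ring)
  have hm : MonotoneOn g (Icc 0 w) := by
    apply monotoneOn_of_deriv_nonneg (convex_Icc _ _)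
    · exact fun t ht => (hd t ht).continuousAt.continuousWithinAt
    · exact fun t ht => (hd t (interior_subset ht)).differentiableAt.differentiableWithinAt
    · intro t ht
      have ht' := interior_subset ht
      rw [(hd t ht').deriv]
      have h4 := ht'.1
      have h5 : t < 1 := lt_of_le_of_lt ht'.2 h1
      have h6 : 0 < 1 - t ^ 2 := by nlinarith
      rw [sub_nonneg, le_div_iff₀ h6]
      nlinarith [sq_nonneg t]
  have h3 := hm (left_mem_Icc.2 h0) (right_mem_Icc.2 h0) h0
  simp only [hg] at h3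
  simp at h3
  linarith

/-- `log ((1 + u) / (1 - u)) ≤ 2 u + (2 / 3) u ^ 3 / (1 - u ^ 2)` -/
lemma log_le {u : ℝ} (h0 : 0 ≤ u) (h1 : u < 1) :
    Real.log (1 + u) - Real.log (1 - u) ≤ 2 * u + 2 / 3 * u ^ 3 / (1 - u ^ 2) := by
  set g : ℝ → ℝ := fun t => 2 * t + 2 / 3 * t ^ 3 / (1 - t ^ 2) -
    (Real.log (1 + t) - Real.log (1 - t)) with hg
  have hd : ∀ t ∈ Icc (0 : ℝ) u, HasDerivAt g (4 / 3 * t ^ 4 / (1 - t ^ 2) ^ 2) t := by
    intro t ht
    have ht1 : t < 1 := lt_of_le_of_lt ht.2 h1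
    have h6 : 0 < 1 - t ^ 2 := by nlinarith [ht.1]
    have d2 : HasDerivAt (fun t : ℝ => 1 - t ^ 2) (-(2 * t)) t := by
      simpa using (hasDerivAt_pow 2 t).const_sub 1
    have d3 : HasDerivAt (fun t : ℝ => 2 / 3 * t ^ 3) (2 / 3 * (3 * t ^ 2)) t := by
      simpa using (hasDerivAt_pow 3 t).const_mul (2 / 3)
    have := (((hasDerivAt_id t).const_mul 2).add (d3.div d2 h6.ne')).sub (hasDeriv_log ht.1 ht1)
    refine this.congr_deriv ?_
    field_simp
    ring
  have hm : MonotoneOn g (Icc 0 u) := by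
    apply monotoneOn_of_deriv_nonneg (convex_Icc _ _)
    · exact fun t ht => (hd t ht).continuousAt.continuousWithinAt
    · exact fun t ht => (hd t (interior_subset ht)).differentiableAt.differentiableWithinAt
    · intro t ht
      have ht' := interior_subset ht
      rw [(hd t ht').deriv]
      have h4 := ht'.1
      positivity
  have h3 := hm (left_mem_Icc.2 h0) (right_mem_Icc.2 h0) h0
  simp only [hg] at h3
  simp at h3
  linarith

/-- termwise bound -/
lemma term_le {j : ℝ} (hj : 1 ≤ j) :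
    Real.log (j + 1) - Real.log j ≤ 2 / (2 * j + 1) + 1 / (6 * j * (j + 1) * (2 * j + 1)) := by
  have h := log_le (u := 1 / (2 * j + 1)) (by positivity) (by
    rw [div_lt_one (by linarith)]; linarith)
  have e1 : 1 + 1 / (2 * j + 1) = (j + 1) * (2 / (2 * j + 1)) := by field_simp; ring
  have e2 : 1 - 1 / (2 * j + 1) = j * (2 / (2 * j + 1)) := by field_simp; ring
  have hp : 0 < 2 / (2 * j + 1) := by positivity
  rw [e1, e2, Real.log_mul (by linarith) hp.ne', Real.log_mul (by linarith) hp.ne'] at h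
  have e3 : 2 / 3 * (1 / (2 * j + 1)) ^ 3 / (1 - (1 / (2 * j + 1)) ^ 2) =
      1 / (6 * j * (j + 1) * (2 * j + 1)) := by
    have : (2 * j + 1) ^ 2 - 1 ≠ 0 := by nlinarith
    have e4 : 1 - (1 / (2 * j + 1)) ^ 2 = 4 * j * (j + 1) / (2 * j + 1) ^ 2 := by
      field_simp; ring
    rw [e4]
    field_simp
    ring
  rw [e3] at h
  calc Real.log (j + 1) - Real.log j = (Real.log (j + 1) + Real.log (2 / (2 * j + 1))) -
        (Real.log j + Real.log (2 / (2 * j + 1))) := by ring
    _ ≤ 2 * (1 / (2 * j + 1)) + 1 / (6 * j * (j + 1) * (2 * j + 1)) := h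
    _ = _ := by ring

lemma sum_ge (n : ℕ) : Real.log (n + 1) ≤
    19 / 500 + ∑ j ∈ Finset.range n, 2 / (2 * ((j : ℝ) + 1) + 1) := by
  have h : ∀ n : ℕ, Real.log ((n : ℝ) + 3) + 1 / (24 * ((n : ℝ) + 3) ^ 2) ≤
      19 / 500 + ∑ j ∈ Finset.range (n + 2), 2 / (2 * ((j : ℝ) + 1) + 1) := by
    intro n
    induction n with
    | zero =>
      have h1 := term_le (j := 2) (by norm_num)
      have h2 := Real.log_two_lt_d9
      norm_num [Finset.sum_range_succ] at h1 ⊢
      linarith
    | succ n ih =>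
      rw [Finset.sum_range_succ]
      have hn : (0 : ℝ) ≤ n := by positivity
      have h1 := term_le (j := (n : ℝ) + 3) (by linarith)
      set m : ℝ := (n : ℝ) + 3 with hm
      have hm3 : 3 ≤ m := by linarith
      have hm0 : 0 < m := by linarith
      push_cast
      rw [show (n : ℝ) + 1 + 3 = m + 1 by rw [hm]; ring, show (n : ℝ) + 2 + 1 = m by rw [hm]; ring]
      have h2 : 1 / (6 * m * (m + 1) * (2 * m + 1)) ≤
          1 / (24 * m ^ 2) - 1 / (24 * (m + 1) ^ 2) := by
        rw [div_sub_div _ _ (by positivity) (by positivity), div_le_div_iff₀ (by positivity)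
          (by positivity)]
        have h3 : 0 ≤ m ^ 2 * (m + 1) := by positivity
        have e : (1 * (24 * (m + 1) ^ 2) - 24 * m ^ 2 * 1) * (6 * m * (m + 1) * (2 * m + 1)) -
          1 * (24 * m ^ 2 * (24 * (m + 1) ^ 2)) = 144 * m * (m + 1) := by ring
        have h4 : 0 ≤ 144 * m * (m + 1) := by positivity
        linarith
      linarith
  match n with
  | 0 => norm_num
  | 1 =>
    have h2 := Real.log_two_lt_d9
    norm_num
    linarith
  | n + 2 =>
    have h1 := h n
    have h2 : (0 : ℝ) ≤ 1 / (24 * ((n : ℝ) + 3) ^ 2) := by positivity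
    push_cast
    rw [show (n : ℝ) + 2 + 1 = n + 3 by ring]
    linarith

lemma ratio_succ {x : ℝ} (n : ℕ) :
    (ascPochhammer ℝ (n + 1)).eval (1 - x) / (ascPochhammer ℝ (n + 1)).eval x =
      (ascPochhammer ℝ n).eval (1 - x) / (ascPochhammer ℝ n).eval x * ((1 - x + n) / (x + n)) := by
  rw [ascPochhammer_succ_eval, ascPochhammer_succ_eval, mul_div_mul_comm]

lemma lower {x : ℝ} (hx : 0 < x) (hx2 : x ≤ 1 / 2) (n : ℕ) :
    (1 - x) / x * Real.exp ((1 - 2 * x) * ∑ j ∈ Finset.range n, 2 / (2 * ((j : ℝ) + 1) + 1)) ≤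
    (ascPochhammer ℝ (n + 1)).eval (1 - x) / (ascPochhammer ℝ (n + 1)).eval x := by
  induction n with
  | zero => simp [ascPochhammer_one]
  | succ n ih =>
    rw [ratio_succ (n + 1), Finset.sum_range_succ]
    set H := ∑ j ∈ Finset.range n, 2 / (2 * ((j : ℝ) + 1) + 1)
    have hn : (0 : ℝ) ≤ n := by positivity
    push_cast
    set m : ℝ := (n : ℝ) + 1 with hm
    have hm1 : 1 ≤ m := by linarith
    have hy0 : 0 ≤ 1 - 2 * x := by linarith
    -- the new factor
    have key : Real.exp ((1 - 2 * x) * (2 / (2 * m + 1))) ≤ (1 - x + m) / (x + m) := by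
      have hw0 : 0 ≤ (1 - 2 * x) / (2 * m + 1) := by positivity
      have hw1 : (1 - 2 * x) / (2 * m + 1) < 1 := by
        rw [div_lt_one (by positivity)]; linarith
      have h := exp_le hw0 hw1
      have e : (1 + (1 - 2 * x) / (2 * m + 1)) / (1 - (1 - 2 * x) / (2 * m + 1)) =
          (1 - x + m) / (x + m) := by
        have h2 : (0 : ℝ) < 2 * m + 1 := by positivity
        have e1 : 1 + (1 - 2 * x) / (2 * m + 1) = (1 - x + m) * (2 / (2 * m + 1)) := by
          field_simp; ring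
        have e2 : 1 - (1 - 2 * x) / (2 * m + 1) = (x + m) * (2 / (2 * m + 1)) := by
          field_simp; ring
        rw [e1, e2, mul_div_mul_right _ _ (by positivity)]
      rw [e] at h
      calc Real.exp ((1 - 2 * x) * (2 / (2 * m + 1))) =
            Real.exp (2 * ((1 - 2 * x) / (2 * m + 1))) := by congr 1; ring
        _ ≤ _ := h
    rw [mul_add, Real.exp_add]
    have h0 : 0 ≤ (1 - x) / x := div_nonneg (by linarith) hx.le
    calc (1 - x) / x * (Real.exp ((1 - 2 * x) * H) * Real.exp ((1 - 2 * x) * (2 / (2 * m + 1))))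
        = ((1 - x) / x * Real.exp ((1 - 2 * x) * H)) *
          Real.exp ((1 - 2 * x) * (2 / (2 * m + 1))) := by ring
      _ ≤ _ := mul_le_mul ih key (Real.exp_pos _).le ((by positivity : (0 : ℝ) ≤ _).trans ih)

end Rat2

open Rat2 in
/-- (Ratio2) a lower bound for all `p ≥ 2` -/
theorem ratio2 : StmtRatio2 := by
  intro n p hn hp
  obtain ⟨n, rfl⟩ : ∃ m, n = m + 1 := ⟨n - 1, by omega⟩
  have hp0 : 0 < p := by linarith
  set x : ℝ := 1 / p with hx
  have hx0 : 0 < x := by positivity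
  have hx2 : x ≤ 1 / 2 := one_div_le_one_div_of_le (by norm_num) hp
  have h := lower hx0 hx2 n
  have h1 := sum_ge n
  have hn0 : (0 : ℝ) < n + 1 := by positivity
  unfold ratio
  refine le_trans ?_ h
  have ey : 1 - 2 / p = 1 - 2 * x := by rw [hx]; ring
  have e2 : p - 1 = (1 - x) / x := by
    rw [hx]; field_simp
  rw [ey, e2]
  push_cast
  rw [Real.rpow_def_of_pos hn0]
  have hy0 : 0 ≤ 1 - 2 * x := by linarith
  have h0 : 0 ≤ (1 - x) / x := div_nonneg (by linarith) hx0.le
  calc Real.exp (-(19 / 500 * (1 - 2 * x))) * (Real.exp (Real.log (n + 1) * (1 - 2 * x)) *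
        ((1 - x) / x))
      = (1 - x) / x * Real.exp ((1 - 2 * x) * (Real.log (n + 1) - 19 / 500)) := by
        rw [show (1 - 2 * x) * (Real.log (n + 1) - 19 / 500) =
          -(19 / 500 * (1 - 2 * x)) + Real.log (n + 1) * (1 - 2 * x) by ring, Real.exp_add]
        ring
    _ ≤ _ := by
        apply mul_le_mul_of_nonneg_left _ h0
        apply Real.exp_le_exp.2
        apply mul_le_mul_of_nonneg_left _ hy0
        linarith

end Pool.Agent.Lib.MP_dd244f_an.Joint
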