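import Pool.Agent.Lib.MP_dd244f_an.Joint.Stmts
import Pool.Agent.Lib.MP_dd244f_an.Joint.Basic

/-! Greedy selection of clusters. -/

set_option autoImplicit false

namespace Pool.Agent.Lib.MP_dd244f_an.Joint

open Finset

section Sel

variable {ι : Type} (z : ι → ℂ) (A : ι → ℝ) (κ : ℝ)

open Classical in
/-- mass of the atoms of `T` in a closed disc -/
noncomputable def ms (T : Finset ι) (x : ℂ) (ρ : ℝ) : ℝ :=
  ∑ j ∈ T.filter (fun j => ‖z j - x‖ ≤ ρ), A j

theorem ms_mono {T T' : Finset ι} (hA : ∀ j ∈ T', 0 < A j) (hT : T ⊆ T') (x : ℂ) {ρ ρ' : ℝ}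
    (h : ρ ≤ ρ') : ms z A T x ρ ≤ ms z A T' x ρ' := by
  classical
  unfold ms
  apply Finset.sum_le_sum_of_subset_of_nonneg
  · intro j hj
    rw [Finset.mem_filter] at hj ⊢
    exact ⟨hT hj.1, hj.2.trans h⟩
  · intro j hj _
    exact (hA j (Finset.mem_filter.1 hj).1).le

theorem le_ms {T U : Finset ι} (hA : ∀ j ∈ T, 0 < A j) (hU : U ⊆ T) (x : ℂ) {ρ : ℝ}
    (h : ∀ j ∈ U, ‖z j - x‖ ≤ ρ) : ∑ j ∈ U, A j ≤ ms z A T x ρ := by
  classical
  unfold ms
  apply Finset.sum_le_sum_of_subset_of_nonneg
  · intro j hj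
    rw [Finset.mem_filter]
    exact ⟨hU hj, h j hj⟩
  · intro j hj _
    exact (hA j (Finset.mem_filter.1 hj).1).le

theorem sel_step (T : Finset ι) (hκ : 0 < κ) (hT : T.Nonempty) (hA : ∀ j ∈ T, 0 < A j) :
    ∃ j₀ ∈ T, ∃ R : ℝ, 0 < R ∧ R ^ 2 ≤ κ ^ 2 * ms z A T (z j₀) R ∧
      ∀ c ∈ T, ∀ R' > R, κ ^ 2 * ms z A T (z c) R' < R' ^ 2 := by
  classical
  set P : Finset (ι × ι) := (T ×ˢ T).filter
    (fun p => ‖z p.2 - z p.1‖ ^ 2 ≤ κ ^ 2 * ms z A T (z p.1) ‖z p.2 - z p.1‖) with hP
  have hpos : ∀ c ∈ T, ∀ ρ : ℝ, 0 ≤ ρ → 0 < κ ^ 2 * ms z A T (z c) ρ := by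
    intro c hc ρ hρ
    have h1 : ∑ j ∈ ({c} : Finset ι), A j ≤ ms z A T (z c) ρ := by
      apply le_ms z A hA (Finset.singleton_subset_iff.2 hc)
      intro j hj
      rw [Finset.mem_singleton.1 hj]
      simpa using hρ
    rw [Finset.sum_singleton] at h1
    have h2 := hA c hc
    have : 0 < ms z A T (z c) ρ := lt_of_lt_of_le h2 h1
    positivity
  have hPne : P.Nonempty := by
    obtain ⟨c, hc⟩ := hT
    refine ⟨(c, c), ?_⟩
    rw [hP, Finset.mem_filter]
    refine ⟨Finset.mem_product.2 ⟨hc, hc⟩, ?_⟩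
    have := (hpos c hc 0 le_rfl).le
    simpa using this
  obtain ⟨p, hpP, hmax⟩ := Finset.exists_max_image P
    (fun p => κ ^ 2 * ms z A T (z p.1) ‖z p.2 - z p.1‖) hPne
  rw [hP, Finset.mem_filter, Finset.mem_product] at hpP
  obtain ⟨⟨hp1, hp2⟩, hp3⟩ := hpP
  set Q : ℝ := κ ^ 2 * ms z A T (z p.1) ‖z p.2 - z p.1‖ with hQ
  have hQpos : 0 < Q := hpos p.1 hp1 _ (norm_nonneg _)
  have hR2 : Real.sqrt Q ^ 2 = Q := Real.sq_sqrt hQpos.le
  have hRpos : 0 < Real.sqrt Q := Real.sqrt_pos.2 hQpos
  have hle : ‖z p.2 - z p.1‖ ≤ Real.sqrt Q := Real.le_sqrt_of_sq_le hp3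
  refine ⟨p.1, hp1, Real.sqrt Q, hRpos, ?_, ?_⟩
  · rw [hR2, hQ]
    have := ms_mono z A hA (subset_refl T) (z p.1) hle
    have hk : 0 ≤ κ ^ 2 := by positivity
    exact mul_le_mul_of_nonneg_left this hk
  · intro c hc R' hR'
    by_contra hcon
    push Not at hcon
    have hR'0 : 0 < R' := hRpos.trans hR'
    have hne : (T.filter (fun j => ‖z j - z c‖ ≤ R')).Nonempty :=
      ⟨c, by rw [Finset.mem_filter]; exact ⟨hc, by simpa using hR'0.le⟩⟩
    obtain ⟨j, hj, hjmax⟩ := Finset.exists_max_image _ (fun j => ‖z j - z c‖) hne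
    rw [Finset.mem_filter] at hj
    have heq : ms z A T (z c) R' ≤ ms z A T (z c) ‖z j - z c‖ := by
      conv_lhs => unfold ms
      apply le_ms z A hA (Finset.filter_subset _ _)
      intro i hi
      exact hjmax i hi
    have hk : 0 ≤ κ ^ 2 := by positivity
    have heq2 := mul_le_mul_of_nonneg_left heq hk
    have hmem : (c, j) ∈ P := by
      rw [hP, Finset.mem_filter]
      refine ⟨Finset.mem_product.2 ⟨hc, hj.1⟩, ?_⟩
      have h1 : ‖z j - z c‖ ^ 2 ≤ R' ^ 2 := by
        have := norm_nonneg (z j - z c)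
        nlinarith [hj.2]
      exact (h1.trans hcon).trans heq2
    have h2 := hmax (c, j) hmem
    simp only at h2
    have h3 : R' ^ 2 ≤ Real.sqrt Q ^ 2 := by
      rw [hR2]
      exact (hcon.trans heq2).trans h2
    nlinarith

theorem sel_shell (T : Finset ι) (hκ : 0 < κ) (hA : ∀ j ∈ T, 0 < A j) (m : ℕ) (hm : 1 ≤ m)
    (c : ℂ) (R : ℝ) (hR : 0 < R) (h4 : κ ^ 2 * ms z A T c (2 * R) ≤ 4 * R ^ 2) :
    ∃ s : ℝ, R ≤ s ∧ s ≤ 2 * R ∧ ∀ U : Finset ι, U ⊆ T →
      (∀ j ∈ U, s < ‖z j - c‖ ∧ ‖z j - c‖ ≤ s + R / m) →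
      κ ^ 2 * ∑ j ∈ U, A j ≤ 4 / m * R ^ 2 := by
  classical
  have hm0 : (0 : ℝ) < m := by exact_mod_cast hm
  set r : ℕ → ℝ := fun k => R + k * (R / m) with hr
  have hrstep : ∀ k, r (k + 1) = r k + R / m := by
    intro k; simp only [hr]; push_cast; ring
  have hrmono : Monotone r := by
    apply monotone_nat_of_le_succ
    intro k
    rw [hrstep]
    have : 0 < R / m := by positivity
    linarith
  have hrm : r m = 2 * R := by
    simp only [hr]; field_simp; ring
  have hr0 : r 0 = R := by simp [hr]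
  set Ann : ℕ → Finset ι := fun k =>
    T.filter (fun j => r k < ‖z j - c‖ ∧ ‖z j - c‖ ≤ r (k + 1)) with hAnn
  have hdisj : Set.PairwiseDisjoint (↑(Finset.range m) : Set ℕ) Ann := by
    intro k _ l _ hkl
    have key : ∀ a b : ℕ, a < b → Disjoint (Ann a) (Ann b) := by
      intro a b hab
      rw [Finset.disjoint_left]
      intro j h1 h2
      simp only [hAnn, Finset.mem_filter] at h1 h2
      have := hrmono (Nat.succ_le_of_lt hab)
      have h3 := h1.2.2
      have h4 := h2.2.1
      simp only [Nat.succ_eq_add_one] at this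
      linarith
    rcases lt_or_gt_of_ne hkl with h | h
    · exact key k l h
    · exact (key l k h).symm
  have hsum : ∑ k ∈ Finset.range m, ∑ j ∈ Ann k, A j ≤ ms z A T c (2 * R) := by
    rw [← Finset.sum_biUnion hdisj]
    apply le_ms z A hA
    · intro j hj
      rw [Finset.mem_biUnion] at hj
      obtain ⟨k, _, hk⟩ := hj
      exact (Finset.mem_filter.1 hk).1
    · intro j hj
      rw [Finset.mem_biUnion] at hj
      obtain ⟨k, hk1, hk⟩ := hj
      have h1 := (Finset.mem_filter.1 hk).2.2
      have h2 := hrmono (Nat.succ_le_of_lt (Finset.mem_range.1 hk1))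
      rw [hrm] at h2
      exact h1.trans h2
  have hk : 0 ≤ κ ^ 2 := by positivity
  have hsum2 : ∑ k ∈ Finset.range m, κ ^ 2 * ∑ j ∈ Ann k, A j
      ≤ ∑ _k ∈ Finset.range m, 4 / m * R ^ 2 := by
    rw [← Finset.mul_sum, Finset.sum_const, Finset.card_range, nsmul_eq_mul]
    have : (m : ℝ) * (4 / m * R ^ 2) = 4 * R ^ 2 := by field_simp
    rw [this]
    exact (mul_le_mul_of_nonneg_left hsum hk).trans h4
  obtain ⟨k, hk1, hk2⟩ := Finset.exists_le_of_sum_le
    (Finset.nonempty_range_iff.2 (by omega)) hsum2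
  rw [Finset.mem_range] at hk1
  refine ⟨r k, ?_, ?_, ?_⟩
  · rw [← hr0]; exact hrmono (Nat.zero_le _)
  · rw [← hrm]; exact hrmono hk1.le
  · intro U hU hU2
    refine le_trans (mul_le_mul_of_nonneg_left ?_ hk) hk2
    apply Finset.sum_le_sum_of_subset_of_nonneg
    · intro j hj
      simp only [hAnn, Finset.mem_filter]
      refine ⟨hU hj, (hU2 j hj).1, ?_⟩
      rw [hrstep]
      exact (hU2 j hj).2
    · intro j hj _
      exact (hA j (Finset.mem_filter.1 hj).1).le

theorem sel_ind (hκ : 0 < κ) (m : ℕ) (hm : 1 ≤ m) : ∀ (n : ℕ) (T : Finset ι), T.card = n →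
    (∀ j ∈ T, 0 < A j) → ∃ X : Clusters ι z A κ m T, ∀ Rs : ℝ,
      (∀ c ∈ T, ∀ R' > Rs, κ ^ 2 * ms z A T (z c) R' < R' ^ 2) → ∀ i < X.N, X.R i ≤ Rs := by
  classical
  intro n
  induction n using Nat.strong_induction_on with
  | _ n ih =>
    intro T hcard hA
    rcases T.eq_empty_or_nonempty with hemp | hne
    · refine ⟨{
        N := 0, T := fun _ => ∅, C := fun _ => ∅, c := fun _ => 0, R := fun _ => 0,
        s := fun _ => 0, hT0 := hemp.symm, hTN := rfl, hC := ?_, hT := ?_, hRpos := ?_,
        hRanti := ?_, hs1 := ?_, hs2 := ?_, hA1 := ?_, hA2 := ?_, hD := ?_, hAnn := ?_ }, ?_⟩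
      on_goal 11 => intro Rs _ i hi; exact absurd hi (Nat.not_lt_zero i)
      all_goals intros
      all_goals omega
    · obtain ⟨j₀, hj₀, R, hRpos, hR1, hR2⟩ := sel_step z A κ T hκ hne hA
      have hk : 0 < κ ^ 2 := by positivity
      have h4 : κ ^ 2 * ms z A T (z j₀) (2 * R) ≤ 4 * R ^ 2 := by
        have := hR2 j₀ hj₀ (2 * R) (by linarith)
        nlinarith
      obtain ⟨s, hs1, hs2, hs3⟩ := sel_shell z A κ T hκ hA m hm (z j₀) R hRpos h4
      set T1 : Finset ι := T.filter (fun j => s < ‖z j - z j₀‖) with hT1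
      have hsub : T1 ⊆ T := Finset.filter_subset _ _
      have hlt : T1.card < n := by
        rw [← hcard]
        apply Finset.card_lt_card
        rw [Finset.ssubset_iff_of_subset hsub]
        refine ⟨j₀, hj₀, ?_⟩
        rw [hT1, Finset.mem_filter]
        rintro ⟨_, h⟩
        simp only [sub_self, norm_zero] at h
        linarith
      obtain ⟨X, hX⟩ := ih T1.card hlt T1 rfl (fun j hj => hA j (hsub hj))
      have hmsT1 : ∀ (x : ℂ) (ρ : ℝ), κ ^ 2 * ms z A T1 x ρ ≤ κ ^ 2 * ms z A T x ρ :=
        fun x ρ => mul_le_mul_of_nonneg_left (ms_mono z A hA hsub x le_rfl) hk.le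
      refine ⟨{ N := X.N + 1,
                T := fun i => (match i with | 0 => T | (i + 1) => X.T i),
                C := fun i => (match i with
                  | 0 => T.filter (fun j => ‖z j - z j₀‖ ≤ s) | (i + 1) => X.C i),
                c := fun i => (match i with | 0 => z j₀ | (i + 1) => X.c i),
                R := fun i => (match i with | 0 => R | (i + 1) => X.R i),
                s := fun i => (match i with | 0 => s | (i + 1) => X.s i),
                hT0 := rfl,
                hTN := X.hTN,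
                hC := ?_, hT := ?_, hRpos := ?_,
                hRanti := ?_, hs1 := ?_, hs2 := ?_, hA1 := ?_, hA2 := ?_, hD := ?_,
                hAnn := ?_ }, ?_⟩
      · -- hC
        intro i hi j
        match i, hi with
        | 0, _ => simp only [Finset.mem_filter]
        | (i + 1), hi => exact X.hC i (by omega) j
      · -- hT
        intro i hi j
        match i, hi with
        | 0, _ =>
          have h1 : j ∈ X.T 0 ↔ j ∈ T1 := by rw [X.hT0]
          have h2 : j ∈ T1 ↔ j ∈ T ∧ s < ‖z j - z j₀‖ := by rw [hT1, Finset.mem_filter]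
          exact h1.trans h2
        | (i + 1), hi => exact X.hT i (by omega) j
      · intro i hi
        match i, hi with
        | 0, _ => exact hRpos
        | (i + 1), hi => exact X.hRpos i (by omega)
      · -- hRanti
        intro i k hik hk'
        match i, k, hik, hk' with
        | 0, 0, _, _ => exact le_rfl
        | 0, (k + 1), _, hk' =>
          refine hX R ?_ k (by omega)
          intro c hc R' hR'
          exact lt_of_le_of_lt (hmsT1 _ _) (hR2 c (hsub hc) R' hR')
        | (i + 1), (k + 1), hik, hk' => exact X.hRanti i k (by omega) (by omega)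
      · intro i hi
        match i, hi with
        | 0, _ => exact hs1
        | (i + 1), hi => exact X.hs1 i (by omega)
      · intro i hi
        match i, hi with
        | 0, _ => exact hs2
        | (i + 1), hi => exact X.hs2 i (by omega)
      · -- hA1
        intro i hi
        match i, hi with
        | 0, _ =>
          refine hR1.trans (mul_le_mul_of_nonneg_left ?_ hk.le)
          exact ms_mono z A hA (subset_refl T) (z j₀) hs1
        | (i + 1), hi => exact X.hA1 i (by omega)
      · -- hA2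
        intro i hi
        match i, hi with
        | 0, _ =>
          refine le_trans (mul_le_mul_of_nonneg_left ?_ hk.le) h4
          exact ms_mono z A hA (subset_refl T) (z j₀) hs2
        | (i + 1), hi => exact X.hA2 i (by omega)
      · -- hD
        intro i hi x ρ hρ U hU hU2
        match i, hi, hρ, hU with
        | 0, _, hρ, hU =>
          rcases U.eq_empty_or_nonempty with he | ⟨u, hu⟩
          · rw [he]; simp; positivity
          · have hρ' : R ≤ ρ := hρ
            have h1 : ∑ j ∈ U, A j ≤ ms z A T (z u) (2 * ρ) := by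
              apply le_ms z A hA hU
              intro j hj
              have e : z j - z u = (z j - x) - (z u - x) := by ring
              rw [e]
              have := norm_sub_le (z j - x) (z u - x)
              have h2 := hU2 j hj
              have h3 := hU2 u hu
              linarith
            have h2 := hR2 u (hU hu) (2 * ρ) (by linarith)
            have h3 := mul_le_mul_of_nonneg_left h1 hk.le
            nlinarith
        | (i + 1), hi, hρ, hU => exact X.hD i (by omega) x ρ hρ U hU hU2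
      · -- hAnn
        intro i hi U hU hU2
        match i, hi, hU, hU2 with
        | 0, _, hU, hU2 => exact hs3 U hU hU2
        | (i + 1), hi, hU, hU2 => exact X.hAnn i (by omega) U hU hU2
      · intro Rs hRs i hi
        have hi' : i < X.N + 1 := hi
        match i, hi' with
        | 0, _ =>
          change R ≤ Rs
          by_contra hcon
          push Not at hcon
          have := hRs j₀ hj₀ R hcon
          linarith
        | (i + 1), hi' =>
          refine hX Rs ?_ i (by omega)
          intro c hc R' hR'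
          exact lt_of_le_of_lt (hmsT1 _ _) (hRs c (hsub hc) R' hR')

end Sel

theorem sel : StmtSel := by
  intro ι z A κ m S hκ hm hA
  obtain ⟨X, _⟩ := sel_ind z A κ hκ m hm S.card S rfl hA
  exact ⟨X⟩

end Pool.Agent.Lib.MP_dd244f_an.Joint
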