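import Pool.Agent.Lib.MP_dd244f_an.Joint.Stmts
import Pool.Agent.Lib.MP_dd244f_an.Joint.Basic
import Pool.Agent.Lib.MP_dd244f_an.L2

/-!
Splitting `f` for one `lam` (`StmtSplit`).
-/

set_option autoImplicit false

namespace Pool.Agent.Lib.MP_dd244f_an.Joint

open MeasureTheory Filter Topology Set SchwartzMap
open scoped SchwartzMap ENNReal

namespace SplitAux

/-- `f |f|² / (|f|² + s²)` -/
noncomputable def f₁ (f : ℂ → ℂ) (s : ℝ) (z : ℂ) : ℂ :=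
  f z * ((‖f z‖ ^ 2 / (‖f z‖ ^ 2 + s ^ 2) : ℝ) : ℂ)

theorem f₁_contDiff (f : 𝓢(ℂ, ℂ)) {s : ℝ} (hs : 0 < s) : ContDiff ℝ (⊤ : ℕ∞) (f₁ f s) := by
  unfold f₁
  have h1 : ContDiff ℝ (⊤ : ℕ∞) (fun z => f z) := f.smooth ⊤
  have h2 : ContDiff ℝ (⊤ : ℕ∞) (fun z => ‖f z‖ ^ 2) := h1.norm_sq ℝ
  have h3 : ContDiff ℝ (⊤ : ℕ∞) (fun z => ‖f z‖ ^ 2 / (‖f z‖ ^ 2 + s ^ 2)) :=
    h2.div (h2.add contDiff_const) (fun z => by positivity)
  exact h1.mul (Complex.ofRealCLM.contDiff.comp h3)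

theorem f₁_supp (f : 𝓢(ℂ, ℂ)) (hf : HasCompactSupport f) (s : ℝ) :
    HasCompactSupport (f₁ f s) := by
  refine hf.mono fun z hz => ?_
  rw [Function.mem_support] at hz ⊢
  intro h
  apply hz
  unfold f₁
  rw [h, zero_mul]

open FourierTransform in
theorem Tn_cont (n : ℕ) (f : 𝓢(ℂ, ℂ)) : Continuous (Tn n f) := by
  have e : Tn n f = 𝓕⁻ (fun ξ : ℂ => (starRingEnd ℂ ξ / ξ) ^ n * 𝓕 (f : ℂ → ℂ) ξ) := by
    ext z; exact Tn_eq n f z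
  rw [e]
  set g := (fun ξ : ℂ => (starRingEnd ℂ ξ / ξ) ^ n * 𝓕 (f : ℂ → ℂ) ξ)
  have : 𝓕⁻ g = fun w => 𝓕 g (-w) := by
    ext w; rw [Real.fourierInv_eq_fourier_neg]
  rw [this]
  have hc : Continuous (𝓕 g) :=
    VectorFourier.fourierIntegral_continuous Real.continuous_fourierChar
      (by exact continuous_inner) (mult_integrable n f)
  exact hc.comp continuous_neg

end SplitAux

open SplitAux in
theorem split : StmtSplit := by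
  intro n ε hε hK f lam s σ hf hlam hs hσ
  set F₁ : 𝓢(ℂ, ℂ) := (f₁_supp f hf s).toSchwartzMap (f₁_contDiff f hs) with hF₁
  have hF₁v : ∀ z, F₁ z = f z * ((‖f z‖ ^ 2 / (‖f z‖ ^ 2 + s ^ 2) : ℝ) : ℂ) := fun z => rfl
  have hF₁s : HasCompactSupport F₁ := f₁_supp f hf s
  set F₂ : 𝓢(ℂ, ℂ) := f - F₁ with hF₂
  have hF₂v : ∀ z, F₂ z = f z * ((s ^ 2 / (‖f z‖ ^ 2 + s ^ 2) : ℝ) : ℂ) := by
    intro z
    rw [hF₂, sub_apply, hF₁v]
    have h1 : (s ^ 2 / (‖f z‖ ^ 2 + s ^ 2) : ℝ) = 1 - ‖f z‖ ^ 2 / (‖f z‖ ^ 2 + s ^ 2) := by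
      field_simp
      ring
    rw [h1]
    push_cast
    ring
  have hT : ∀ w, Tn n f w = Tn n F₁ w + Tn n F₂ w := by
    intro w
    rw [hF₂, ← Tn_sub]
    ring
  have hσ2 : 0 < σ ^ 2 - 1 := by nlinarith
  -- the pointwise inequality
  have hpt : ∀ w, psi (‖Tn n f w‖ ^ 2 / lam ^ 2) ≤
      psi (‖Tn n F₁ w‖ ^ 2 / (lam / σ) ^ 2) + σ ^ 2 / (σ ^ 2 - 1) / lam ^ 2 * ‖Tn n F₂ w‖ ^ 2 := by
    intro w
    set x := ‖Tn n F₁ w‖
    set y := ‖Tn n F₂ w‖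
    have hx : 0 ≤ x := norm_nonneg _
    have hy : 0 ≤ y := norm_nonneg _
    have h1 : ‖Tn n f w‖ ^ 2 ≤ σ ^ 2 * x ^ 2 + σ ^ 2 / (σ ^ 2 - 1) * y ^ 2 := by
      have h2 : ‖Tn n f w‖ ≤ x + y := by rw [hT]; exact norm_add_le _ _
      have h3 : ‖Tn n f w‖ ^ 2 ≤ (x + y) ^ 2 := pow_le_pow_left₀ (norm_nonneg _) h2 2
      have h4 : σ ^ 2 / (σ ^ 2 - 1) * y ^ 2 = y ^ 2 + y ^ 2 / (σ ^ 2 - 1) := by
        field_simp
        ring
      have h5 : 2 * x * y ≤ (σ ^ 2 - 1) * x ^ 2 + y ^ 2 / (σ ^ 2 - 1) := by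
        have h6 : 0 ≤ ((σ ^ 2 - 1) * x - y) ^ 2 / (σ ^ 2 - 1) := by positivity
        have h7 : ((σ ^ 2 - 1) * x - y) ^ 2 / (σ ^ 2 - 1) =
            (σ ^ 2 - 1) * x ^ 2 + y ^ 2 / (σ ^ 2 - 1) - 2 * x * y := by
          field_simp
          ring
        linarith
      nlinarith
    have h8 : ‖Tn n f w‖ ^ 2 / lam ^ 2 ≤
        x ^ 2 / (lam / σ) ^ 2 + σ ^ 2 / (σ ^ 2 - 1) / lam ^ 2 * y ^ 2 := by
      have h9 : x ^ 2 / (lam / σ) ^ 2 + σ ^ 2 / (σ ^ 2 - 1) / lam ^ 2 * y ^ 2 =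
          (σ ^ 2 * x ^ 2 + σ ^ 2 / (σ ^ 2 - 1) * y ^ 2) / lam ^ 2 := by
        have : σ ≠ 0 := by linarith
        field_simp
      rw [h9]
      gcongr
    refine (psi_mono (by positivity) h8).trans ?_
    exact psi_add_le (by positivity) (by positivity)
  have h1 : ∫⁻ w, ENNReal.ofReal (psi (‖Tn n f w‖ ^ 2 / lam ^ 2)) ≤
      ∫⁻ w, (ENNReal.ofReal (psi (‖Tn n F₁ w‖ ^ 2 / (lam / σ) ^ 2)) +
        ENNReal.ofReal (σ ^ 2 / (σ ^ 2 - 1) / lam ^ 2) * ‖Tn n F₂ w‖ₑ ^ 2) := by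
    apply lintegral_mono
    intro w
    refine (ENNReal.ofReal_le_ofReal (hpt w)).trans ?_
    rw [ENNReal.ofReal_add (psi_nonneg (by positivity)) (by positivity),
      ENNReal.ofReal_mul (by positivity), ENNReal.ofReal_pow (norm_nonneg _), ofReal_norm]
  have hm : Measurable (fun w => Tn n F₂ w) := by
    exact (Tn_cont n F₂).measurable
  have h2 : ∫⁻ w, (ENNReal.ofReal (psi (‖Tn n F₁ w‖ ^ 2 / (lam / σ) ^ 2)) +
        ENNReal.ofReal (σ ^ 2 / (σ ^ 2 - 1) / lam ^ 2) * ‖Tn n F₂ w‖ₑ ^ 2) =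
      (∫⁻ w, ENNReal.ofReal (psi (‖Tn n F₁ w‖ ^ 2 / (lam / σ) ^ 2))) +
        ENNReal.ofReal (σ ^ 2 / (σ ^ 2 - 1) / lam ^ 2) * ∫⁻ w, ‖Tn n F₂ w‖ₑ ^ 2 := by
    have hm2 : Measurable (fun w => ‖Tn n F₂ w‖ₑ ^ 2) := hm.enorm.pow_const 2
    rw [lintegral_add_right _ (hm2.const_mul _), lintegral_const_mul _ hm2]
  have h3 : ∫⁻ w, ENNReal.ofReal (psi (‖Tn n F₁ w‖ ^ 2 / (lam / σ) ^ 2)) ≤
      ENNReal.ofReal ((1 + ε) * σ * (Real.pi * n / (2 * lam)) *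
        ∫ z, ‖f z‖ ^ 3 / (‖f z‖ ^ 2 + s ^ 2)) := by
    refine (hK F₁ (lam / σ) hF₁s (by positivity)).trans (le_of_eq ?_)
    congr 1
    have e1 : ∫ z, ‖F₁ z‖ = ∫ z, ‖f z‖ ^ 3 / (‖f z‖ ^ 2 + s ^ 2) := by
      congr 1
      funext z
      rw [hF₁v, norm_mul, Complex.norm_real, Real.norm_of_nonneg (by positivity)]
      ring
    rw [e1]
    have : σ ≠ 0 := by linarith
    field_simp
  have h4 : ∫⁻ w, ‖Tn n F₂ w‖ₑ ^ 2 ≤
      ENNReal.ofReal (∫ z, ‖f z‖ ^ 2 * s ^ 4 / (‖f z‖ ^ 2 + s ^ 2) ^ 2) := by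
    have e0 : ∀ g : ℂ → ℂ, ∫⁻ w, ‖g w‖ₑ ^ 2 = eLpNorm g 2 volume ^ 2 := by
      intro g
      rw [eLpNorm_eq_lintegral_rpow_enorm_toReal (by norm_num) (by norm_num)]
      simp only [ENNReal.toReal_ofNat, one_div]
      rw [← ENNReal.rpow_natCast, ← ENNReal.rpow_mul]
      norm_num
    rw [e0]
    have h5 := pow_le_pow_left' (Tn_L2 n F₂) 2
    refine h5.trans ?_
    rw [← e0]
    have h6 : Integrable (fun z => ‖F₂ z‖ ^ 2) := by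
      have := (F₂.memLp 2 (volume : Measure ℂ)).integrable_norm_pow (by norm_num)
      simpa using this
    have h7 : ∫⁻ w, ‖F₂ w‖ₑ ^ 2 = ENNReal.ofReal (∫ z, ‖F₂ z‖ ^ 2) := by
      rw [ofReal_integral_eq_lintegral_ofReal h6 (Eventually.of_forall fun z => by positivity)]
      congr 1
      funext z
      rw [ENNReal.ofReal_pow (norm_nonneg _), ofReal_norm]
    rw [h7]
    apply le_of_eq
    congr 1
    congr 1
    funext z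
    rw [hF₂v, norm_mul, Complex.norm_real, Real.norm_of_nonneg (by positivity), mul_pow, div_pow,
      ← mul_div_assoc, ← pow_mul]
  refine h1.trans ?_
  rw [h2, ENNReal.ofReal_add]
  · refine add_le_add h3 ?_
    rw [ENNReal.ofReal_mul (by positivity)]
    gcongr
  · have := hK
    have h8 : 0 ≤ ∫ z, ‖f z‖ ^ 3 / (‖f z‖ ^ 2 + s ^ 2) := integral_nonneg fun z => by positivity
    positivity
  · have h8 : 0 ≤ ∫ z, ‖f z‖ ^ 2 * s ^ 4 / (‖f z‖ ^ 2 + s ^ 2) ^ 2 :=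
      integral_nonneg fun z => by positivity
    positivity

end Pool.Agent.Lib.MP_dd244f_an.Joint
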