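import Pool.Agent.Lib.MP_dd244f_an.Joint.Stmts
import Pool.Agent.Lib.MP_dd244f_an.Joint.Basic

/-!
Full operator, joint limit: integration by parts with the explicit primitive `Vf`.
-/

set_option autoImplicit false

namespace Pool.Agent.Lib.MP_dd244f_an.Joint

namespace VForm

open MeasureTheory Filter Topology Set

theorem norm_Vf_le (n : ℕ) (z z' w : ℂ) :
    ‖Vf n z z' w‖ ≤ 1 / (n * ‖z - z'‖) * (1 / (‖w - z‖ * ‖w - z'‖)) := by
  unfold Vf
  rw [norm_div, norm_div, norm_pow, norm_div, norm_mul, norm_mul, norm_mul, norm_mul,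
    RCLike.norm_conj, RCLike.norm_conj, Complex.norm_natCast, norm_sub_rev z' z]
  have h1 : ‖w - z'‖ * ‖w - z‖ / (‖w - z‖ * ‖w - z'‖) ≤ 1 := by
    rw [mul_comm ‖w - z'‖]
    exact div_self_le_one _
  have h2 : (‖w - z'‖ * ‖w - z‖ / (‖w - z‖ * ‖w - z'‖)) ^ n ≤ 1 :=
    pow_le_one₀ (by positivity) h1
  calc (‖w - z'‖ * ‖w - z‖ / (‖w - z‖ * ‖w - z'‖)) ^ n / (‖w - z‖ * ‖w - z'‖) / (n * ‖z - z'‖)
      ≤ 1 / (‖w - z‖ * ‖w - z'‖) / (n * ‖z - z'‖) := by gcongr
    _ = _ := by rw [one_div_mul_one_div, div_div, mul_comm]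

/-- holomorphic factor of `Vf` -/
noncomputable def H (n : ℕ) (z z' w : ℂ) : ℂ := ((w - z') / (w - z)) ^ n / (n * (z' - z))

/-- antiholomorphic factor of `Vf` (conjugated) -/
noncomputable def Kf (n : ℕ) (z z' w : ℂ) : ℂ := ((w - z) / (w - z')) ^ n / ((w - z) * (w - z'))

theorem Vf_eq (n : ℕ) (z z' w : ℂ) : Vf n z z' w = H n z z' w * starRingEnd ℂ (Kf n z z' w) := by
  unfold Vf H Kf
  rw [map_div₀, map_pow, map_div₀, map_mul, mul_div_mul_comm, mul_pow]
  ring

theorem hasDerivAt_H {n : ℕ} (hn : 1 ≤ n) {z z' w : ℂ} (hzz : z ≠ z') (hz : w ≠ z) :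
    HasDerivAt (H n z z') (((w - z') / (w - z)) ^ (n - 1) / (w - z) ^ 2) w := by
  have h0 : w - z ≠ 0 := sub_ne_zero.2 hz
  have h1 : HasDerivAt (fun w : ℂ => (w - z') / (w - z))
      ((1 * (w - z) - (w - z') * 1) / (w - z) ^ 2) w :=
    ((hasDerivAt_id w).sub_const z').div ((hasDerivAt_id w).sub_const z) h0
  have h2 := (h1.pow n).div_const ((n : ℂ) * (z' - z))
  unfold H
  refine h2.congr_deriv ?_
  have h3 : z' - z ≠ 0 := sub_ne_zero.2 hzz.symm
  have h4 : (n : ℂ) ≠ 0 := by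
    have : n ≠ 0 := by omega
    exact_mod_cast this
  have h5 : (1 * (w - z) - (w - z') * 1) = z' - z := by ring
  rw [h5]
  field_simp

theorem differentiableAt_Kf {n : ℕ} {z z' w : ℂ} (hz : w ≠ z) (hz' : w ≠ z') :
    DifferentiableAt ℂ (Kf n z z') w := by
  have h0 : w - z ≠ 0 := sub_ne_zero.2 hz
  have h1 : w - z' ≠ 0 := sub_ne_zero.2 hz'
  unfold Kf
  have h2 : DifferentiableAt ℂ (fun w : ℂ => (w - z) / (w - z')) w :=
    (differentiableAt_id.sub_const z).div (differentiableAt_id.sub_const z') h1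
  exact (h2.pow n).div ((differentiableAt_id.sub_const z).mul (differentiableAt_id.sub_const z'))
    (mul_ne_zero h0 h1)

theorem H'_mul {n : ℕ} (hn : 1 ≤ n) {z z' w : ℂ} (hz : w ≠ z) (hz' : w ≠ z') :
    ((w - z') / (w - z)) ^ (n - 1) / (w - z) ^ 2 * starRingEnd ℂ (Kf n z z' w) =
      kk n (w - z) * starRingEnd ℂ (kk n (w - z')) := by
  have h0 : w - z ≠ 0 := sub_ne_zero.2 hz
  have h1 : w - z' ≠ 0 := sub_ne_zero.2 hz'
  have c0 : starRingEnd ℂ (w - z) ≠ 0 := (map_ne_zero _).2 h0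
  have c1 : starRingEnd ℂ (w - z') ≠ 0 := (map_ne_zero _).2 h1
  obtain ⟨m, rfl⟩ : ∃ m, n = m + 1 := ⟨n - 1, by omega⟩
  unfold Kf kk
  rw [map_div₀, map_pow, map_div₀, map_mul, map_div₀, map_pow, map_div₀, Complex.conj_conj,
    Complex.conj_ofReal, Nat.add_sub_cancel, ← Complex.mul_conj (w - z), ← Complex.mul_conj (w - z')]
  generalize starRingEnd ℂ (w - z) = a at *
  generalize starRingEnd ℂ (w - z') = b at *
  generalize w - z = x at *
  generalize w - z' = y at *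
  simp only [div_pow, pow_succ]
  field_simp

/-- pieces of the real derivative of `F = Vf * W` -/
theorem hasFDerivAt_F {n : ℕ} (hn : 1 ≤ n) {z z' w : ℂ} (hzz : z ≠ z') (hz : w ≠ z) (hz' : w ≠ z')
    {W : ℂ → ℝ} (hW : DifferentiableAt ℝ W w) :
    ∃ L : ℂ →L[ℝ] ℂ, HasFDerivAt (fun w => Vf n z z' w * (W w : ℂ)) L w ∧
      (L 1 - Complex.I * L Complex.I) / 2 =
        kk n (w - z) * starRingEnd ℂ (kk n (w - z')) * (W w : ℂ) + Vf n z z' w * dW W w := by
  have hH := (hasDerivAt_H hn hzz hz).hasFDerivAt.restrictScalars ℝ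
  have hK := (differentiableAt_Kf (n := n) hz hz').hasDerivAt.hasFDerivAt.restrictScalars ℝ
  have hKc : HasFDerivAt (fun w => starRingEnd ℂ (Kf n z z' w)) _ w :=
    (Complex.conjCLE.toContinuousLinearMap.hasFDerivAt (x := Kf n z z' w)).comp w hK
  have hWc : HasFDerivAt (fun w => (W w : ℂ)) _ w :=
    (Complex.ofRealCLM.hasFDerivAt (x := W w)).comp w hW.hasFDerivAt
  have hV := (hH.mul hKc).mul hWc
  refine ⟨_, hV.congr_of_eventuallyEq ?_, ?_⟩
  · filter_upwards with y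
    rw [Vf_eq]
    rfl
  · rw [← H'_mul hn hz hz', Vf_eq]
    unfold dW
    simp
    ring_nf
    simp
    ring

theorem cdiv {f g : ℂ → ℂ} {w : ℂ} (hf : ContDiffAt ℝ 1 f w) (hg : ContDiffAt ℝ 1 g w)
    (h : g w ≠ 0) : ContDiffAt ℝ 1 (fun w => f w / g w) w := by
  simp only [div_eq_mul_inv]
  exact hf.mul (hg.inv h)

theorem contDiff_F {n : ℕ} {z z' : ℂ} {W : ℂ → ℝ}
    (hW : ContDiff ℝ 1 W) (h0 : ∀ᶠ w in 𝓝 z, W w = 0) (h1 : ∀ᶠ w in 𝓝 z', W w = 0) :
    ContDiff ℝ 1 (fun w => Vf n z z' w * (W w : ℂ)) := by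
  rw [contDiff_iff_contDiffAt]
  intro w
  by_cases hz : w = z
  · have : (fun w => Vf n z z' w * (W w : ℂ)) =ᶠ[𝓝 w] fun _ => 0 := by
      rw [hz]
      filter_upwards [h0] with y hy
      rw [hy]; simp
    exact contDiffAt_const.congr_of_eventuallyEq this
  by_cases hz' : w = z'
  · have : (fun w => Vf n z z' w * (W w : ℂ)) =ᶠ[𝓝 w] fun _ => 0 := by
      rw [hz']
      filter_upwards [h1] with y hy
      rw [hy]; simp
    exact contDiffAt_const.congr_of_eventuallyEq this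
  have h2 : w - z ≠ 0 := sub_ne_zero.2 hz
  have h3 : w - z' ≠ 0 := sub_ne_zero.2 hz'
  have c2 : starRingEnd ℂ (w - z) ≠ 0 := (map_ne_zero _).2 h2
  have c3 : starRingEnd ℂ (w - z') ≠ 0 := (map_ne_zero _).2 h3
  have c : ∀ a : ℂ, ContDiffAt ℝ 1 (fun w : ℂ => starRingEnd ℂ (w - a)) w := fun a =>
    (Complex.conjCLE.contDiff.comp (contDiff_id.sub contDiff_const)).contDiffAt
  have d : ∀ a : ℂ, ContDiffAt ℝ 1 (fun w : ℂ => w - a) w := fun a =>
    (contDiff_id.sub contDiff_const).contDiffAt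
  have e1 : ContDiffAt ℝ 1 (Vf n z z') w :=
    (cdiv ((cdiv ((d z').mul (c z)) ((d z).mul (c z')) (mul_ne_zero h2 c3)).pow n)
      ((c z).mul (c z')) (mul_ne_zero c2 c3)).div_const _
  exact e1.mul (Complex.ofRealCLM.contDiff.comp hW).contDiffAt

/-- Wirtinger derivative -/
noncomputable def D (F : ℂ → ℂ) (w : ℂ) : ℂ :=
  (fderiv ℝ F w 1 - Complex.I * fderiv ℝ F w Complex.I) / 2

theorem D_F {n : ℕ} (hn : 1 ≤ n) {z z' : ℂ} (hzz : z ≠ z') {W : ℂ → ℝ} (hW : ContDiff ℝ 1 W)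
    (h0 : ∀ᶠ w in 𝓝 z, W w = 0) (h1 : ∀ᶠ w in 𝓝 z', W w = 0) (w : ℂ) :
    D (fun w => Vf n z z' w * (W w : ℂ)) w =
      kk n (w - z) * starRingEnd ℂ (kk n (w - z')) * (W w : ℂ) + Vf n z z' w * dW W w := by
  have hz0 : ∀ a : ℂ, (∀ᶠ w in 𝓝 a, W w = 0) →
      D (fun w => Vf n z z' w * (W w : ℂ)) a =
      kk n (a - z) * starRingEnd ℂ (kk n (a - z')) * (W a : ℂ) + Vf n z z' a * dW W a := by
    intro a ha
    have e1 : (fun w => Vf n z z' w * (W w : ℂ)) =ᶠ[𝓝 a] fun _ => 0 := by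
      filter_upwards [ha] with y hy
      rw [hy]; simp
    have e2 : W =ᶠ[𝓝 a] fun _ => 0 := ha
    unfold D dW
    rw [e1.fderiv_eq, e2.fderiv_eq, ha.self_of_nhds]
    simp
  by_cases hz : w = z
  · rw [hz]; exact hz0 z h0
  by_cases hz' : w = z'
  · rw [hz']; exact hz0 z' h1
  obtain ⟨L, hL, hL'⟩ := hasFDerivAt_F hn hzz hz hz' (hW.differentiable one_ne_zero w)
  rw [← hL', D, hL.fderiv]

theorem integrable_of_decay {F : ℂ → ℂ} (hF : Continuous F) {C R : ℝ}
    (hC : ∀ w, R ≤ ‖w‖ → ‖F w‖ ≤ C * (1 + ‖w‖) ^ (-3 : ℝ)) : Integrable F := by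
  have h1 : Continuous fun w : ℂ => ‖F w‖ * (1 + ‖w‖) ^ (3 : ℕ) := by fun_prop
  obtain ⟨B, hB⟩ := (isCompact_closedBall (0:ℂ) R).exists_bound_of_continuousOn h1.continuousOn
  have h2 : Integrable (fun w : ℂ => max B C * (1 + ‖w‖) ^ (-3 : ℝ)) :=
    (integrable_one_add_norm (by rw [Complex.finrank_real_complex]; norm_num)).const_mul _
  refine h2.mono' hF.aestronglyMeasurable (Eventually.of_forall fun w => ?_)
  have h3 : (0:ℝ) < 1 + ‖w‖ := by positivity
  rcases le_or_gt R ‖w‖ with h | h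
  · exact (hC w h).trans (by gcongr; exact le_max_right _ _)
  · have := hB w (by simpa using h.le)
    rw [Real.norm_of_nonneg (by positivity)] at this
    rw [Real.rpow_neg h3.le, ← div_eq_mul_inv, le_div_iff₀ (by positivity)]
    have e : (1 + ‖w‖) ^ (3:ℝ) = (1 + ‖w‖)^3 := by exact_mod_cast Real.rpow_natCast _ 3
    rw [e]; exact this.trans (le_max_left _ _)

/-- the fixed bump function, complex valued -/
noncomputable def bump : ContDiffBump (0 : ℂ) := ⟨1, 2, one_pos, one_lt_two⟩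

noncomputable def bc (w : ℂ) : ℂ := ((bump w : ℝ) : ℂ)

theorem bc_contDiff : ContDiff ℝ 1 bc := Complex.ofRealCLM.contDiff.comp bump.contDiff

theorem bc_supp : HasCompactSupport bc :=
  bump.hasCompactSupport.comp_left (g := fun x : ℝ => (x : ℂ)) (by simp)

theorem bc_one {w : ℂ} (h : ‖w‖ < 1) : bc =ᶠ[𝓝 w] fun _ => 1 := by
  have := bump.eventuallyEq_one_of_mem_ball (x := w) (by simpa [bump] using h)
  filter_upwards [this] with y hy
  unfold bc
  rw [hy]; simp

theorem bc_norm (w : ℂ) : ‖bc w‖ ≤ 1 := by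
  unfold bc
  rw [Complex.norm_real, Real.norm_of_nonneg bump.nonneg]
  exact bump.le_one

theorem fderiv_bc_lt {w : ℂ} (h : ‖w‖ < 1) : fderiv ℝ bc w = 0 := by
  rw [(bc_one h).fderiv_eq]; simp

theorem fderiv_bc_gt {w : ℂ} (h : 2 < ‖w‖) : fderiv ℝ bc w = 0 := by
  have : bc =ᶠ[𝓝 w] fun _ => 0 := by
    filter_upwards [(isOpen_lt continuous_const continuous_norm).mem_nhds h] with y hy
    unfold bc
    rw [bump.zero_of_le_dist]
    · simp
    · simpa [bump] using le_of_lt hy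
  rw [this.fderiv_eq]; simp

theorem exists_bound_bc : ∃ M : ℝ, 0 ≤ M ∧ ∀ w, ‖fderiv ℝ bc w‖ ≤ M := by
  have hc : Continuous (fderiv ℝ bc) := bc_contDiff.continuous_fderiv one_ne_zero
  obtain ⟨M, hM⟩ := (isCompact_closedBall (0:ℂ) 2).exists_bound_of_continuousOn hc.continuousOn
  refine ⟨max M 0, le_max_right _ _, fun w => ?_⟩
  rcases lt_or_ge 2 ‖w‖ with h | h
  · rw [fderiv_bc_gt h]; simp
  · exact (hM w (by simpa using h)).trans (le_max_left _ _)

theorem norm_wirt_le (L : ℂ →L[ℝ] ℂ) : ‖(L 1 - Complex.I * L Complex.I) / 2‖ ≤ ‖L‖ := by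
  have h1 : ‖L 1‖ ≤ ‖L‖ := by simpa using L.le_opNorm 1
  have h2 : ‖L Complex.I‖ ≤ ‖L‖ := by simpa using L.le_opNorm Complex.I
  rw [norm_div]
  have h3 := norm_sub_le (L 1) (Complex.I * L Complex.I)
  rw [norm_mul, Complex.norm_I, one_mul] at h3
  have h4 : ‖(2:ℂ)‖ = 2 := by simp
  rw [h4]
  linarith

/-- the bump of scale `k + 1` -/
noncomputable def u (k : ℕ) (w : ℂ) : ℂ := bc (((k : ℝ) + 1)⁻¹ • w)

theorem u_contDiff (k : ℕ) : ContDiff ℝ 1 (u k) := bc_contDiff.comp (contDiff_const_smul _)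

theorem u_supp (k : ℕ) : HasCompactSupport (u k) := bc_supp.comp_smul (by positivity)

theorem fderiv_u (k : ℕ) (w : ℂ) :
    fderiv ℝ (u k) w = ((k : ℝ) + 1)⁻¹ • fderiv ℝ bc (((k : ℝ) + 1)⁻¹ • w) := by
  unfold u
  exact fderiv_comp_smul _

theorem D_u_eq_zero {k : ℕ} {w : ℂ} (h : ‖w‖ < k + 1) : D (u k) w = 0 := by
  unfold D
  rw [fderiv_u, fderiv_bc_lt]
  · simp
  · rw [norm_smul, norm_inv, Real.norm_of_nonneg (by positivity), inv_mul_lt_iff₀ (by positivity)]
    linarith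

theorem D_u_eq_zero' {k : ℕ} {w : ℂ} (h : 2 * ((k : ℝ) + 1) < ‖w‖) : D (u k) w = 0 := by
  unfold D
  rw [fderiv_u, fderiv_bc_gt]
  · simp
  · rw [norm_smul, norm_inv, Real.norm_of_nonneg (by positivity), lt_inv_mul_iff₀ (by positivity)]
    linarith

theorem norm_D_u_le {M : ℝ} (hM0 : 0 ≤ M) (hM : ∀ w, ‖fderiv ℝ bc w‖ ≤ M) (k : ℕ) (w : ℂ) :
    ‖D (u k) w‖ ≤ 4 * M * (1 + ‖w‖) ^ (-1 : ℝ) := by
  have hw : (0:ℝ) < 1 + ‖w‖ := by positivity
  rw [Real.rpow_neg_one]
  rcases lt_or_ge ‖w‖ (k + 1) with h | h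
  · rw [D_u_eq_zero h]; simp; positivity
  rcases lt_or_ge (2 * ((k : ℝ) + 1)) ‖w‖ with h' | h'
  · rw [D_u_eq_zero' h']; simp; positivity
  have h1 : ‖D (u k) w‖ ≤ ‖fderiv ℝ (u k) w‖ := norm_wirt_le _
  have h2 : ‖fderiv ℝ (u k) w‖ ≤ ((k : ℝ) + 1)⁻¹ * M := by
    rw [fderiv_u, norm_smul, norm_inv, Real.norm_of_nonneg (by positivity)]
    gcongr
    exact hM _
  have h3 : ((k : ℝ) + 1)⁻¹ ≤ 4 * (1 + ‖w‖)⁻¹ := by
    rw [inv_le_iff_one_le_mul₀ (by positivity), ← div_eq_mul_inv, div_mul_eq_mul_div,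
      le_div_iff₀ hw]
    have : (0:ℝ) ≤ k := Nat.cast_nonneg k
    nlinarith
  calc ‖D (u k) w‖ ≤ ((k : ℝ) + 1)⁻¹ * M := h1.trans h2
    _ ≤ 4 * (1 + ‖w‖)⁻¹ * M := by gcongr
    _ = _ := by ring

/-- directional derivative -/
noncomputable def pd (v : ℂ) (F : ℂ → ℂ) (w : ℂ) : ℂ := fderiv ℝ F w v

theorem D_eq_pd (F : ℂ → ℂ) (w : ℂ) : D F w = (pd 1 F w - Complex.I * pd Complex.I F w) / 2 := rfl

theorem continuous_pd {F : ℂ → ℂ} (hF : ContDiff ℝ 1 F) (v : ℂ) : Continuous (pd v F) :=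
  (hF.continuous_fderiv one_ne_zero).clm_apply continuous_const

theorem continuous_D {F : ℂ → ℂ} (hF : ContDiff ℝ 1 F) : Continuous (D F) := by
  have : D F = fun w => (pd 1 F w - Complex.I * pd Complex.I F w) / 2 := rfl
  rw [this]
  exact ((continuous_pd hF 1).sub (continuous_const.mul (continuous_pd hF Complex.I))).div_const 2

theorem parts {F : ℂ → ℂ} (hF : ContDiff ℝ 1 F) (k : ℕ) :
    ∫ w, F w * D (u k) w = - ∫ w, D F w * u k w := by
  have hFc := hF.continuous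
  have huc := (u_contDiff k).continuous
  have i1 : ∀ v : ℂ, Integrable fun w => pd v F w * u k w := fun v =>
    ((continuous_pd hF v).mul huc).integrable_of_hasCompactSupport (u_supp k).mul_left
  have i2 : ∀ v : ℂ, Integrable fun w => F w * pd v (u k) w := fun v =>
    (hFc.mul (continuous_pd (u_contDiff k) v)).integrable_of_hasCompactSupport
      ((u_supp k).fderiv_apply (𝕜 := ℝ) v).mul_left
  have i3 : Integrable fun w => F w * u k w :=
    (hFc.mul huc).integrable_of_hasCompactSupport (u_supp k).mul_left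
  have h : ∀ v : ℂ, ∫ w, F w * pd v (u k) w = - ∫ w, pd v F w * u k w := fun v =>
    integral_mul_fderiv_eq_neg_fderiv_mul_of_integrable (i1 v) (i2 v) i3
      (fun x _ => hF.differentiable one_ne_zero x)
      (fun x _ => (u_contDiff k).differentiable one_ne_zero x)
  have e1 : ∫ w, F w * D (u k) w = ((∫ w, F w * pd 1 (u k) w)
      - Complex.I * ∫ w, F w * pd Complex.I (u k) w) / 2 := by
    rw [← integral_const_mul, ← integral_sub (i2 1) ((i2 Complex.I).const_mul _),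
      ← integral_div]
    congr 1
    funext w
    rw [D_eq_pd]
    ring
  have e2 : ∫ w, D F w * u k w = ((∫ w, pd 1 F w * u k w)
      - Complex.I * ∫ w, pd Complex.I F w * u k w) / 2 := by
    rw [← integral_const_mul, ← integral_sub (i1 1) ((i1 Complex.I).const_mul _),
      ← integral_div]
    congr 1
    funext w
    rw [D_eq_pd]
    ring
  rw [e1, e2, h 1, h Complex.I]
  ring

theorem integral_D_eq_zero {F : ℂ → ℂ} (hF : ContDiff ℝ 1 F) {C R : ℝ} (hC0 : 0 ≤ C)
    (hC : ∀ w, R ≤ ‖w‖ → ‖F w‖ ≤ C * (1 + ‖w‖) ^ (-2 : ℝ)) (hD : Integrable (D F)) :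
    ∫ w, D F w = 0 := by
  obtain ⟨M, hM0, hM⟩ := exists_bound_bc
  have hDc : Continuous (D F) := continuous_D hF
  have hDu : ∀ k, Continuous (D (u k)) := fun k => continuous_D (u_contDiff k)
  have hT : Tendsto (fun k : ℕ => (k : ℝ) + 1) atTop atTop :=
    tendsto_atTop_add_const_right _ _ tendsto_natCast_atTop_atTop
  have l1 : Tendsto (fun k => ∫ w, F w * D (u k) w) atTop (𝓝 (∫ _ : ℂ, (0:ℂ))) := by
    refine tendsto_integral_filter_of_dominated_convergence
      (fun w => 4 * M * C * (1 + ‖w‖) ^ (-3 : ℝ)) ?_ ?_ ?_ ?_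
    · exact Eventually.of_forall fun k => (hF.continuous.mul (hDu k)).aestronglyMeasurable
    · filter_upwards [hT.eventually_ge_atTop R] with k hk
      refine Eventually.of_forall fun w => ?_
      have hw : (0:ℝ) < 1 + ‖w‖ := by positivity
      rcases lt_or_ge ‖w‖ (k + 1) with h | h
      · rw [D_u_eq_zero h]; simp; positivity
      · rw [norm_mul]
        calc ‖F w‖ * ‖D (u k) w‖ ≤ (C * (1 + ‖w‖) ^ (-2 : ℝ)) * (4 * M * (1 + ‖w‖) ^ (-1 : ℝ)) := by
              gcongr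
              · exact hC w (hk.trans h)
              · exact norm_D_u_le hM0 hM k w
          _ = 4 * M * C * ((1 + ‖w‖) ^ (-2 : ℝ) * (1 + ‖w‖) ^ (-1 : ℝ)) := by ring
          _ = _ := by rw [← Real.rpow_add hw]; norm_num
    · exact (integrable_one_add_norm (by rw [Complex.finrank_real_complex]; norm_num)).const_mul _
    · refine Eventually.of_forall fun w => ?_
      refine tendsto_const_nhds.congr' ?_
      filter_upwards [hT.eventually_gt_atTop ‖w‖] with k hk
      rw [D_u_eq_zero hk, mul_zero]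
  have l2 : Tendsto (fun k => ∫ w, D F w * u k w) atTop (𝓝 (∫ w, D F w)) := by
    refine tendsto_integral_filter_of_dominated_convergence (fun w => ‖D F w‖) ?_ ?_ hD.norm ?_
    · exact Eventually.of_forall fun k =>
        (hDc.mul (u_contDiff k).continuous).aestronglyMeasurable
    · refine Eventually.of_forall fun k => Eventually.of_forall fun w => ?_
      rw [norm_mul]
      exact mul_le_of_le_one_right (norm_nonneg _) (bc_norm _)
    · refine Eventually.of_forall fun w => ?_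
      refine tendsto_const_nhds.congr' ?_
      filter_upwards [hT.eventually_gt_atTop ‖w‖] with k hk
      have : u k w = 1 := by
        have h1 : ‖((k : ℝ) + 1)⁻¹ • w‖ < 1 := by
          rw [norm_smul, norm_inv, Real.norm_of_nonneg (by positivity),
            inv_mul_lt_iff₀ (by positivity)]
          linarith
        exact (bc_one h1).self_of_nhds
      rw [this, mul_one]
  have l3 : Tendsto (fun k => ∫ w, F w * D (u k) w) atTop (𝓝 (- ∫ w, D F w)) := by
    simp only [parts hF]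
    exact l2.neg
  have := tendsto_nhds_unique l1 l3
  rw [integral_zero] at this
  exact neg_eq_zero.1 this.symm

theorem continuous_kk_at {n : ℕ} {ζ : ℂ} (h : ζ ≠ 0) : ContinuousAt (kk n) ζ := by
  unfold kk
  have h1 : ((Complex.normSq ζ : ℝ) : ℂ) ≠ 0 := by
    exact_mod_cast (Complex.normSq_pos.2 h).ne'
  exact (((Complex.continuous_conj.continuousAt).div continuousAt_id h).pow n).div
    (Complex.continuous_ofReal.comp Complex.continuous_normSq).continuousAt h1

theorem continuous_kkW {n : ℕ} {z z' : ℂ} {W : ℂ → ℝ}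
    (hW : Continuous W) (h0 : ∀ᶠ w in 𝓝 z, W w = 0) (h1 : ∀ᶠ w in 𝓝 z', W w = 0) :
    Continuous (fun w => kk n (w - z) * starRingEnd ℂ (kk n (w - z')) * (W w : ℂ)) := by
  have hz0 : ∀ a : ℂ, (∀ᶠ w in 𝓝 a, W w = 0) →
      ContinuousAt (fun w => kk n (w - z) * starRingEnd ℂ (kk n (w - z')) * (W w : ℂ)) a := by
    intro a ha
    have e1 : (fun w => kk n (w - z) * starRingEnd ℂ (kk n (w - z')) * (W w : ℂ)) =ᶠ[𝓝 a]
        fun _ => 0 := by
      filter_upwards [ha] with y hy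
      rw [hy]; simp
    exact continuousAt_const.congr e1.symm
  rw [continuous_iff_continuousAt]
  intro w
  by_cases hz : w = z
  · rw [hz]; exact hz0 z h0
  by_cases hz' : w = z'
  · rw [hz']; exact hz0 z' h1
  have k1 : ContinuousAt (fun w => kk n (w - z)) w :=
    (continuous_kk_at (n := n) (sub_ne_zero.2 hz)).comp (f := fun w => w - z) (by fun_prop)
  have k2 : ContinuousAt (fun w => kk n (w - z')) w :=
    (continuous_kk_at (n := n) (sub_ne_zero.2 hz')).comp (f := fun w => w - z') (by fun_prop)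
  exact (k1.mul (Complex.continuous_conj.continuousAt.comp k2)).mul
    (Complex.continuous_ofReal.comp hW).continuousAt

theorem norm_dW_le (W : ℂ → ℝ) (w : ℂ) : ‖dW W w‖ ≤ 1 / 2 * ‖fderiv ℝ W w‖ := by
  unfold dW
  set L := fderiv ℝ W w
  set a := L 1
  set b := L Complex.I
  have h1 : L ((a : ℂ) + b * Complex.I) = a ^ 2 + b ^ 2 := by
    have e1 : (a : ℂ) + b * Complex.I = a • (1:ℂ) + b • Complex.I := by
      simp
    rw [e1, map_add, map_smul, map_smul]
    simp only [smul_eq_mul]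
    ring
  have h2 := L.le_opNorm ((a : ℂ) + b * Complex.I)
  rw [h1, Real.norm_of_nonneg (by positivity)] at h2
  have h3 : ‖(a : ℂ) + b * Complex.I‖ = Real.sqrt (a ^ 2 + b ^ 2) := Complex.norm_add_mul_I a b
  have h4 : ‖(a : ℂ) - Complex.I * b‖ = Real.sqrt (a ^ 2 + b ^ 2) := by
    have : (a : ℂ) - Complex.I * b = (a : ℂ) + ((-b : ℝ) : ℂ) * Complex.I := by push_cast; ring
    rw [this, Complex.norm_add_mul_I]
    congr 2
    ring
  rw [norm_div, h4]
  rw [h3] at h2
  have h5 : Real.sqrt (a ^ 2 + b ^ 2) ≤ ‖L‖ := by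
    rcases (Real.sqrt_nonneg (a ^ 2 + b ^ 2)).eq_or_lt with h | h
    · rw [← h]; exact norm_nonneg _
    · have h6 := Real.mul_self_sqrt (show 0 ≤ a ^ 2 + b ^ 2 by positivity)
      nlinarith
  have h7 : ‖(2:ℂ)‖ = 2 := by simp
  rw [h7]
  linarith

theorem bdd_W {W : ℂ → ℝ} {c₀ : ℝ} (hW : Continuous W) (hc : HasCompactSupport (fun w => W w - c₀)) :
    ∃ B : ℝ, 0 ≤ B ∧ ∀ w, |W w| ≤ B := by
  obtain ⟨B, hB⟩ := hc.exists_bound_of_continuous (hW.sub continuous_const)
  refine ⟨B + |c₀|, ?_, fun w => ?_⟩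
  · have := (norm_nonneg _).trans (hB 0); positivity
  · have h1 := hB w
    rw [Real.norm_eq_abs] at h1
    have h2 : W w = (W w - c₀) + c₀ := by ring
    rw [h2]
    exact (abs_add_le _ _).trans (by linarith)

/-- for large `w` the distances to `z` are comparable to `1 + |w|` -/
theorem far_le {z w : ℂ} (h : 2 * ‖z‖ + 1 ≤ ‖w‖) : (1 + ‖w‖) ≤ 4 * ‖w - z‖ := by
  have := norm_sub_norm_le w z
  have := norm_nonneg z
  linarith

end VForm

open MeasureTheory Filter Topology VForm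

theorem vid : StmtVid := by
  intro n z z' W c₀ hn hzz hW hc h0 h1
  obtain ⟨B, hB0, hB⟩ := bdd_W hW.continuous hc
  have hdWc : Continuous (dW W) := by
    have hF' : ∀ v : ℂ, Continuous fun w => fderiv ℝ W w v := fun v =>
      (hW.continuous_fderiv one_ne_zero).clm_apply continuous_const
    exact ((Complex.continuous_ofReal.comp (hF' 1)).sub
      (continuous_const.mul (Complex.continuous_ofReal.comp (hF' Complex.I)))).div_const 2
  have hF := contDiff_F (n := n) hW h0 h1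
  have hcontk := continuous_kkW (n := n) hW.continuous h0 h1
  -- integrability of the first function
  have hI1 : Integrable (fun w => kk n (w - z) * starRingEnd ℂ (kk n (w - z')) * (W w : ℂ)) := by
    refine integrable_of_decay hcontk (C := 256 * B) (R := 2 * ‖z‖ + 2 * ‖z'‖ + 1) fun w hw => ?_
    have f1 := far_le (z := z) (w := w) (by linarith [norm_nonneg z'])
    have f2 := far_le (z := z') (w := w) (by linarith [norm_nonneg z])
    have hw1 : (1:ℝ) ≤ 1 + ‖w‖ := by linarith [norm_nonneg w]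
    have hw0 : (0:ℝ) < 1 + ‖w‖ := by linarith
    have g1 : 0 < ‖w - z‖ := by linarith
    have g2 : 0 < ‖w - z'‖ := by linarith
    rw [norm_mul, norm_mul, RCLike.norm_conj, Complex.norm_real, Real.norm_eq_abs]
    have a1 : ‖kk n (w - z)‖ ≤ 16 / (1 + ‖w‖) ^ 2 := by
      refine (norm_kk_le n _).trans ?_
      rw [div_le_div_iff₀ (by positivity) (by positivity)]
      nlinarith
    have a2 : ‖kk n (w - z')‖ ≤ 16 / (1 + ‖w‖) ^ 2 := by
      refine (norm_kk_le n _).trans ?_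
      rw [div_le_div_iff₀ (by positivity) (by positivity)]
      nlinarith
    have a3 : (1 + ‖w‖) ^ (-3 : ℝ) = 1 / (1 + ‖w‖) ^ 3 := by
      rw [Real.rpow_neg hw0.le, one_div]
      congr 1
      exact_mod_cast Real.rpow_natCast _ 3
    calc ‖kk n (w - z)‖ * ‖kk n (w - z')‖ * |W w|
        ≤ 16 / (1 + ‖w‖) ^ 2 * (16 / (1 + ‖w‖) ^ 2) * B := by
          gcongr
          exact hB w
      _ = 256 * B * (1 / (1 + ‖w‖) ^ 4) := by
          rw [div_mul_div_comm, ← pow_add]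
          ring
      _ ≤ 256 * B * (1 / (1 + ‖w‖) ^ 3) := by
          gcongr 256 * B * (1 / ?_)
          exact pow_le_pow_right₀ hw1 (by norm_num)
      _ = _ := by rw [a3]
  -- integrability of the second function
  have hDF : ∀ w, D (fun w => Vf n z z' w * (W w : ℂ)) w =
      kk n (w - z) * starRingEnd ℂ (kk n (w - z')) * (W w : ℂ) + Vf n z z' w * dW W w :=
    D_F hn hzz hW h0 h1
  have hdWsupp : HasCompactSupport (dW W) := by
    have e1 : dW W = fun w => ((fderiv ℝ (fun w => W w - c₀) w 1 : ℝ) -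
        Complex.I * (fderiv ℝ (fun w => W w - c₀) w Complex.I : ℝ) : ℂ) / 2 := by
      funext w
      unfold dW
      rw [fderiv_sub_const]
    rw [e1]
    have e2 := hc.fderiv (𝕜 := ℝ)
    exact e2.comp_left (g := fun L : ℂ →L[ℝ] ℝ => ((L 1 : ℝ) - Complex.I * (L Complex.I : ℝ) : ℂ) / 2)
      (by simp)
  have hI2c : Continuous (fun w => Vf n z z' w * dW W w) := by
    have : (fun w => Vf n z z' w * dW W w) = fun w => D (fun w => Vf n z z' w * (W w : ℂ)) w -
        kk n (w - z) * starRingEnd ℂ (kk n (w - z')) * (W w : ℂ) := by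
      funext w
      rw [hDF w]
      ring
    rw [this]
    exact (continuous_D hF).sub hcontk
  have hI2 : Integrable (fun w => Vf n z z' w * dW W w) :=
    hI2c.integrable_of_hasCompactSupport hdWsupp.mul_left
  refine ⟨hI1, hI2, ?_⟩
  have hDI : Integrable (D (fun w => Vf n z z' w * (W w : ℂ))) := by
    have : D (fun w => Vf n z z' w * (W w : ℂ)) = fun w =>
        kk n (w - z) * starRingEnd ℂ (kk n (w - z')) * (W w : ℂ) + Vf n z z' w * dW W w :=
      funext hDF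
    rw [this]
    exact hI1.add hI2
  have key := integral_D_eq_zero hF (C := 1 / (n * ‖z - z'‖) * 16 * B)
    (R := 2 * ‖z‖ + 2 * ‖z'‖ + 1) (by positivity) (fun w hw => ?_) hDI
  · rw [integral_congr_ae (Eventually.of_forall hDF), integral_add hI1 hI2] at key
    exact eq_neg_of_add_eq_zero_left key
  · have f1 := far_le (z := z) (w := w) (by linarith [norm_nonneg z'])
    have f2 := far_le (z := z') (w := w) (by linarith [norm_nonneg z])
    have hw0 : (0:ℝ) < 1 + ‖w‖ := by linarith [norm_nonneg w]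
    have g1 : 0 < ‖w - z‖ := by linarith
    have g2 : 0 < ‖w - z'‖ := by linarith
    have a3 : (1 + ‖w‖) ^ (-2 : ℝ) = 1 / (1 + ‖w‖) ^ 2 := by
      rw [Real.rpow_neg hw0.le, one_div]
      congr 1
      exact_mod_cast Real.rpow_natCast _ 2
    rw [norm_mul, Complex.norm_real, Real.norm_eq_abs, a3]
    have a1 : 1 / (‖w - z‖ * ‖w - z'‖) ≤ 16 / (1 + ‖w‖) ^ 2 := by
      rw [div_le_div_iff₀ (by positivity) (by positivity)]
      nlinarith [mul_le_mul f1 f2 hw0.le (by positivity)]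
    calc ‖Vf n z z' w‖ * |W w|
        ≤ (1 / (n * ‖z - z'‖) * (1 / (‖w - z‖ * ‖w - z'‖))) * B := by
          gcongr
          · exact norm_Vf_le n z z' w
          · exact hB w
      _ ≤ (1 / (n * ‖z - z'‖) * (16 / (1 + ‖w‖) ^ 2)) * B := by gcongr
      _ = _ := by ring

theorem vbd : StmtV := by
  intro n z z' W c₀ hn hzz hW hc h0 h1
  obtain ⟨-, hI2, hid⟩ := vid n z z' W c₀ hn hzz hW hc h0 h1
  have hfc : Continuous (fun w => ‖fderiv ℝ W w‖) := (hW.continuous_fderiv one_ne_zero).norm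
  have hz0 : ∀ a : ℂ, (∀ᶠ w in 𝓝 a, W w = 0) →
      ContinuousAt (fun w => ‖fderiv ℝ W w‖ / (‖w - z‖ * ‖w - z'‖)) a := by
    intro a ha
    have e1 : (fun w => ‖fderiv ℝ W w‖ / (‖w - z‖ * ‖w - z'‖)) =ᶠ[𝓝 a] fun _ => 0 := by
      filter_upwards [ha.eventually_nhds] with y hy
      have e2 : W =ᶠ[𝓝 y] fun _ => 0 := hy
      rw [e2.fderiv_eq]
      simp
    exact continuousAt_const.congr e1.symm
  have hcont : Continuous (fun w => ‖fderiv ℝ W w‖ / (‖w - z‖ * ‖w - z'‖)) := by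
    rw [continuous_iff_continuousAt]
    intro w
    by_cases hz : w = z
    · rw [hz]; exact hz0 z h0
    by_cases hz' : w = z'
    · rw [hz']; exact hz0 z' h1
    have c1 : ContinuousAt (fun w : ℂ => ‖w - z‖ * ‖w - z'‖) w := by fun_prop
    exact hfc.continuousAt.div c1
      (mul_ne_zero (norm_ne_zero_iff.2 (sub_ne_zero.2 hz)) (norm_ne_zero_iff.2 (sub_ne_zero.2 hz')))
  have hsupp : HasCompactSupport (fun w => ‖fderiv ℝ W w‖) := by
    have e1 : (fun w => ‖fderiv ℝ W w‖) = fun w => ‖fderiv ℝ (fun w => W w - c₀) w‖ := by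
      funext w
      rw [fderiv_sub_const]
    rw [e1]
    exact (hc.fderiv (𝕜 := ℝ)).norm
  have hI : Integrable (fun w => ‖fderiv ℝ W w‖ / (‖w - z‖ * ‖w - z'‖)) := by
    refine hcont.integrable_of_hasCompactSupport ?_
    simp only [div_eq_mul_inv]
    exact hsupp.mul_right
  refine ⟨hI, ?_⟩
  rw [hid, norm_neg, ← integral_const_mul]
  refine norm_integral_le_of_norm_le (hI.const_mul _) (Eventually.of_forall fun w => ?_)
  rw [norm_mul]
  calc ‖Vf n z z' w‖ * ‖dW W w‖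
      ≤ (1 / (n * ‖z - z'‖) * (1 / (‖w - z‖ * ‖w - z'‖))) * (1 / 2 * ‖fderiv ℝ W w‖) := by
        gcongr
        · exact norm_Vf_le n z z' w
        · exact norm_dW_le W w
    _ = _ := by
        have e : (2 * (n:ℝ) * ‖z - z'‖) = 2 * (n * ‖z - z'‖) := by ring
        rw [e, ← one_div_mul_one_div 2 ((n:ℝ) * ‖z - z'‖)]
        ring

end Pool.Agent.Lib.MP_dd244f_an.Joint
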