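import Pool.Agent.Lib.MP_dd244f_an.Joint.Stmts
import Pool.Agent.Lib.MP_dd244f_an.Joint.Basic

/-!
Full operator, joint limit: the weight of a near pair (smoothness, support, gradient bound).
-/

set_option autoImplicit false

namespace Pool.Agent.Lib.MP_dd244f_an.Joint

namespace WtAux

open MeasureTheory Filter Topology Set

/-- a function with values in `[0,1]` at `w` and gradient at most `a` there -/
def Good (f : ℂ → ℝ) (w : ℂ) (a : ℝ) : Prop :=
  DifferentiableAt ℝ f w ∧ 0 ≤ f w ∧ f w ≤ 1 ∧ ‖fderiv ℝ f w‖ ≤ a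

theorem Good.mul {f g : ℂ → ℝ} {w : ℂ} {a b : ℝ} (hf : Good f w a) (hg : Good g w b) :
    Good (fun w => f w * g w) w (a + b) := by
  obtain ⟨f1, f2, f3, f4⟩ := hf
  obtain ⟨g1, g2, g3, g4⟩ := hg
  refine ⟨f1.mul g1, mul_nonneg f2 g2, mul_le_one₀ f3 g2 g3, ?_⟩
  rw [fderiv_fun_mul f1 g1]
  refine (norm_add_le _ _).trans ?_
  rw [norm_smul, norm_smul, Real.norm_of_nonneg f2, Real.norm_of_nonneg g2]
  nlinarith [norm_nonneg (fderiv ℝ f w), norm_nonneg (fderiv ℝ g w)]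

theorem Good.mono {f : ℂ → ℝ} {w : ℂ} {a b : ℝ} (hf : Good f w a) (h : a ≤ b) : Good f w b :=
  ⟨hf.1, hf.2.1, hf.2.2.1, hf.2.2.2.trans h⟩

theorem Good.one_sub {f : ℂ → ℝ} {w : ℂ} {a : ℝ} (hf : Good f w a) :
    Good (fun w => 1 - f w) w a := by
  obtain ⟨f1, f2, f3, f4⟩ := hf
  refine ⟨f1.const_sub 1, by linarith, by linarith, ?_⟩
  rw [fderiv_const_sub, norm_neg]
  exact f4

theorem good_ct (hCut : StmtCut) {ρ : ℝ} (hρ : 0 < ρ) (c w : ℂ) {r : ℝ} (hr : 0 < r)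
    (h : r ≤ ‖w - c‖) : Good (fun w => ct ρ (w - c)) w (4 * Mst / r) := by
  obtain ⟨c1, c2, c3, c4, c5, c6, c7, c8⟩ := hCut ρ hρ
  refine ⟨?_, c2 _, c3 _, ?_⟩
  · exact (((c1 1).differentiable one_ne_zero).comp (differentiable_id.sub_const c)) w
  · rw [fderiv_comp_sub (f := ct ρ)]
    refine (c6 _).trans ?_
    have := one_le_Mst
    gcongr

/-- the positive quadratic function -/
noncomputable def qq (c : ℂ) (R : ℝ) (w : ℂ) : ℝ := ‖w - c‖ ^ 2 + R ^ 2

theorem qq_pos {c : ℂ} {R : ℝ} (hR : 0 < R) (w : ℂ) : 0 < qq c R w := by unfold qq; positivity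

theorem qq_contDiff (c : ℂ) (R : ℝ) : ContDiff ℝ 1 (qq c R) :=
  ((contDiff_norm_sq ℝ).comp (contDiff_id.sub contDiff_const)).add contDiff_const

theorem norm_fderiv_qq (c : ℂ) (R : ℝ) (w : ℂ) : ‖fderiv ℝ (qq c R) w‖ ≤ 2 * ‖w - c‖ := by
  have h1 : HasFDerivAt (fun w : ℂ => ‖w‖ ^ 2) (2 • (innerSL ℝ (w - c))) (w - c) :=
    (hasStrictFDerivAt_norm_sq (w - c)).hasFDerivAt
  have h2 : fderiv ℝ (qq c R) w = 2 • (innerSL ℝ (w - c)) := by
    unfold qq
    rw [fderiv_add_const, fderiv_comp_sub (f := fun w : ℂ => ‖w‖ ^ 2), h1.fderiv]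
  rw [h2]
  refine (norm_nsmul_le).trans ?_
  rw [innerSL_apply_norm]
  simp

theorem b_eq (D : Cfg) (k : ℕ) (w : ℂ) :
    D.b k w = (D.σ * (1 + 8 / D.K) * D.A k) ^ 2 / (qq (D.cl.c k) (D.cl.R k) w) ^ 2 := rfl

theorem b_contDiff (D : Cfg) {k : ℕ} (hk : k < D.cl.N) : ContDiff ℝ 1 (D.b k) := by
  have hR := D.cl.hRpos k hk
  have : D.b k = fun w =>
    (D.σ * (1 + 8 / D.K) * D.A k) ^ 2 / (qq (D.cl.c k) (D.cl.R k) w) ^ 2 := rfl
  rw [this]
  exact contDiff_const.div ((qq_contDiff _ _).pow 2) fun w => pow_ne_zero 2 (qq_pos hR w).ne'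

theorem norm_fderiv_b (D : Cfg) {k : ℕ} (hk : k < D.cl.N) (w : ℂ) :
    ‖fderiv ℝ (D.b k) w‖ ≤ 2 / D.cl.R k * D.b k w := by
  have hR := D.cl.hRpos k hk
  set Ck := (D.σ * (1 + 8 / D.K) * D.A k) ^ 2
  set q := qq (D.cl.c k) (D.cl.R k)
  have hq : 0 < q w := qq_pos hR w
  have h1 : HasDerivAt (fun t : ℝ => Ck / t ^ 2) (-(2 * Ck / (q w) ^ 3)) (q w) := by
    have h2 := (hasDerivAt_const (q w) Ck).div (hasDerivAt_pow 2 (q w)) (pow_ne_zero 2 hq.ne')
    refine h2.congr_deriv ?_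
    field_simp
    ring
  have h3 : HasFDerivAt q (fderiv ℝ q w) w :=
    ((qq_contDiff _ _).differentiable one_ne_zero w).hasFDerivAt
  have h4 : HasFDerivAt (D.b k) (-(2 * Ck / (q w) ^ 3) • fderiv ℝ q w) w :=
    h1.comp_hasFDerivAt w h3
  rw [h4.fderiv, norm_smul, norm_neg, Real.norm_of_nonneg (by positivity)]
  have h5 : ‖fderiv ℝ q w‖ ≤ 2 * ‖w - D.cl.c k‖ := norm_fderiv_qq _ _ _
  have h6 : 2 * ‖w - D.cl.c k‖ * D.cl.R k ≤ q w := by
    change _ ≤ ‖w - D.cl.c k‖ ^ 2 + D.cl.R k ^ 2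
    nlinarith [sq_nonneg (‖w - D.cl.c k‖ - D.cl.R k)]
  have h7 : ‖fderiv ℝ q w‖ ≤ q w / D.cl.R k := by
    rw [le_div_iff₀ hR]
    exact (mul_le_mul_of_nonneg_right h5 hR.le).trans h6
  calc 2 * Ck / (q w) ^ 3 * ‖fderiv ℝ q w‖ ≤ 2 * Ck / (q w) ^ 3 * (q w / D.cl.R k) := by gcongr
    _ = 2 / D.cl.R k * (Ck / (q w) ^ 2) := by field_simp
    _ = _ := rfl

theorem Sw_contDiff (D : Cfg) {l : ℕ} (hl : l < D.cl.N) : ContDiff ℝ 1 (D.Sw l) := by
  have : D.Sw l = fun w => 1 + ∑ i ∈ Finset.range (l + 1), D.b i w := rfl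
  rw [this]
  refine contDiff_const.add (ContDiff.sum fun i hi => b_contDiff D ?_)
  have := Finset.mem_range.1 hi
  omega

theorem norm_fderiv_Sw (D : Cfg) {l : ℕ} (hl : l < D.cl.N) (w : ℂ) :
    ‖fderiv ℝ (D.Sw l) w‖ ≤ 2 / D.cl.R l * D.Sw l w := by
  have hR := D.cl.hRpos l hl
  have h0 : ∀ i ∈ Finset.range (l + 1), i < D.cl.N := fun i hi => by
    have := Finset.mem_range.1 hi
    omega
  have h1 : fderiv ℝ (D.Sw l) w = ∑ i ∈ Finset.range (l + 1), fderiv ℝ (D.b i) w := by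
    have : D.Sw l = fun w => 1 + ∑ i ∈ Finset.range (l + 1), D.b i w := rfl
    rw [this, fderiv_const_add, fderiv_fun_sum]
    intro i hi
    exact (b_contDiff D (h0 i hi)).differentiable one_ne_zero w
  rw [h1]
  refine (norm_sum_le _ _).trans ?_
  calc ∑ i ∈ Finset.range (l + 1), ‖fderiv ℝ (D.b i) w‖
      ≤ ∑ i ∈ Finset.range (l + 1), 2 / D.cl.R l * D.b i w := by
        refine Finset.sum_le_sum fun i hi => (norm_fderiv_b D (h0 i hi) w).trans ?_
        have h2 : D.cl.R l ≤ D.cl.R i :=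
          D.cl.hRanti i l (by have := Finset.mem_range.1 hi; omega) hl
        have h3 := D.b_nonneg i w
        gcongr
    _ = 2 / D.cl.R l * ∑ i ∈ Finset.range (l + 1), D.b i w := by rw [Finset.mul_sum]
    _ ≤ 2 / D.cl.R l * D.Sw l w := by
        gcongr
        unfold Cfg.Sw
        linarith

theorem nr_zero (hCut : StmtCut) (D : Cfg) {i : ℕ} (hi : i < D.cl.N) {ζ : ℂ}
    (h : 2 * D.rho i ^ 2 ≤ ‖ζ‖ ^ 2) : D.nr i ζ = 0 := by
  unfold Cfg.nr
  rw [(hCut _ (D.rho_pos hi)).2.2.2.2.1 ζ h]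
  simp

/-- outside `Reg i` the product of the cutoffs of cluster `i` vanishes near `w` -/
theorem zero_off_Reg (hCut : StmtCut) (D : Cfg) {i : ℕ} (hi : i < D.cl.N) {j : D.ι}
    (hj : j ∈ D.cl.C i) {w : ℂ} (hw : w ∉ D.Reg i) :
    ∀ᶠ x in 𝓝 w, D.chi i x * D.nr i (x - D.z j) = 0 := by
  have hR := D.cl.hRpos i hi
  have hK := D.hK
  have hv : Continuous (D.v i) := by
    have : D.v i = fun w => ‖w - D.cl.c i‖ := rfl
    rw [this]
    fun_prop
  have hw' : D.v i w < D.K * D.cl.R i ∨ 4 * D.rho i < D.v i w := by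
    by_contra h
    push Not at h
    exact hw ⟨h.1, h.2⟩
  rcases hw' with h | h
  · filter_upwards [(isOpen_lt hv continuous_const).mem_nhds h] with x hx
    have : D.chi i x = 0 := (hCut _ (by positivity)).2.2.2.1 _ (le_of_lt hx)
    rw [this, zero_mul]
  · filter_upwards [(isOpen_lt continuous_const hv).mem_nhds h] with x hx
    have h1 := D.cl.norm_le_of_mem_C hi hj
    have h2 : D.v i x ≤ ‖x - D.z j‖ + ‖D.z j - D.cl.c i‖ := norm_sub_le_norm_sub_add_norm_sub _ _ _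
    have h3 := D.rho_ge hi
    have h4 : 3 * D.rho i ≤ ‖x - D.z j‖ := by
      have : 4 * D.rho i < D.v i x := hx
      have h5 : ‖D.z j - D.cl.c i‖ ≤ 2 * D.cl.R i := h1
      linarith
    have h5 := D.rho_pos hi
    rw [nr_zero hCut D hi (by nlinarith), mul_zero]

theorem notMem_Reg (D : Cfg) {i : ℕ} (hi : i < D.cl.N) {j : D.ι} (hj : j ∈ D.cl.C i) :
    D.z j ∉ D.Reg i := by
  intro h
  have h1 := D.cl.norm_le_of_mem_C hi hj
  have h2 : D.K * D.cl.R i ≤ D.v i (D.z j) := h.1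
  have hR := D.cl.hRpos i hi
  have hK := D.hK
  have h3 : D.v i (D.z j) = ‖D.z j - D.cl.c i‖ := rfl
  have h4 : ‖D.z j - D.cl.c i‖ ≤ 2 * D.cl.R i := h1
  nlinarith

theorem good_chi (hCut : StmtCut) (D : Cfg) {l i : ℕ} (hl : l < D.cl.N) (hil : i ≤ l) {w : ℂ}
    (hw : w ∈ D.Reg i) : Good (D.chi i) w (Mst / (2 * D.cl.R l)) := by
  have hi : i < D.cl.N := by omega
  have hR := D.cl.hRpos i hi
  have hRl := D.cl.hRpos l hl
  have hRR := D.cl.hRanti i l hil hl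
  have hK := D.hK
  have h1 : 8 * D.cl.R l ≤ ‖w - D.cl.c i‖ := by
    have : D.K * D.cl.R i ≤ ‖w - D.cl.c i‖ := hw.1
    nlinarith
  refine (good_ct hCut (ρ := D.K * D.cl.R i) (by positivity) (D.cl.c i) w
    (r := 8 * D.cl.R l) (by positivity) h1).mono (le_of_eq ?_)
  field_simp
  ring

theorem good_nr (hCut : StmtCut) (D : Cfg) {l i : ℕ} (hl : l < D.cl.N) (hil : i ≤ l) {j : D.ι}
    (hj : j ∈ D.cl.C i) {w : ℂ} (hw : w ∈ D.Reg i) :
    Good (fun w => D.nr i (w - D.z j)) w (4 * Mst / (3 * D.cl.R l)) := by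
  have hi : i < D.cl.N := by omega
  have hR := D.cl.hRpos i hi
  have hRl := D.cl.hRpos l hl
  have hRR := D.cl.hRanti i l hil hl
  have hK := D.hK
  have h2 : ‖w - D.cl.c i‖ ≤ ‖w - D.z j‖ + ‖D.z j - D.cl.c i‖ :=
    norm_sub_le_norm_sub_add_norm_sub _ _ _
  have h3 := D.cl.norm_le_of_mem_C hi hj
  have h1 : 6 * D.cl.R l ≤ ‖w - D.z j‖ := by
    have : D.K * D.cl.R i ≤ ‖w - D.cl.c i‖ := hw.1
    nlinarith
  have g1 := good_ct hCut (ρ := D.η) D.hη (D.z j) w (r := 6 * D.cl.R l) (by positivity) h1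
  have g2 := good_ct hCut (ρ := D.rho i) (D.rho_pos hi) (D.z j) w (r := 6 * D.cl.R l)
    (by positivity) h1
  refine (g1.mul g2.one_sub).mono (le_of_eq ?_)
  field_simp
  ring

end WtAux

open MeasureTheory Filter Topology WtAux Set

theorem wt (hCut : StmtCut) : StmtWt := by
  intro D l i j j' hl hil hj hj'
  have hi : i < D.cl.N := by omega
  have hRl := D.cl.hRpos l hl
  have hM := one_le_Mst
  have hct : ∀ {ρ : ℝ} (_ : 0 < ρ) (c : ℂ), ContDiff ℝ 1 fun w => ct ρ (w - c) := fun hρ c =>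
    ((hCut _ hρ).1 1).comp (contDiff_id.sub contDiff_const)
  have hK := D.hK
  have hchi : ∀ k < D.cl.N, ContDiff ℝ 1 (D.chi k) := fun k hk =>
    hct (by have := D.cl.hRpos k hk; positivity) _
  have hnr : ∀ k < D.cl.N, ∀ j : D.ι, ContDiff ℝ 1 (fun w => D.nr k (w - D.z j)) :=
    fun k hk j => (hct D.hη _).mul (contDiff_const.sub (hct (D.rho_pos hk) _))
  have hWt : D.Wt l i j j' = fun w =>
    D.chi l w * D.chi i w * D.nr l (w - D.z j) * D.nr i (w - D.z j') / D.Sw l w ^ 2 := rfl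
  have hSpos := D.Sw_pos l
  have hoff : ∀ w, w ∉ D.Reg l ∩ D.Reg i → D.Wt l i j j' =ᶠ[𝓝 w] fun _ => 0 := by
    intro w hw
    rw [mem_inter_iff, not_and_or] at hw
    rcases hw with hw | hw
    · filter_upwards [zero_off_Reg hCut D hl hj hw] with x hx
      rw [hWt]
      have : D.chi l x * D.chi i x * D.nr l (x - D.z j) * D.nr i (x - D.z j') =
        (D.chi l x * D.nr l (x - D.z j)) * (D.chi i x * D.nr i (x - D.z j')) := by ring
      simp only [this, hx]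
      simp
    · filter_upwards [zero_off_Reg hCut D hi hj' hw] with x hx
      rw [hWt]
      have : D.chi l x * D.chi i x * D.nr l (x - D.z j) * D.nr i (x - D.z j') =
        (D.chi l x * D.nr l (x - D.z j)) * (D.chi i x * D.nr i (x - D.z j')) := by ring
      simp only [this, hx]
      simp
  refine ⟨?_, ?_, ?_, ?_, ?_, ?_, ?_⟩
  · rw [hWt]
    exact ((((hchi l hl).mul (hchi i hi)).mul (hnr l hl j)).mul (hnr i hi j')).div
      ((Sw_contDiff D hl).pow 2) fun w => pow_ne_zero 2 (hSpos w).ne'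
  · refine HasCompactSupport.intro (isCompact_closedBall (D.cl.c l) (4 * D.rho l)) fun w hw => ?_
    refine (hoff w fun h => hw ?_).self_of_nhds
    have : D.v l w ≤ 4 * D.rho l := h.1.2
    rw [mem_closedBall_iff_norm]
    exact this
  · exact hoff _ fun h => notMem_Reg D hl hj h.1
  · exact hoff _ fun h => notMem_Reg D hi hj' h.2
  · intro w
    have hn : ∀ k < D.cl.N, ∀ ζ, 0 ≤ D.nr k ζ := fun k hk ζ => by
      have h1 := (hCut _ D.hη).2.1 ζ
      have h2 := (hCut _ (D.rho_pos hk)).2.2.1 ζ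
      exact mul_nonneg h1 (by linarith)
    have hc : ∀ k < D.cl.N, 0 ≤ D.chi k w := fun k hk =>
      (hCut _ (by have := D.cl.hRpos k hk; positivity)).2.1 _
    exact div_nonneg (mul_nonneg (mul_nonneg (mul_nonneg (hc l hl) (hc i hi)) (hn l hl _))
      (hn i hi _)) (by positivity)
  · intro w hw
    refine ⟨(hoff w hw).self_of_nhds, ?_⟩
    rw [(hoff w hw).fderiv_eq]
    simp
  · intro w hw
    have hg := (((good_chi hCut D hl le_rfl hw.1).mul (good_chi hCut D hl hil.le hw.2)).mul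
      (good_nr hCut D hl le_rfl hj hw.1)).mul (good_nr hCut D hl hil.le hj' hw.2)
    obtain ⟨g1, g2, g3, g4⟩ := hg
    set P : ℂ → ℝ := fun w =>
      D.chi l w * D.chi i w * D.nr l (w - D.z j) * D.nr i (w - D.z j') with hP
    have hWP : D.Wt l i j j' = fun w => P w * (1 / D.Sw l w ^ 2) := by
      rw [hWt]
      funext w
      rw [hP, mul_one_div]
    set S := D.Sw l w with hS
    have hSp : 0 < S := hSpos w
    have h1 : HasDerivAt (fun t : ℝ => 1 / t ^ 2) (-(2 / S ^ 3)) S := by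
      have h2 := (hasDerivAt_const S (1:ℝ)).div (hasDerivAt_pow 2 S) (pow_ne_zero 2 hSp.ne')
      refine h2.congr_deriv ?_
      field_simp
      ring
    have h3 : HasFDerivAt (D.Sw l) (fderiv ℝ (D.Sw l) w) w :=
      ((Sw_contDiff D hl).differentiable one_ne_zero w).hasFDerivAt
    have h4 : HasFDerivAt (fun w => 1 / D.Sw l w ^ 2) (-(2 / S ^ 3) • fderiv ℝ (D.Sw l) w) w :=
      HasDerivAt.comp_hasFDerivAt (h₂ := fun t : ℝ => 1 / t ^ 2) (f := D.Sw l) w h1 h3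
    have h5 : ‖fderiv ℝ (fun w => 1 / D.Sw l w ^ 2) w‖ ≤ 4 / D.cl.R l / S ^ 2 := by
      rw [h4.fderiv, norm_smul, norm_neg, Real.norm_of_nonneg (by positivity)]
      calc 2 / S ^ 3 * ‖fderiv ℝ (D.Sw l) w‖ ≤ 2 / S ^ 3 * (2 / D.cl.R l * S) := by
            gcongr
            exact norm_fderiv_Sw D hl w
        _ = _ := by field_simp; norm_num
    refine ⟨?_, ?_⟩
    · rw [hWP]
      exact mul_le_of_le_one_left (by positivity) g3
    · rw [hWP, fderiv_fun_mul g1 h4.differentiableAt]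
      refine (norm_add_le _ _).trans ?_
      rw [norm_smul, norm_smul, Real.norm_of_nonneg g2, Real.norm_of_nonneg (by positivity)]
      calc P w * ‖fderiv ℝ (fun w => 1 / D.Sw l w ^ 2) w‖ + 1 / D.Sw l w ^ 2 * ‖fderiv ℝ P w‖
          ≤ 1 * (4 / D.cl.R l / S ^ 2) + 1 / S ^ 2 * (Mst / (2 * D.cl.R l) + Mst / (2 * D.cl.R l)
            + 4 * Mst / (3 * D.cl.R l) + 4 * Mst / (3 * D.cl.R l)) := by
            gcongr
        _ = (11 / 3 * Mst + 4) / D.cl.R l / S ^ 2 := by field_simp; ring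
        _ ≤ _ := by
            gcongr
            linarith

end Pool.Agent.Lib.MP_dd244f_an.Joint
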