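import Pool.Agent.Lib.MP_dd244f_an.Joint.Star
import Pool.Agent.Lib.MP_dd244f_an.Joint.Sel
import Pool.Agent.Lib.MP_dd244f_an.Joint.VForm
import Pool.Agent.Lib.MP_dd244f_an.Joint.Cut
import Pool.Agent.Lib.MP_dd244f_an.Joint.Wt
import Pool.Agent.Lib.MP_dd244f_an.Joint.Pair
import Pool.Agent.Lib.MP_dd244f_an.Joint.JSum
import Pool.Agent.Lib.MP_dd244f_an.Joint.Cross
import Pool.Agent.Lib.MP_dd244f_an.Joint.Dom
import Pool.Agent.Lib.MP_dd244f_an.Joint.PsiInt
import Pool.Agent.Lib.MP_dd244f_an.Joint.BInt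
import Pool.Agent.Lib.MP_dd244f_an.Joint.Near
import Pool.Agent.Lib.MP_dd244f_an.Joint.Circle
import Pool.Agent.Lib.MP_dd244f_an.Joint.Orth
import Pool.Agent.Lib.MP_dd244f_an.Joint.FarPair
import Pool.Agent.Lib.MP_dd244f_an.Joint.Far
import Pool.Agent.Lib.MP_dd244f_an.Joint.Key
import Pool.Agent.Lib.MP_dd244f_an.Joint.Conv
import Pool.Agent.Lib.MP_dd244f_an.Joint.Explicit
import Pool.Agent.Lib.MP_dd244f_an.Joint.Lim
import Pool.Agent.Lib.MP_dd244f_an.Joint.KeyT
import Pool.Agent.Lib.MP_dd244f_an.Joint.Consts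
import Pool.Agent.Lib.MP_dd244f_an.Joint.Consts2
import Pool.Agent.Lib.MP_dd244f_an.Joint.Consts3
import Pool.Agent.Lib.MP_dd244f_an.Joint.Split
import Pool.Agent.Lib.MP_dd244f_an.Joint.Marc
import Pool.Agent.Lib.MP_dd244f_an.Joint.Dual
import Pool.Agent.Lib.MP_dd244f_an.Joint.Ratio
import Pool.Agent.Lib.MP_dd244f_an.Joint.Ratio2
import Pool.Agent.Lib.MP_dd244f_an.Joint.Num
import Pool.Agent.Lib.MP_dd244f_an.Joint.Final1
import Pool.Agent.Lib.MP_dd244f_an.Joint.Final2

/-! Assembly of all modules. -/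

set_option autoImplicit false

namespace Pool.Agent.Lib.MP_dd244f_an.Joint

theorem all_keyT : StmtKeyT := by
  have hPair : StmtPair := pair vbd (wt cut)
  have hCross : StmtCross := cross hPair jsum
  have hNear : StmtNear := near star dom (bint psiInt) hCross
  have hFar : StmtFar := far (farPair vbd (orth vid circle) cut)
  exact keyT (conv (key sel hNear hFar)) (lim explicit)

theorem all_marc : StmtMarc := marc split consts

theorem all_final1 : StmtFinal1 := final1 all_keyT all_marc consts dual ratio_lower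

theorem all_final2 : StmtFinal2 :=
  final2 all_keyT all_marc consts (consts3 consts2) dual ratio2 num

end Pool.Agent.Lib.MP_dd244f_an.Joint
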