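import Pool.Agent.Lib.MP_dd244f_an.Joint.Defs
import Pool.Agent.Lib.MP_dd244f_an.Op

/-!
Full operator, joint limit: the statements of the modules (as `Prop`s, nothing is proved here).
-/

set_option autoImplicit false

namespace Pool.Agent.Lib.MP_dd244f_an.Joint

open MeasureTheory Filter Topology Finset Set
open scoped SchwartzMap ENNReal

/-- (Sel) existence of clusters -/
def StmtSel : Prop := ∀ (ι : Type) (z : ι → ℂ) (A : ι → ℝ) (κ : ℝ) (m : ℕ) (S : Finset ι),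
  0 < κ → 1 ≤ m → (∀ j ∈ S, 0 < A j) → Nonempty (Clusters ι z A κ m S)

/-- (Star) the pointwise inequality -/
def StmtStar : Prop := ∀ (N : ℕ) (f : ℕ → ℂ) (b : ℕ → ℝ), (∀ i < N, ‖f i‖ ^ 2 ≤ b i) →
  psi (‖∑ i ∈ Finset.range N, f i‖ ^ 2) ≤ ∑ i ∈ Finset.range N, psi (b i)
    + ∑ l ∈ Finset.range N, 2 * (f l * starRingEnd ℂ (∑ i ∈ Finset.range l, f i)).re
        / (1 + ∑ i ∈ Finset.range (l + 1), b i) ^ 2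

/-- the primitive `V` with `∂_w V = k(w-z) conj k(w-z')` -/
noncomputable def Vf (n : ℕ) (z z' w : ℂ) : ℂ :=
  (((w - z') * starRingEnd ℂ (w - z)) / ((w - z) * starRingEnd ℂ (w - z'))) ^ n
    / (starRingEnd ℂ (w - z) * starRingEnd ℂ (w - z')) / (n * (z' - z))

/-- `∂_w W` for a real function `W` -/
noncomputable def dW (W : ℂ → ℝ) (w : ℂ) : ℂ :=
  ((fderiv ℝ W w 1 : ℝ) - Complex.I * (fderiv ℝ W w Complex.I : ℝ)) / 2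

/-- (VForm) integration by parts, identity -/
def StmtVid : Prop := ∀ (n : ℕ) (z z' : ℂ) (W : ℂ → ℝ) (c₀ : ℝ), 1 ≤ n → z ≠ z' → ContDiff ℝ 1 W →
  HasCompactSupport (fun w => W w - c₀) → (∀ᶠ w in 𝓝 z, W w = 0) → (∀ᶠ w in 𝓝 z', W w = 0) →
  Integrable (fun w => kk n (w - z) * starRingEnd ℂ (kk n (w - z')) * (W w : ℂ)) ∧
  Integrable (fun w => Vf n z z' w * dW W w) ∧
  ∫ w, kk n (w - z) * starRingEnd ℂ (kk n (w - z')) * (W w : ℂ) = - ∫ w, Vf n z z' w * dW W w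

/-- (VForm) integration by parts, bound -/
def StmtV : Prop := ∀ (n : ℕ) (z z' : ℂ) (W : ℂ → ℝ) (c₀ : ℝ), 1 ≤ n → z ≠ z' → ContDiff ℝ 1 W →
  HasCompactSupport (fun w => W w - c₀) → (∀ᶠ w in 𝓝 z, W w = 0) → (∀ᶠ w in 𝓝 z', W w = 0) →
  Integrable (fun w => ‖fderiv ℝ W w‖ / (‖w - z‖ * ‖w - z'‖)) ∧
  ‖∫ w, kk n (w - z) * starRingEnd ℂ (kk n (w - z')) * (W w : ℂ)‖ ≤
    1 / (2 * n * ‖z - z'‖) * ∫ w, ‖fderiv ℝ W w‖ / (‖w - z‖ * ‖w - z'‖)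

/-- (Cut) the radial cutoffs -/
def StmtCut : Prop := ∀ ρ : ℝ, 0 < ρ →
  (∀ k : ℕ∞, ContDiff ℝ k (ct ρ)) ∧ (∀ ζ, 0 ≤ ct ρ ζ) ∧ (∀ ζ, ct ρ ζ ≤ 1) ∧
  (∀ ζ, ‖ζ‖ ≤ ρ → ct ρ ζ = 0) ∧ (∀ ζ, 2 * ρ ^ 2 ≤ ‖ζ‖ ^ 2 → ct ρ ζ = 1) ∧
  (∀ ζ, ‖fderiv ℝ (ct ρ) ζ‖ ≤ 4 * Mst / ‖ζ‖) ∧
  (∀ ζ, ‖ζ‖ < ρ → fderiv ℝ (ct ρ) ζ = 0) ∧ (∀ ζ, 2 * ρ ^ 2 < ‖ζ‖ ^ 2 → fderiv ℝ (ct ρ) ζ = 0)

/-- (Wt) the weights of the near pairs -/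
def StmtWt : Prop := ∀ (D : Cfg) (l i : ℕ) (j j' : D.ι), l < D.cl.N → i < l →
  j ∈ D.cl.C l → j' ∈ D.cl.C i →
  ContDiff ℝ 1 (D.Wt l i j j') ∧ HasCompactSupport (D.Wt l i j j') ∧
  (∀ᶠ w in 𝓝 (D.z j), D.Wt l i j j' w = 0) ∧ (∀ᶠ w in 𝓝 (D.z j'), D.Wt l i j j' w = 0) ∧
  (∀ w, 0 ≤ D.Wt l i j j' w) ∧
  (∀ w, w ∉ D.Reg l ∩ D.Reg i → D.Wt l i j j' w = 0 ∧ fderiv ℝ (D.Wt l i j j') w = 0) ∧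
  (∀ w ∈ D.Reg l ∩ D.Reg i, D.Wt l i j j' w ≤ 1 / D.Sw l w ^ 2 ∧
    ‖fderiv ℝ (D.Wt l i j j') w‖ ≤ (5 * Mst + 4) / D.cl.R l / D.Sw l w ^ 2)

/-- (Pair) the bounds for one near pair -/
def StmtPair : Prop := ∀ (D : Cfg) (l i : ℕ) (j j' : D.ι), l < D.cl.N → i < l →
  j ∈ D.cl.C l → j' ∈ D.cl.C i →
  Integrable (fun w => kk D.n (w - D.z j) * starRingEnd ℂ (kk D.n (w - D.z j'))
    * (D.Wt l i j j' w : ℂ)) ∧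
  ‖∫ w, kk D.n (w - D.z j) * starRingEnd ℂ (kk D.n (w - D.z j')) * (D.Wt l i j j' w : ℂ)‖
    ≤ 16 * D.J l i ∧
  (D.cl.R i / D.m ≤ ‖D.z j - D.z j'‖ →
    ‖∫ w, kk D.n (w - D.z j) * starRingEnd ℂ (kk D.n (w - D.z j')) * (D.Wt l i j j' w : ℂ)‖
      ≤ D.CF / D.n * D.J l i)

/-- (JSum) -/
def StmtJSum : Prop := ∀ (D : Cfg) (l : ℕ), l < D.cl.N →
  (∀ i < l, IntegrableOn (fun w => 1 / (D.v l w ^ 2 * D.v i w ^ 2 * D.Sw l w ^ 2))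
    (D.Reg l ∩ D.Reg i) ∧ 0 ≤ D.J l i) ∧
  ∑ i ∈ Finset.range l, D.A i * D.J l i ≤ D.CG

/-- (Cross) sum of all near cross terms -/
def StmtCross : Prop := ∀ D : Cfg,
  (∀ l < D.cl.N, Integrable (fun w => 2 * (D.f l w *
    starRingEnd ℂ (∑ i ∈ Finset.range l, D.f i w)).re / D.Sw l w ^ 2)) ∧
  ∑ l ∈ Finset.range D.cl.N, ∫ w, 2 * (D.f l w *
    starRingEnd ℂ (∑ i ∈ Finset.range l, D.f i w)).re / D.Sw l w ^ 2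
  ≤ 2 * D.CG * (D.CF / D.n + 64 / D.m) * ∑ j ∈ D.S, ‖D.a j‖

/-- (Dom) the majorant dominates -/
def StmtDom : Prop := ∀ (D : Cfg) (i : ℕ), i < D.cl.N → ∀ w, ‖(D.σ : ℂ) * D.f i w‖ ^ 2 ≤ D.b i w

/-- (PsiInt) -/
def StmtPsiInt : Prop := ∀ B : ℝ, 0 < B →
  Integrable (fun w : ℂ => psi (B ^ 2 / (‖w‖ ^ 2) ^ 2)) ∧
  ∫ w : ℂ, psi (B ^ 2 / (‖w‖ ^ 2) ^ 2) = Real.pi ^ 2 / 2 * B

/-- (BInt) -/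
def StmtBInt : Prop := ∀ (D : Cfg) (i : ℕ), i < D.cl.N →
  Integrable (fun w => psi (D.b i w)) ∧
  ∫ w, psi (D.b i w) ≤ Real.pi ^ 2 / 2 * (D.σ * (1 + 8 / D.K) * D.A i)

/-- (Near) -/
def StmtNear : Prop := ∀ D : Cfg,
  Integrable (fun w => psi (D.σ ^ 2 * ‖∑ i ∈ Finset.range D.cl.N, D.f i w‖ ^ 2)) ∧
  ∫ w, psi (D.σ ^ 2 * ‖∑ i ∈ Finset.range D.cl.N, D.f i w‖ ^ 2) ≤
    (Real.pi ^ 2 / 2 * (D.σ * (1 + 8 / D.K)) + 8 * D.CG * (D.CF / D.n + 64 / D.m))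
      * ∑ j ∈ D.S, ‖D.a j‖

/-- (Circle) radial pieces of the primitive integrate to zero -/
def StmtCircle : Prop := ∀ (n : ℕ) (z z' : ℂ) (r ε : ℝ) (U : ℝ → ℝ), 1 ≤ n → 0 < ε → r < ‖z - z'‖ →
  ContDiff ℝ 1 U → (∀ s, s ≤ ε → U s = 0) → (∀ s, r ^ 2 ≤ s → U s = 1) → 0 < r →
  ∫ w, Vf n z z' w * dW (fun w => U (Complex.normSq (w - z))) w = 0 ∧
  ∫ w, Vf n z z' w * dW (fun w => U (Complex.normSq (w - z'))) w = 0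

/-- (Orth) exact orthogonality of truncated kernels about far apart centres -/
def StmtOrth : Prop := ∀ (n : ℕ) (z z' : ℂ) (r₁ r₂ ε : ℝ) (U₁ U₂ : ℝ → ℝ), 1 ≤ n → 0 < ε →
  0 < r₁ → 0 < r₂ → r₁ + r₂ ≤ ‖z - z'‖ → ContDiff ℝ 1 U₁ → ContDiff ℝ 1 U₂ →
  (∀ s, s ≤ ε → U₁ s = 0) → (∀ s, r₁ ^ 2 ≤ s → U₁ s = 1) →
  (∀ s, s ≤ ε → U₂ s = 0) → (∀ s, r₂ ^ 2 ≤ s → U₂ s = 1) →
  ∫ w, kk n (w - z) * starRingEnd ℂ (kk n (w - z')) *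
    ((U₁ (Complex.normSq (w - z)) * U₂ (Complex.normSq (w - z')) : ℝ) : ℂ) = 0

/-- the truncated kernel with two cutoffs -/
noncomputable def fk (n : ℕ) (η ρ : ℝ) (ζ : ℂ) : ℂ := kk n ζ * ((ct η ζ * ct ρ ζ : ℝ) : ℂ)

/-- (FarPair) inner products of far kernels -/
def StmtFarPair : Prop := ∀ (n : ℕ) (η ρ₁ ρ₂ : ℝ) (z z' : ℂ), 1 ≤ n → 0 < η → 0 < ρ₁ → ρ₁ ≤ ρ₂ →
  Integrable (fun w => fk n η ρ₁ (w - z) * starRingEnd ℂ (fk n η ρ₂ (w - z'))) ∧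
  (3 * max η ρ₂ ≤ ‖z - z'‖ →
    ∫ w, fk n η ρ₁ (w - z) * starRingEnd ℂ (fk n η ρ₂ (w - z')) = 0) ∧
  (z ≠ z' → ‖∫ w, fk n η ρ₁ (w - z) * starRingEnd ℂ (fk n η ρ₂ (w - z'))‖ ≤
    25 * Real.pi * Mst / (n * ‖z - z'‖ * max η ρ₂)) ∧
  (‖z - z'‖ ≤ max η ρ₂ / 2 → ‖∫ w, fk n η ρ₁ (w - z) * starRingEnd ℂ (fk n η ρ₂ (w - z'))‖ ≤
    4 * Real.pi / max η ρ₂ ^ 2) ∧
  (ρ₁ = ρ₂ → ‖∫ w, fk n η ρ₁ (w - z) * starRingEnd ℂ (fk n η ρ₂ (w - z'))‖ ≤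
    Real.pi / max η ρ₂ ^ 2)

/-- (Far) -/
def StmtFar : Prop := ∀ D : Cfg,
  Integrable (fun w => ‖∑ i ∈ Finset.range D.cl.N, D.g i w‖ ^ 2) ∧
  ∫ w, ‖∑ i ∈ Finset.range D.cl.N, D.g i w‖ ^ 2 ≤
    (36 * Real.pi / D.L ^ 2 + 1800 * Real.pi * Mst * D.L / (D.n * D.κ ^ 3)) * ∑ j ∈ D.S, ‖D.a j‖

/-- (Key) the main inequality for finitely many atoms -/
def StmtKey : Prop := ∀ ε : ℝ, 0 < ε → ∃ n₀ : ℕ, 1 ≤ n₀ ∧ ∀ n ≥ n₀, ∀ (ι : Type) (S : Finset ι)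
  (z a : ι → ℂ) (η : ℝ), 0 < η →
  ∫⁻ w, ENNReal.ofReal (psi (‖field n η S z a w‖ ^ 2)) ≤
    ENNReal.ofReal ((1 + ε) * (Real.pi ^ 2 / 2) * ∑ j ∈ S, ‖a j‖)

/-- (Conv) the main inequality for truncated singular integrals -/
def StmtConv : Prop := ∀ ε : ℝ, 0 < ε → ∃ n₀ : ℕ, 1 ≤ n₀ ∧ ∀ n ≥ n₀, ∀ (η : ℝ) (f : ℂ → ℂ), 0 < η →
  Continuous f → HasCompactSupport f →
  ∫⁻ w, ENNReal.ofReal (psi (‖∫ z, f z * (kk n (w - z) * (ct η (w - z) : ℂ))‖ ^ 2)) ≤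
    ENNReal.ofReal ((1 + ε) * (Real.pi ^ 2 / 2) * ∫ z, ‖f z‖)

/-- (Pair1) the explicit pair `T^n P = K` tested against a Schwartz function -/
def StmtExplicit : Prop := ∀ (n : ℕ) (f : 𝓢(ℂ, ℂ)) (w : ℂ) (σ : ℝ), 1 ≤ n → 0 < σ →
  ((-1) ^ n * n / Real.pi : ℂ) * ∫ z, f z * (kk n (w - z) *
      ((Complex.normSq (w - z) / (σ ^ 2 + Complex.normSq (w - z)) : ℝ) : ℂ) ^ (n + 1)) =
    ((n / Real.pi * σ ^ (2 * n) : ℝ) : ℂ) *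
      ∫ z, Tn n f z * (((σ ^ 2 + Complex.normSq (w - z)) ^ (n + 1) : ℝ) : ℂ)⁻¹

/-- (Lim) `T^n f` is the limit of the truncated integrals -/
def StmtLim : Prop := ∀ (n : ℕ) (f : 𝓢(ℂ, ℂ)) (w : ℂ), 1 ≤ n →
  Tendsto (fun η : ℝ => ((-1) ^ n * n / Real.pi : ℂ) *
    ∫ z, f z * (kk n (w - z) * (ct η (w - z) : ℂ))) (𝓝[>] 0) (𝓝 (Tn n f w))

/-- the main inequality for `T^n` (a property of `n` and `ε`) -/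
def KeyT (n : ℕ) (ε : ℝ) : Prop := ∀ (f : 𝓢(ℂ, ℂ)) (lam : ℝ), HasCompactSupport f → 0 < lam →
  ∫⁻ w, ENNReal.ofReal (psi (‖Tn n f w‖ ^ 2 / lam ^ 2)) ≤
    ENNReal.ofReal ((1 + ε) * (Real.pi * n / (2 * lam)) * ∫ z, ‖f z‖)

/-- (KeyT) -/
def StmtKeyT : Prop := ∀ ε : ℝ, 0 < ε → ∃ n₀ : ℕ, 1 ≤ n₀ ∧ ∀ n ≥ n₀, KeyT n ε

/-- the three Beta type constants -/
noncomputable def cq (q : ℝ) : ℝ := ∫ u in Ioi (0 : ℝ), u ^ (q - 1) / (1 + u ^ 2)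
noncomputable def aq (q : ℝ) : ℝ := ∫ u in Ioi (0 : ℝ), u ^ (q - 2) / (1 + u ^ 2)
noncomputable def bq (q : ℝ) : ℝ := ∫ u in Ioi (0 : ℝ), u ^ (q + 1) / (1 + u ^ 2) ^ 2

/-- (Consts) -/
def StmtConsts : Prop := ∀ q : ℝ, 1 < q → q < 2 →
  IntegrableOn (fun u : ℝ => u ^ (q - 1) / (1 + u ^ 2)) (Ioi 0) ∧
  IntegrableOn (fun u : ℝ => u ^ (q - 2) / (1 + u ^ 2)) (Ioi 0) ∧
  IntegrableOn (fun u : ℝ => u ^ (q + 1) / (1 + u ^ 2) ^ 2) (Ioi 0) ∧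
  Real.pi / 2 ≤ cq q ∧ aq q ≤ 1 / (q - 1) + 1 / (3 - q) ∧ bq q = q / 2 * cq q

/-- (Consts2) exact values -/
def StmtConsts2 : Prop := ∀ q : ℝ, 1 < q → q < 2 →
  cq q = Real.pi / 2 / Real.cos (Real.pi / 2 * (q - 1)) ∧
  aq q = Real.pi / 2 / Real.sin (Real.pi / 2 * (q - 1))

/-- (Consts3) `x cot x ≤ 1 - x ^ 2 / 3` for `x = π (q - 1) / 2` -/
def StmtConsts3 : Prop := ∀ q : ℝ, 1 < q → q < 2 →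
  Real.pi / 2 * (q - 1) * aq q ≤ (1 - 41 / 50 * (q - 1) ^ 2) * cq q

/-- (Split) for one `λ`: splitting `f = f |f|²/(|f|²+s²) + rest` -/
def StmtSplit : Prop := ∀ (n : ℕ) (ε : ℝ), 0 ≤ ε → KeyT n ε → ∀ (f : 𝓢(ℂ, ℂ)) (lam s σ : ℝ),
  HasCompactSupport f → 0 < lam → 0 < s → 1 < σ →
  ∫⁻ w, ENNReal.ofReal (psi (‖Tn n f w‖ ^ 2 / lam ^ 2)) ≤
    ENNReal.ofReal ((1 + ε) * σ * (Real.pi * n / (2 * lam)) *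
        (∫ z, ‖f z‖ ^ 3 / (‖f z‖ ^ 2 + s ^ 2))
      + σ ^ 2 / (σ ^ 2 - 1) / lam ^ 2 * ∫ z, ‖f z‖ ^ 2 * s ^ 4 / (‖f z‖ ^ 2 + s ^ 2) ^ 2)

/-- (Marc) integration over `λ` -/
def StmtMarc : Prop := ∀ (n : ℕ) (ε : ℝ), 1 ≤ n → 0 ≤ ε → KeyT n ε →
  ∀ (f : 𝓢(ℂ, ℂ)) (q t σ : ℝ), HasCompactSupport f → 1 < q → q < 2 → 0 < t → 1 < σ →
  ENNReal.ofReal (cq q) * ∫⁻ w, ‖Tn n f w‖ₑ ^ q ≤
    ENNReal.ofReal ((n : ℝ) ^ (2 - q) * ((1 + ε) * σ * (Real.pi / 2) * t ^ (1 - q) * aq q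
      + σ ^ 2 / (σ ^ 2 - 1) * t ^ (2 - q) * bq q)) * ∫⁻ w, ‖f w‖ₑ ^ q

/-- (Dual) duality from `q` to `p` -/
def StmtDual : Prop := ∀ (n : ℕ) (p q C : ℝ), 2 < p → 1 / p + 1 / q = 1 → 0 ≤ C →
  (∀ f : 𝓢(ℂ, ℂ), HasCompactSupport f →
    ∫⁻ w, ‖Tn n f w‖ₑ ^ q ≤ ENNReal.ofReal (C ^ q) * ∫⁻ w, ‖f w‖ₑ ^ q) →
  ∀ f : 𝓢(ℂ, ℂ), eLpNorm (Tn n f) (ENNReal.ofReal p) volume ≤
    ENNReal.ofReal C * eLpNorm f (ENNReal.ofReal p) volume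

/-- the conjectured constant -/
noncomputable def ratio (n : ℕ) (p : ℝ) : ℝ :=
  (ascPochhammer ℝ n).eval (1 - 1 / p) / (ascPochhammer ℝ n).eval (1 / p)

/-- (Ratio) lower bound for the conjectured constant, `x = 1/p` -/
def StmtRatio : Prop := ∀ (n : ℕ) (p : ℝ), 1 ≤ n → 4 ≤ p →
  (n : ℝ) ^ (1 - 2 / p) * (p - 1) * Real.exp (-(2 / p) - 7 / p ^ 2) ≤ ratio n p

/-- (Ratio2) a lower bound for all `p ≥ 2` -/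
def StmtRatio2 : Prop := ∀ (n : ℕ) (p : ℝ), 1 ≤ n → 2 ≤ p →
  Real.exp (-(19 / 500 * (1 - 2 / p))) * ((n : ℝ) ^ (1 - 2 / p) * (p - 1)) ≤ ratio n p

/-- (Num) the numerical inequality behind (Final2) -/
def StmtNum : Prop := ∀ d : ℝ, 0 < d → d < 1 →
  (1 + 3 * d) / 2 * Real.log (1 + d) - 3 / 2 * (1 - d) * Real.log (1 - d)
    + (1 - d) * Real.log (1 - 41 / 50 * d ^ 2) - d * Real.log 4 + 19 / 500 * (1 - d) + 1 / 50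
  ≤ (1 + d) * Real.log (6 / 5)

/-- (Final1) -/
def StmtFinal1 : Prop := ∀ ε : ℝ, 0 < ε → ∃ (n₀ : ℕ) (p₀ : ℝ), ∀ n ≥ n₀, ∀ p ≥ p₀,
  ∀ f : 𝓢(ℂ, ℂ), eLpNorm (Tn n f) (ENNReal.ofReal p) volume ≤
    ENNReal.ofReal ((1 + ε) * ratio n p) * eLpNorm f (ENNReal.ofReal p) volume

/-- (Final2) -/
def StmtFinal2 : Prop := ∃ n₀ : ℕ, ∀ n ≥ n₀, ∀ p : ℝ, 2 ≤ p →
  ∀ f : 𝓢(ℂ, ℂ), eLpNorm (Tn n f) (ENNReal.ofReal p) volume ≤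
    ENNReal.ofReal (6 / 5 * ratio n p) * eLpNorm f (ENNReal.ofReal p) volume

end Pool.Agent.Lib.MP_dd244f_an.Joint
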