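import Mathlib

/-!
Full operator, joint limit: definitions.
See the blueprint `dd244f_joint_blueprint.md` in the team store.
-/

set_option autoImplicit false

namespace Pool.Agent.Lib.MP_dd244f_an.Joint

open MeasureTheory Filter Topology

/-- The kernel `(conj ζ / ζ) ^ n / |ζ| ^ 2`. -/
noncomputable def kk (n : ℕ) (ζ : ℂ) : ℂ :=
  (starRingEnd ℂ ζ / ζ) ^ n / (Complex.normSq ζ : ℂ)

/-- Smooth step: `0` for `s ≤ 1`, `1` for `s ≥ 2`, values in `[0,1]`. -/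
noncomputable def st (s : ℝ) : ℝ := Real.smoothTransition (s - 1)

/-- Radial cutoff: `0` for `|ζ| ≤ ρ`, `1` for `|ζ| ^ 2 ≥ 2 ρ ^ 2`. -/
noncomputable def ct (ρ : ℝ) (ζ : ℂ) : ℝ := st (Complex.normSq ζ / ρ ^ 2)

/-- The bounded concave function `x / (1 + x)`. -/
noncomputable def psi (x : ℝ) : ℝ := x / (1 + x)

theorem st_contDiff {k : ℕ∞} : ContDiff ℝ k st := by
  unfold st
  exact Real.smoothTransition.contDiff.comp (contDiff_id.sub contDiff_const)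

theorem st_nonneg (s : ℝ) : 0 ≤ st s := Real.smoothTransition.nonneg _

theorem st_le_one (s : ℝ) : st s ≤ 1 := Real.smoothTransition.le_one _

theorem st_zero {s : ℝ} (h : s ≤ 1) : st s = 0 :=
  Real.smoothTransition.zero_of_nonpos (by linarith)

theorem st_one {s : ℝ} (h : 2 ≤ s) : st s = 1 :=
  Real.smoothTransition.one_of_one_le (by linarith)

theorem deriv_st_left {s : ℝ} (h : s < 1) : deriv st s = 0 := by
  have : st =ᶠ[𝓝 s] fun _ => (0 : ℝ) := by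
    filter_upwards [Iio_mem_nhds h] with t ht
    exact st_zero (le_of_lt ht)
  rw [this.deriv_eq]; simp

theorem deriv_st_right {s : ℝ} (h : 2 < s) : deriv st s = 0 := by
  have : st =ᶠ[𝓝 s] fun _ => (1 : ℝ) := by
    filter_upwards [Ioi_mem_nhds h] with t ht
    exact st_one (le_of_lt ht)
  rw [this.deriv_eq]; simp

theorem exists_Mst : ∃ M : ℝ, 1 ≤ M ∧ ∀ s, |deriv st s| ≤ M := by
  have hc : Continuous (deriv st) :=
    (st_contDiff (k := 1)).continuous_deriv (by simp)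
  obtain ⟨M, hM⟩ := (isCompact_Icc (a := (1:ℝ)) (b := 2)).exists_bound_of_continuousOn
    hc.continuousOn
  refine ⟨max M 1, le_max_right _ _, fun s => ?_⟩
  rcases lt_or_ge s 1 with h | h
  · rw [deriv_st_left h]; simp
  rcases lt_or_ge 2 s with h' | h'
  · rw [deriv_st_right h']; simp
  · exact (hM s ⟨h, h'⟩).trans (le_max_left _ _)

/-- A bound for the derivative of `st`. -/
noncomputable def Mst : ℝ := Classical.choose exists_Mst

theorem one_le_Mst : 1 ≤ Mst := (Classical.choose_spec exists_Mst).1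

theorem deriv_st_le (s : ℝ) : |deriv st s| ≤ Mst := (Classical.choose_spec exists_Mst).2 s

/-- A decomposition of a finite set `S` of atoms (positions `z`, masses `A`) into clusters. -/
structure Clusters (ι : Type) (z : ι → ℂ) (A : ι → ℝ) (κ : ℝ) (m : ℕ) (S : Finset ι) where
  /-- number of clusters -/
  N : ℕ
  /-- remaining atoms before step `i` -/
  T : ℕ → Finset ι
  /-- the `i`-th cluster -/
  C : ℕ → Finset ι
  /-- centres -/
  c : ℕ → ℂ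
  /-- basic radii -/
  R : ℕ → ℝ
  /-- cluster radii -/
  s : ℕ → ℝ
  hT0 : T 0 = S
  hTN : T N = ∅
  hC : ∀ i < N, ∀ j, j ∈ C i ↔ j ∈ T i ∧ ‖z j - c i‖ ≤ s i
  hT : ∀ i < N, ∀ j, j ∈ T (i + 1) ↔ j ∈ T i ∧ s i < ‖z j - c i‖
  hRpos : ∀ i < N, 0 < R i
  hRanti : ∀ i k, i ≤ k → k < N → R k ≤ R i
  hs1 : ∀ i < N, R i ≤ s i
  hs2 : ∀ i < N, s i ≤ 2 * R i
  hA1 : ∀ i < N, R i ^ 2 ≤ κ ^ 2 * ∑ j ∈ C i, A j
  hA2 : ∀ i < N, κ ^ 2 * ∑ j ∈ C i, A j ≤ 4 * R i ^ 2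
  /-- density bound for the remaining atoms at scales `≥ R i` -/
  hD : ∀ i < N, ∀ x : ℂ, ∀ ρ : ℝ, R i ≤ ρ → ∀ U : Finset ι, U ⊆ T i → (∀ j ∈ U, ‖z j - x‖ ≤ ρ) →
    κ ^ 2 * ∑ j ∈ U, A j ≤ 4 * ρ ^ 2
  /-- little mass near the boundary of the `i`-th cluster -/
  hAnn : ∀ i < N, ∀ U : Finset ι, U ⊆ T i →
    (∀ j ∈ U, s i < ‖z j - c i‖ ∧ ‖z j - c i‖ ≤ s i + R i / m) →
    κ ^ 2 * ∑ j ∈ U, A j ≤ 4 / m * R i ^ 2

/-- All data of the main estimate. -/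
structure Cfg where
  ι : Type
  z : ι → ℂ
  a : ι → ℂ
  S : Finset ι
  κ : ℝ
  L : ℝ
  K : ℝ
  η : ℝ
  σ : ℝ
  m : ℕ
  n : ℕ
  hκ : 0 < κ
  hκ1 : κ ≤ 1
  hL : 2 ≤ L
  hK : 8 ≤ K
  hη : 0 < η
  hσ : 1 ≤ σ
  hσ2 : σ ≤ 2
  hm : 1 ≤ m
  hn : 1 ≤ n
  cl : Clusters ι z (fun j => ‖a j‖) κ m S

namespace Cfg

variable (D : Cfg)

/-- mass of the `i`-th cluster -/
noncomputable def A (i : ℕ) : ℝ := ∑ j ∈ D.cl.C i, ‖D.a j‖

/-- outer radius of the near part -/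
noncomputable def rho (i : ℕ) : ℝ := D.L / D.κ * D.cl.R i

/-- distance to the centre -/
noncomputable def v (i : ℕ) (w : ℂ) : ℝ := ‖w - D.cl.c i‖

/-- inner cutoff at the centre of cluster `i` -/
noncomputable def chi (i : ℕ) (w : ℂ) : ℝ := ct (D.K * D.cl.R i) (w - D.cl.c i)

/-- profile of the near kernel of cluster `i` -/
noncomputable def nr (i : ℕ) (ζ : ℂ) : ℝ := ct D.η ζ * (1 - ct (D.rho i) ζ)

/-- profile of the far kernel of cluster `i` -/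
noncomputable def fr (i : ℕ) (ζ : ℂ) : ℝ := ct D.η ζ * ct (D.rho i) ζ

/-- near field of cluster `i`, cut off near the centre -/
noncomputable def f (i : ℕ) (w : ℂ) : ℂ :=
  (D.chi i w : ℂ) * ∑ j ∈ D.cl.C i, D.a j * (kk D.n (w - D.z j) * (D.nr i (w - D.z j) : ℂ))

/-- far field of cluster `i` -/
noncomputable def g (i : ℕ) (w : ℂ) : ℂ :=
  ∑ j ∈ D.cl.C i, D.a j * (kk D.n (w - D.z j) * (D.fr i (w - D.z j) : ℂ))

/-- the non-oscillating majorant of `σ ^ 2 |f i| ^ 2` -/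
noncomputable def b (i : ℕ) (w : ℂ) : ℝ :=
  (D.σ * (1 + 8 / D.K) * D.A i) ^ 2 / (D.v i w ^ 2 + D.cl.R i ^ 2) ^ 2

/-- `S_l = 1 + ∑_{i ≤ l} b_i` -/
noncomputable def Sw (l : ℕ) (w : ℂ) : ℝ := 1 + ∑ i ∈ Finset.range (l + 1), D.b i w

/-- the region in which the near field of cluster `i` lives -/
def Reg (i : ℕ) : Set ℂ := {w | D.K * D.cl.R i ≤ D.v i w ∧ D.v i w ≤ 4 * D.rho i}

/-- the weight of the pair `(j, j')`, `j` in cluster `l`, `j'` in cluster `i` -/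
noncomputable def Wt (l i : ℕ) (j j' : D.ι) (w : ℂ) : ℝ :=
  D.chi l w * D.chi i w * D.nr l (w - D.z j) * D.nr i (w - D.z j') / D.Sw l w ^ 2

/-- the basic integral -/
noncomputable def J (l i : ℕ) : ℝ :=
  ∫ w in D.Reg l ∩ D.Reg i, 1 / (D.v l w ^ 2 * D.v i w ^ 2 * D.Sw l w ^ 2)

/-- constants -/
noncomputable def CF : ℝ :=
  8 * (1 + 4 * D.m + 4 * D.m * (D.L / D.κ)) * (5 * Mst + 4) * (D.L / D.κ)

noncomputable def CG : ℝ := 1024 * Real.pi * D.L ^ 4 / (D.κ ^ 2 * D.K ^ 2)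

end Cfg

/-- total field of the atoms with the kernel truncated at `η` -/
noncomputable def field (n : ℕ) (η : ℝ) {ι : Type} (S : Finset ι) (z a : ι → ℂ) (w : ℂ) : ℂ :=
  ∑ j ∈ S, a j * (kk n (w - z j) * (ct η (w - z j) : ℂ))

end Pool.Agent.Lib.MP_dd244f_an.Joint
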