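import Pool.Agent.Lib.MP_dd244f_an.Joint.Stmts
import Pool.Agent.Lib.MP_dd244f_an.Joint.Basic

/-!
The integral of `psi (b i)` (`StmtBInt`).
-/

set_option autoImplicit false

namespace Pool.Agent.Lib.MP_dd244f_an.Joint

open MeasureTheory Filter Topology Set

theorem bint (h : StmtPsiInt) : StmtBInt := by
  intro D i hi
  have hσ := D.hσ
  have hK := D.hK
  have hA := D.A_pos hi
  have hR := D.cl.hRpos i hi
  set B : ℝ := D.σ * (1 + 8 / D.K) * D.A i with hB
  have hBpos : 0 < B := by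
    have : 0 < D.K := by linarith
    have : 0 < D.σ := by linarith
    positivity
  obtain ⟨h1, h2⟩ := h B hBpos
  have h1' : Integrable (fun w : ℂ => psi (B ^ 2 / (‖w - D.cl.c i‖ ^ 2) ^ 2)) :=
    h1.comp_sub_right (D.cl.c i)
  have h2' : ∫ w : ℂ, psi (B ^ 2 / (‖w - D.cl.c i‖ ^ 2) ^ 2) = Real.pi ^ 2 / 2 * B := by
    rw [integral_sub_right_eq_self (fun w : ℂ => psi (B ^ 2 / (‖w‖ ^ 2) ^ 2)) (D.cl.c i), h2]
  have hle : ∀ᵐ w : ℂ, psi (D.b i w) ≤ psi (B ^ 2 / (‖w - D.cl.c i‖ ^ 2) ^ 2) := by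
    have hne : ∀ᵐ w : ℂ, w ≠ D.cl.c i := by
      have : (volume : Measure ℂ) {D.cl.c i} = 0 := measure_singleton _
      rw [ae_iff]
      simp
    filter_upwards [hne] with w hw
    apply psi_mono (D.b_nonneg i w)
    unfold Cfg.b Cfg.v
    rw [← hB]
    have hv : 0 < ‖w - D.cl.c i‖ := norm_pos_iff.2 (sub_ne_zero.2 hw)
    apply div_le_div_of_nonneg_left (by positivity) (by positivity)
    apply pow_le_pow_left₀ (by positivity)
    nlinarith [sq_nonneg (D.cl.R i)]
  have hmeas : AEStronglyMeasurable (fun w => psi (D.b i w)) volume := by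
    apply Measurable.aestronglyMeasurable
    unfold psi Cfg.b Cfg.v
    fun_prop
  have hInt : Integrable (fun w => psi (D.b i w)) := by
    refine h1'.mono hmeas ?_
    filter_upwards [hle] with w hw
    rw [Real.norm_of_nonneg (psi_nonneg (D.b_nonneg i w))]
    exact hw.trans (le_abs_self _)
  refine ⟨hInt, ?_⟩
  rw [← h2']
  exact integral_mono_ae hInt h1' hle

end Pool.Agent.Lib.MP_dd244f_an.Joint
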