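import Pool.Agent.Lib.MP_dd244f_an.Joint.Stmts
import Pool.Agent.Lib.MP_dd244f_an.Joint.Consts2

/-! Consts: integrability and bounds of three Beta type integrals. -/

set_option autoImplicit false

namespace Pool.Agent.Lib.MP_dd244f_an.Joint

open MeasureTheory Filter Topology Set

namespace C1

lemma bnd (f : ℝ → ℝ) (s t : ℝ) (hc : ContinuousOn f (Ioi 0)) (h0 : ∀ u ∈ Ioi (0 : ℝ), 0 ≤ f u)
    (h1 : ∀ u ∈ Ioc (0 : ℝ) 1, f u ≤ u ^ s) (h2 : ∀ u ∈ Ioi (1 : ℝ), f u ≤ u ^ t)
    (hs : -1 < s) (ht : t < -1) :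
    IntegrableOn f (Ioi 0) ∧ ∫ u in Ioi (0 : ℝ), f u ≤ 1 / (s + 1) + 1 / (-t - 1) := by
  have e1 : IntegrableOn (fun u : ℝ => u ^ s) (Ioc 0 1) :=
    (intervalIntegrable_iff_integrableOn_Ioc_of_le zero_le_one).1
      (intervalIntegral.intervalIntegrable_rpow' hs)
  have e2 : IntegrableOn (fun u : ℝ => u ^ t) (Ioi 1) := integrableOn_Ioi_rpow_of_lt ht one_pos
  have hsub1 : Ioc (0 : ℝ) 1 ⊆ Ioi 0 := fun u hu => hu.1
  have hsub2 : Ioi (1 : ℝ) ⊆ Ioi 0 := Ioi_subset_Ioi zero_le_one
  have g1 : IntegrableOn f (Ioc 0 1) := by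
    refine Integrable.mono' e1 ((hc.mono hsub1).aestronglyMeasurable measurableSet_Ioc) ?_
    refine (ae_restrict_iff' measurableSet_Ioc).2 (Eventually.of_forall fun u hu => ?_)
    rw [Real.norm_of_nonneg (h0 u (hsub1 hu))]
    exact h1 u hu
  have g2 : IntegrableOn f (Ioi 1) := by
    refine Integrable.mono' e2 ((hc.mono hsub2).aestronglyMeasurable measurableSet_Ioi) ?_
    refine (ae_restrict_iff' measurableSet_Ioi).2 (Eventually.of_forall fun u hu => ?_)
    rw [Real.norm_of_nonneg (h0 u (hsub2 hu))]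
    exact h2 u hu
  have hU : Ioc (0 : ℝ) 1 ∪ Ioi 1 = Ioi 0 := Ioc_union_Ioi_eq_Ioi zero_le_one
  have hd : Disjoint (Ioc (0 : ℝ) 1) (Ioi 1) := by
    rw [Set.disjoint_left]
    intro u hu hu'
    exact absurd hu.2 (not_le.2 hu')
  refine ⟨?_, ?_⟩
  · rw [← hU]
    exact g1.union g2
  · rw [← hU, setIntegral_union hd measurableSet_Ioi g1 g2]
    have i1 : ∫ u in Ioc (0 : ℝ) 1, f u ≤ 1 / (s + 1) := by
      calc ∫ u in Ioc (0 : ℝ) 1, f u ≤ ∫ u in Ioc (0 : ℝ) 1, u ^ s :=
            setIntegral_mono_on g1 e1 measurableSet_Ioc h1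
        _ = 1 / (s + 1) := by
            rw [← intervalIntegral.integral_of_le zero_le_one, integral_rpow (Or.inl hs)]
            rw [Real.one_rpow, Real.zero_rpow (by linarith)]
            ring
    have i2 : ∫ u in Ioi (1 : ℝ), f u ≤ 1 / (-t - 1) := by
      calc ∫ u in Ioi (1 : ℝ), f u ≤ ∫ u in Ioi (1 : ℝ), u ^ t :=
            setIntegral_mono_on g2 e2 measurableSet_Ioi h2
        _ = 1 / (-t - 1) := by
            rw [integral_Ioi_rpow_of_lt ht one_pos, Real.one_rpow]
            have h3 : t + 1 ≠ 0 := by linarith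
            have h4 : -t - 1 ≠ 0 := by linarith
            field_simp
            ring
    linarith

lemma contOn (s : ℝ) (k : ℕ) : ContinuousOn (fun u : ℝ => u ^ s / (1 + u ^ 2) ^ k) (Ioi 0) := by
  apply ContinuousOn.div
  · intro u hu
    exact (Real.continuousAt_rpow_const _ _ (Or.inl (ne_of_gt hu))).continuousWithinAt
  · fun_prop
  · intro u _
    positivity

lemma contOn1 (s : ℝ) : ContinuousOn (fun u : ℝ => u ^ s / (1 + u ^ 2)) (Ioi 0) := by
  have := contOn s 1
  simpa using this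

lemma le_small (s : ℝ) {u : ℝ} (hu : 0 < u) (k : ℕ) : u ^ s / (1 + u ^ 2) ^ k ≤ u ^ s := by
  apply div_le_self (Real.rpow_nonneg hu.le _)
  apply one_le_pow₀
  nlinarith [sq_nonneg u]

lemma le_large (s : ℝ) {u : ℝ} (hu : 0 < u) (k : ℕ) :
    u ^ s / (1 + u ^ 2) ^ k ≤ u ^ (s - 2 * k) := by
  have h1 : u ^ (s - 2 * k) = u ^ s / (u ^ 2) ^ k := by
    rw [Real.rpow_sub hu, ← pow_mul]
    congr 1
    rw [show (2 * (k : ℝ)) = ((2 * k : ℕ) : ℝ) by push_cast; ring, Real.rpow_natCast]
  rw [h1]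
  apply div_le_div_of_nonneg_left (Real.rpow_nonneg hu.le _) (by positivity)
  apply pow_le_pow_left₀ (by positivity)
  linarith

end C1

open C1

/-- (Consts) -/
theorem consts : StmtConsts := by
  intro q hq1 hq2
  have a1 := bnd (fun u : ℝ => u ^ (q - 1) / (1 + u ^ 2)) (q - 1) (q - 1 - 2)
    (contOn1 _) (fun u hu => by
      have hu0 : (0 : ℝ) < u := hu
      positivity)
    (fun u hu => by simpa using le_small (q - 1) hu.1 1)
    (fun u hu => by simpa using le_large (q - 1) (lt_trans one_pos hu) 1)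
    (by linarith) (by linarith)
  have a2 := bnd (fun u : ℝ => u ^ (q - 2) / (1 + u ^ 2)) (q - 2) (q - 2 - 2)
    (contOn1 _) (fun u hu => by
      have hu0 : (0 : ℝ) < u := hu
      positivity)
    (fun u hu => by simpa using le_small (q - 2) hu.1 1)
    (fun u hu => by simpa using le_large (q - 2) (lt_trans one_pos hu) 1)
    (by linarith) (by linarith)
  have a3 := bnd (fun u : ℝ => u ^ (q + 1) / (1 + u ^ 2) ^ 2) (q + 1) (q + 1 - 2 * (2 : ℕ))
    (contOn _ 2) (fun u hu => by
      have hu0 : (0 : ℝ) < u := hu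
      positivity)
    (fun u hu => le_small (q + 1) hu.1 2)
    (fun u hu => le_large (q + 1) (lt_trans one_pos hu) 2)
    (by linarith) (by push_cast; linarith)
  refine ⟨a1.1, a2.1, a3.1, ?_, ?_, ?_⟩
  · rw [(consts2 q hq1 hq2).1]
    have hpi := Real.pi_pos
    have hx0 : 0 < Real.pi / 2 * (q - 1) := by
      have : 0 < q - 1 := by linarith
      positivity
    have hx1 : Real.pi / 2 * (q - 1) < Real.pi / 2 := by nlinarith
    have hc : 0 < Real.cos (Real.pi / 2 * (q - 1)) :=
      Real.cos_pos_of_mem_Ioo ⟨by linarith, hx1⟩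
    rw [le_div_iff₀ hc]
    have := Real.cos_le_one (Real.pi / 2 * (q - 1))
    nlinarith
  · refine a2.2.trans (le_of_eq ?_)
    congr 2 <;> ring
  · -- integration by parts
    have hF : ∀ u ∈ Ioi (0 : ℝ), HasDerivAt (fun u : ℝ => -(u ^ q / (2 * (1 + u ^ 2))))
        (u ^ (q + 1) / (1 + u ^ 2) ^ 2 - q / 2 * (u ^ (q - 1) / (1 + u ^ 2))) u := by
      intro u hu
      have hu0 : (0 : ℝ) < u := hu
      have d1 : HasDerivAt (fun u : ℝ => u ^ q) (q * u ^ (q - 1)) u :=
        Real.hasDerivAt_rpow_const (Or.inl hu0.ne')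
      have d2 : HasDerivAt (fun u : ℝ => 2 * (1 + u ^ 2)) (2 * (2 * u)) u := by
        have : HasDerivAt (fun u : ℝ => u ^ 2) (2 * u) u := by simpa using hasDerivAt_pow 2 u
        exact (this.const_add 1).const_mul 2
      have hne : 2 * (1 + u ^ 2) ≠ 0 := by positivity
      refine (d1.div d2 hne).neg.congr_deriv ?_
      have e1 : u ^ q = u ^ (q - 1) * u := by
        rw [← Real.rpow_add_one hu0.ne']; ring_nf
      have e2 : u ^ (q + 1) = u ^ (q - 1) * u ^ 2 := by
        rw [← Real.rpow_natCast u 2, ← Real.rpow_add hu0]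
        congr 1
        push_cast
        ring
      rw [e1, e2]
      field_simp
      ring
    have hcont : ContinuousWithinAt (fun u : ℝ => -(u ^ q / (2 * (1 + u ^ 2)))) (Ici 0) 0 := by
      have : Continuous (fun u : ℝ => -(u ^ q / (2 * (1 + u ^ 2)))) := by
        have h3 : Continuous (fun u : ℝ => u ^ q) :=
          Real.continuous_rpow_const (by linarith)
        have h4 : Continuous (fun u : ℝ => 2 * (1 + u ^ 2)) := by fun_prop
        exact (h3.div h4 (fun u => by positivity)).neg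
      exact this.continuousWithinAt
    have hlim : Tendsto (fun u : ℝ => -(u ^ q / (2 * (1 + u ^ 2)))) atTop (𝓝 0) := by
      have h3 : Tendsto (fun u : ℝ => u ^ (-(2 - q))) atTop (𝓝 0) :=
        tendsto_rpow_neg_atTop (by linarith)
      have h4 : Tendsto (fun u : ℝ => -(u ^ (-(2 - q)))) atTop (𝓝 0) := by
        simpa using h3.neg
      refine tendsto_of_tendsto_of_tendsto_of_le_of_le' h4 tendsto_const_nhds ?_ ?_
      · filter_upwards [eventually_gt_atTop 0] with u hu
        have h5 := le_large q hu 1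
        have h6 : u ^ (q - 2 * ((1 : ℕ) : ℝ)) = u ^ (-(2 - q)) := by
          congr 1; push_cast; ring
        rw [h6, pow_one] at h5
        have h7 : u ^ q / (2 * (1 + u ^ 2)) ≤ u ^ q / (1 + u ^ 2) := by
          apply div_le_div_of_nonneg_left (Real.rpow_nonneg hu.le _) (by positivity)
          nlinarith [sq_nonneg u]
        linarith
      · filter_upwards [eventually_gt_atTop 0] with u hu
        have : 0 ≤ u ^ q / (2 * (1 + u ^ 2)) := by positivity
        linarith
    have hint : IntegrableOn (fun u : ℝ => u ^ (q + 1) / (1 + u ^ 2) ^ 2 -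
        q / 2 * (u ^ (q - 1) / (1 + u ^ 2))) (Ioi 0) := a3.1.sub (a1.1.const_mul (q / 2))
    have h := integral_Ioi_of_hasDerivAt_of_tendsto hcont hF hint hlim
    have h5 : ∫ u in Ioi (0 : ℝ), (u ^ (q + 1) / (1 + u ^ 2) ^ 2 -
        q / 2 * (u ^ (q - 1) / (1 + u ^ 2))) = bq q - q / 2 * cq q := by
      rw [integral_sub a3.1 (a1.1.const_mul (q / 2)), integral_const_mul]
      rfl
    rw [h5, Real.zero_rpow (by linarith)] at h
    simp only [zero_div, neg_zero, sub_zero] at h
    linarith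

end Pool.Agent.Lib.MP_dd244f_an.Joint
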