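import Pool.Agent.Lib.MP_dd244f_an.L2
import Pool.Agent.Lib.MP_dd244f_an.OtherModes.Link

/-!
Gaussians as Schwartz functions, and the pairing of `𝓕⁻ φ` with a Schwartz kernel.
-/

set_option autoImplicit false

namespace Pool.Agent.Lib.MP_dd244f_an.Joint.ExplicitAux

open MeasureTheory Filter Topology Set SchwartzMap FourierTransform
open scoped SchwartzMap ContDiff

/-- cut off exponential -/
noncomputable def vf (t s : ℝ) : ℂ := ((Real.smoothTransition (s + 2) * Real.exp (-(t * s)) : ℝ) : ℂ)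

theorem vf_contDiff (t : ℝ) : ContDiff ℝ ∞ (vf t) := by
  unfold vf
  refine Complex.ofRealCLM.contDiff.comp ?_
  refine ContDiff.mul ?_ ?_
  · exact Real.smoothTransition.contDiff.comp (contDiff_id.add contDiff_const)
  · exact Real.contDiff_exp.comp ((contDiff_const.mul contDiff_id).neg)

theorem vf_eq {t s : ℝ} (hs : -1 < s) : vf t s = ((Real.exp (-(t * s)) : ℝ) : ℂ) := by
  unfold vf
  rw [Real.smoothTransition.one_of_one_le (by linarith), one_mul]

theorem vf_zero {t s : ℝ} (hs : s < -2) : vf t s = 0 := by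
  unfold vf
  rw [Real.smoothTransition.zero_of_nonpos (by linarith), zero_mul]
  simp

theorem hasDerivAt_exp_neg (t s : ℝ) : HasDerivAt (fun s : ℝ => ((Real.exp (-(t * s)) : ℝ) : ℂ))
    (((-t * Real.exp (-(t * s)) : ℝ)) : ℂ) s := by
  have h3 : HasDerivAt (fun s : ℝ => Real.exp (-(t * s))) (-t * Real.exp (-(t * s))) s := by
    have := (((hasDerivAt_id s).const_mul t).neg).exp
    simp only [id_eq, mul_one] at this
    exact this.congr_deriv (by simp only [Pi.neg_apply]; ring)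
  exact h3.ofReal_comp

theorem iter_vf (t : ℝ) (m : ℕ) : ∀ s : ℝ, -1 < s →
    iteratedDeriv m (vf t) s = (-(t : ℂ)) ^ m * ((Real.exp (-(t * s)) : ℝ) : ℂ) := by
  induction m with
  | zero => intro s hs; simp [vf_eq hs]
  | succ m ih =>
    intro s hs
    rw [iteratedDeriv_succ]
    have e : iteratedDeriv m (vf t) =ᶠ[𝓝 s]
        fun s => (-(t : ℂ)) ^ m * ((Real.exp (-(t * s)) : ℝ) : ℂ) := by
      filter_upwards [lt_mem_nhds hs] with r hr
      exact ih r hr
    rw [e.deriv_eq, ((hasDerivAt_exp_neg t s).const_mul _).deriv]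
    push_cast
    ring

theorem iter_vf_zero (t : ℝ) (m : ℕ) : ∀ s : ℝ, s < -2 → iteratedDeriv m (vf t) s = 0 := by
  induction m with
  | zero => intro s hs; simp [vf_zero hs]
  | succ m ih =>
    intro s hs
    rw [iteratedDeriv_succ]
    have e : iteratedDeriv m (vf t) =ᶠ[𝓝 s] fun s => 0 := by
      filter_upwards [gt_mem_nhds hs] with r hr
      exact ih r hr
    rw [e.deriv_eq]
    simp

theorem vf_decay {t : ℝ} (ht : 0 < t) (k m : ℕ) :
    ∃ C : ℝ, ∀ s : ℝ, ‖s‖ ^ k * ‖iteratedFDeriv ℝ m (vf t) s‖ ≤ C := by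
  have hc : Continuous fun s : ℝ => ‖s‖ ^ k * ‖iteratedFDeriv ℝ m (vf t) s‖ := by
    have := (vf_contDiff t).continuous_iteratedFDeriv (m := m) (by exact_mod_cast le_top)
    fun_prop
  obtain ⟨M, hM⟩ := (isCompact_Icc (a := (-2 : ℝ)) (b := 0)).exists_bound_of_continuousOn
    hc.continuousOn
  refine ⟨max M (t ^ m * (k.factorial / t ^ k)), fun s => ?_⟩
  rcases lt_or_ge s (-2) with h | h
  · rw [norm_iteratedFDeriv_eq_norm_iteratedDeriv, iter_vf_zero t m s h, norm_zero, mul_zero]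
    refine le_max_of_le_right ?_
    positivity
  rcases le_or_gt s 0 with h' | h'
  · refine le_max_of_le_left ?_
    exact (le_abs_self _).trans (hM s ⟨h, h'⟩)
  · refine le_max_of_le_right ?_
    rw [norm_iteratedFDeriv_eq_norm_iteratedDeriv, iter_vf t m s (by linarith), norm_mul, norm_pow,
      norm_neg, Complex.norm_real, Complex.norm_real, Real.norm_of_nonneg ht.le,
      Real.norm_of_nonneg h'.le, Real.norm_of_nonneg (Real.exp_pos _).le]
    have h1 := Real.pow_div_factorial_le_exp (x := t * s) (by positivity) k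
    have h2 : s ^ k * Real.exp (-(t * s)) ≤ k.factorial / t ^ k := by
      rw [Real.exp_neg, le_div_iff₀ (by positivity), mul_assoc, ← div_eq_inv_mul,
        mul_div_assoc', div_le_iff₀ (Real.exp_pos _)]
      rw [div_le_iff₀ (by positivity)] at h1
      rw [mul_pow] at h1
      linarith
    calc s ^ k * (t ^ m * Real.exp (-(t * s))) = t ^ m * (s ^ k * Real.exp (-(t * s))) := by ring
      _ ≤ _ := by gcongr

/-- the Schwartz function on the line which is `exp (-t s)` for `s > -1` -/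
noncomputable def Vt (t : ℝ) (ht : 0 < t) : 𝓢(ℝ, ℂ) where
  toFun := vf t
  smooth' := vf_contDiff t
  decay' := vf_decay ht

theorem Vt_apply (t : ℝ) (ht : 0 < t) (s : ℝ) : Vt t ht s = vf t s := rfl

theorem dd_iter_Vt (t : ℝ) (ht : 0 < t) (m : ℕ) : ∀ s : ℝ, -1 < s →
    (dd^[m] (Vt t ht)) s = (-(t : ℂ)) ^ m * ((Real.exp (-(t * s)) : ℝ) : ℂ) := by
  induction m with
  | zero => intro s hs; simp [Vt_apply, vf_eq hs]
  | succ m ih =>
    intro s hs
    rw [Function.iterate_succ_apply', dd_apply]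
    have e : (dd^[m] (Vt t ht) : ℝ → ℂ) =ᶠ[𝓝 s]
        fun s => (-(t : ℂ)) ^ m * ((Real.exp (-(t * s)) : ℝ) : ℂ) := by
      filter_upwards [lt_mem_nhds hs] with r hr
      exact ih r hr
    rw [e.deriv_eq, ((hasDerivAt_exp_neg t s).const_mul _).deriv]
    push_cast
    ring

/-- The Gaussian on the plane as a Schwartz function. -/
noncomputable def G (t : ℝ) (ht : 0 < t) : 𝓢(ℂ, ℂ) := OtherModes.modeMapC 0 (Vt t ht)

theorem G_apply (t : ℝ) (ht : 0 < t) (z : ℂ) :
    G t ht z = ((Real.exp (-(t * Complex.normSq z)) : ℝ) : ℂ) := by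
  unfold G
  rw [OtherModes.modeMapC_apply, pow_zero, one_mul, Vt_apply, vf_eq]
  linarith [Complex.normSq_nonneg z]

theorem dz_G (t : ℝ) (ht : 0 < t) (m : ℕ) (z : ℂ) :
    (dz^[m] (G t ht)) z = (-(t : ℂ)) ^ m *
      ((starRingEnd ℂ z) ^ m * ((Real.exp (-(t * Complex.normSq z)) : ℝ) : ℂ)) := by
  unfold G
  rw [OtherModes.dz_iter_modeMapC, OtherModes.modeMapC_apply, dd_iter_Vt, zero_add]
  · ring
  · linarith [Complex.normSq_nonneg z]

theorem fourier_G (t : ℝ) (ht : 0 < t) (ξ : ℂ) :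
    𝓕 (G t ht) ξ = ((Real.pi / t * Real.exp (-(Real.pi ^ 2 * Complex.normSq ξ / t)) : ℝ) : ℂ) := by
  rw [SchwartzMap.fourier_coe]
  have e : (G t ht : ℂ → ℂ) = fun v : ℂ => Complex.exp (-(t : ℂ) * ‖v‖ ^ 2) := by
    ext v
    rw [G_apply, Complex.normSq_eq_norm_sq]
    push_cast
    congr 1
    ring
  rw [e, fourier_gaussian_innerProductSpace (by simpa using ht)]
  rw [Complex.normSq_eq_norm_sq]
  have h2 : (Module.finrank ℝ ℂ / 2 : ℂ) = 1 := by
    rw [Complex.finrank_real_complex]; norm_num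
  rw [h2, Complex.cpow_one]
  push_cast
  congr 2
  ring

theorem fourier_dz_G (t : ℝ) (ht : 0 < t) (m : ℕ) (ξ : ℂ) :
    𝓕 (dz^[m] (G t ht)) ξ = (Real.pi * Complex.I * starRingEnd ℂ ξ) ^ m *
      ((Real.pi / t * Real.exp (-(Real.pi ^ 2 * Complex.normSq ξ / t)) : ℝ) : ℂ) := by
  rw [fourier_dz_iter, fourier_G]

/-- character -/
noncomputable def ch (w ξ : ℂ) : ℂ :=
  Complex.exp (2 * (Real.pi : ℂ) * Complex.I * (((w.re * ξ.re + w.im * ξ.im : ℝ)) : ℂ))

theorem norm_ch (w ξ : ℂ) : ‖ch w ξ‖ = 1 := by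
  unfold ch
  rw [Complex.norm_exp]
  simp

theorem continuous_ch (w : ℂ) : Continuous (ch w) := by
  unfold ch
  fun_prop

theorem fourierInv_shift (g : ℂ → ℂ) (w ξ : ℂ) :
    𝓕⁻ (fun z => g (w - z)) ξ = ch w ξ * 𝓕 g ξ := by
  rw [← fourierInv_eq_int, ← fourier_eq, ← integral_const_mul]
  rw [← integral_sub_left_eq_self (fun x => Complex.exp (2 * (Real.pi : ℂ) * Complex.I *
    (((ξ.re * x.re + ξ.im * x.im : ℝ)) : ℂ)) * g (w - x)) volume w]
  apply integral_congr_ae
  filter_upwards with x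
  rw [sub_sub_cancel, ← mul_assoc]
  unfold ch
  rw [← Complex.exp_add]
  congr 2
  simp only [Complex.sub_re, Complex.sub_im]
  push_cast
  ring

theorem pairing {φ : ℂ → ℂ} (hφ : Integrable φ) (g : 𝓢(ℂ, ℂ)) (w : ℂ) :
    ∫ z, 𝓕⁻ φ z * g (w - z) = ∫ ξ, φ ξ * (ch w ξ * 𝓕 g ξ) := by
  have hg : Integrable (fun z => g (w - z)) := g.integrable.comp_sub_left w
  rw [integral_fourierInv_mul hφ hg]
  apply integral_congr_ae
  filter_upwards with ξ
  rw [fourierInv_shift, SchwartzMap.fourier_coe]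

end Pool.Agent.Lib.MP_dd244f_an.Joint.ExplicitAux
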