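import Pool.Agent.Lib.MP_dd244f_an.Joint.Stmts
import Pool.Agent.Lib.MP_dd244f_an.Joint.Basic

set_option autoImplicit false

namespace Pool.Agent.Lib.MP_dd244f_an.Joint

open MeasureTheory Filter Topology Finset

theorem star_concave {y s : ℝ} (hy : 0 ≤ y) (hs : 0 ≤ s) :
    psi y ≤ psi s + (y - s) / (1 + s) ^ 2 := by
  unfold psi
  have h1 : 0 < 1 + y := by linarith
  have h2 : 0 < 1 + s := by linarith
  have : s / (1 + s) + (y - s) / (1 + s) ^ 2 - y / (1 + y) = (y - s) ^ 2 / ((1 + s) ^ 2 * (1 + y)) := by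
    field_simp
    ring
  have h3 : 0 ≤ (y - s) ^ 2 / ((1 + s) ^ 2 * (1 + y)) := by positivity
  linarith

theorem star_alg {s b : ℝ} (hs : 0 ≤ s) (hb : 0 ≤ b) :
    psi (s + b) - psi s + s * (1 / (1 + s) ^ 2 - 1 / (1 + (s + b)) ^ 2) ≤ psi b := by
  unfold psi
  have h1 : 0 < 1 + b := by linarith
  have h2 : 0 < 1 + s := by linarith
  have h3 : 0 < 1 + (s + b) := by linarith
  have h4 : 0 < 1 + s + b := by linarith
  have : b / (1 + b) - ((s + b) / (1 + (s + b)) - s / (1 + s)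
      + s * (1 / (1 + s) ^ 2 - 1 / (1 + (s + b)) ^ 2))
      = b * (((1 + s) * (1 + s + b)) ^ 2 - ((1 + s) * (1 + s + b) + s * (1 + s + (1 + s + b)))
          * (1 + b)) / ((1 + b) * (1 + s) ^ 2 * (1 + (s + b)) ^ 2) := by
    field_simp
    ring
  have h5 : 0 ≤ ((1 + s) * (1 + s + b)) ^ 2 - ((1 + s) * (1 + s + b) + s * (1 + s + (1 + s + b)))
          * (1 + b) := by
    have : ((1 + s) * (1 + s + b)) ^ 2 - ((1 + s) * (1 + s + b) + s * (1 + s + (1 + s + b)))
          * (1 + b) = s ^ 2 * ((1 + s + b) ^ 2 + (1 + s + b) + 1 + s) := by ring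
    rw [this]; positivity
  have h6 : 0 ≤ b * (((1 + s) * (1 + s + b)) ^ 2 - ((1 + s) * (1 + s + b) + s * (1 + s + (1 + s + b)))
          * (1 + b)) / ((1 + b) * (1 + s) ^ 2 * (1 + (s + b)) ^ 2) := by positivity
  linarith

theorem star : StmtStar := by
  intro N f b h
  have hb : ∀ i < N, 0 ≤ b i := fun i hi => (sq_nonneg _).trans (h i hi)
  have key : ∀ M ≤ N, psi (∑ i ∈ range M, b i)
      + (‖∑ i ∈ range M, f i‖ ^ 2 - ∑ i ∈ range M, b i) / (1 + ∑ i ∈ range M, b i) ^ 2
      ≤ ∑ i ∈ range M, psi (b i) + ∑ l ∈ range M,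
        2 * (f l * starRingEnd ℂ (∑ i ∈ range l, f i)).re / (1 + ∑ i ∈ range (l + 1), b i) ^ 2 := by
    intro M hM
    induction M with
    | zero => simp [psi]
    | succ M ih =>
      have ih := ih (by omega)
      have hs : 0 ≤ ∑ i ∈ range M, b i :=
        Finset.sum_nonneg fun i hi => hb i (by have := Finset.mem_range.1 hi; omega)
      have hbM : 0 ≤ b M := hb M (by omega)
      have hfM := h M (by omega)
      have hnorm : ‖∑ i ∈ range (M + 1), f i‖ ^ 2 = ‖∑ i ∈ range M, f i‖ ^ 2 + ‖f M‖ ^ 2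
          + 2 * (f M * starRingEnd ℂ (∑ i ∈ range M, f i)).re := by
        rw [Finset.sum_range_succ, ← Complex.normSq_eq_norm_sq, ← Complex.normSq_eq_norm_sq,
          ← Complex.normSq_eq_norm_sq, add_comm (∑ i ∈ range M, f i) (f M), Complex.normSq_add]
        ring
      rw [Finset.sum_range_succ (fun i => psi (b i)), Finset.sum_range_succ (fun l =>
        2 * (f l * starRingEnd ℂ (∑ i ∈ range l, f i)).re / (1 + ∑ i ∈ range (l + 1), b i) ^ 2),
        hnorm, Finset.sum_range_succ b]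
      set s := ∑ i ∈ range M, b i with hsdef
      set X := 2 * (f M * starRingEnd ℂ (∑ i ∈ range M, f i)).re with hX
      set F := ‖∑ i ∈ range M, f i‖ ^ 2 with hF
      have hF0 : 0 ≤ F := by positivity
      have halg := star_alg hs hbM
      have hq1 : 0 < (1 + s) ^ 2 := by positivity
      have hq2 : 0 < (1 + (s + b M)) ^ 2 := by positivity
      have e1 : (F + ‖f M‖ ^ 2 + X - (s + b M)) / (1 + (s + b M)) ^ 2
          ≤ (F - s) / (1 + (s + b M)) ^ 2 + X / (1 + (s + b M)) ^ 2 := by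
        rw [← add_div]
        apply div_le_div_of_nonneg_right _ hq2.le
        linarith
      have e2 : (F - s) / (1 + (s + b M)) ^ 2 ≤ (F - s) / (1 + s) ^ 2
          + s * (1 / (1 + s) ^ 2 - 1 / (1 + (s + b M)) ^ 2) := by
        have hle : 1 / (1 + (s + b M)) ^ 2 ≤ 1 / (1 + s) ^ 2 := by
          apply one_div_le_one_div_of_le hq1
          apply pow_le_pow_left₀ (by linarith)
          linarith
        have : (F - s) / (1 + s) ^ 2 + s * (1 / (1 + s) ^ 2 - 1 / (1 + (s + b M)) ^ 2)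
            - (F - s) / (1 + (s + b M)) ^ 2 = F * (1 / (1 + s) ^ 2 - 1 / (1 + (s + b M)) ^ 2) := by
          ring
        have h0 : 0 ≤ F * (1 / (1 + s) ^ 2 - 1 / (1 + (s + b M)) ^ 2) :=
          mul_nonneg hF0 (by linarith)
        linarith
      linarith
  have h1 := key N le_rfl
  have hs : 0 ≤ ∑ i ∈ range N, b i :=
    Finset.sum_nonneg fun i hi => hb i (Finset.mem_range.1 hi)
  have h2 := star_concave (y := ‖∑ i ∈ range N, f i‖ ^ 2) (by positivity) hs
  linarith

end Pool.Agent.Lib.MP_dd244f_an.Joint
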